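import Pool.Agent.SMA.StmtsB

/-! # CHS: the check by computation is correct -/

set_option autoImplicit false

namespace Pool.Agent.SMA

open Finset Pool.Agent.BSR

namespace CHSaux

theorem mem_comps (W : List ℕ) : ∀ (f n : ℕ) (l : List ℕ), n ≤ f → l.sum = n →
    (∀ w ∈ l, 1 ≤ w) → (∀ w ∈ l, w ∈ W) → l ∈ comps W f n := by
  intro f
  induction f with
  | zero =>
    intro n l hn hs h1 _
    have hn0 : n = 0 := by omega
    subst hn0
    cases l with
    | nil => simp [comps]
    | cons w l =>
      have := h1 w (by simp)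
      simp at hs
      omega
  | succ f ih =>
    intro n l hn hs h1 hW
    cases l with
    | nil =>
      have hn0 : n = 0 := by simpa using hs.symm
      subst hn0
      simp [comps]
    | cons w l =>
      have hw := h1 w (by simp)
      rw [List.sum_cons] at hs
      have hn0 : n ≠ 0 := by omega
      unfold comps
      rw [if_neg hn0, List.mem_flatMap]
      refine ⟨w, hW w (by simp), ?_⟩
      rw [if_pos (by omega), List.mem_map]
      refine ⟨l, ih (n - w) l (by omega) (by omega) (fun x hx => h1 x (by simp [hx]))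
        (fun x hx => hW x (by simp [hx])), rfl⟩

theorem dg_of {m : ℕ} {W : List ℕ} {F : List (ℕ × ℕ)} {r : ℕ → ℕ} (h : dgB m W F r = true) :
    Dg m F r := by
  unfold dgB at h
  rw [List.any_eq_true] at h
  obtain ⟨s, -, h⟩ := h
  simp only [Bool.and_eq_true, Nat.ble_eq] at h
  obtain ⟨⟨⟨h1, h2⟩, h3⟩, h4⟩ := h
  exact ⟨s, cap m s 0 F + 1, h1, by omega, h4, h3, by omega⟩

theorem wn_of_dg {m : ℕ} {F : List (ℕ × ℕ)} {r : ℕ → ℕ} (h : Dg m F r) (K : ℕ) : Wn m K F r := by
  cases K with
  | zero => exact h
  | succ K => exact Or.inl h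

theorem memB_of_mem {x : ℕ × ℕ} : ∀ {l : List (ℕ × ℕ)}, x ∈ l → memB x l = true := by
  intro l
  induction l with
  | nil => intro h; simp at h
  | cons y l ih =>
    intro h
    unfold memB
    rw [Bool.or_eq_true]
    rcases List.mem_cons.1 h with h | h
    · left
      subst h
      simp
    · right
      exact ih h

theorem sub_of_mem : ∀ {l F : List (ℕ × ℕ)}, F ∈ subs l → F.Sublist l := by
  intro l
  induction l with
  | nil =>
    intro F h
    have : F = [] := by simpa [subs] using h
    rw [this]
  | cons x l ih =>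
    intro F h
    unfold subs at h
    rw [List.mem_flatMap] at h
    obtain ⟨a, ha, h⟩ := h
    rcases List.mem_cons.1 h with h | h
    · subst h
      exact (ih ha).cons x
    · have h' : F = x :: a := by simpa using h
      subst h'
      exact (ih ha).cons_cons x

theorem main (hSGS : S_SGS) (m : ℕ) (W : List ℕ) (h1W : 1 ∈ W) : ∀ (K : ℕ) (F : List (ℕ × ℕ))
    (r : ℕ → ℕ), (∀ w, 2 ≤ w → w ∉ W → r w = 0) →
    winB m W ((comps W m m).map (segs 0)) K F r = true → Wn m K F r := by
  intro K
  induction K with
  | zero =>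
    intro F r _ h
    exact dg_of h
  | succ K ih =>
    intro F r hr h
    unfold winB at h
    rw [Bool.or_eq_true] at h
    rcases h with h | h
    · exact Or.inl (dg_of h)
    right
    intro c hc hc1 hF hcnt
    have hcW : ∀ w ∈ c, w ∈ W := by
      intro w hw
      by_contra hwW
      have hw1 := hc1 w hw
      rcases Nat.lt_or_ge w 2 with h2 | h2
      · have : w = 1 := by omega
        rw [this] at hwW
        exact hwW h1W
      · have h3 := hcnt w h2
        have h4 := hSGS.2.2.2.1 0 c w hw
        have h5 := hr w h2 hwW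
        omega
    have hmem : segs 0 c ∈ (comps W m m).map (segs 0) :=
      List.mem_map.2 ⟨c, mem_comps W m m c le_rfl hc hc1 hcW, rfl⟩
    rw [List.all_eq_true] at h
    have h := h _ hmem
    have hA : (F.all fun x => memB x (segs 0 c)) = true := by
      rw [List.all_eq_true]
      exact fun x hx => memB_of_mem (hF x hx)
    have hB : (W.all fun s => Nat.ble s 1 || Nat.ble (cnt s (segs 0 c)) (r s)) = true := by
      rw [List.all_eq_true]
      intro s _
      rw [Bool.or_eq_true, Nat.ble_eq, Nat.ble_eq]
      rcases Nat.lt_or_ge s 2 with h2 | h2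
      · left; omega
      · right; exact hcnt s h2
    rw [hA, hB] at h
    simp only [Bool.not_true, Bool.false_or, Bool.or_eq_true, List.any_eq_true] at h
    rcases h with ⟨F', hF', h⟩ | ⟨F', hF', h⟩
    · exact ⟨F', sub_of_mem hF', wn_of_dg (dg_of h) K⟩
    · refine ⟨F', sub_of_mem hF', ih F' _ ?_ h⟩
      intro w hw hwW
      have h2 := hcnt w hw
      have h3 := hr w hw hwW
      have h4 := hSGS.2.2.2.2.1 w F' (segs 0 c) (sub_of_mem hF')
      show r w + cnt w F' - cnt w (segs 0 c) = 0
      omega

end CHSaux

theorem t_CHS : M_CHS := by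
  intro hSGS m W K r h1 hr h
  exact CHSaux.main hSGS m W h1 K [] (rr r) hr h

end Pool.Agent.SMA
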