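import Pool.Agent.SMA.StmtsB

/-!
# Small linear arrays (MP_e25616_lc): module CPK, segments in the gaps
-/

set_option autoImplicit false

namespace Pool.Agent.SMA

open Finset Pool.Agent.BSR

namespace CPKaux

theorem base (m y p n : ℕ) (D : Finset (Fin n)) (f : Fin n → ℕ) (hy : 1 ≤ y)
    (h1 : ∀ d ∈ D, p ≤ f d ∧ f d + y ≤ m)
    (h2 : ∀ d ∈ D, ∀ d' ∈ D, d ≠ d' → f d + y ≤ f d' ∨ f d' + y ≤ f d) :
    D.card ≤ (m - p) / y := by
  classical
  rw [Nat.le_div_iff_mul_le (by omega)]
  have h3 : (D.biUnion fun d => Finset.Ico (f d) (f d + y)).card = D.card * y := by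
    rw [Finset.card_biUnion]
    · rw [Finset.sum_congr rfl fun d _ => (Nat.card_Ico (f d) (f d + y)).trans (by omega : _ = y),
        Finset.sum_const, smul_eq_mul]
    · intro d hd d' hd' hne
      show Disjoint (Finset.Ico (f d) (f d + y)) (Finset.Ico (f d') (f d' + y))
      rw [Finset.disjoint_left]
      intro a ha ha'
      rw [Finset.mem_Ico] at ha ha'
      rcases h2 d hd d' hd' hne with h | h <;> omega
  rw [← h3, ← Nat.card_Ico]
  refine Finset.card_le_card fun a ha => ?_
  rw [Finset.mem_biUnion] at ha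
  obtain ⟨d, hd, ha⟩ := ha
  rw [Finset.mem_Ico] at ha ⊢
  have := h1 d hd
  omega

end CPKaux

open CPKaux in
theorem t_CPK : S_CPK := by
  classical
  intro m y p n F
  induction F generalizing p with
  | nil =>
    intro D f hy _ _ h1 h2 _
    exact base m y p n D f hy h1 h2
  | cons x F ih =>
    intro D f hy hF hm h1 h2 h3
    rw [List.pairwise_cons] at hF
    have hc : D.card = (D.filter fun d => f d + y ≤ x.1).card +
        (D.filter fun d => ¬ f d + y ≤ x.1).card :=
      (Finset.card_filter_add_card_filter_not (s := D) (fun d => f d + y ≤ x.1)).symm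
    rw [hc]
    show _ ≤ (x.1 - p) / y + cap m y (x.1 + x.2) F
    refine Nat.add_le_add ?_ ?_
    · refine base x.1 y p n _ f hy (fun d hd => ?_) fun d hd d' hd' => ?_
      · rw [Finset.mem_filter] at hd
        exact ⟨(h1 d hd.1).1, hd.2⟩
      · exact h2 d (Finset.mem_filter.1 hd).1 d' (Finset.mem_filter.1 hd').1
    · refine ih (x.1 + x.2) _ f hy hF.2 (fun z hz => ⟨hF.1 z hz, (hm z (List.mem_cons_of_mem x hz)).2⟩)
        (fun d hd => ?_) (fun d hd d' hd' => ?_) (fun d hd z hz => ?_)
      · rw [Finset.mem_filter] at hd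
        have h4 := h3 d hd.1 x List.mem_cons_self
        exact ⟨h4.resolve_left hd.2, (h1 d hd.1).2⟩
      · exact h2 d (Finset.mem_filter.1 hd).1 d' (Finset.mem_filter.1 hd').1
      · exact h3 d (Finset.mem_filter.1 hd).1 z (List.mem_cons_of_mem x hz)

end Pool.Agent.SMA
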