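import Pool.Agent.SMA.StmtsB

/-!
# Module CTL of the project SMA: a sorted list of segments and a set of jobs
-/

set_option autoImplicit false

namespace Pool.Agent.SMA

open Finset Pool.Agent.BSR

theorem t_CTL : S_CTL := by
  intro n s pos R F
  induction F generalizing R with
  | nil =>
    intro h1 h2 h3 h4
    have hR : R = ∅ := by
      rw [Finset.eq_empty_iff_forall_notMem]
      intro j hj
      have := (h4 (pos j, s j)).2 ⟨j, hj, rfl, rfl⟩
      simp at this
    subst hR
    simp [cnt, wsum]
  | cons x F ih =>
    intro h1 h2 h3 h4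
    obtain ⟨j0, hj0, hp0, hs0⟩ := (h4 x).1 (by simp)
    rw [List.pairwise_cons] at h3
    have h4' : ∀ y : ℕ × ℕ, y ∈ F ↔ ∃ j ∈ R.erase j0, pos j = y.1 ∧ s j = y.2 := by
      intro y
      constructor
      · intro hy
        obtain ⟨j, hj, hp, hs⟩ := (h4 y).1 (List.mem_cons_of_mem _ hy)
        refine ⟨j, Finset.mem_erase.2 ⟨?_, hj⟩, hp, hs⟩
        rintro rfl
        have h5 := h3.1 y hy
        have h6 := h1 j hj
        omega
      · rintro ⟨j, hj, hp, hs⟩
        rw [Finset.mem_erase] at hj
        have h5 := (h4 y).2 ⟨j, hj.2, hp, hs⟩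
        rcases List.mem_cons.1 h5 with h6 | h6
        · exfalso
          have h7 := h2 j hj.2 j0 hj0 hj.1
          have h8 := h1 j hj.2
          have h9 := h1 j0 hj0
          rw [h6] at hp hs
          omega
        · exact h6
    obtain ⟨ih1, ih2⟩ := ih (R.erase j0) (fun j hj => h1 j (Finset.mem_of_mem_erase hj))
      (fun i hi j hj hij => h2 i (Finset.mem_of_mem_erase hi) j (Finset.mem_of_mem_erase hj) hij)
      h3.2 h4'
    refine ⟨fun w => ?_, ?_⟩
    · have h5 := ih1 w
      simp only [cnt]
      rw [← h5, ← hs0]
      by_cases hw : s j0 = w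
      · rw [if_pos hw]
        have h6 : (R.filter fun j => s j = w) = insert j0 ((R.erase j0).filter fun j => s j = w) := by
          ext j
          simp only [Finset.mem_filter, Finset.mem_insert, Finset.mem_erase]
          constructor
          · rintro ⟨h7, h8⟩
            by_cases hj : j = j0
            · exact Or.inl hj
            · exact Or.inr ⟨⟨hj, h7⟩, h8⟩
          · rintro (rfl | ⟨⟨_, h7⟩, h8⟩)
            · exact ⟨hj0, hw⟩
            · exact ⟨h7, h8⟩
        rw [h6, Finset.card_insert_of_notMem (by simp)]
        omega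
      · rw [if_neg hw, zero_add]
        congr 1
        ext j
        simp only [Finset.mem_filter, Finset.mem_erase]
        constructor
        · rintro ⟨h7, h8⟩
          refine ⟨⟨?_, h7⟩, h8⟩
          rintro rfl
          exact hw h8
        · rintro ⟨⟨_, h7⟩, h8⟩
          exact ⟨h7, h8⟩
    · rw [← Finset.add_sum_erase R _ hj0, ih2, hs0]
      rfl

end Pool.Agent.SMA
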