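import Pool.Agent.SMA.Defs

/-!
# Non-clairvoyant scheduling on small linear arrays (MP_e25616_lc): the statements

Main results. (1) The optimal deterministic competitive ratio on `m` machines is `2 - 1/m` for `m = 1, 2, 3, 4`
(`S_LOW`, `S_D3`, `S_D4`). (2) The optimal randomised ratio for `m = 2` is `5/4` (`S_UP2`, `S_LO2`).
`S_X` is the statement of module `X`, file `Pool/Agent/SMA/X.lean`, `theorem t_X : M_X` (`M_X` lists the statements which
may be used as hypotheses), or `theorem t_X : S_X` if there is no `M_X`. All statements are checked numerically.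

The randomised algorithm for `m = 2`: first the wide jobs. Then a random direction of the list of the narrow jobs and a fair
coin `φ` for every job: the order is (jobs with `φ = 1`, in the direction) ++ (jobs with `φ = 0`, in the opposite direction);
machine `0` takes the jobs from the left end, machine `1` from the right end of this order (rule `dq`). The makespan is at most the value of
every cut of the order. Let `M = OPT - (wide)`; the narrow jobs can be divided in two parts of sum `≤ M`. If all jobs are `≤ M/2` the best cut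
is `≤ M + M/4`. Otherwise one job `b = M - L`, `L < M/2`, and the average of the best cut is at most `5M/4` (`S_MID`).
-/

set_option autoImplicit false

namespace Pool.Agent.SMA

open Finset Pool.Agent.BSR

/-! ## 1. Averages over random subsets -/

/-- **AVB**. All by induction on the list (for all `f`). (5): `List.Perm` induction; `swap`: both sides are a quarter of the four sums.
(6) `av (x :: l) (fun y => f (x + S - y)) = (av l (fun y => f (x + S - y)) + av l (fun y => f (S - y))) / 2`, `S = l.sum`, induction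
hypothesis for `fun y => f (x + y)` and for `f`. (7) by (5) `l = x :: l'`, then
`av (x :: l') g = av l' (fun y => (g y + g (x + y)) / 2)` and `|y - c| + |x + y - c| ≥ x`, (1), (3). -/
def S_AVB : Prop :=
  (∀ (l : List ℝ) (f g : ℝ → ℝ), (∀ y, f y ≤ g y) → av l f ≤ av l g) ∧
  (∀ (l : List ℝ) (f g : ℝ → ℝ) (a b : ℝ),
    av l (fun y => a * f y + b * g y) = a * av l f + b * av l g) ∧
  (∀ (l : List ℝ) (c : ℝ), av l (fun _ => c) = c) ∧
  (∀ l : List ℝ, av l (fun y => y) = l.sum / 2) ∧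
  (∀ (l l' : List ℝ) (f : ℝ → ℝ), l.Perm l' → av l f = av l' f) ∧
  (∀ (l : List ℝ) (f : ℝ → ℝ), av l (fun y => f (l.sum - y)) = av l f) ∧
  ∀ (l : List ℝ) (x c : ℝ), x ∈ l → x / 2 ≤ av l fun y => |y - c|

/-- **LGB**. If `L = 0` then `u = r = 0`, all entries are `0` and `KK l 0 = 0`. Let `L > 0`, `f y = max (u - y) 0`, `B k r = (u + max (u - r) 0) / 2 / 2 ^ k`.
Claim: for all lists `l` with entries in `[0, L]`, all `c ∈ [0, L]`, `k`, `0 ≤ r ≤ L` with `k L + r ≤ c + l.sum`: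
`av (c :: l) f ≤ B k r` (the statement is the case `c = 0`, `av (0 :: l) f = av l f`). Induction on `l`. `l = []`: `(f 0 + f c) / 2 = (u + max (u - c) 0) / 2`; if
`k = 0` then `r ≤ c`; if `k ≥ 1` then `c = L`, `k = 1`, `r = 0`, the left side is `u / 2` and `B 1 0 = u / 2`. Step `x :: l`, case `c + x ≤ L`: for all `y`
`f y + f (y + c) + f (y + x) + f (y + c + x) ≤ 2 f y + 2 f (y + c + x)` (`f` convex; case distinction), so `av (c :: x :: l) f ≤ av ((c + x) :: l) f`,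
induction hypothesis. Case `c + x > L`, `d = c + x - L ∈ [0, L]`:
`f (y + c) + f (y + x) ≤ f (y + L) + f (y + d)` for `y ≥ 0` (convexity, `d ≤ c, x ≤ L`; here `f (y + L) = 0`; it is true for all real `y` as well), so
`av (c :: x :: l) f ≤ av (L :: d :: l) f = av (d :: l) f / 2`, because `f (L + y) = 0` for `y ≥ 0` (the entries of `l` are `≥ 0`). If `k ≥ 1`: induction
hypothesis for `d`, `k - 1`, `r` (`(k - 1) L + r ≤ d + l.sum`), `B (k - 1) r / 2 = B k r`. If `k = 0`: for `d`, `0`, `0`: `u / 2 ≤ B 0 r`. -/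
def S_LGB : Prop := ∀ (L u r : ℝ) (k : ℕ) (l : List ℝ), (∀ x ∈ l, 0 ≤ x ∧ x ≤ L) →
  0 ≤ u → u ≤ L → 0 ≤ r → r ≤ L → k * L + r ≤ l.sum →
  KK l u ≤ (u + max (u - r) 0) / 2 / 2 ^ k

/-- **BIG**. `KK (g ++ s) u ≤ KK s u / 2 ^ g.length`: induction on `g`; `av (x :: l) f = (av l f + av l (fun y => f (x + y))) / 2` and
`max (u - (x + y)) 0 = 0` for `x ≥ L ≥ u`, `y ≥ 0` (prove `av l (fun y => f (x + y)) = 0` for lists with entries `≥ 0` by induction, for all `x ≥ u`).
`S_LGB` for `s`, and `S_AVB` (5). -/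
def S_BIG : Prop := ∀ (L u r : ℝ) (k : ℕ) (l g s : List ℝ), l.Perm (g ++ s) → (∀ x ∈ g, L ≤ x) →
  (∀ x ∈ s, 0 ≤ x ∧ x ≤ L) → 0 ≤ u → u ≤ L → 0 ≤ r → r ≤ L → k * L + r ≤ s.sum →
  KK l u ≤ (u + max (u - r) 0) / 2 / 2 ^ (k + g.length)

def M_BIG : Prop := S_AVB → S_LGB → S_BIG

/-- **NIA**. `lᵢ` is a permutation of `gᵢ ++ sᵢ`, `gᵢ` the entries `> L`, `nᵢ = gᵢ.length`, `σᵢ = sᵢ.sum`, `βᵢ = lᵢ.sum = gᵢ.sum + σᵢ`. Let `Gᵢ` be the bound
of `S_BIG` with `u = L`: `KK lᵢ L ≤ (L - r/2) / 2 ^ (k + nᵢ)` if `k L + r ≤ σᵢ`. In particular `KK lᵢ L ≤ (L - σᵢ/2) / 2 ^ nᵢ` if `σᵢ ≤ L`,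
`≤ (3L/4 - σᵢ/4) / 2 ^ nᵢ` if `L ≤ σᵢ ≤ 2L` (`k = 1`, `r = σᵢ - L`), `≤ L/2 / 2 ^ nᵢ` if `σᵢ ≥ L`, `≤ L/4 / 2 ^ nᵢ` if `σᵢ ≥ 2L`, and always `≤ L / 2 ^ nᵢ`.
If `nᵢ ≥ 1` or (`nᵢ = 0`, so `σᵢ = βᵢ ≥ L`) then `KK lᵢ L ≤ L/2`; if `nᵢ ≥ 2` then `KK lᵢ L ≤ L/4`: done if some `nᵢ ≥ 2`.
`(0, 0)`: `σ₁ + σ₂ = M + L ≥ 3L`, `σᵢ ≥ L`: if both `σᵢ ≤ 2L`: `3L/2 - (σ₁ + σ₂)/4 ≤ 3L/4`; if one is `≥ 2L`: `L/4 + L/2`.
`(1, 0)` (and symmetric): `g₁ = [g]`, `g ≤ M - L`, so `σ₁ + σ₂ = M + L - g ≥ 2L`, `σ₂ = β₂ ≥ L`. If `σ₁ ≥ L`: `L/4 + L/2`. If `σ₂ ≥ 2L`: `L/2 + L/4`. Otherwise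
`(L/2 - σ₁/4) + (3L/4 - σ₂/4) = 5L/4 - (σ₁ + σ₂)/4 ≤ 3L/4`. `(1, 1)`: the two big entries have the sum `≤ M`, so `σ₁ + σ₂ ≥ L`; if one
`σᵢ ≥ L`: `L/4 + L/2`, otherwise `(L/2 - σ₁/4) + (L/2 - σ₂/4) = L - (σ₁ + σ₂)/4 ≤ 3L/4`. -/
def S_NIA : Prop := ∀ (M L : ℝ) (l₁ l₂ : List ℝ), 0 ≤ L → 2 * L ≤ M → (∀ x ∈ l₁ ++ l₂, 0 ≤ x ∧ x ≤ M - L) →
  L ≤ l₁.sum → L ≤ l₂.sum → l₁.sum + l₂.sum = M + L →
  (l₁ ++ l₂).Pairwise (fun x y => L < x → L < y → x + y ≤ M) →
  KK l₁ L + KK l₂ L ≤ 3 / 4 * L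

def M_NIA : Prop := S_AVB → S_BIG → S_NIA

/-- **NIB**. `l` is a permutation of `g ++ s`, `g` the entries `> L`, `n = g.length`, `σ = s.sum`, `β ∈ [0, L]`, `M' = L - β`. `S_BIG` with `u = L` and
with `u = M' ≤ L`. Claim: `KK l L ≤ (2L - M')/8` and `KK l M' ≤ M'/8` (then the sum is `L/4`), or `n ≥ 3` and both are `≤ L/8`.
`n = 0`: `σ = M + L - β ≥ 2L + M'`: `k = 2`, `r = M'`: `(L + (L - M'))/8` and `M'/8`. `n = 1`: the entry is `≤ M - L`, `σ ≥ 2L - β = L + M'`: `k = 1`,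
`r = M'`: `(L + (L - M'))/2/2/2` and `M'/2/4`. `n = 2`: the entries have the sum `≤ M`, `σ ≥ L - β = M'`: `k = 0`, `r = M'`. `n ≥ 3`: `k = 0`, `r = 0`: `≤ L/8` and `≤ M'/8 ≤ L/8`. -/
def S_NIB : Prop := ∀ (M L β : ℝ) (l : List ℝ), 0 ≤ L → 2 * L ≤ M → 0 ≤ β → β ≤ L →
  (∀ x ∈ l, 0 ≤ x ∧ x ≤ M - L) → l.sum = M + L - β →
  l.Pairwise (fun x y => L < x → L < y → x + y ≤ M) →
  KK l L + KK l (L - β) ≤ L / 4

def M_NIB : Prop := S_AVB → S_BIG → S_NIB

/-! ## 2. The best cut -/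

/-- **CUB**. `mc l ≤ max (l.take i).sum (l.drop i).sum` (`ciInf_le`, finite index set). (a) For all `P₁ P₂ Q l`:
`cav (P₁ ++ P₂) Q l ≤ max P₁.sum (P₂.sum + Q.sum + l.sum)`, and `cav P (Q₁ ++ Q₂) l ≤ max (P.sum + l.sum + Q₁.sum) Q₂.sum`; induction on `l` (`x` is added at the end of `P₂`,
or at the head of `Q`). (b) With `F p q = min (max (p + b) (q + S₂)) (max p (b + q + S₂))`, `S₂ = l₂.sum`:
`cav P Q (b :: l₂) ≤ (F P.sum Q.sum + F Q.sum P.sum) / 2` by (a) (four cuts). (c) Induction on `l₁`: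
`cav P Q (l₁ ++ b :: l₂) ≤ av l₁ (fun y => (F (P.sum + y) (Q.sum + l₁.sum - y) + F (Q.sum + l₁.sum - y) (P.sum + y)) / 2)`. (d) `P = Q = []`,
`S_AVB` (2), (6). -/
def S_CUB : Prop := ∀ (l₁ l₂ : List ℝ) (b : ℝ),
  cav [] [] (l₁ ++ b :: l₂) ≤ av l₁ fun y =>
    min (max (y + b) (l₁.sum + l₂.sum - y)) (max y (l₁.sum + b + l₂.sum - y))

def M_CUB : Prop := S_AVB → S_CUB

/-- **CUM**. (a) Let `W = P.sum + Y.sum + Q.sum`, entries of `Y` in `[0, τ]`, `P.sum ≤ W/2`, `Q.sum ≤ W/2`. Then `mc (P ++ Y ++ Q) ≤ (W + τ)/2`: induction on `Y` for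
all `P`: if `Y = []` then `P.sum = Q.sum = W/2`; if `Y = x :: Y'` and `P.sum + x ≤ W/2` use `P ++ [x]`; otherwise `P.sum ≤ W/2 < P.sum + x`, and one of the
two cuts has the value `≤ W/2 + x/2`. (b) `cav (P ++ P') (Q' ++ Q) l ≤ (W + τ)/2` if the entries of `P'`, `Q'`, `l` are in `[0, τ]`, `W` the total sum, `P.sum, Q.sum ≤ W/2`:
induction on `l`. (c) `cav P Q (l' ++ l'') ≤ (W + τ)/2` if `P.sum + l'.sum ≤ W/2` and `Q.sum + l'.sum ≤ W/2`, entries of `l'` `≥ 0`: induction on `l'`. -/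
def S_CUM : Prop := ∀ (l' l'' : List ℝ) (τ : ℝ), 0 ≤ τ → (∀ x ∈ l', 0 ≤ x) → (∀ x ∈ l'', 0 ≤ x ∧ x ≤ τ) →
  l'.sum ≤ l''.sum → cav [] [] (l' ++ l'') ≤ (l'.sum + l''.sum + τ) / 2

/-- **MON**. `mc l ≤ mc l'` if `l` is a sublist of `l'` and the entries of `l'` are `≥ 0`: every cut of `l'` gives a cut of `l` with smaller parts
(`List.sublist_append_iff`, `List.take_append_drop`, sums of sublists). `cav P Q l ≤ cav P' Q' l'` for sublists: induction on `l'` /
on the sublist relation for all `P Q P' Q'` (an element of `l'` that is not in `l` makes `P'` or `Q'` longer). -/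
def S_MON : Prop := ∀ l l' : List ℝ, l.Sublist l' → (∀ x ∈ l', 0 ≤ x) →
  cav [] [] l ≤ cav [] [] l'

/-- **MID**. `W = 2M`. Put `β = l₁.sum`, `γ = l₂.sum`. `(l₁ ++ b :: l₂).reverse = l₂.reverse ++ b :: l₁.reverse`; `S_CUB` for both, and averages over `l₂.reverse` are
averages over `l₂` (`S_AVB` (5)); with `b = M - L`: `max (y + b) (2M - b - y) = M + |y - L|`, `max y (2M - y) = M + |y - M|`.
(i) `β, γ ≥ L`: `cav ≤ av l₁ (M + |y - L|) = M + β/2 - L + 2 KK l₁ L` (`|y - L| = y - L + 2 max (L - y) 0`), the same for the reversed list, so the sum is at most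
`2M + (M + L)/2 - 2L + 2 · 3L/4 = 5M/2` (`S_NIA`). (ii) `β < L` (so `γ > M ≥ 0`, `l₂ ≠ []`): let `τ` be the largest entry of `l₂`. `S_CUM` with `l' = l₁ ++ [b]`, `l'' = l₂`
(`β + b ≤ M ≤ γ`): `cav ≤ M + τ/2`. The reversed list: `min |y - L| |y - M| ≤ (M - L)/2 - |y - (M + L)/2| + 2 max (L - y) 0 + 2 max (y - M) 0` for all `y`; `av l₂ |y - (M + L)/2| ≥ τ/2`
(`S_AVB` (7)); `av l₂ (max (y - M) 0) = av l₂ (max ((γ - M) - y) 0) = KK l₂ (L - β)` (`S_AVB` (6), `γ = M + L - β`). The sum is at most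
`2M + (M - L)/2 + 2 (KK l₂ L + KK l₂ (L - β)) ≤ 5M/2` (`S_NIB`). (iii) `γ < L`: (ii) for the reversed list. -/
def S_MID : Prop := ∀ (M L b : ℝ) (l₁ l₂ : List ℝ), 0 ≤ L → 2 * L ≤ M → b = M - L →
  (∀ x ∈ l₁ ++ l₂, 0 ≤ x ∧ x ≤ M - L) → l₁.sum + l₂.sum = M + L →
  (l₁ ++ l₂).Pairwise (fun x y => L < x → L < y → x + y ≤ M) →
  (cav [] [] (l₁ ++ b :: l₂) + cav [] [] (l₁ ++ b :: l₂).reverse) / 2 ≤ 5 / 4 * M

def M_MID : Prop := S_AVB → S_NIA → S_NIB → S_CUB → S_CUM → S_MID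

/-- **COR**. `sT`, `sF` the two sums. `p = (M - sT)/2`, `p' = (M - sF)/2 ≥ 0`, `l' = l ++ [(p, true), (p, true), (p', false), (p', false)]`: both sums of `l'` are `M`,
and by `S_MON` it suffices to prove the claim for `l'` (also `reverse` is monotone). Let `v = l'.map Prod.fst`. If all entries of `v` are `≤ M/2`: `S_CUM` with `l' = []`, `τ = M/2`:
`cav ≤ (2M + M/2)/2`. Otherwise take an entry `(b, f)` of `l'` with the largest `b > M/2`, `l' = l₁ ++ (b, f) :: l₂` (`List.append_of_mem`, largest: `List.exists_max_image` or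
`argmax`), `L = M - b`; `b ≤ M` (the sum of its part is `M`), `2L ≤ M`. The entries of `l₁ ++ l₂` are `≤ b`. Pairwise: if `x, y > L` are two other entries, then their flag is
not `f` (otherwise the sum of the part `f` would be `≥ b + x > M`), and so `x + y ≤` the sum of the other part `= M`. `S_MID`. -/
def S_COR : Prop := ∀ (l : List (ℝ × Bool)) (M : ℝ), (∀ x ∈ l, 0 ≤ x.1) →
  ((l.filter fun x => x.2).map Prod.fst).sum ≤ M → ((l.filter fun x => !x.2).map Prod.fst).sum ≤ M →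
  (cav [] [] (l.map Prod.fst) + cav [] [] (l.map Prod.fst).reverse) / 2 ≤ 5 / 4 * M

def M_COR : Prop := S_MON → S_CUM → S_MID → S_COR

/-- **COF**. `S_COR` for `List.ofFn (fun j => (x j, decide (j ∈ S)))`; the sums of the filtered lists are the sums over `S` and `Sᶜ`
(e.g. `List.ofFn_eq_map`, `List.filter_map`, `List.sum_toFinset` or induction; `∑ j, if j ∈ S then x j else 0`). -/
def S_COF : Prop := ∀ (n : ℕ) (x : Fin n → ℝ) (S : Finset (Fin n)) (M : ℝ), (∀ j, 0 ≤ x j) →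
  ∑ j ∈ S, x j ≤ M → ∑ j ∈ Sᶜ, x j ≤ M →
  (cav [] [] (List.ofFn x) + cav [] [] (List.ofFn x).reverse) / 2 ≤ 5 / 4 * M

def M_COF : Prop := S_COR → S_COF

/-- **AVG**. For all `P Q`: `∑ φ, mc (P ++ (arr φ).map x ++ Q) = 2 ^ n * cav P Q (List.ofFn x)`; induction on `n`, `φ = Fin.cons c φ'` (`Fin.consEquiv`,
`Fin.consPiProd...`, or `Fintype.sum_equiv`), `(arr (Fin.cons true φ')).map x = x 0 :: (arr φ').map (x ∘ Fin.succ)`,
`(arr (Fin.cons false φ')).map x = (arr φ').map (x ∘ Fin.succ) ++ [x 0]` (`List.finRange_succ`, `List.filter_map`, `List.map_reverse`). -/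
def S_AVG : Prop := ∀ (n : ℕ) (x : Fin n → ℝ),
  ∑ φ : Fin n → Bool, mc ((arr φ).map x) = 2 ^ n * cav [] [] (List.ofFn x)

/-- **RNK**. `arr φ` is a list without duplicates which contains all `j`; `ρ j = (arr φ).idxOf j`. For such a list `π` the elements of `π.take i` are the `j` with
`π.idxOf j < i`, and `π.drop i` the others. -/
def S_RNK : Prop := ∀ (n : ℕ) (φ : Fin n → Bool), ∃ ρ : Fin n → ℕ, Function.Injective ρ ∧
  ∀ (x : Fin n → ℝ) (i : ℕ), ∑ j with ρ j < i, x j = (((arr φ).map x).take i).sum ∧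
    ∑ j with i ≤ ρ j, x j = (((arr φ).map x).drop i).sum

/-! ## 3. Two machines -/

/-- **DQF**. Write `a = aj`, `b = bj`, `w = wj`, `W = wd`. If `ρ i < ρ j` and `i` is narrow, then `a i + t i ≤ a j`; if `ρ j < ρ i`, `i` narrow, then `b i + t i ≤ b j`; if `ρ i < ρ j`, `i` wide, then
`w i + t i ≤ w j`; `w i + t i ≤ W` for wide `i` (sums over subsets, `t ≥ 0`). Two different jobs running at the same time: two wide jobs cannot (order by `ρ`); a wide and a narrow one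
cannot (the narrow one starts at `≥ W`); two narrow ones with position `0` have the starts `W + a`, with position `1` the starts `W + b`, they cannot. So the positions are
`0` and `1`, both requests are `1`. Cut: a narrow job `j` with `ρ j < k` is completed at `≤ W + a j + t j ≤ W + ∑_{ρ i < k}`, with `k ≤ ρ j` at `≤ W + b j + t j`; a wide one at `≤ W`. `n = 0`: the makespan is `0`
(`Real.iSup_of_isEmpty`), otherwise `ciSup_le`. -/
def S_DQF : Prop := ∀ (n : ℕ) (s ρ : Fin n → ℕ) (t : Fin n → ℝ), (∀ j, 1 ≤ s j ∧ s j ≤ 2) →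
  Function.Injective ρ → (∀ j, 0 ≤ t j) → Feasible 2 s t (dq s ρ t) ∧
  ∀ k : ℕ, makespan t (dq s ρ t) ≤
    wd s t + max (∑ j with ρ j < k, nt s t j) (∑ j with k ≤ ρ j, nt s t j)

/-- **DQN**. Notation of `DQF`, with `'` for `t'`; (h1), (h2) are the two hypotheses. Wide jobs: let `j` be wide, and `i` the `ρ`-first wide job with `t' i ≠ t i`, if it exists and `ρ i < ρ j`; then
`w' i = w i`, `w i + t i ≥ τ` (h1) and `w i ≥ τ` or `w i + t' i ≥ τ` (h2), so `w j ≥ w i + t i ≥ τ` and `w' j ≥ τ`. If there is no such `i` then `w' j = w j`. The same for `W` (all wide jobs) instead of `w j`.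
If `W ≥ τ` then `W' ≥ τ` and all narrow jobs start at `≥ τ` in both schedules. Let `W < τ`: then `W' = W`, `t' = t` on the wide jobs. `τ₀ = τ - W`, `D` the narrow jobs with `t' i ≠ t i`, `m i = min (a i) (b i)`:
for `i ∈ D`: `m i + t i ≥ τ₀`, and `m i ≥ τ₀` or `m i + t' i ≥ τ₀`. Let `j` be narrow.
(1) `a j ≤ b j`, `a j < τ₀`: no `i ∈ D` is before `j`: `a i + t i ≤ a j < τ₀` forces `m i = b i < a i`, but `b i ≥ b j + t j ≥ a j ≥ a i` (`i` before `j`). So `a' j = a j`. And `b' j ≥ a j`: if no `i ∈ D` is after `j` then `b' j = b j`; otherwise let `i` be the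
last element of `D` (`ρ` largest), it is after `j`, `b' i = b i`, and `b' j ≥ b' i + t' i ≥ max (m i) (m i + t' i) ≥ τ₀ > a j`. So the start and the position are the same.
(2) `b j < a j`, `b j < τ₀`: symmetric: no `i ∈ D` is after `j` (`b i + t i ≤ b j < τ₀` forces `m i = a i < b i`, but `a i ≥ a j > b j ≥ b i`), `b' j = b j`, and `a' j > b j` (the first element of `D`).
(3) `m j ≥ τ₀`: `a' j ≥ τ₀`: if no `i ∈ D` is before `j` it is `a j`; otherwise let `i` be the first element of `D`: `a' i = a i`, `a' j ≥ a' i + t' i ≥ τ₀`. The same for `b' j` with the last element. -/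
def S_DQN : Prop := ∀ (n : ℕ) (s ρ : Fin n → ℕ), (∀ j, 1 ≤ s j ∧ s j ≤ 2) →
  Function.Injective ρ → NonAnt (dq s ρ)

/-- **SEQ**. Two jobs whose sets of machines overlap do not run at the same time. As in `BSR.AREaux.area` (file `BSR/ARE.lean`, copy the proof with the weights `1` for `j ∈ J`, `0` otherwise,
and `1` instead of `m`): `∑_{j ∈ J} t j = ∫_0^X #{j ∈ J running at τ} dτ ≤ X`. Second part: if `m < s i + s j` the sets of machines overlap in every schedule (`pos + s ≤ m`); `le_csInf` with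
`BSR.AREaux.nonempty`. -/
def S_SEQ : Prop :=
  (∀ (m n : ℕ) (s : Fin n → ℕ) (t : Fin n → ℝ) (σ : Schedule n), (∀ j, 0 ≤ t j) → Feasible m s t σ →
    ∀ J : Finset (Fin n), (∀ i ∈ J, ∀ j ∈ J, i ≠ j → σ.pos i < σ.pos j + s j ∧ σ.pos j < σ.pos i + s i) →
      ∑ j ∈ J, t j ≤ makespan t σ) ∧
  ∀ (m n : ℕ) (s : Fin n → ℕ) (t : Fin n → ℝ), (∀ j, s j ≤ m) → (∀ j, 0 ≤ t j) →
    ∀ J : Finset (Fin n), (∀ i ∈ J, ∀ j ∈ J, i ≠ j → m < s i + s j) → ∑ j ∈ J, t j ≤ OPT m s t

/-- **OP2**. For a feasible schedule `σ` let `S` be the set of the narrow jobs with position `0`. The wide jobs and those of `S` use machine `0`, the wide jobs and the other narrow ones use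
machine `1`: `S_SEQ` (1) gives `wd + ∑_S nt ≤ makespan` and `wd + ∑_Sᶜ nt ≤ makespan` (`nt = 0` for wide jobs). There are finitely many `S`: take one with the smallest value
`max (wd + ∑_S nt) (wd + ∑_Sᶜ nt)`; then all makespans, and `OPT` (`le_csInf`, `BSR.AREaux.nonempty`), are at least this value. -/
def S_OP2 : Prop := ∀ (n : ℕ) (s : Fin n → ℕ) (t : Fin n → ℝ), (∀ j, 1 ≤ s j ∧ s j ≤ 2) → (∀ j, 0 ≤ t j) →
  ∃ S : Finset (Fin n), wd s t + ∑ j ∈ S, nt s t j ≤ OPT 2 s t ∧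
    wd s t + ∑ j ∈ Sᶜ, nt s t j ≤ OPT 2 s t

def M_OP2 : Prop := S_SEQ → S_OP2

/-- **UP2**. `Ω = Bool × (Fin n → Bool)`, `p ω = 1 / 2 ^ (n + 1)`; for `ω = (false, φ)` the rule `dq s ρ` with `ρ` from `S_RNK`, for `ω = (true, φ)` the rule `dq s (ρ ∘ Fin.rev)`. By `S_DQF`
and `S_RNK` the makespan is at most `wd + mc ((arr φ).map x)`, `x = nt s t`, or `x ∘ Fin.rev` (`Fin.revPerm` in the sums over `j`; `mc` is an infimum over `i ≤ n`, `le_ciInf`). `S_AVG`: the expected makespan is at most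
`wd + (cav [] [] (ofFn x) + cav [] [] (ofFn (x ∘ rev))) / 2`, `ofFn (x ∘ rev) = (ofFn x).reverse` (`List.ofFn_rev`? or `List.reverse_ofFn`). `S_OP2`, `S_COF` with `M = OPT - wd`: `≤ wd + 5/4 (OPT - wd) ≤ 5/4 OPT`. -/
def S_UP2 : Prop := RandOK 2 (5 / 4)

def M_UP2 : Prop := S_COF → S_AVG → S_RNK → S_DQF → S_DQN → S_OP2 → S_UP2

/-- **YAO**. `η = 1 / (n - 1)`. `OPT ≥ 1` (the job `k`, `x_ARE`), `OPT ≤ 1`: `k` on machine `0` from time `0`, the others one after the other on machine `1`. Let `σ = A.run (fun _ => η)`. For every `k` the instances `fun _ => η` and `tk n k`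
are indistinguishable before `τ = σ.start k + η` (only `t k` differs, `k` is not completed before `τ`, and `η ≤ 1`), so `(A.run (tk n k)).start k = σ.start k` and the makespan is at least `1 + σ.start k`. On each of the
two machines the starts of `σ` are `≥ 0` and pairwise at least `η` apart (feasibility of `σ` at the time `max` of the two starts; if `|start i - start j| < η` both run). For `N` numbers `≥ 0`
which are pairwise at least `η` apart the sum is at least `η N (N - 1) / 2` (induction: the largest one is at least `η (N - 1)`). With `N₀ + N₁ = n` the sum of the starts is at least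
`η (N₀ (N₀ - 1) + N₁ (N₁ - 1)) / 2 ≥ η n (n - 2) / 4`, so the average makespan is at least `1 + (n - 2) / (4 (n - 1))`. -/
def S_YAO : Prop := ∀ n : ℕ, 2 ≤ n → (∀ k, OPT 2 (fun _ : Fin n => 1) (tk n k) = 1) ∧
  ∀ A : Rule 2 (fun _ : Fin n => 1),
    5 / 4 - 1 / (4 * ((n : ℝ) - 1)) ≤ (∑ k, makespan (tk n k) (A.run (tk n k))) / n

/-- **LO2**. `Good` with the weights `p ω`, instances `tk n k`, `s = 1`, `OPT = 1`: average over `k` (exchange the sums): `5/4 - 1/(4 (n - 1)) ≤ c` for all `n ≥ 2`. -/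
def S_LO2 : Prop := ∀ c : ℝ, RandOK 2 c → 5 / 4 ≤ c

def M_LO2 : Prop := S_YAO → S_LO2

/-! ## 4. Deterministic algorithms -/

/-- **LOW**, the classical lower bound. `n = m (m - 1) + 1` jobs with request `1`, `t = 1`, `σ` the schedule of the rule `A` for `t`, `v` a job with the largest start. `σ.start v ≥ m - 1`: otherwise all starts are in `[0, m - 1)`; on one
machine the starts are pairwise at least `1` apart, so there are at most `m - 1` on it (their floors are different numbers `< m - 1`), in total at most `m (m - 1) < n`. `t' v = m`, `t' = 1` otherwise: the two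
instances are indistinguishable before `τ = σ.start v + 1`, so `v` has the same start, and the makespan for `t'` is at least `2m - 1`. `OPT m t' ≤ m`: `v` on machine `m - 1`, the others `m` on each of the
machines `0, …, m - 2` (if `m = 1` there are none), start `0, 1, …, m - 1`. So `2m - 1 ≤ c m`. -/
def S_LOW : Prop := ∀ (m : ℕ) (c : ℝ), 1 ≤ m → DetOK m c → 2 - 1 / (m : ℝ) ≤ c

/-- **LSB**, list scheduling. (1) induction. (3) after step `i` the load of `cl i` is `sl i + x i`, (1). (2) from (3). (4) induction on `j`. (5) induction, `Finset.sum_update_of_mem`, `Finset.sum_range_succ` (`ps`). (6) from (1): `f (cl j) ≤ ll j (cl j) = sl j`.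
(7) `(M + 1) * mnl ≤ ∑`. -/
def S_LSB : Prop := ∀ (M : ℕ) (P : ℕ → Prop) (x : ℕ → ℝ) (f : Fin (M + 1) → ℝ), (∀ j, 0 ≤ x j) →
  (∀ i j, i ≤ j → ∀ u, ll P x f i u ≤ ll P x f j u) ∧
  (∀ i j, P i → i < j → cl P x f i = cl P x f j → sl P x f i + x i ≤ sl P x f j) ∧
  (∀ i j, P i → i < j → sl P x f i + x i ≤ ll P x f j (cl P x f i)) ∧
  (∀ j u, ll P x f j u = f u ∨ ∃ i, i < j ∧ P i ∧ cl P x f i = u ∧ ll P x f j u = sl P x f i + x i) ∧
  (∀ j, ∑ u, ll P x f j u = (∑ u, f u) + ps P x j) ∧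
  (∀ j, f (cl P x f j) ≤ sl P x f j) ∧
  (∀ j, ((M : ℝ) + 1) * sl P x f j ≤ (∑ u, f u) + ps P x j)

/-- **LST**, the truncated loads. Induction on `j`. Let the truncated loads before `j` agree (`ℓ`, `ℓ'`); then `min (mnl ℓ) τ = min (mnl ℓ') τ`. If `mnl ℓ < τ` then `mnl ℓ' = mnl ℓ`, `ℓ u = mnl ℓ ↔ ℓ' u = mnl ℓ'`, so
`aml ℓ' = aml ℓ` (`aml_eq`); the new loads of this channel are `mnl ℓ + x j`, `mnl ℓ + x' j`: equal, or both `≥ τ`. If `mnl ℓ ≥ τ` all loads are `≥ τ` in both, also after the step. -/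
def S_LST : Prop := ∀ (M : ℕ) (P : ℕ → Prop) (x x' : ℕ → ℝ) (f f' : Fin (M + 1) → ℝ) (τ : ℝ),
  (∀ j, 0 ≤ x j) → (∀ j, 0 ≤ x' j) → (∀ u, min (f u) τ = min (f' u) τ) →
  (∀ j, P j → sl P x f j + x j < τ → x' j = x j) →
  (∀ j, P j → sl P x f j < τ → τ ≤ sl P x f j + x j → τ ≤ sl P x f j + x' j) →
  ∀ j, (∀ u, min (ll P x f j u) τ = min (ll P x' f' j u) τ) ∧
    (sl P x f j < τ → sl P x' f' j = sl P x f j ∧ cl P x' f' j = cl P x f j) ∧
    (τ ≤ sl P x f j → τ ≤ sl P x' f' j)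

/-- **ONE**, one channel: `M = 0`, and the classes of jobs. (1), (2) from `S_LSB` (5) (`Fin 1`). (2): the jobs `i < n` of the class `w` (`ex`, `cw`,
`Finset.sum_range`). (3): the jobs before `j` and `j` itself are in the class `s j`. -/
def S_ONE : Prop :=
  (∀ (P : ℕ → Prop) (x : ℕ → ℝ) (f : Fin (0 + 1) → ℝ) (j : ℕ), (∀ j, 0 ≤ x j) →
    ll P x f j 0 = f 0 + ps P x j ∧ sl P x f j = f 0 + ps P x j ∧ cl P x f j = 0) ∧
  (∀ (n : ℕ) (s : Fin n → ℕ) (t : Fin n → ℝ) (w : ℕ), (∀ j, 0 ≤ t j) →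
    ps (cw s w) (ex t) n = tw s t w) ∧
  ∀ (n : ℕ) (s : Fin n → ℕ) (t : Fin n → ℝ) (j : Fin n), (∀ j, 0 ≤ t j) →
    ps (cw s (s j)) (ex t) j + t j ≤ tw s t (s j)

def M_ONE : Prop := S_LSB → S_ONE

/-- **R3A**, feasibility. `A = tw 3`, `u = A + tw 2`. By `S_ONE` the jobs of the class `3` run one after the other in `[0, A]`, those of the class `2` one after the other in `[A, u]` (the start of `j` is `A + ∑` of the earlier ones).
Class `1`: position = channel `≤ M`, and the start is at least `f3` of the channel (`S_LSB` (6)), so at least `A`, and on the machines `0`, `1` at least `u`; two such jobs on the same channel do not overlap (`S_LSB` (2)).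
The jobs of the class `2` use the machines `0`, `1` only. `s j ≤ M + 1 ≤ 3`. `ex t j = t j`. -/
def S_R3A : Prop := ∀ (M n : ℕ) (s : Fin n → ℕ) (t : Fin n → ℝ), M ≤ 2 → (∀ j, 1 ≤ s j ∧ s j ≤ M + 1) →
  (∀ j, 0 ≤ t j) → Feasible (M + 1) s t (r3 M s t)

def M_R3A : Prop := S_LSB → S_ONE → S_R3A

/-- **R3B**, non-anticipation. `S_LST` for the class `3` (one channel, initial load `0`): its conclusion for `j = n` is `min A τ = min A' τ` (`S_ONE`); then for the class `2` (initial loads `A`, `A'`): `min u τ = min u' τ`; then for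
the class `1` (`min (f3 p) τ = min (f3' p) τ`). -/
def S_R3B : Prop := ∀ (M n : ℕ) (s : Fin n → ℕ), M ≤ 2 → (∀ j, 1 ≤ s j ∧ s j ≤ M + 1) →
  NonAnt (r3 M s)

def M_R3B : Prop := S_LSB → S_LST → S_ONE → S_R3B

/-- **R3C**, the makespan. `m = M + 1`. A job of the class `3` or `2` is completed at `≤ u = tw 3 + tw 2 ≤ OPT` (`S_SEQ` (2): `2 + 2 > 3`; for `m ≤ 2` too). A job `j` of the class `1`, `S` its start: `m S ≤ ∑ f3 + (earlier jobs of the class 1)` (`S_LSB` (7)), and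
`∑ f3 = 3 tw 3 + 2 tw 2` (for `m = 2` `tw 3 = 0`, for `m = 1` also `tw 2 = 0`), so `m S + t j ≤ ∑ s i t i ≤ m OPT` (`x_ARE`, `S_ONE` (3)), `t j ≤ OPT`: `S + t j ≤ OPT + (1 - 1/m) t j ≤ (2 - 1/m) OPT`. `n = 0`: makespan `0`. -/
def S_R3C : Prop := ∀ (M n : ℕ) (s : Fin n → ℕ) (t : Fin n → ℝ), M ≤ 2 → (∀ j, 1 ≤ s j ∧ s j ≤ M + 1) →
  (∀ j, 0 ≤ t j) → makespan t (r3 M s t) ≤ (2 - 1 / ((M : ℝ) + 1)) * OPT (M + 1) s t

def M_R3C : Prop := S_LSB → S_ONE → S_SEQ → S_R3C

/-- **R4A**, feasibility. `A = tw 4`, `u = A + tw 3`, `z = u + tw 2`, `Y = yy`. Class `4` in `[0, A]`, class `3` in `[A, u]` on the machines `0, 1, 2`, one after the other (`S_ONE`). Class `1`: channel `c` is machine `3 - c`, start `≥ f4 c`: so `≥ A` on the machine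
`3`, `≥ u` on `2`, `≥ z` on `1`, `0`; a job on machine `2` or `3` is completed at `≤ Y` (`S_LSB` (3) with `j = n`). Class `2`: start `≥ g4 c`: `≥ u` on `{0, 1}`, `≥ Y` on `{2, 3}`, all `≥ u` (`Y ≥ ll n 1 ≥ f4 1 = u`); a job on `{0, 1}` is completed at
`≤ z`: the load of the channel `0` is at most `u +` the sum of all jobs of the class `2` (`S_LSB` (5) and (1): `load 0 ≤ g4 0 + ∑ - (load 1 - g4 1) ≤ z`). Two jobs of the same class on the same channel: `S_LSB` (2). So: `1` and `2` on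
`{0, 1}`: time `≥ z` and `≤ z`; on `{2, 3}`: time `≤ Y` and `≥ Y`. -/
def S_R4A : Prop := ∀ (n : ℕ) (s : Fin n → ℕ) (t : Fin n → ℝ), (∀ j, 1 ≤ s j ∧ s j ≤ 4) →
  (∀ j, 0 ≤ t j) → Feasible 4 s t (r4 s t)

def M_R4A : Prop := S_LSB → S_ONE → S_R4A

/-- **R4B**, non-anticipation; `'` for `t'`. The hypotheses (h1), (h2) at `τ` imply those at every `κ ≤ τ` (if `start + t < κ` then `t' = t`; if `start < κ ≤ start + t`: if `start + t < τ` then `t' = t`, otherwise `start + t' ≥ τ ≥ κ`). `S_LST` for the classes `4` and `3` at the level `τ`: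
`min A τ = min A' τ`, `min u τ = min u' τ`, and the claim for these jobs. Let `q j = u + ∑_{i < j, class 2} t i` (list scheduling of the class `2` on one channel with the initial load `u`), `z = q n`. (a) If `q j ≤ Y`, then all jobs of the class `2` up to `j` are on the channel `0`, and
the start of `j` is `q j` (induction: load `0` is `q i ≤ Y = load 1`, ties prefer the channel `0`). Let `κ = min τ Y`. (b) `S_LST` for one channel, class `2`, level `κ`, initial loads `u`, `u'` (hypotheses by (a): if `q j < κ` then the start of `j` is `q j`): `min z κ = min z' κ`. (c) `S_LST` for the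
class `1`, level `κ`: `min (load c) κ = min (load' c) κ` for the final loads, so `min Y κ = min Y' κ`.
Case `τ ≤ Y`: `κ = τ`, `min Y' τ = τ = min Y τ`; (c) gives the claim for the class `1`, and `S_LST` with the initial loads `g4`, `g4'` the claim for the class `2`.
Case `Y < τ`, `Y ≤ z`: `κ = Y`, so `z' ≥ Y`. `A ≤ u ≤ Y < τ`: `t' = t` for the classes `4`, `3`, `A' = A`, `u' = u`. In the schedule of the class `1` for `t` the loads of the channels `0`, `1` are always `≤ Y ≤ z` (`S_LSB` (1)), so (ties prefer `0`, `1`) all jobs of the class `1` are on the channels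
`0`, `1` and completed at `≤ Y < τ`: `t' = t` for the class `1`. With `f4'` instead of `f4` (`z'` instead of `z`, `z' ≥ Y`) the schedule of the class `1` is the same (induction on `j`: the loads of the channels `0`, `1` are the same, all `≤ Y`), so `Y' = Y`. `S_LST` for the class `2`, level `τ`, `g4' = g4`.
Case `Y < τ`, `z < Y`: `κ = Y`, `min z' Y = z`, so `z' = z`; `u ≤ z < τ`, so `t' = t` on the classes `4`, `3`, and by (a) on the class `2` (all are completed at `≤ z < τ`), `A' = A`, `u' = u`. `f4' = f4`; `S_LST` for the class `1` at the level `τ`: the claim, and `min Y' τ = min Y τ = Y`, so `Y' = Y`, `g4' = g4`, the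
schedule of the class `2` is the same. -/
def S_R4B : Prop := ∀ (n : ℕ) (s : Fin n → ℕ), (∀ j, 1 ≤ s j ∧ s j ≤ 4) → NonAnt (r4 s)

def M_R4B : Prop := S_LSB → S_LST → S_ONE → S_R4B

/-- **R4C**, the makespan. Notation of `R4A`. `u ≤ OPT` (`S_SEQ` (2), the classes `3`, `4`), `t j ≤ OPT`, area `4 tw 4 + 3 tw 3 + 2 tw 2 + tw 1 ≤ 4 OPT` (`x_ARE`). Classes `4`, `3`: completed at `≤ u`. Class `1`, start `S`: `4 S ≤ A + u + 2z + (earlier ones)` (`S_LSB` (7)), `A + u + 2z = 4 tw 4 + 3 tw 3 + 2 tw 2`, so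
`4 S + t j ≤ 4 OPT`, `S + t j ≤ 7/4 OPT`. Class `2`: if `Y ≥ z`: let `e₀, e₁` be the final loads of the channels `0`, `1` of the class `1`, `Y = max e₀ e₁`, each is an initial load (`≤ u ≤ OPT`) or the completion time of a job of the class `1` (`S_LSB` (4)), so `Y ≤ 7/4 OPT`; the jobs of the class `2` are all
completed at `≤ z`: as long as the load of the channel `0` is `≤ z ≤ Y` the next job goes there (ties), so all are on the channel `0`, and completed at `≤ z ≤ Y ≤ 7/4 OPT`. If `Y < z`: all jobs of the class `1` are on the channels `0`, `1` (the loads of these two are always `≤ Y < z`, ties), so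
`e₀ + e₁ = A + u + tw 1` and the area bound is `2u + 2 tw 2 + e₀ + e₁ ≤ 4 OPT`. A job `j` of the class `2`, start `S`: `2 S ≤ u + Y + (earlier ones)`, so `2 (S + t j) ≤ u + Y + tw 2 + t j ≤ 2 OPT + (Y - (e₀ + e₁)/2) + t j = 2 OPT + |e₀ - e₁|/2 + t j`. `|e₀ - e₁| ≤ OPT`: if `e₀ > e₁ ≥ u ≥ A` the last job on
channel `0` (`S_LSB` (4)) started at a load `≤` the load of channel `1` at that time `≤ e₁`, so `e₀ - e₁ ≤` its length; if `e₁ > e₀`: the same, or `e₁ = u`, `e₀ ≥ A`, `u - A = tw 3 ≤ OPT`. So `S + t j ≤ OPT + OPT/4 + OPT/2`. -/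
def S_R4C : Prop := ∀ (n : ℕ) (s : Fin n → ℕ) (t : Fin n → ℝ), (∀ j, 1 ≤ s j ∧ s j ≤ 4) →
  (∀ j, 0 ≤ t j) → makespan t (r4 s t) ≤ 7 / 4 * OPT 4 s t

def M_R4C : Prop := S_LSB → S_ONE → S_SEQ → S_R4C

end Pool.Agent.SMA
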