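import Pool.Agent.SMA.DefsB
import Pool.Agent.SMA.Stmts

/-!
# Non-clairvoyant scheduling on small linear arrays (MP_e25616_lc): the statements, part B

For every `m ≥ 5` the optimal deterministic competitive ratio is strictly larger than `2 - 1/m` (`S_BIN`).

Plan. There are `r₀ w` jobs of the width `w` (`2 ≤ w < m`) and very many narrow jobs. All running times are `1` until the adversary
decides otherwise. Let `δ` be small. Whenever all `m` machines are busy, at the time `σ < δ`, the adversary kills some of the running jobs at the time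
`min δ (σ + η)`. If at some moment there is danger (`Dg`): the jobs not killed that are running (`F`) and `k` unstarted jobs of the
width `s₀` get the running time `1`, all the others the running time `0`: `OPT ≤ 1 + 1/(4m)`, and the makespan is at least `2` because the `k` jobs do not fit in the
gaps of `F` (`S_DNG`). Otherwise up to the time `δ` one of the machines is idle, except for at most `K η`: all the jobs which are started
get completed at `δ`, the narrow jobs which are not started are sand, only the last one of them has the running time `1` (`S_IDL`):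
`OPT ≤ 1 + ε`, and the makespan is at least `2 - 1/m + δ/(2m) - ε`. It remains to win the combinatorial game `Wn`.
-/

set_option autoImplicit false

namespace Pool.Agent.SMA

open Finset Pool.Agent.BSR MeasureTheory

/-- **LOG**. As `S_LO2`: average over `k`, `integral_finset_sum`, the integral of a function `≥ 5/4 - ε` over a probability space is `≥ 5/4 - ε`. -/
def S_LOG : Prop := ∀ c : ℝ, RandGen 2 c → 5 / 4 ≤ c

def M_LOG : Prop := S_YAO → S_LOG

/-! ## 5. Configurations -/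

/-- **SGS**. Inductions on the list. `segs p c` is sorted, its entries lie in `[p, p + c.sum]`; `cnt`, `wsum`. (5) for `F'` a sublist of `F`. (6) for all lists. -/
def S_SGS : Prop :=
  (∀ (p : ℕ) (c : List ℕ), (segs p c).Pairwise fun x y => x.1 + x.2 ≤ y.1) ∧
  (∀ (p : ℕ) (c : List ℕ), ∀ x ∈ segs p c, p ≤ x.1 ∧ x.1 + x.2 ≤ p + c.sum ∧ x.2 ∈ c) ∧
  (∀ (p : ℕ) (c : List ℕ), wsum (segs p c) = c.sum) ∧
  (∀ (p : ℕ) (c : List ℕ) (w : ℕ), w ∈ c → 1 ≤ cnt w (segs p c)) ∧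
  (∀ (w : ℕ) (F' F : List (ℕ × ℕ)), F'.Sublist F → cnt w F' ≤ cnt w F) ∧
  ∀ (w : ℕ) (F : List (ℕ × ℕ)), cnt w F * w ≤ wsum F

/-- **CTL**. `F` is sorted and lists the pairs `(pos j, s j)` of the jobs of `R`; the segments of `R` are disjoint and not empty, so `j ↦ (pos j, s j)` is injective on `R`, and `F` has no
duplicates (`1 ≤ x.2` for all `x ∈ F` and `x.1 + x.2 ≤ y.1`). So `R.image (pos, s) = F.toFinset`, and
`cnt w F = (F.filter (·.2 = w)).length`, `wsum F = ∑ x ∈ F.toFinset, x.2`. (Or: induction on `F`, removing the job of the first pair from `R`.) -/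
def S_CTL : Prop := ∀ (n : ℕ) (s pos : Fin n → ℕ) (R : Finset (Fin n)) (F : List (ℕ × ℕ)),
  (∀ j ∈ R, 1 ≤ s j) → (∀ i ∈ R, ∀ j ∈ R, i ≠ j → pos i + s i ≤ pos j ∨ pos j + s j ≤ pos i) →
  F.Pairwise (fun x y => x.1 + x.2 ≤ y.1) → (∀ x : ℕ × ℕ, x ∈ F ↔ ∃ j ∈ R, pos j = x.1 ∧ s j = x.2) →
  (∀ w, (R.filter fun j => s j = w).card = cnt w F) ∧ ∑ j ∈ R, s j = wsum F

/-- **TIL**. Tilings. The segments of `R` are disjoint, in `[0, m)`, of total length `m`, so they cover `[0, m)` (cardinality of the union of the `Finset.Ico (pos j) (pos j + s j)`). Claim: if `p ≤ m` and no segment of `R` straddles `p` (for all `j ∈ R`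
`pos j + s j ≤ p` or `p ≤ pos j`), then there is `c` with `p + c.sum = m`, entries `≥ 1`, and `x ∈ segs p c ↔ ∃ j ∈ R, p ≤ pos j ∧ pos j = x.1 ∧ s j = x.2`. Induction on `m - p`: `p = m`: `c = []` (there is no `j` with `pos j ≥ m`). `p < m`: the cell `p` is
covered by some `j`, so `pos j = p`; no segment straddles `p + s j`; `c = s j :: c'`. -/
def S_TIL : Prop := ∀ (m n : ℕ) (s pos : Fin n → ℕ) (R : Finset (Fin n)), (∀ j ∈ R, 1 ≤ s j) →
  (∀ j ∈ R, pos j + s j ≤ m) → (∀ i ∈ R, ∀ j ∈ R, i ≠ j → pos i + s i ≤ pos j ∨ pos j + s j ≤ pos i) →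
  ∑ j ∈ R, s j = m →
  ∃ c : List ℕ, c.sum = m ∧ (∀ w ∈ c, 1 ≤ w) ∧
    ∀ x : ℕ × ℕ, x ∈ segs 0 c ↔ ∃ j ∈ R, pos j = x.1 ∧ s j = x.2

/-- **CPK**. `D` is a finite set, `f d` the first cell of a segment of the length `y`; the segments are disjoint, in `[p, m)`, and avoid the segments of the sorted list `F` in `[p, m)`. Then
`D.card ≤ cap m y p F`. Induction on `F` for all `p`, `D`: `F = []`: `y * D.card ≤ m - p` (disjoint intervals, cardinality of the union). `x :: F`: the segments with `f d + y ≤ x.1` are in the gap `[p, x.1)`, at most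
`(x.1 - p) / y`; the others have `x.1 + x.2 ≤ f d`: induction hypothesis for `x.1 + x.2`. (Compare `count_le` in `Pool/Agent/Results/MP_e25616_lc/DetLowerBound.lean`.) -/
def S_CPK : Prop := ∀ (m y p n : ℕ) (F : List (ℕ × ℕ)) (D : Finset (Fin n)) (f : Fin n → ℕ), 1 ≤ y →
  (F.Pairwise fun x z => x.1 + x.2 ≤ z.1) → (∀ x ∈ F, p ≤ x.1 ∧ x.1 + x.2 ≤ m) →
  (∀ d ∈ D, p ≤ f d ∧ f d + y ≤ m) →
  (∀ d ∈ D, ∀ d' ∈ D, d ≠ d' → f d + y ≤ f d' ∨ f d' + y ≤ f d) →
  (∀ d ∈ D, ∀ x ∈ F, f d + y ≤ x.1 ∨ x.1 + x.2 ≤ f d) → D.card ≤ cap m y p F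

/-! ## 6. Work and offline schedules -/

/-- **GAR**. For `a ≤ θ` etc.: `pj b j - pj a j` is the length of `[start j, start j + t j) ∩ [a, b)` (`t j ≥ 0`). As in `BSR.AREaux.area` (`BSR/ARE.lean`): integrate the width of the running jobs over `[a, b)`. -/
def S_GAR : Prop := ∀ (n : ℕ) (s : Fin n → ℕ) (t : Fin n → ℝ) (σ : Schedule n) (a b C : ℝ),
  (∀ j, 0 ≤ t j) → a ≤ b → (∀ θ, a ≤ θ → θ < b → (wr s t σ θ : ℝ) ≤ C) →
  ∑ j, (s j : ℝ) * (pj t σ b j - pj t σ a j) ≤ C * (b - a)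

/-- **OPD**, an offline schedule. The jobs of `X` start at `0`, side by side: position `∑ i ∈ X with i < j, s i`; the jobs of `D` one after the other from `1` on: start `1 + ∑ i ∈ D with i < j, t i`, position `0`; the other jobs have the running time `0`: start `0`, position `0`.
`csInf_le` (the makespans of feasible schedules are `≥ 0`). -/
def S_OPD : Prop := ∀ (m n : ℕ) (s : Fin n → ℕ) (t : Fin n → ℝ) (X D : Finset (Fin n)) (κ : ℝ),
  (∀ j, s j ≤ m) → (∀ j, 0 ≤ t j) → Disjoint X D → (∀ j ∈ X, t j ≤ 1) → ∑ j ∈ X, s j ≤ m →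
  (∀ j, j ∉ X → j ∉ D → t j = 0) → ∑ j ∈ D, t j ≤ κ → 0 ≤ κ → OPT m s t ≤ 1 + κ

/-- **OPI**, an offline schedule. `v` on the machine `m - 1` from `0` on. The jobs of `E` one after the other, position `0`, in the order of decreasing width: the start of `e` is the sum of the `t e'`, `e' ∈ E`, with `s e' > s e`, or `s e' = s e` and `e' < e`. The machine
`i < m - 1` is used by the `e ∈ E` with `s e > i`, all completed at `≤ c i = ∑ e' ∈ E with i < s e', t e' ≤ 1`. The sand (`s j = 1`, `t j = ε`, `j ∉ E`, `j ≠ v`) on the machines `i < m - 1`, starts `c i + k ε`, `k < a i = ⌊(1 - c i)/ε⌋₊ + 1`, completed at `≤ 1 + ε`. The number of these places is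
`∑_{i < m - 1} a i ≥ ((m - 1) - ∑ i, c i) / ε`, and `∑_{i < m-1} c i = ∑_{E} s e t e` (`s e ≤ m - 1`), so it is at least the number of the jobs of the sand (their work is `≤ m - 1 - ∑_E s e t e`): choose an injection of the sand into
the places `Σ i : Fin (m - 1), Fin (a i)` (`Function.Embedding.nonempty_of_card_le`). The other jobs have the running time `0`: start `0`, position `0`. -/
def S_OPI : Prop := ∀ (m n : ℕ) (s : Fin n → ℕ) (t : Fin n → ℝ) (E : Finset (Fin n)) (v : Fin n) (ε : ℝ),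
  2 ≤ m → (∀ j, 1 ≤ s j ∧ s j < m) → (∀ j, 0 ≤ t j) → 0 < ε → v ∉ E → s v = 1 → t v = 1 →
  (∀ j, j ∉ E → j ≠ v → (s j = 1 ∧ t j = ε) ∨ t j = 0) → ∑ j ∈ E, t j ≤ 1 →
  ∑ j ∈ univ.erase v, (s j : ℝ) * t j ≤ (m : ℝ) - 1 → OPT m s t ≤ 1 + ε

/-! ## 7. The game -/

/-- **DNG**, danger. `σ = A.run t`, alive: `j ∉ D`, `start j < τ`; `R` the set of the alive jobs; they all run at the time `τ` (`τ ≤ δ < 1`), so their segments are disjoint, and `S_CTL` applies. `U` = the jobs `j ∉ D` with `τ ≤ start j`, `s j = s₀`; `U.card = r s₀ - cnt s₀ F ≥ k` (`num`, `S_CTL`).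
`t₁ = t`, but `0` for the jobs `∉ D` with `τ ≤ start`, `s j ≠ s₀`. `run_agree` at `τ`: in `σ₁ = A.run t₁` the jobs started before `τ` are the same, the others start at `≥ τ`. `U₁` = the jobs of `U` with `σ₁.start < 1`: at the time `θ = max τ (max start of U₁) < 1` all the jobs of `U₁` and `R` are
running, so their segments are disjoint, `U₁.card ≤ cap m s₀ 0 F < k` (`S_CPK`). Choose `U₁ ⊆ J ⊆ U` with `J.card = k` (`Finset.exists_subsuperset_card_eq`). `t* = t₁`, but `0` on `U \ J`. `run_agree` at the time `1` (the jobs of `U \ J` start at `≥ 1` in `σ₁`): a job of `J \ U₁` starts at `≥ 1`, and the makespan is `≥ 2`. `OPT`: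
`S_OPD` with `X = R ∪ J` (width `wsum F + k s₀ ≤ m`), `D`, `κ = 1/(4m)` (`t j ≤ τ ≤ δ` for `j ∈ D`, `D.card ≤ m i`). -/
def S_DNG : Prop := ∀ (m n : ℕ) (s : Fin n → ℕ) (A : Rule m s) (i : ℕ) (η τ δ : ℝ) (t : Fin n → ℝ)
  (D : Finset (Fin n)) (F : List (ℕ × ℕ)) (r : ℕ → ℕ), 2 ≤ m → (∀ j, 1 ≤ s j ∧ s j < m) →
  Stg m s A i η τ t D F r → τ ≤ δ → δ < 1 → (m : ℝ) * i * δ ≤ 1 / (4 * m) → Dg m F r →
  ∃ t' : Fin n → ℝ, (∀ j, 0 ≤ t' j) ∧ 2 ≤ makespan t' (A.run t') ∧ OPT m s t' ≤ 1 + 1 / (4 * m)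

def M_DNG : Prop := S_CTL → S_CPK → S_OPD → S_DNG

/-- **IDL**, the idle finale. `σ = A.run t`. `X` = the jobs `∉ D` with `start < δ`: they all run at the time max start `< δ < 1`, so `X.card ≤ m` (`BSR.AREaux.width`); `E = D ∪ X`, `E.card ≤ m (i + 1) ≤ B`. `W = ∑ s j pj δ j ≤ (m - 1) δ + i η` (`work`, `S_GAR` on `[τ, δ)` with `C = m - 1`);
`pj δ j = t j` on `D`, `δ - start j` on `X`, `0` otherwise. `N'` = number of the narrow jobs `∉ E`, `N' ≥ N - B ≥ 2`; `ε = ((m - 1) - W)/(N' - 1)`, `0 < ε < δ/(16 m)` (`W < 1 ≤ m - 1`). `t₁ j = t j` on `D`, `δ - start j` on `X`, `ε` on the narrow jobs `∉ E`, `0` on the others. `run_agree` at `δ`: `σ₁ = A.run t₁` has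
the same starts on `E` and starts `≥ δ` outside of `E`. `v` = the narrow job `∉ E` with the largest `S = σ₁.start v`. `S_GAR` for `σ₁` on `[δ, S + ε)` with `C = m` (`BSR.AREaux.width`): `N' ε ≤ m (S + ε - δ)`, so
`S ≥ δ - ε + ((m - 1) - W)/m ≥ 1 - 1/m + (δ - i η)/m - ε ≥ 1 - 1/m + δ/(2m) - ε`. `t' = t₁`, but `1` for `v`: `run_agree` at `S + ε`: `v` starts at `S`, the makespan is at least `1 + S`. `S_OPI`: `OPT ≤ 1 + ε` (`∑_E t' ≤ B δ ≤ 1`, `t j ≤ τ ≤ δ` on `D`). Finally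
`(2 - 1/m + δ/(4m)) (1 + ε) < 2 - 1/m + δ/(2m) - ε` because `4 ε < δ/(4m)`. -/
def S_IDL : Prop := ∀ (m n : ℕ) (s : Fin n → ℕ) (A : Rule m s) (i : ℕ) (η τ δ : ℝ) (t : Fin n → ℝ)
  (D : Finset (Fin n)) (F : List (ℕ × ℕ)) (r : ℕ → ℕ) (B N : ℕ), 2 ≤ m → (∀ j, 1 ≤ s j ∧ s j < m) →
  Stg m s A i η τ t D F r → τ ≤ δ → 0 < δ → δ < 1 → (∀ θ, τ ≤ θ → θ < δ → wr s t (A.run t) θ + 1 ≤ m) →
  m * (i + 1) ≤ B → (B : ℝ) * δ ≤ 1 / (4 * m) → 0 ≤ η → i * η ≤ δ / 2 →
  16 * (m : ℝ) ^ 2 / δ + B + 2 ≤ N → N ≤ (univ.filter fun j => s j = 1).card →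
  ∃ t' : Fin n → ℝ, (∀ j, 0 ≤ t' j) ∧
    (2 - 1 / (m : ℝ) + δ / (4 * m)) * OPT m s t' < makespan t' (A.run t')

def M_IDL : Prop := S_GAR → S_OPI → S_IDL

/-- **STA**, the first time when all the machines are busy. For `θ ∈ [τ, 1)` the running jobs are the `j ∉ D` with `start j ≤ θ` (`t j = 1`, `start ≥ 0`; the jobs of `D` are completed at `≤ τ`). `θ₀` with `wr = m`; `R₀` the running jobs at `θ₀`; `σ = max τ (max start of R₀)` (`R₀` is not empty because `m ≥ 1`; `Finset.sup'` or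
`exists_max_image`), `σ ≤ θ₀`, and the running jobs at `σ` are again `R₀`. For `τ ≤ θ < σ` some job of `R₀` starts at `σ > θ`, so the width is `< m` (`s j ≥ 1`, monotone). A job `j ∉ D` with `σ < start j < 1` would run at its start together with all the jobs of `R₀`, width `≥ m + 1`, against
`BSR.AREaux.width`. -/
def S_STA : Prop := ∀ (m n : ℕ) (s : Fin n → ℕ) (A : Rule m s) (i : ℕ) (η τ δ : ℝ) (t : Fin n → ℝ)
  (D : Finset (Fin n)) (F : List (ℕ × ℕ)) (r : ℕ → ℕ), 1 ≤ m → (∀ j, 1 ≤ s j) →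
  Stg m s A i η τ t D F r → δ ≤ 1 → (∃ θ, τ ≤ θ ∧ θ < δ ∧ wr s t (A.run t) θ = m) →
  ∃ σ, τ ≤ σ ∧ σ < δ ∧ (∀ θ, τ ≤ θ → θ < σ → wr s t (A.run t) θ + 1 ≤ m) ∧
    (∑ j with j ∉ D ∧ (A.run t).start j ≤ σ, s j = m) ∧ ∀ j, j ∉ D → σ < (A.run t).start j → 1 ≤ (A.run t).start j

/-- **STB**, one round. `R` = the jobs `j ∉ D` with `start j ≤ σ`; all run at the time `σ` (`σ < δ ≤ 1`, `start ≥ 0`), so their segments are disjoint; `c` from `S_TIL`. `x ∈ F` is `(pos j, s j)` of some `j ∈ R`; `cnt w (segs 0 c) = #{j ∈ R, s j = w} ≤ #{j ∉ D, s j = w} = r w` (`S_CTL`, `S_SGS` (1)). For `F'`: `τ' = min δ (σ + η)`,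
`Z` = the `j ∈ R` with `(pos j, s j) ∉ F'`, `D' = D ∪ Z`, `t' j = τ' - start j` on `Z`, `t' = t` otherwise. `run_agree` at `τ'`. `killed`, `live`, `few` (`R.card ≤ ∑_R s = m`), `srt` (sublist of a sorted list) are clear. `mem`: (→) `x ∈ F'` is `(pos j, s j)` of a `j ∈ R`, `j ∉ Z`, `start j ≤ σ < τ'`. (←) if `j ∉ D'` and its new start is
`< τ'` then `start j < τ'` (otherwise the new start is `≥ τ'`), it is the same start, `≤ σ` (otherwise `≥ 1 ≥ τ'`), so `j ∈ R`, and `(pos j, s j) ∈ F'` as `j ∉ Z`. `num`: `r w - #{j ∈ Z, s j = w}` and `#{j ∈ Z, s j = w} = cnt w (segs 0 c) - cnt w F'` (`S_CTL` for `R` and for `R \ Z`). `work`: `pj t' σ' τ' j = pj t σ τ' j` for all `j` (for `j ∈ Z` both are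
`τ' - start j`, because `t j = 1 ≥ τ' - start j`; for `start j ≥ τ'` both are `0`); `∑ s j pj τ' j ≤ (m - 1) τ + i η + (m - 1)(σ - τ) + m (τ' - σ)` (`S_GAR` on `[τ, σ)` with `C = m - 1`, on `[σ, τ')` with `C = m`, `BSR.AREaux.width`) `≤ (m - 1) τ' + (i + 1) η`. -/
def S_STB : Prop := ∀ (m n : ℕ) (s : Fin n → ℕ) (A : Rule m s) (i : ℕ) (η τ δ σ : ℝ) (t : Fin n → ℝ)
  (D : Finset (Fin n)) (F : List (ℕ × ℕ)) (r : ℕ → ℕ), 2 ≤ m → (∀ j, 1 ≤ s j ∧ s j < m) →
  Stg m s A i η τ t D F r → δ ≤ 1 → 0 < η → τ ≤ σ → σ < δ →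
  (∀ θ, τ ≤ θ → θ < σ → wr s t (A.run t) θ + 1 ≤ m) →
  (∑ j with j ∉ D ∧ (A.run t).start j ≤ σ, s j = m) →
  (∀ j, j ∉ D → σ < (A.run t).start j → 1 ≤ (A.run t).start j) →
  ∃ c : List ℕ, c.sum = m ∧ (∀ w ∈ c, 1 ≤ w) ∧ (∀ x ∈ F, x ∈ segs 0 c) ∧
    (∀ w, 2 ≤ w → cnt w (segs 0 c) ≤ r w) ∧
    ∀ F' : List (ℕ × ℕ), F'.Sublist (segs 0 c) →
      ∃ (τ' : ℝ) (t' : Fin n → ℝ) (D' : Finset (Fin n)), τ' ≤ δ ∧
        Stg m s A (i + 1) η τ' t' D' F' fun w => r w + cnt w F' - cnt w (segs 0 c)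

def M_STB : Prop := S_SGS → S_CTL → S_TIL → S_GAR → S_STB

/-- **REC**. Induction on `K` for all `i, τ, t, D, F, r` with `i + K ≤ K₀`. If `Dg m F r` (in particular if `K = 0`): `S_DNG` and `(2 - 1/m + δ/(4m)) (1 + 1/(4m)) < 2` (`δ ≤ 1/(4m) ≤ 1/4`). Otherwise `K = K' + 1`: if `wr < m` on `[τ, δ)` (`wr ≤ m` by `BSR.AREaux.width`): `S_IDL` (`i ≤ K₀`, `m (i + 1) ≤ B`, `i η ≤ δ/2`).
Otherwise `S_STA`, `S_STB`, and the induction hypothesis for the `F'` of `Wn`. -/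
def S_REC : Prop := ∀ (m n : ℕ) (s : Fin n → ℕ) (A : Rule m s) (K₀ N : ℕ) (η δ : ℝ), 2 ≤ m →
  (∀ j, 1 ≤ s j ∧ s j < m) → 0 < δ → δ < 1 → ((m * (K₀ + 1) : ℕ) : ℝ) * δ ≤ 1 / (4 * m) →
  η = δ / (2 * (K₀ + 1)) → 16 * (m : ℝ) ^ 2 / δ + ((m * (K₀ + 1) : ℕ) : ℝ) + 2 ≤ N →
  N ≤ (univ.filter fun j => s j = 1).card →
  ∀ (K i : ℕ) (τ : ℝ) (t : Fin n → ℝ) (D : Finset (Fin n)) (F : List (ℕ × ℕ)) (r : ℕ → ℕ), i + K ≤ K₀ →
    Stg m s A i η τ t D F r → τ ≤ δ → Wn m K F r →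
    ∃ t' : Fin n → ℝ, (∀ j, 0 ≤ t' j) ∧
      (2 - 1 / (m : ℝ) + δ / (4 * m)) * OPT m s t' < makespan t' (A.run t')

def M_REC : Prop := S_DNG → S_IDL → S_STA → S_STB → S_REC

/-- **INS**. E.g. the list of `r w` times `w` for `2 ≤ w < m`, and `N` times `1`, as a function on `Fin n` (`List.get`), `List.countP` / `List.count`. Or by induction: adding one job of the width `w` to `s` (`Fin.cons w s`) changes one of the numbers by one. -/
def S_INS : Prop := ∀ (m N : ℕ) (r : ℕ → ℕ), 2 ≤ m →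
  ∃ (n : ℕ) (s : Fin n → ℕ), (∀ j, 1 ≤ s j ∧ s j < m) ∧
    (∀ w, 2 ≤ w → w < m → (univ.filter fun j => s j = w).card = r w) ∧
    (univ.filter fun j => s j = 1).card = N

/-- **RED**. `δ = 1/(4 m (m (K + 1)))`, `η`, `N` as in `S_REC` (`K₀ = K`, `N` a natural number `≥ 16 m²/δ + m (K + 1) + 2`), `c = 2 - 1/m + δ/(4m)`. Suppose `DetOK m c`; take the rule `A` for the instance of `S_INS`. The first stage: `i = 0`, `τ = 0`, `t = 1`, `D = ∅`, `F = []`, `r` (`num`: for `w ≥ m` both sides are `0`; `mem`: no start is `< 0`; `work`: `pj t σ 0 j = 0`). `S_REC` gives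
`t'` with `c * OPT < makespan`, a contradiction. -/
def S_RED : Prop := ∀ (m K : ℕ) (r : ℕ → ℕ), 2 ≤ m → (∀ w, m ≤ w → r w = 0) → Wn m K [] r →
  ∃ c : ℝ, 2 - 1 / (m : ℝ) < c ∧ ¬ DetOK m c

def M_RED : Prop := S_REC → S_INS → S_RED

/-- **CHS**, the check is correct. Claim, by induction on `K` for all `F`, `r` with `r w = 0` for `2 ≤ w`, `w ∉ W`: `winB m W ((comps W m m).map (segs 0)) K F r = true → Wn m K F r`. `dgB = true → Dg` (`k = cap m s 0 F + 1`). Let `c` be as in `Wn`: its entries are in `W` (an entry `w ≥ 2` has `1 ≤ cnt w (segs 0 c) ≤ r w`,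
so `w ∈ W`; `1 ∈ W`), so `c ∈ comps W m m` (induction on the fuel: `c ∈ comps W f n` if `c.sum = n ≤ f`, entries `≥ 1` and in `W`). `memB x l = true ↔ x ∈ l`; `F' ∈ subs l → F'.Sublist l`; the new `r' w = r w + cnt w F' - cnt w (segs 0 c)` is `0` for `w ∉ W` again (`cnt w F' ≤ cnt w (segs 0 c) ≤ r w`). `Dg → Wn K` for all `K`. -/
def S_CHS : Prop := ∀ (m : ℕ) (W : List ℕ) (K : ℕ) (r : List ℕ), 1 ∈ W →
  (∀ w, 2 ≤ w → w ∉ W → rr r w = 0) → go m W K r = true → Wn m K [] (rr r)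

def M_CHS : Prop := S_SGS → S_CHS

/-- **KER**. `decide +kernel` for each part (5 - 20 seconds each; put `set_option maxRecDepth 100000 in` before; one theorem for each of the five, if necessary in separate files). -/
def S_KER : Prop :=
  go 5 [1, 2, 3, 4] 3 [0, 0, 2, 1, 1] = true ∧ go 6 [1, 2, 3, 5] 2 [0, 0, 3, 2, 0, 1] = true ∧
  go 7 [1, 2, 3] 3 [0, 0, 3, 2] = true ∧ go 8 [1, 2, 3, 7] 2 [0, 0, 2, 2, 0, 0, 0, 1] = true ∧
  go 10 [1, 2, 3] 2 [0, 0, 2, 3] = true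

/-- **GEN**, `m ≥ 9`, `m ≠ 10`: one round. Let `c` be a composition of `m` as in `Wn`; its entries are `1`, `2`, `3` (otherwise `cnt ≤ r w = 0`). If two entries `a`, `b` of `c` that are not neighbours are not `{2, 3}`, then `F'` = `segs 0 c` without these two segments has `Dg`: the gaps have the lengths `a`, `b` (`cap m s 0 F' = a / s + b / s`:
`cap` of the other parts is `0`), `wsum F' = m - a - b`, and for `(a, b) = (1, 1), (2, 2)`: `s = 2`, `3` resp. (`k = 1`), `(1, 2)`: `s = 3`, `k = 1`, `(1, 3)`: `s = 2`, `k = 2` (`cap = 1`), `(3, 3)`: `s = 2`, `k = 3` (`cap = 2`); `k + cnt s F' ≤ r s + cnt s F' - cnt s (segs 0 c)` because `k * s ≤ m`, `cnt * s ≤ m`. If `c` has at least five entries, two of the first, third and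
fifth entries are equal or they are not all in `{2, 3}`: among three entries, two are not `{2, 3}`. If `c` has four entries `a, b, c, d`, and the pairs `(a, c)`, `(a, d)`, `(b, d)` are all `{2, 3}`, then `c = d`, `a = b`, and the sum is `10`. Three entries: the sum is `9`, all are `3`, the pair `(3, 3)`. Fewer entries: the sum is `≤ 6`. -/
def S_GEN : Prop := ∀ m : ℕ, 9 ≤ m → m ≠ 10 → Wn m 1 [] fun w => if w = 2 ∨ w = 3 then 2 * m else 0

def M_GEN : Prop := S_SGS → S_GEN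

/-- **BIN**. `S_RED` with `S_GEN` (`m = 9`, `m ≥ 11`) or with `S_CHS`, `S_KER` (`m = 5, 6, 7, 8, 10`; `rr r w = 0` for `w ≥ m` and for `w ∉ W`). -/
def S_BIN : Prop := ∀ m : ℕ, 5 ≤ m → ∃ c : ℝ, 2 - 1 / (m : ℝ) < c ∧ ¬ DetOK m c

def M_BIN : Prop := S_RED → S_GEN → S_CHS → S_KER → S_BIN

end Pool.Agent.SMA
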