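import Mathlib
import Pool.Agent.SMA.StmtsB

/-!
# DNG: danger (MP_e25616_lc)
-/

set_option autoImplicit false

namespace Pool.Agent.SMA

open Finset Pool.Agent.BSR

theorem t_DNG : M_DNG := by
  classical
  intro hCTL hCPK hOPD m n s A i η τ δ t D F r hm hs st hτδ hδ hmi hDg
  obtain ⟨s₀, k, hs2, hsm, hkr, hkm, hcap⟩ := hDg
  have ht := st.nonneg
  have hf := A.feasible t ht
  have hτ0 := st.tau
  set σ := A.run t with hσ
  -- the running jobs
  set R : Finset (Fin n) := univ.filter fun j => j ∉ D ∧ σ.start j < τ with hR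
  have hRm : ∀ j, j ∈ R ↔ j ∉ D ∧ σ.start j < τ := by
    intro j
    simp [hR]
  have hdisj : ∀ a ∈ R, ∀ b ∈ R, a ≠ b → σ.pos a + s a ≤ σ.pos b ∨ σ.pos b + s b ≤ σ.pos a := by
    intro a ha b hb hab
    obtain ⟨ha1, ha2⟩ := (hRm a).1 ha
    obtain ⟨hb1, hb2⟩ := (hRm b).1 hb
    have ha3 := st.live a ha1
    have hb3 := st.live b hb1
    have ha4 := hf.1 a
    have hb4 := hf.1 b
    exact hf.2.2 a b hab τ ha2.le (by linarith) hb2.le (by linarith)
  obtain ⟨hcnt, hwsum⟩ := hCTL n s σ.pos R F (fun j _ => (hs j).1) hdisj st.srt (by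
    intro x
    rw [st.mem x]
    constructor
    · rintro ⟨j, h1, h2, h3, h4⟩
      exact ⟨j, (hRm j).2 ⟨h1, h2⟩, h3, h4⟩
    · rintro ⟨j, h1, h3, h4⟩
      exact ⟨j, ((hRm j).1 h1).1, ((hRm j).1 h1).2, h3, h4⟩)
  -- the unstarted jobs of the width s₀
  set U : Finset (Fin n) := univ.filter fun j => j ∉ D ∧ s j = s₀ ∧ τ ≤ σ.start j with hU
  have hUm : ∀ j, j ∈ U ↔ j ∉ D ∧ s j = s₀ ∧ τ ≤ σ.start j := by
    intro j
    simp [hU]
  have hUc : k ≤ U.card := by
    have h1 := st.num s₀ hs2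
    have h2 : (univ.filter fun j => j ∉ D ∧ s j = s₀) = (R.filter fun j => s j = s₀) ∪ U := by
      ext j
      rw [mem_union, mem_filter, mem_filter, hRm, hUm]
      constructor
      · rintro ⟨-, h3, h4⟩
        rcases lt_or_ge (σ.start j) τ with h5 | h5
        · exact Or.inl ⟨⟨h3, h5⟩, h4⟩
        · exact Or.inr ⟨h3, h4, h5⟩
      · rintro (⟨⟨h3, h5⟩, h4⟩ | ⟨h3, h4, h5⟩)
        · exact ⟨mem_univ _, h3, h4⟩
        · exact ⟨mem_univ _, h3, h4⟩
    have h3 : Disjoint (R.filter fun j => s j = s₀) U := by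
      rw [Finset.disjoint_left]
      intro j h4 h5
      rw [mem_filter, hRm] at h4
      rw [hUm] at h5
      exact absurd h4.1.2 (not_lt.2 h5.2.2)
    rw [h2, card_union_of_disjoint h3, hcnt] at h1
    omega
  -- the first change
  set t₁ : Fin n → ℝ := fun j => if j ∉ D ∧ τ ≤ σ.start j ∧ s j ≠ s₀ then 0 else t j with ht₁
  have ht₁0 : ∀ j, 0 ≤ t₁ j := by
    intro j
    simp only [ht₁]
    split_ifs
    · exact le_rfl
    · exact ht j
  have hf₁ := A.feasible t₁ ht₁0
  have hag := run_agree A t t₁ ht ht₁0 τ (by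
    intro j hj
    left
    simp only [ht₁]
    rw [if_neg]
    rintro ⟨-, h2, -⟩
    exact absurd hj (not_lt.2 h2))
  rw [← hσ] at hag
  set σ₁ := A.run t₁ with hσ₁
  have hRt : ∀ j ∈ R, t₁ j = 1 := by
    intro j hj
    obtain ⟨h1, h2⟩ := (hRm j).1 hj
    simp only [ht₁]
    rw [if_neg]
    · exact st.live j h1
    · rintro ⟨-, h3, -⟩
      exact absurd h2 (not_lt.2 h3)
  have hUt : ∀ j ∈ U, t₁ j = 1 := by
    intro j hj
    obtain ⟨h1, h2, h3⟩ := (hUm j).1 hj
    simp only [ht₁]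
    rw [if_neg]
    · exact st.live j h1
    · rintro ⟨-, -, h4⟩
      exact h4 h2
  set U₁ : Finset (Fin n) := U.filter fun j => σ₁.start j < 1 with hU₁
  have hθ : ∃ θ, τ ≤ θ ∧ θ < 1 ∧ ∀ j ∈ U₁, σ₁.start j ≤ θ := by
    rcases U₁.eq_empty_or_nonempty with h0 | h0
    · refine ⟨τ, le_rfl, by linarith, ?_⟩
      intro j hj
      rw [h0] at hj
      simp at hj
    · obtain ⟨j₀, hj₀, hmax⟩ := exists_max_image U₁ σ₁.start h0
      rw [hU₁, mem_filter] at hj₀
      exact ⟨σ₁.start j₀, (hag j₀).2 ((hUm j₀).1 hj₀.1).2.2, hj₀.2, hmax⟩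
  obtain ⟨θ, hθτ, hθ1, hθm⟩ := hθ
  have hrunU : ∀ j ∈ U₁, σ₁.start j ≤ θ ∧ θ < σ₁.start j + t₁ j := by
    intro j hj
    have h1 := hUt j (mem_filter.1 hj).1
    have h2 := hf₁.1 j
    exact ⟨hθm j hj, by linarith⟩
  have hrunR : ∀ j ∈ R, σ₁.start j ≤ θ ∧ θ < σ₁.start j + t₁ j := by
    intro j hj
    have h1 := hRt j hj
    have h2 := hf₁.1 j
    have h3 := ((hRm j).1 hj).2
    have h4 := ((hag j).1 h3).1
    refine ⟨by linarith, by linarith⟩
  have hU₁c : U₁.card ≤ cap m s₀ 0 F := by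
    refine hCPK m s₀ 0 n F U₁ σ₁.pos (by omega) st.srt ?_ ?_ ?_ ?_
    · intro x hx
      obtain ⟨j, h1, h2, h3, h4⟩ := (st.mem x).1 hx
      refine ⟨Nat.zero_le _, ?_⟩
      rw [← h3, ← h4]
      exact hf.2.1 j
    · intro d hd
      refine ⟨Nat.zero_le _, ?_⟩
      have h1 := ((hUm d).1 (mem_filter.1 hd).1).2.1
      have h2 := hf₁.2.1 d
      rw [h1] at h2
      exact h2
    · intro d hd d' hd' hdd
      have h1 := ((hUm d).1 (mem_filter.1 hd).1).2.1
      have h1' := ((hUm d').1 (mem_filter.1 hd').1).2.1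
      have h2 := hf₁.2.2 d d' hdd θ (hrunU d hd).1 (hrunU d hd).2 (hrunU d' hd').1
        (hrunU d' hd').2
      rw [h1, h1'] at h2
      exact h2
    · intro d hd x hx
      obtain ⟨j, h1, h2, h3, h4⟩ := (st.mem x).1 hx
      have hjR : j ∈ R := (hRm j).2 ⟨h1, h2⟩
      have h5 := ((hUm d).1 (mem_filter.1 hd).1).2
      have hne : d ≠ j := by
        rintro rfl
        exact absurd h2 (not_lt.2 h5.2)
      have h6 := hf₁.2.2 d j hne θ (hrunU d hd).1 (hrunU d hd).2 (hrunR j hjR).1 (hrunR j hjR).2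
      have h7 : σ₁.pos j = σ.pos j := ((hag j).1 h2).2
      have h3' : σ.pos j = x.1 := h3
      rw [h5.1, h7, h3', h4] at h6
      exact h6
  -- the k jobs
  obtain ⟨J, hJ1, hJ2, hJc⟩ := exists_subsuperset_card_eq (filter_subset _ _ : U₁ ⊆ U)
    (hU₁c.trans hcap.le) hUc
  set t' : Fin n → ℝ := fun j => if j ∈ U ∧ j ∉ J then 0 else t₁ j with ht'
  have ht'0 : ∀ j, 0 ≤ t' j := by
    intro j
    simp only [ht']
    split_ifs
    · exact le_rfl
    · exact ht₁0 j
  have hag' := run_agree A t₁ t' ht₁0 ht'0 1 (by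
    intro j hj
    left
    simp only [ht']
    rw [if_neg]
    rintro ⟨h1, h2⟩
    exact h2 (hJ1 (mem_filter.2 ⟨h1, hj⟩)))
  rw [← hσ₁] at hag'
  refine ⟨t', ht'0, ?_, ?_⟩
  · have h1 : ∃ j ∈ J, j ∉ U₁ := by
      by_contra h2
      push Not at h2
      have h3 := card_le_card (fun j hj => h2 j hj : J ⊆ U₁)
      omega
    obtain ⟨j, hj1, hj2⟩ := h1
    have hjU := hJ2 hj1
    have h2 : 1 ≤ σ₁.start j := by
      by_contra h3
      exact hj2 (mem_filter.2 ⟨hjU, not_le.1 h3⟩)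
    have h3 := (hag' j).2 h2
    have h4 : t' j = 1 := by
      simp only [ht']
      rw [if_neg (fun h => h.2 hj1)]
      exact hUt j hjU
    have h5 := AREaux.le_make t' (A.run t') j
    linarith
  · have hm0 : (0 : ℝ) < m := by
      have : 0 < m := by omega
      exact_mod_cast this
    have hRJ : Disjoint R J := by
      rw [Finset.disjoint_left]
      intro j h1 h2
      exact absurd ((hRm j).1 h1).2 (not_lt.2 ((hUm j).1 (hJ2 h2)).2.2)
    have ht'R : ∀ j ∈ R, t' j = 1 := by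
      intro j hj
      simp only [ht']
      rw [if_neg]
      · exact hRt j hj
      · rintro ⟨h1, -⟩
        exact absurd ((hRm j).1 hj).2 (not_lt.2 ((hUm j).1 h1).2.2)
    have ht'J : ∀ j ∈ J, t' j = 1 := by
      intro j hj
      simp only [ht']
      rw [if_neg (fun h => h.2 hj)]
      exact hUt j (hJ2 hj)
    refine hOPD m n s t' (R ∪ J) D (1 / (4 * m)) (fun j => (hs j).2.le) ht'0 ?_ ?_ ?_ ?_ ?_
      (by positivity)
    · rw [Finset.disjoint_left]
      intro j h1 h2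
      rcases mem_union.1 h1 with h1 | h1
      · exact ((hRm j).1 h1).1 h2
      · exact ((hUm j).1 (hJ2 h1)).1 h2
    · intro j hj
      rcases mem_union.1 hj with h1 | h1
      · exact (ht'R j h1).le
      · exact (ht'J j h1).le
    · rw [sum_union hRJ, hwsum]
      have h1 : ∑ j ∈ J, s j = k * s₀ := by
        rw [sum_congr rfl (fun j hj => ((hUm j).1 (hJ2 hj)).2.1), sum_const, hJc, smul_eq_mul]
      rw [h1]
      omega
    · intro j h1 h2
      have h3 : τ ≤ σ.start j := by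
        by_contra h4
        exact h1 (mem_union_left _ ((hRm j).2 ⟨h2, not_le.1 h4⟩))
      simp only [ht', ht₁]
      by_cases h4 : s j = s₀
      · rw [if_pos]
        exact ⟨(hUm j).2 ⟨h2, h4, h3⟩, fun h => h1 (mem_union_right _ h)⟩
      · rw [if_neg, if_pos ⟨h2, h3, h4⟩]
        rintro ⟨h5, -⟩
        exact h4 ((hUm j).1 h5).2.1
    · have h1 : ∀ j ∈ D, t' j ≤ δ := by
        intro j hj
        have h2 : t' j = t j := by
          simp only [ht', ht₁]
          rw [if_neg, if_neg]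
          · rintro ⟨h3, -⟩
            exact h3 hj
          · rintro ⟨h3, -⟩
            exact ((hUm j).1 h3).1 hj
        have h3 := st.killed j hj
        have h4 := hf.1 j
        rw [h2]
        linarith
      have h2 : ∑ j ∈ D, t' j ≤ D.card * δ := by
        refine (sum_le_sum h1).trans (le_of_eq ?_)
        rw [sum_const, nsmul_eq_mul]
      have h3 : (D.card : ℝ) ≤ m * i := by exact_mod_cast st.few
      have h4 : (D.card : ℝ) * δ ≤ m * i * δ :=
        mul_le_mul_of_nonneg_right h3 (hτ0.trans hτδ)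
      linarith

end Pool.Agent.SMA
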