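import Pool.Agent.SMA.StmtsB

/-!
# Scheduling on small linear arrays, part B: the work in a time interval
-/

set_option autoImplicit false

namespace Pool.Agent.SMA

open Finset Pool.Agent.BSR MeasureTheory

namespace GARaux

theorem overlap {st t a b : ℝ} (ht : 0 ≤ t) (hab : a ≤ b) :
    max (min b (st + t) - max a st) 0 =
      min (max (b - st) 0) t - min (max (a - st) 0) t := by
  rcases le_total b st with h1 | h1
  · have h2 : a ≤ st := hab.trans h1
    rw [max_eq_right (by linarith : b - st ≤ 0), max_eq_right (by linarith : a - st ≤ 0),
      sub_self]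
    refine max_eq_right ?_
    have h3 : min b (st + t) ≤ b := min_le_left _ _
    have h4 : st ≤ max a st := le_max_right _ _
    linarith
  · rw [max_eq_left (by linarith : (0 : ℝ) ≤ b - st)]
    rcases le_total a st with h2 | h2
    · rw [max_eq_right (by linarith : a - st ≤ 0), max_eq_right h2, min_eq_left ht, sub_zero]
      rcases le_total b (st + t) with h3 | h3
      · rw [min_eq_left h3, min_eq_left (by linarith), max_eq_left (by linarith)]
      · rw [min_eq_right h3, min_eq_right (by linarith), max_eq_left (by linarith)]
        ring
    · rw [max_eq_left (by linarith : (0 : ℝ) ≤ a - st), max_eq_left h2]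
      rcases le_total b (st + t) with h3 | h3
      · rw [min_eq_left h3, min_eq_left (by linarith), min_eq_left (by linarith),
          max_eq_left (by linarith)]
        ring
      · rw [min_eq_right h3, min_eq_right (by linarith)]
        rcases le_total a (st + t) with h4 | h4
        · rw [min_eq_left (by linarith), max_eq_left (by linarith)]
          ring
        · rw [min_eq_right (by linarith), max_eq_right (by linarith)]
          ring

end GARaux

open GARaux

theorem t_GAR : S_GAR := by
  classical
  intro n s t σ a b C ht hab hC
  set f : Fin n → ℝ → ℝ := fun j =>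
    (Set.Ico (σ.start j) (σ.start j + t j)).indicator fun _ => (s j : ℝ) with hf
  have hI : ∀ j, IntegrableOn (f j) (Set.Ico a b) := by
    intro j
    exact (integrableOn_const (by simp)).indicator measurableSet_Ico
  have hv : ∀ j, ∫ τ in Set.Ico a b, f j τ = (s j : ℝ) * (pj t σ b j - pj t σ a j) := by
    intro j
    rw [hf]
    simp only
    rw [setIntegral_indicator measurableSet_Ico, Set.Ico_inter_Ico, setIntegral_const,
      measureReal_def, Real.volume_Ico, smul_eq_mul, ENNReal.toReal_ofReal',
      overlap (ht j) hab, mul_comm]
    rfl
  have hs : ∑ j, (s j : ℝ) * (pj t σ b j - pj t σ a j) =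
      ∫ τ in Set.Ico a b, ∑ j, f j τ := by
    rw [integral_finsetSum _ fun j _ => hI j]
    exact (Finset.sum_congr rfl fun j _ => hv j).symm
  have hm : ∫ τ in Set.Ico a b, ∑ j, f j τ ≤ ∫ _τ in Set.Ico a b, C := by
    refine setIntegral_mono_on (integrable_finsetSum _ fun j _ => hI j)
      (integrableOn_const (by simp)) measurableSet_Ico fun τ hτ => ?_
    have e : ∑ j, f j τ = (wr s t σ τ : ℝ) := by
      unfold wr
      rw [Nat.cast_sum, Finset.sum_filter]
      refine Finset.sum_congr rfl fun j _ => ?_
      rw [hf]
      simp only [Set.indicator_apply, Set.mem_Ico]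
    rw [e]
    exact hC τ hτ.1 hτ.2
  rw [hs]
  refine hm.trans (le_of_eq ?_)
  rw [setIntegral_const, measureReal_def, Real.volume_Ico, smul_eq_mul,
    ENNReal.toReal_ofReal (by linarith)]
  ring

end Pool.Agent.SMA
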