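import Pool.Agent.SMA.StmtsB

/-!
# Non-clairvoyant scheduling on small linear arrays: the game for `m ≥ 9`, `m ≠ 10`
-/

set_option autoImplicit false

namespace Pool.Agent.SMA

open Finset Pool.Agent.BSR

namespace GENaux

theorem segs_append (l l' : List ℕ) : ∀ p : ℕ,
    segs p (l ++ l') = segs p l ++ segs (p + l.sum) l' := by
  induction l with
  | nil => intro p; simp [segs]
  | cons w l ih =>
    intro p
    simp only [List.cons_append, segs, List.sum_cons]
    rw [ih (p + w), add_assoc]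

theorem cnt_append (s : ℕ) (F F' : List (ℕ × ℕ)) : cnt s (F ++ F') = cnt s F + cnt s F' := by
  induction F with
  | nil => simp [cnt]
  | cons x F ih =>
    simp only [List.cons_append, cnt]
    rw [ih, add_assoc]

theorem wsum_append (F F' : List (ℕ × ℕ)) : wsum (F ++ F') = wsum F + wsum F' := by
  induction F with
  | nil => simp [wsum]
  | cons x F ih =>
    simp only [List.cons_append, wsum]
    rw [ih, add_assoc]

theorem cap_segs (m s : ℕ) (l : List ℕ) (F : List (ℕ × ℕ)) : ∀ p : ℕ,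
    cap m s p (segs p l ++ F) = cap m s (p + l.sum) F := by
  induction l with
  | nil => intro p; simp [segs]
  | cons w l ih =>
    intro p
    simp only [segs, List.cons_append, cap, List.sum_cons]
    rw [Nat.sub_self, Nat.zero_div, zero_add, ih (p + w), add_assoc]

theorem cap_gap (m s a : ℕ) (l : List ℕ) (F : List (ℕ × ℕ)) (hl : l ≠ []) (p : ℕ) :
    cap m s p (segs (p + a) l ++ F) = a / s + cap m s (p + a + l.sum) F := by
  cases l with
  | nil => exact absurd rfl hl
  | cons w l =>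
    simp only [segs, List.cons_append, cap, List.sum_cons]
    rw [Nat.add_sub_cancel_left, cap_segs, add_assoc (p + a) w l.sum]

theorem cap_last (m s b : ℕ) (l : List ℕ) (p : ℕ) (h : p + b + l.sum = m) :
    cap m s p (segs (p + b) l) = b / s := by
  cases l with
  | nil =>
    simp only [segs, cap]
    have : m - p = b := by
      simp only [List.sum_nil] at h
      omega
    rw [this]
  | cons w l =>
    have h1 := cap_gap m s b (w :: l) [] (by simp) p
    rw [List.append_nil] at h1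
    rw [h1, h]
    simp only [cap, Nat.sub_self, Nat.zero_div, add_zero]

/-- the choice of the width and of the number of the jobs -/
theorem choose_sk (a b : ℕ) (ha : 1 ≤ a) (ha' : a ≤ 3) (hb : 1 ≤ b) (hb' : b ≤ 3)
    (h : ¬ ((a = 2 ∧ b = 3) ∨ (a = 3 ∧ b = 2))) :
    ∃ s k : ℕ, (s = 2 ∨ s = 3) ∧ k ≤ 3 ∧ k * s ≤ a + b ∧ a / s + b / s < k := by
  interval_cases a <;> interval_cases b
  · exact ⟨2, 1, by norm_num⟩
  · exact ⟨3, 1, by norm_num⟩
  · exact ⟨2, 2, by norm_num⟩
  · exact ⟨3, 1, by norm_num⟩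
  · exact ⟨3, 1, by norm_num⟩
  · exact absurd (Or.inl ⟨rfl, rfl⟩) h
  · exact ⟨2, 2, by norm_num⟩
  · exact absurd (Or.inr ⟨rfl, rfl⟩) h
  · exact ⟨2, 3, by norm_num⟩

/-- removing two segments which are not neighbours -/
theorem remove (hS : S_SGS) (m : ℕ) (hm : 9 ≤ m) (l1 l2 l3 : List ℕ) (a b : ℕ) (h2 : l2 ≠ [])
    (hsum : (l1 ++ a :: (l2 ++ b :: l3)).sum = m) (ha : 1 ≤ a) (ha' : a ≤ 3) (hb : 1 ≤ b)
    (hb' : b ≤ 3) (h : ¬ ((a = 2 ∧ b = 3) ∨ (a = 3 ∧ b = 2))) :
    ∃ F' : List (ℕ × ℕ), F'.Sublist (segs 0 (l1 ++ a :: (l2 ++ b :: l3))) ∧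
      Dg m F' fun s => (if s = 2 ∨ s = 3 then 2 * m else 0) + cnt s F' -
        cnt s (segs 0 (l1 ++ a :: (l2 ++ b :: l3))) := by
  obtain ⟨hS1, hS2, hS3, hS4, hS5, hS6⟩ := hS
  obtain ⟨s, k, hs, hk, hks, hcap⟩ := choose_sk a b ha ha' hb hb' h
  have e : segs 0 (l1 ++ a :: (l2 ++ b :: l3)) =
      segs 0 l1 ++ (0 + l1.sum, a) :: (segs (0 + l1.sum + a) l2 ++
        (0 + l1.sum + a + l2.sum, b) :: segs (0 + l1.sum + a + l2.sum + b) l3) := by
    rw [segs_append]
    simp only [segs]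
    rw [segs_append]
    simp only [segs]
  set F' := segs 0 l1 ++ (segs (0 + l1.sum + a) l2 ++ segs (0 + l1.sum + a + l2.sum + b) l3)
    with hF'
  have hsub : F'.Sublist (segs 0 (l1 ++ a :: (l2 ++ b :: l3))) := by
    rw [e, hF']
    exact (List.Sublist.refl _).append (((List.Sublist.refl _).append
      (List.sublist_cons_self _ _)).trans (List.sublist_cons_self _ _))
  have hsum' : l1.sum + (a + (l2.sum + (b + l3.sum))) = m := by
    simp only [List.sum_append, List.sum_cons] at hsum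
    exact hsum
  have hw : wsum F' + (a + b) = m := by
    rw [hF', wsum_append, wsum_append, hS3, hS3, hS3]
    omega
  have hc : cap m s 0 F' = a / s + b / s := by
    rw [hF', cap_segs, cap_gap m s a l2 _ h2, cap_last m s b l3 _ (by omega)]
  have hcnt : cnt s (segs 0 (l1 ++ a :: (l2 ++ b :: l3))) ≤ m := by
    have h1 := hS6 s (segs 0 (l1 ++ a :: (l2 ++ b :: l3)))
    rw [hS3, hsum] at h1
    have hs1 : 1 ≤ s := by omega
    exact (Nat.le_mul_of_pos_right _ hs1).trans h1
  refine ⟨F', hsub, s, k, ?_, ?_, ?_, ?_, ?_⟩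
  · omega
  · omega
  · show k + cnt s F' ≤ (if s = 2 ∨ s = 3 then 2 * m else 0) + cnt s F' -
        cnt s (segs 0 (l1 ++ a :: (l2 ++ b :: l3)))
    rw [if_pos hs]
    omega
  · omega
  · rw [hc]
    exact hcap

/-- two good entries which are not neighbours -/
theorem find (m : ℕ) (hm : 9 ≤ m) (hm' : m ≠ 10) (c : List ℕ) (hc : c.sum = m)
    (h : ∀ w ∈ c, 1 ≤ w ∧ w ≤ 3) :
    ∃ (l1 l2 l3 : List ℕ) (a b : ℕ), l2 ≠ [] ∧ c = l1 ++ a :: (l2 ++ b :: l3) ∧
      ¬ ((a = 2 ∧ b = 3) ∨ (a = 3 ∧ b = 2)) := by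
  match c, hc, h with
  | [], hc, h => simp at hc; omega
  | [x], hc, h =>
    have hx := h x (by simp)
    simp at hc
    omega
  | [x, y], hc, h =>
    have hx := h x (by simp)
    have hy := h y (by simp)
    simp at hc
    omega
  | [x, y, z], hc, h =>
    have hx := h x (by simp)
    have hy := h y (by simp)
    have hz := h z (by simp)
    simp at hc
    exact ⟨[], [y], [], x, z, by simp, rfl, by omega⟩
  | [x, y, z, w], hc, h =>
    have hx := h x (by simp)
    have hy := h y (by simp)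
    have hz := h z (by simp)
    have hw := h w (by simp)
    simp at hc
    by_cases h1 : (x = 2 ∧ z = 3) ∨ (x = 3 ∧ z = 2)
    · by_cases h2 : (x = 2 ∧ w = 3) ∨ (x = 3 ∧ w = 2)
      · by_cases h3 : (y = 2 ∧ w = 3) ∨ (y = 3 ∧ w = 2)
        · exfalso
          omega
        · exact ⟨[x], [z], [], y, w, by simp, rfl, h3⟩
      · exact ⟨[], [y, z], [], x, w, by simp, rfl, h2⟩
    · exact ⟨[], [y], [w], x, z, by simp, rfl, h1⟩
  | x :: y :: z :: w :: v :: l, hc, h =>
    have hx := h x (by simp)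
    have hz := h z (by simp)
    have hv := h v (by simp)
    by_cases h1 : (x = 2 ∧ z = 3) ∨ (x = 3 ∧ z = 2)
    · by_cases h2 : (x = 2 ∧ v = 3) ∨ (x = 3 ∧ v = 2)
      · exact ⟨[x, y], [w], l, z, v, by simp, rfl, by omega⟩
      · exact ⟨[], [y, z, w], l, x, v, by simp, rfl, h2⟩
    · exact ⟨[], [y], w :: v :: l, x, z, by simp, rfl, h1⟩

end GENaux

theorem t_GEN : M_GEN := by
  intro hS m hm hm'
  right
  intro c hc h1 _ hcnt
  have h13 : ∀ w ∈ c, 1 ≤ w ∧ w ≤ 3 := by
    intro w hw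
    refine ⟨h1 w hw, ?_⟩
    by_contra hcon
    have h2 := hcnt w (by omega)
    have h3 := hS.2.2.2.1 0 c w hw
    have h4 : (if w = 2 ∨ w = 3 then 2 * m else 0) = 0 := if_neg (by omega)
    have h5 : cnt w (segs 0 c) ≤ (if w = 2 ∨ w = 3 then 2 * m else 0) := h2
    rw [h4] at h5
    omega
  obtain ⟨l1, l2, l3, a, b, h2, rfl, hab⟩ := GENaux.find m hm hm' c hc h13
  have ha := h13 a (by simp)
  have hb := h13 b (by simp)
  exact GENaux.remove hS m hm l1 l2 l3 a b h2 hc ha.1 ha.2 hb.1 hb.2 hab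

end Pool.Agent.SMA
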