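import Pool.Agent.SMA.StmtsB

/-!
# The idle finale
-/

set_option autoImplicit false

namespace Pool.Agent.SMA

open Finset Pool.Agent.BSR

namespace IDLaux

theorem pj_nonneg {n : ℕ} {t : Fin n → ℝ} (σ : Schedule n) (x : ℝ) (j : Fin n) (ht : 0 ≤ t j) :
    0 ≤ pj t σ x j := le_min (le_max_right _ _) ht

theorem pj_mono {n : ℕ} (t : Fin n → ℝ) (σ : Schedule n) {x y : ℝ} (h : x ≤ y) (j : Fin n) :
    pj t σ x j ≤ pj t σ y j := min_le_min (max_le_max (by linarith) le_rfl) le_rfl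

theorem card_le {m n : ℕ} {s : Fin n → ℕ} {t : Fin n → ℝ} {σ : Schedule n}
    (h : Feasible m s t σ) (hs : ∀ j, 1 ≤ s j) (X : Finset (Fin n)) (δ : ℝ) (hδ : δ ≤ 1)
    (hX : ∀ j ∈ X, t j = 1 ∧ σ.start j < δ) : X.card ≤ m := by
  classical
  rcases X.eq_empty_or_nonempty with rfl | hne
  · simp
  · obtain ⟨v, hv, hmax⟩ := exists_max_image X σ.start hne
    refine le_trans ?_ (AREaux.width h (σ.start v))
    have h1 : X.card ≤ ∑ j ∈ X, s j := by
      rw [card_eq_sum_ones]
      exact sum_le_sum fun j _ => hs j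
    refine h1.trans (sum_le_sum_of_subset ?_)
    intro j hj
    rw [mem_filter]
    refine ⟨mem_univ _, hmax j hj, ?_⟩
    rw [(hX j hj).1]
    linarith [(hX v hv).2, h.1 j]

theorem wr_le {m n : ℕ} {s : Fin n → ℕ} {t : Fin n → ℝ} {σ : Schedule n}
    (h : Feasible m s t σ) (θ : ℝ) : (wr s t σ θ : ℝ) ≤ m := by
  have := AREaux.width h θ
  unfold wr
  exact_mod_cast this

theorem final {m δ ε S P : ℝ} (hm : 2 ≤ m) (hδ0 : 0 < δ) (hδ1 : δ < 1) (hε0 : 0 < ε)
    (hε1 : ε < δ / (16 * m)) (hS : 1 - 1 / m + δ / (2 * m) - ε ≤ S) (hP : P ≤ 1 + ε) :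
    (2 - 1 / m + δ / (4 * m)) * P < S + 1 := by
  have hm0 : 0 < m := by linarith
  have e1 : δ / (4 * m) = 4 * (δ / (16 * m)) := by field_simp; ring
  have e2 : δ / (2 * m) = 8 * (δ / (16 * m)) := by field_simp; ring
  have h1 : 0 < δ / (16 * m) := by positivity
  have h2 : 1 / m ≤ 1 / 2 := one_div_le_one_div_of_le (by norm_num) hm
  have h3 : 0 < 1 / m := by positivity
  have h4 : δ / (16 * m) < 1 / 4 := by
    rw [div_lt_iff₀ (by linarith)]
    nlinarith
  rw [e2] at hS
  rw [e1]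
  set u := δ / (16 * m) with hu
  have hC0 : 0 ≤ 2 - 1 / m + 4 * u := by linarith
  have hC1 : 2 - 1 / m + 4 * u ≤ 3 := by linarith
  have h5 : (2 - 1 / m + 4 * u) * P ≤ (2 - 1 / m + 4 * u) * (1 + ε) :=
    mul_le_mul_of_nonneg_left hP hC0
  have h6 : (2 - 1 / m + 4 * u) * ε ≤ 3 * ε := mul_le_mul_of_nonneg_right hC1 hε0.le
  have h7 : (2 - 1 / m + 4 * u) * (1 + ε) = (2 - 1 / m + 4 * u) + (2 - 1 / m + 4 * u) * ε := by
    ring
  linarith

theorem low {m δ ε S K W c : ℝ} (hm : 2 ≤ m) (hε0 : 0 < ε) (hεK : ε * K = m - 1 - W)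
    (hW : W ≤ (m - 1) * δ + c) (hc : c ≤ δ / 2) (h : (K + 1) * ε ≤ m * (S + ε - δ)) :
    1 - 1 / m + δ / (2 * m) - ε ≤ S := by
  have hm0 : 0 < m := by linarith
  refine le_of_mul_le_mul_right ?_ hm0
  have e : (1 - 1 / m + δ / (2 * m) - ε) * m = m - 1 + δ / 2 - ε * m := by
    field_simp
  rw [e]
  nlinarith

theorem small {m δ ε K W : ℝ} (hm : 2 ≤ m) (hδ0 : 0 < δ) (hε0 : 0 < ε)
    (hεK : ε * K = m - 1 - W) (hW0 : 0 ≤ W) (hK : 16 * m ^ 2 / δ + 1 ≤ K) :
    ε < δ / (16 * m) := by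
  have hm0 : 0 < m := by linarith
  rw [lt_div_iff₀ (by linarith)]
  have h1 : 16 * m ^ 2 / δ < K := by linarith
  have h2 : 16 * m ^ 2 < K * δ := by rwa [div_lt_iff₀ hδ0] at h1
  have h3 : ε * (16 * m ^ 2) < ε * (K * δ) := mul_lt_mul_of_pos_left h2 hε0
  have h4 : ε * (K * δ) = (m - 1 - W) * δ := by rw [← mul_assoc, hεK]
  have h5 : (m - 1 - W) * δ ≤ m * δ := mul_le_mul_of_nonneg_right (by linarith) hδ0.le
  have h6 : ε * (16 * m) * m < δ * m := by
    calc ε * (16 * m) * m = ε * (16 * m ^ 2) := by ring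
      _ < (m - 1 - W) * δ := by rw [← h4]; exact h3
      _ ≤ δ * m := by linarith
  exact lt_of_mul_lt_mul_right h6 hm0.le

end IDLaux

open IDLaux in
theorem t_IDL : M_IDL := by
  intro hGAR hOPI m n s A i η τ δ t D F r B N hm hs hS hτδ hδ0 hδ1 hidle hB hBδ hη hiη hN hN'
  classical
  set σ := A.run t with hσ
  have hf : Feasible m s t σ := A.feasible t hS.nonneg
  have hmR : (2 : ℝ) ≤ m := by exact_mod_cast hm
  set X : Finset (Fin n) := univ.filter (fun j => j ∉ D ∧ σ.start j < δ) with hX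
  set E : Finset (Fin n) := D ∪ X with hE
  have hXm : ∀ j, j ∉ D → σ.start j < δ → j ∈ X := fun j h1 h2 => by
    rw [hX, mem_filter]; exact ⟨mem_univ _, h1, h2⟩
  have hXc : X.card ≤ m := card_le hf (fun j => (hs j).1) X δ hδ1.le (by
    intro j hj
    rw [hX, mem_filter] at hj
    exact ⟨hS.live j hj.2.1, hj.2.2⟩)
  have hEc : E.card ≤ B := by
    calc E.card ≤ D.card + X.card := card_union_le _ _
      _ ≤ m * i + m := Nat.add_le_add hS.few hXc
      _ = m * (i + 1) := by ring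
      _ ≤ B := hB
  have hpD : ∀ j ∈ D, pj t σ δ j = t j := by
    intro j hj
    have h1 := hS.killed j hj
    unfold pj
    exact min_eq_right (le_max_of_le_left (by linarith))
  have hpX : ∀ j ∈ X, pj t σ δ j = δ - σ.start j := by
    intro j hj
    rw [hX, mem_filter] at hj
    have h1 := hS.live j hj.2.1
    have h2 := hf.1 j
    unfold pj
    rw [h1, max_eq_left (by linarith [hj.2.2]), min_eq_left (by linarith)]
  have hout : ∀ j, j ∉ E → t j = 1 ∧ δ ≤ σ.start j := by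
    intro j hj
    rw [hE, mem_union, not_or] at hj
    refine ⟨hS.live j hj.1, ?_⟩
    by_contra hc
    exact hj.2 (hXm j hj.1 (not_le.1 hc))
  have hp0 : ∀ j, j ∉ E → pj t σ δ j = 0 := by
    intro j hj
    obtain ⟨h1, h2⟩ := hout j hj
    unfold pj
    rw [h1, max_eq_right (by linarith), min_eq_left (by norm_num)]
  have hpn : ∀ j, 0 ≤ pj t σ δ j := fun j => pj_nonneg σ δ j (hS.nonneg j)
  have hpδ : ∀ j, pj t σ δ j ≤ δ := fun j =>
    (min_le_left _ _).trans (max_le (by linarith [hf.1 j]) hδ0.le)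
  -- the work
  set W : ℝ := ∑ j, (s j : ℝ) * pj t σ δ j with hWdef
  have hW0 : 0 ≤ W := sum_nonneg fun j _ => mul_nonneg (Nat.cast_nonneg _) (hpn j)
  have hW1 : W ≤ ((m : ℝ) - 1) * δ + i * η := by
    have h1 := hGAR n s t σ τ δ ((m : ℝ) - 1) hS.nonneg hτδ (by
      intro θ h1 h2
      have h3 : (wr s t σ θ : ℝ) + 1 ≤ m := by exact_mod_cast hidle θ h1 h2
      linarith)
    have h2 : ∑ j, (s j : ℝ) * (pj t σ δ j - pj t σ τ j) = W - ∑ j, (s j : ℝ) * pj t σ τ j := by
      rw [hWdef, ← sum_sub_distrib]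
      exact sum_congr rfl fun j _ => by ring
    have h3 := hS.work
    rw [h2] at h1
    linarith
  have hBm : (m : ℝ) ≤ B := by
    have h1 : m ≤ B := le_trans (Nat.le_mul_of_pos_right m (Nat.succ_pos i)) hB
    exact_mod_cast h1
  have hmδ : (m : ℝ) * δ ≤ 1 / (4 * m) := (mul_le_mul_of_nonneg_right hBm hδ0.le).trans hBδ
  have h4m : 1 / (4 * (m : ℝ)) ≤ 1 / 8 := one_div_le_one_div_of_le (by norm_num) (by linarith)
  have hWlt : W ≤ 1 / 8 := by linarith
  -- the sand
  set V : Finset (Fin n) := univ.filter (fun j => s j = 1 ∧ j ∉ E) with hV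
  have hVm : ∀ j, j ∈ V ↔ s j = 1 ∧ j ∉ E := fun j => by rw [hV, mem_filter]; simp
  have hVc : (N : ℝ) ≤ V.card + B := by
    have h1 : (univ.filter fun j => s j = 1) ⊆ V ∪ E := by
      intro j hj
      rw [mem_filter] at hj
      rw [mem_union]
      by_cases h : j ∈ E
      · exact Or.inr h
      · exact Or.inl ((hVm j).2 ⟨hj.2, h⟩)
    have h2 := (card_le_card h1).trans (card_union_le _ _)
    have h3 : N ≤ V.card + B := by omega
    exact_mod_cast h3
  set K : ℝ := (V.card : ℝ) - 1 with hKdef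
  have hK : 16 * (m : ℝ) ^ 2 / δ + 1 ≤ K := by linarith
  have hK1 : 0 ≤ 16 * (m : ℝ) ^ 2 / δ := by positivity
  have hK0 : 0 < K := by linarith
  set ε : ℝ := ((m : ℝ) - 1 - W) / K with hεdef
  have hε0 : 0 < ε := div_pos (by linarith) hK0
  have hεK : ε * K = (m : ℝ) - 1 - W := div_mul_cancel₀ _ hK0.ne'
  have hε1 : ε < δ / (16 * m) := small hmR hδ0 hε0 hεK hW0 hK
  have hε2 : ε ≤ 1 := by
    have h1 : δ / (16 * m) ≤ 1 := by
      rw [div_le_one (by linarith)]
      linarith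
    linarith
  -- the first change
  set t₁ : Fin n → ℝ := fun j => if j ∈ E then pj t σ δ j else if s j = 1 then ε else 0 with ht₁
  have ht₁E : ∀ j ∈ E, t₁ j = pj t σ δ j := fun j hj => by simp only [ht₁, hj, if_true]
  have ht₁V : ∀ j ∈ V, t₁ j = ε := fun j hj => by
    have := (hVm j).1 hj
    simp only [ht₁, this.1, this.2, if_true, if_false]
  have ht₁n : ∀ j, 0 ≤ t₁ j := by
    intro j
    simp only [ht₁]
    split_ifs
    exacts [hpn j, hε0.le, le_rfl]
  have ag1 := run_agree A t t₁ hS.nonneg ht₁n δ (by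
    intro j hj
    by_cases hD : j ∈ D
    · left
      rw [ht₁E j (mem_union_left _ hD)]
      exact hpD j hD
    · right
      have hjX := hXm j hD hj
      rw [ht₁E j (mem_union_right _ hjX), hpX j hjX, hS.live j hD]
      exact ⟨by linarith [hf.1 j], by linarith⟩)
  set σ₁ := A.run t₁ with hσ₁
  have hf1 : Feasible m s t₁ σ₁ := A.feasible t₁ ht₁n
  have hs₁ : ∀ j, j ∉ E → δ ≤ σ₁.start j := fun j hj => (ag1 j).2 (hout j hj).2
  have hVne : V.Nonempty := by
    rw [← card_pos]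
    have : (0 : ℝ) < V.card := by linarith
    exact_mod_cast this
  obtain ⟨v, hv, hmax⟩ := exists_max_image V σ₁.start hVne
  have hv1 := (hVm v).1 hv
  set S := σ₁.start v with hSdef
  have hSδ : δ ≤ S := hs₁ v hv1.2
  have hG := hGAR n s t₁ σ₁ δ (S + ε) m ht₁n (by linarith) (fun θ _ _ => wr_le hf1 θ)
  have hlow : (V.card : ℝ) * ε ≤
      ∑ j, (s j : ℝ) * (pj t₁ σ₁ (S + ε) j - pj t₁ σ₁ δ j) := by
    have h1 : (V.card : ℝ) * ε ≤ ∑ j ∈ V, (s j : ℝ) * (pj t₁ σ₁ (S + ε) j - pj t₁ σ₁ δ j) := by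
      rw [← nsmul_eq_mul, ← sum_const]
      refine sum_le_sum fun j hj => ?_
      have hj1 := (hVm j).1 hj
      have e1 : pj t₁ σ₁ (S + ε) j = ε := by
        unfold pj
        rw [ht₁V j hj]
        exact min_eq_right (le_max_of_le_left (by linarith [hmax j hj]))
      have e2 : pj t₁ σ₁ δ j = 0 := by
        unfold pj
        rw [ht₁V j hj, max_eq_right (by linarith [hs₁ j hj1.2]), min_eq_left hε0.le]
      rw [e1, e2, hj1.1]
      simp
    refine h1.trans (sum_le_univ_sum_of_nonneg fun j => ?_)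
    exact mul_nonneg (Nat.cast_nonneg _) (sub_nonneg.2 (pj_mono _ _ (by linarith) j))
  have hSlow : 1 - 1 / (m : ℝ) + δ / (2 * m) - ε ≤ S := by
    refine low hmR hε0 hεK hW1 hiη ?_
    have e : K + 1 = V.card := by rw [hKdef]; ring
    rw [e]
    exact hlow.trans hG
  -- the second change
  set t' : Fin n → ℝ := Function.update t₁ v 1 with ht'
  have ht'v : t' v = 1 := Function.update_self v 1 t₁
  have ht'o : ∀ j, j ≠ v → t' j = t₁ j := fun j hj => Function.update_of_ne hj 1 t₁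
  have ht'n : ∀ j, 0 ≤ t' j := by
    intro j
    by_cases hj : j = v
    · rw [hj, ht'v]; norm_num
    · rw [ht'o j hj]; exact ht₁n j
  have ag2 := run_agree A t₁ t' ht₁n ht'n (S + ε) (by
    intro j _
    by_cases hj : j = v
    · right
      rw [hj, ht'v, ht₁V v hv]
      exact ⟨le_rfl, by linarith⟩
    · left
      exact ht'o j hj) v
  have hstart : (A.run t').start v = S := (ag2.1 (by linarith)).1
  have hmake : S + 1 ≤ makespan t' (A.run t') := by
    have := AREaux.le_make t' (A.run t') v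
    rw [hstart, ht'v] at this
    exact this
  refine ⟨t', ht'n, ?_⟩
  have hP : OPT m s t' ≤ 1 + ε := by
    refine hOPI m n s t' E v ε hm hs ht'n hε0 hv1.2 hv1.1 ht'v ?_ ?_ ?_
    · intro j hj hjv
      rw [ht'o j hjv]
      by_cases h1 : s j = 1
      · exact Or.inl ⟨h1, ht₁V j ((hVm j).2 ⟨h1, hj⟩)⟩
      · right
        simp only [ht₁, hj, h1, if_false]
    · have h1 : ∑ j ∈ E, t' j ≤ ∑ _j ∈ E, δ := by
        refine sum_le_sum fun j hj => ?_
        rw [ht'o j (fun h => hv1.2 (h ▸ hj)), ht₁E j hj]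
        exact hpδ j
      rw [sum_const, nsmul_eq_mul] at h1
      have h2 : (E.card : ℝ) * δ ≤ B * δ :=
        mul_le_mul_of_nonneg_right (by exact_mod_cast hEc) hδ0.le
      linarith
    · have h1 : ∀ j ∈ univ.erase v, (s j : ℝ) * t' j =
          (s j : ℝ) * pj t σ δ j + if j ∈ V then ε else 0 := by
        intro j hj
        have hjv := (mem_erase.1 hj).1
        rw [ht'o j hjv]
        by_cases hjE : j ∈ E
        · have hjV : j ∉ V := fun h => ((hVm j).1 h).2 hjE
          rw [ht₁E j hjE, if_neg hjV, add_zero]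
        · rw [hp0 j hjE, mul_zero, zero_add]
          by_cases h1 : s j = 1
          · have hjV : j ∈ V := (hVm j).2 ⟨h1, hjE⟩
            rw [ht₁V j hjV, if_pos hjV, h1]
            simp
          · have hjV : j ∉ V := fun h => h1 ((hVm j).1 h).1
            rw [if_neg hjV]
            simp only [ht₁, hjE, h1, if_false, mul_zero]
      rw [sum_congr rfl h1, sum_add_distrib]
      have h2 : ∑ j ∈ univ.erase v, (s j : ℝ) * pj t σ δ j ≤ W :=
        sum_le_sum_of_subset_of_nonneg (erase_subset _ _)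
          fun j _ _ => mul_nonneg (Nat.cast_nonneg _) (hpn j)
      have h3 : (∑ j ∈ univ.erase v, if j ∈ V then ε else 0) = K * ε := by
        rw [← sum_filter]
        have e : (univ.erase v).filter (fun j => j ∈ V) = V.erase v := by
          ext j
          simp [mem_erase, mem_filter]
        rw [e, sum_const, nsmul_eq_mul, card_erase_of_mem hv,
          Nat.cast_sub (card_pos.2 hVne), Nat.cast_one]
      rw [h3]
      linarith
  exact lt_of_lt_of_le (final hmR hδ0 hδ1 hε0 hε1 hSlow hP) hmake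

end Pool.Agent.SMA
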