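import Pool.Agent.SMA.StmtsB

/-!
# Non-clairvoyant scheduling on small linear arrays (MP_e25616_lc): module INS
-/

set_option autoImplicit false

namespace Pool.Agent.SMA

open Finset Pool.Agent.BSR

namespace INSaux

/-- the number of the elements of `Fin n` in one fibre of the first projection -/
theorem card_fib {m : ℕ} (c : Fin m → ℕ) (w : Fin m) :
    (univ.filter fun j : Fin (Fintype.card (Σ v : Fin m, Fin (c v))) =>
      (((Fintype.equivFin (Σ v : Fin m, Fin (c v))).symm j).1 : ℕ) = w.val).card = c w := by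
  classical
  have h := Finset.card_bij (s := (univ : Finset (Fin (c w))))
    (t := univ.filter fun j : Fin (Fintype.card (Σ v : Fin m, Fin (c v))) =>
      (((Fintype.equivFin (Σ v : Fin m, Fin (c v))).symm j).1 : ℕ) = w.val)
    (fun a _ => (Fintype.equivFin (Σ v : Fin m, Fin (c v))) ⟨w, a⟩)
    (fun a _ => by simp) (fun a _ b _ h => by simpa using h) (fun j hj => by
      rw [mem_filter] at hj
      obtain ⟨x, rfl⟩ := (Fintype.equivFin (Σ v : Fin m, Fin (c v))).surjective j
      obtain ⟨v, b⟩ := x
      have h1 : v.val = w.val := by simpa using hj.2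
      have h2 : v = w := Fin.ext h1
      subst h2
      exact ⟨b, mem_univ _, rfl⟩)
  rw [← h, card_univ, Fintype.card_fin]

end INSaux

theorem t_INS : S_INS := by
  classical
  intro m N r hm
  let c : Fin m → ℕ := fun v => if v.val = 0 then 0 else if v.val = 1 then N else r v.val
  refine ⟨Fintype.card (Σ v : Fin m, Fin (c v)),
    fun j => (((Fintype.equivFin (Σ v : Fin m, Fin (c v))).symm j).1 : ℕ), fun j => ⟨?_, ?_⟩,
    fun w h2 hw => ?_, ?_⟩
  · have h0 := ((Fintype.equivFin (Σ v : Fin m, Fin (c v))).symm j).2.isLt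
    by_contra h1
    have h2 : (((Fintype.equivFin (Σ v : Fin m, Fin (c v))).symm j).1 : ℕ) = 0 := by
      have h3 : ¬ 1 ≤ (((Fintype.equivFin (Σ v : Fin m, Fin (c v))).symm j).1 : ℕ) := h1
      omega
    have h3 : c ((Fintype.equivFin (Σ v : Fin m, Fin (c v))).symm j).1 = 0 := by
      change (if _ = 0 then 0 else _) = 0
      rw [if_pos h2]
    omega
  · exact ((Fintype.equivFin (Σ v : Fin m, Fin (c v))).symm j).1.isLt
  · have h := INSaux.card_fib c ⟨w, hw⟩
    have h3 : c ⟨w, hw⟩ = r w := by
      change (if w = 0 then 0 else if w = 1 then N else r w) = r w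
      rw [if_neg (by omega), if_neg (by omega)]
    rw [h3] at h
    exact h
  · have h := INSaux.card_fib c ⟨1, by omega⟩
    have h3 : c ⟨1, by omega⟩ = N := by
      change (if 1 = 0 then 0 else if 1 = 1 then N else r 1) = N
      rw [if_neg (by omega), if_pos rfl]
    rw [h3] at h
    exact h

end Pool.Agent.SMA
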