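import Pool.Agent.SMA.StmtsB

/-!
# SMA, KER: the kernel check of the finite part

Five evaluations of the game checker `go`, for `m = 5, 6, 7, 8, 10`.
-/

set_option autoImplicit false

namespace Pool.Agent.SMA

open Finset Pool.Agent.BSR

namespace KERaux

set_option maxRecDepth 100000 in
theorem k5 : go 5 [1, 2, 3, 4] 3 [0, 0, 2, 1, 1] = true := by decide +kernel

set_option maxRecDepth 100000 in
theorem k6 : go 6 [1, 2, 3, 5] 2 [0, 0, 3, 2, 0, 1] = true := by decide +kernel

set_option maxRecDepth 100000 in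
theorem k7 : go 7 [1, 2, 3] 3 [0, 0, 3, 2] = true := by decide +kernel

set_option maxRecDepth 100000 in
theorem k8 : go 8 [1, 2, 3, 7] 2 [0, 0, 2, 2, 0, 0, 0, 1] = true := by decide +kernel

set_option maxRecDepth 100000 in
theorem k10 : go 10 [1, 2, 3] 2 [0, 0, 2, 3] = true := by decide +kernel

end KERaux

/-- **KER**. -/
theorem t_KER : S_KER :=
  ⟨KERaux.k5, KERaux.k6, KERaux.k7, KERaux.k8, KERaux.k10⟩

end Pool.Agent.SMA
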