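import Pool.Agent.SMA.StmtsB

/-!
# An offline schedule for the danger case (module OPD)
-/

set_option autoImplicit false

namespace Pool.Agent.SMA

open Finset Pool.Agent.BSR

namespace OPDaux

/-- the sum over the members of a set which are smaller than `j`, together with `j`, is at most the sum over the
members which are smaller than `i`, if `j < i` -/
theorem sum_lt {n : ℕ} {M : Type*} [AddCommMonoid M] [PartialOrder M] [IsOrderedAddMonoid M] (S : Finset (Fin n))
    (f : Fin n → M) (hf : ∀ j, 0 ≤ f j) (j i : Fin n) (hj : j ∈ S) (hji : j < i) :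
    (∑ k ∈ S.filter fun k => k < j, f k) + f j ≤ ∑ k ∈ S.filter fun k => k < i, f k := by
  classical
  have h1 : j ∉ S.filter fun k => k < j := by simp
  have h2 : insert j (S.filter fun k => k < j) ⊆ S.filter fun k => k < i := by
    intro x hx
    rw [mem_insert] at hx
    rw [mem_filter]
    rcases hx with rfl | hx
    · exact ⟨hj, hji⟩
    · rw [mem_filter] at hx
      exact ⟨hx.1, hx.2.trans hji⟩
  have h3 := sum_le_sum_of_subset_of_nonneg h2 (fun x _ _ => hf x)
  rw [sum_insert h1] at h3
  rwa [add_comm] at h3

/-- the same with the sum over all the members -/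
theorem sum_le {n : ℕ} {M : Type*} [AddCommMonoid M] [PartialOrder M] [IsOrderedAddMonoid M] (S : Finset (Fin n))
    (f : Fin n → M) (hf : ∀ j, 0 ≤ f j) (j : Fin n) (hj : j ∈ S) :
    (∑ k ∈ S.filter fun k => k < j, f k) + f j ≤ ∑ k ∈ S, f k := by
  classical
  have h1 : j ∉ S.filter fun k => k < j := by simp
  have h2 : insert j (S.filter fun k => k < j) ⊆ S := by
    intro x hx
    rw [mem_insert] at hx
    rcases hx with rfl | hx
    · exact hj
    · exact (mem_filter.1 hx).1
  have h3 := sum_le_sum_of_subset_of_nonneg h2 (fun x _ _ => hf x)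
  rw [sum_insert h1] at h3
  rwa [add_comm] at h3

/-- the optimum is at most the makespan of a feasible schedule -/
theorem opt_le {m n : ℕ} (s : Fin n → ℕ) (t : Fin n → ℝ) (ht : ∀ j, 0 ≤ t j) (σ : Schedule n)
    (hσ : Feasible m s t σ) : OPT m s t ≤ makespan t σ := by
  refine csInf_le ⟨0, ?_⟩ ⟨σ, hσ, rfl⟩
  rintro x ⟨ρ, hρ, rfl⟩
  exact Real.iSup_nonneg fun j => add_nonneg (hρ.1 j) (ht j)

open Classical in
/-- the schedule -/
noncomputable def sch {n : ℕ} (s : Fin n → ℕ) (t : Fin n → ℝ) (X D : Finset (Fin n)) : Schedule n where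
  start j := if j ∈ D then 1 + ∑ i ∈ D.filter (fun i => i < j), t i else 0
  pos j := if j ∈ X then ∑ i ∈ X.filter (fun i => i < j), s i else 0

end OPDaux

open OPDaux

/-- **OPD**, an offline schedule for the danger case. -/
theorem t_OPD : S_OPD := by
  classical
  intro m n s t X D κ hs ht hXD hX1 hXm h0 hD hκ
  have hst : ∀ j, 0 ≤ (sch s t X D).start j := by
    intro j
    unfold sch
    by_cases hj : j ∈ D
    · simp only [hj, if_true]
      have := sum_nonneg (s := D.filter fun i => i < j) (f := t) fun i _ => ht i
      linarith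
    · simp only [hj, if_false]
      exact le_refl _
  have hfe : Feasible m s t (sch s t X D) := by
    refine ⟨hst, fun j => ?_, ?_⟩
    · unfold sch
      by_cases hj : j ∈ X
      · simp only [hj, if_true]
        exact (sum_le X s (fun _ => Nat.zero_le _) j hj).trans hXm
      · simp only [hj, if_false, zero_add]
        exact hs j
    · -- the members of one of the two sets
      have hmem : ∀ (j : Fin n) (τ : ℝ), (sch s t X D).start j ≤ τ → τ < (sch s t X D).start j + t j →
          (j ∈ X ∧ τ < 1) ∨ (j ∈ D ∧ 1 ≤ τ) := by
        intro j τ h1 h2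
        by_cases hjX : j ∈ X
        · left
          have hjD : j ∉ D := disjoint_left.1 hXD hjX
          refine ⟨hjX, ?_⟩
          have h3 : (sch s t X D).start j = 0 := by simp [sch, hjD]
          rw [h3] at h2
          linarith [hX1 j hjX]
        · by_cases hjD : j ∈ D
          · right
            refine ⟨hjD, le_trans ?_ h1⟩
            have h3 : (sch s t X D).start j = 1 + ∑ i ∈ D.filter (fun i => i < j), t i := by
              simp [sch, hjD]
            rw [h3]
            have := sum_nonneg (s := D.filter fun i => i < j) (f := t) fun i _ => ht i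
            linarith
          · have := h0 j hjX hjD
            linarith
      -- one case
      have hlt : ∀ i j : Fin n, i < j → ∀ τ : ℝ, (sch s t X D).start i ≤ τ →
          τ < (sch s t X D).start i + t i → (sch s t X D).start j ≤ τ →
          τ < (sch s t X D).start j + t j →
          (sch s t X D).pos i + s i ≤ (sch s t X D).pos j := by
        intro i j hij τ h1 h2 h3 h4
        rcases hmem i τ h1 h2 with ⟨hi, h5⟩ | ⟨hi, h5⟩ <;> rcases hmem j τ h3 h4 with ⟨hj, h6⟩ | ⟨hj, h6⟩
        · have h7 : (sch s t X D).pos i = ∑ k ∈ X.filter (fun k => k < i), s k := by simp [sch, hi]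
          have h8 : (sch s t X D).pos j = ∑ k ∈ X.filter (fun k => k < j), s k := by simp [sch, hj]
          rw [h7, h8]
          exact sum_lt X s (fun _ => Nat.zero_le _) i j hi hij
        · linarith
        · linarith
        · exfalso
          have h7 : (sch s t X D).start i = 1 + ∑ k ∈ D.filter (fun k => k < i), t k := by simp [sch, hi]
          have h8 : (sch s t X D).start j = 1 + ∑ k ∈ D.filter (fun k => k < j), t k := by simp [sch, hj]
          have h9 := sum_lt D t ht i j hi hij
          rw [h7] at h2
          rw [h8] at h3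
          linarith
      intro i j hij τ h1 h2 h3 h4
      rcases lt_or_gt_of_ne hij with h5 | h5
      · exact Or.inl (hlt i j h5 τ h1 h2 h3 h4)
      · exact Or.inr (hlt j i h5 τ h3 h4 h1 h2)
  refine (opt_le s t ht _ hfe).trans ?_
  refine Real.iSup_le (fun j => ?_) (by linarith)
  by_cases hjD : j ∈ D
  · have h3 : (sch s t X D).start j = 1 + ∑ i ∈ D.filter (fun i => i < j), t i := by simp [sch, hjD]
    have h4 := sum_le D t ht j hjD
    rw [h3]
    linarith
  · have h3 : (sch s t X D).start j = 0 := by simp [sch, hjD]
    rw [h3]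
    by_cases hjX : j ∈ X
    · linarith [hX1 j hjX]
    · linarith [h0 j hjX hjD]

end Pool.Agent.SMA
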