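import Pool.Agent.SMA.StmtsB

/-!
# Project SMA: an offline schedule for the idle finale (module OPI)
-/

set_option autoImplicit false

namespace Pool.Agent.SMA

open Finset Pool.Agent.BSR

namespace OPIaux

/-- the order of the jobs of `E`: decreasing width -/
def Bf {n : ℕ} (s : Fin n → ℕ) (a b : Fin n) : Prop := s b < s a ∨ (s a = s b ∧ a < b)

instance {n : ℕ} (s : Fin n → ℕ) (a b : Fin n) : Decidable (Bf s a b) :=
  inferInstanceAs (Decidable (_ ∨ _))

/-- the start of the job `e` of `E` -/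
noncomputable def stE {n : ℕ} (s : Fin n → ℕ) (t : Fin n → ℝ) (E : Finset (Fin n)) (e : Fin n) : ℝ :=
  ∑ a ∈ E with Bf s a e, t a

/-- the time until which the machine `i` is used by the jobs of `E` -/
noncomputable def cc {n : ℕ} (s : Fin n → ℕ) (t : Fin n → ℝ) (E : Finset (Fin n)) (i : ℕ) : ℝ :=
  ∑ a ∈ E with i < s a, t a

theorem stE_nonneg {n : ℕ} (s : Fin n → ℕ) (t : Fin n → ℝ) (E : Finset (Fin n)) (ht : ∀ j, 0 ≤ t j)
    (e : Fin n) : 0 ≤ stE s t E e := Finset.sum_nonneg fun a _ => ht a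

theorem cc_nonneg {n : ℕ} (s : Fin n → ℕ) (t : Fin n → ℝ) (E : Finset (Fin n)) (ht : ∀ j, 0 ≤ t j)
    (i : ℕ) : 0 ≤ cc s t E i := Finset.sum_nonneg fun a _ => ht a

theorem cc_le {n : ℕ} (s : Fin n → ℕ) (t : Fin n → ℝ) (E : Finset (Fin n)) (ht : ∀ j, 0 ≤ t j)
    (i : ℕ) : cc s t E i ≤ ∑ j ∈ E, t j :=
  Finset.sum_le_sum_of_subset_of_nonneg (Finset.filter_subset _ _) fun a _ _ => ht a

theorem stE_add_le {n : ℕ} (s : Fin n → ℕ) (t : Fin n → ℝ) (E : Finset (Fin n)) (ht : ∀ j, 0 ≤ t j)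
    (e : Fin n) (he : e ∈ E) (S : Finset (Fin n)) (heS : e ∈ S)
    (hS : ∀ a ∈ E, Bf s a e → a ∈ S) : stE s t E e + t e ≤ ∑ a ∈ S, t a := by
  have h1 : e ∉ E.filter fun a => Bf s a e := by
    rw [Finset.mem_filter]
    rintro ⟨_, h | h⟩
    · exact lt_irrefl _ h
    · exact lt_irrefl _ h.2
  have h2 : stE s t E e + t e = ∑ a ∈ insert e (E.filter fun a => Bf s a e), t a := by
    rw [Finset.sum_insert h1, add_comm]
    rfl
  rw [h2]
  refine Finset.sum_le_sum_of_subset_of_nonneg ?_ fun a _ _ => ht a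
  intro a ha
  rw [Finset.mem_insert, Finset.mem_filter] at ha
  rcases ha with rfl | ha
  · exact heS
  · exact hS a ha.1 ha.2

theorem stE_le_cc {n : ℕ} (s : Fin n → ℕ) (t : Fin n → ℝ) (E : Finset (Fin n)) (ht : ∀ j, 0 ≤ t j)
    (e : Fin n) (he : e ∈ E) (i : ℕ) (hi : i < s e) : stE s t E e + t e ≤ cc s t E i := by
  refine stE_add_le s t E ht e he _ (Finset.mem_filter.2 ⟨he, hi⟩) fun a ha hb => ?_
  rw [Finset.mem_filter]
  refine ⟨ha, ?_⟩
  rcases hb with h | h
  · omega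
  · have := h.1
    omega

theorem stE_le_stE {n : ℕ} (s : Fin n → ℕ) (t : Fin n → ℝ) (E : Finset (Fin n)) (ht : ∀ j, 0 ≤ t j)
    (e f : Fin n) (he : e ∈ E) (h : Bf s e f) : stE s t E e + t e ≤ stE s t E f := by
  refine stE_add_le s t E ht e he _ (Finset.mem_filter.2 ⟨he, h⟩) fun a ha hb => ?_
  rw [Finset.mem_filter]
  refine ⟨ha, ?_⟩
  rcases hb with h1 | h1 <;> rcases h with h2 | h2
  · exact Or.inl (h2.trans h1)
  · exact Or.inl (by omega)
  · exact Or.inl (by omega)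
  · exact Or.inr ⟨h1.1.trans h2.1, h1.2.trans h2.2⟩

theorem bf_total {n : ℕ} (s : Fin n → ℕ) (e f : Fin n) (h : e ≠ f) : Bf s e f ∨ Bf s f e := by
  rcases lt_trichotomy (s e) (s f) with h1 | h1 | h1
  · exact Or.inr (Or.inl h1)
  · rcases lt_or_gt_of_ne h with h2 | h2
    · exact Or.inl (Or.inr ⟨h1, h2⟩)
    · exact Or.inr (Or.inr ⟨h1.symm, h2⟩)
  · exact Or.inl (Or.inl h1)

theorem sum_cc {n : ℕ} (s : Fin n → ℕ) (t : Fin n → ℝ) (E : Finset (Fin n)) (M : ℕ)
    (hs : ∀ j, s j ≤ M) : ∑ i : Fin M, cc s t E i = ∑ e ∈ E, (s e : ℝ) * t e := by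
  unfold cc
  simp only [Finset.sum_filter]
  rw [Finset.sum_comm]
  refine Finset.sum_congr rfl fun e _ => ?_
  rw [← Finset.sum_filter, Finset.sum_const, nsmul_eq_mul]
  congr 2
  have h1 : (univ.filter fun i : Fin M => (i : ℕ) < s e).card = (Finset.range (s e)).card := by
    refine Finset.card_bij (fun i _ => (i : ℕ)) ?_ ?_ ?_
    · intro i hi
      rw [Finset.mem_filter] at hi
      exact Finset.mem_range.2 hi.2
    · intro i _ j _ hij
      exact Fin.ext hij
    · intro k hk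
      rw [Finset.mem_range] at hk
      exact ⟨⟨k, hk.trans_le (hs e)⟩, Finset.mem_filter.2 ⟨Finset.mem_univ _, hk⟩, rfl⟩
  rw [h1, Finset.card_range]

end OPIaux

open OPIaux in
theorem t_OPI : S_OPI := by
  classical
  intro m n s t E v ε hm hs ht hε hvE hsv htv hoth hE1 hwork
  set D : Finset (Fin n) := univ.filter fun j => j ∉ E ∧ j ≠ v ∧ s j = 1 ∧ t j = ε with hD
  have hDmem : ∀ j, j ∈ D ↔ (j ∉ E ∧ j ≠ v ∧ s j = 1 ∧ t j = ε) := fun j => by
    rw [hD, Finset.mem_filter]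
    exact ⟨fun h => h.2, fun h => ⟨Finset.mem_univ _, h⟩⟩
  set M := m - 1 with hM
  have hmM : m = M + 1 := by omega
  have hmr : (m : ℝ) - 1 = (M : ℝ) := by
    rw [hmM]
    push_cast
    ring
  have hsM : ∀ j, s j ≤ M := fun j => by
    have := (hs j).2
    omega
  let c : ℕ → ℝ := cc s t E
  let a : Fin M → ℕ := fun i => ⌊(1 - c i) / ε⌋₊ + 1
  have hc1 : ∀ i, c i ≤ 1 := fun i => (cc_le s t E ht i).trans hE1
  have hc0 : ∀ i, 0 ≤ c i := fun i => cc_nonneg s t E ht i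
  have ha : ∀ i : Fin M, (1 - c i) / ε ≤ (a i : ℝ) := fun i => by
    show (1 - c i) / ε ≤ ((⌊(1 - c i) / ε⌋₊ + 1 : ℕ) : ℝ)
    push_cast
    exact (Nat.lt_floor_add_one _).le
  have hcard : D.card ≤ Fintype.card (Σ i : Fin M, Fin (a i)) := by
    rw [Fintype.card_sigma]
    simp only [Fintype.card_fin]
    have h1 : (D.card : ℝ) * ε = ∑ j ∈ D, (s j : ℝ) * t j := by
      rw [← nsmul_eq_mul, ← Finset.sum_const]
      refine Finset.sum_congr rfl fun j hj => ?_
      have := (hDmem j).1 hj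
      rw [this.2.2.1, this.2.2.2, Nat.cast_one, one_mul]
    have h2 : ∑ j ∈ D, (s j : ℝ) * t j + ∑ j ∈ E, (s j : ℝ) * t j ≤
        ∑ j ∈ univ.erase v, (s j : ℝ) * t j := by
      rw [← Finset.sum_union]
      · refine Finset.sum_le_sum_of_subset_of_nonneg ?_ fun j _ _ =>
          mul_nonneg (Nat.cast_nonneg _) (ht j)
        intro j hj
        rw [Finset.mem_union] at hj
        refine Finset.mem_erase.2 ⟨?_, Finset.mem_univ _⟩
        rcases hj with hj | hj
        · exact ((hDmem j).1 hj).2.1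
        · rintro rfl
          exact hvE hj
      · rw [Finset.disjoint_left]
        intro j hj
        exact ((hDmem j).1 hj).1
    have h3 : ∑ i : Fin M, c i = ∑ e ∈ E, (s e : ℝ) * t e := sum_cc s t E M hsM
    have h4 : (D.card : ℝ) * ε ≤ M - ∑ i : Fin M, c i := by
      rw [h3, h1, ← hmr]
      linarith
    have h5 : (M - ∑ i : Fin M, c i) / ε ≤ ∑ i : Fin M, (a i : ℝ) := by
      have : (M - ∑ i : Fin M, c i) / ε = ∑ i : Fin M, (1 - c i) / ε := by
        rw [← Finset.sum_div, Finset.sum_sub_distrib]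
        simp
      rw [this]
      exact Finset.sum_le_sum fun i _ => ha i
    have h6 : (D.card : ℝ) ≤ (M - ∑ i : Fin M, c i) / ε := (le_div_iff₀ hε).2 h4
    have h7 : (D.card : ℝ) ≤ ((∑ i : Fin M, a i : ℕ) : ℝ) := by
      push_cast
      exact h6.trans h5
    exact_mod_cast h7
  have hcard' : Fintype.card D ≤ Fintype.card (Σ i : Fin M, Fin (a i)) := by
    rw [Fintype.card_coe]
    exact hcard
  obtain ⟨φ⟩ := Function.Embedding.nonempty_of_card_le hcard'
  let σ : Schedule n :=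
    { start := fun j => if j ∈ E then stE s t E j else
        if h : j ∈ D then c (φ ⟨j, h⟩).1 + ((φ ⟨j, h⟩).2 : ℕ) * ε else 0
      pos := fun j => if j ∈ E then 0 else
        if h : j ∈ D then ((φ ⟨j, h⟩).1 : ℕ) else if j = v then M else 0 }
  have hσE : ∀ j, j ∈ E → σ.start j = stE s t E j ∧ σ.pos j = 0 := fun j hj => by
    constructor
    · show (if j ∈ E then _ else _) = _
      rw [if_pos hj]
    · show (if j ∈ E then _ else _) = _
      rw [if_pos hj]
  have hσD : ∀ j (h : j ∈ D), σ.start j = c (φ ⟨j, h⟩).1 + ((φ ⟨j, h⟩).2 : ℕ) * ε ∧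
      σ.pos j = ((φ ⟨j, h⟩).1 : ℕ) := fun j h => by
    have hj : j ∉ E := ((hDmem j).1 h).1
    constructor
    · show (if j ∈ E then _ else _) = _
      rw [if_neg hj, dif_pos h]
    · show (if j ∈ E then _ else _) = _
      rw [if_neg hj, dif_pos h]
  have hvD : v ∉ D := fun h => ((hDmem v).1 h).2.1 rfl
  have hσv : σ.start v = 0 ∧ σ.pos v = M := by
    constructor
    · show (if v ∈ E then _ else _) = _
      rw [if_neg hvE, dif_neg hvD]
    · show (if v ∈ E then _ else _) = _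
      rw [if_neg hvE, dif_neg hvD, if_pos rfl]
  have hσo : ∀ j, j ∉ E → j ∉ D → j ≠ v → σ.start j = 0 ∧ σ.pos j = 0 ∧ t j = 0 := by
    intro j h1 h2 h3
    refine ⟨?_, ?_, ?_⟩
    · show (if j ∈ E then _ else _) = _
      rw [if_neg h1, dif_neg h2]
    · show (if j ∈ E then _ else _) = _
      rw [if_neg h1, dif_neg h2, if_neg h3]
    · rcases hoth j h1 h3 with h | h
      · exact absurd ((hDmem j).2 ⟨h1, h3, h.1, h.2⟩) h2
      · exact h
  have hcases : ∀ j, j ∈ E ∨ j ∈ D ∨ j = v ∨ (j ∉ E ∧ j ∉ D ∧ j ≠ v) := by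
    intro j
    by_cases h1 : j ∈ E
    · exact Or.inl h1
    · by_cases h2 : j ∈ D
      · exact Or.inr (Or.inl h2)
      · by_cases h3 : j = v
        · exact Or.inr (Or.inr (Or.inl h3))
        · exact Or.inr (Or.inr (Or.inr ⟨h1, h2, h3⟩))
  -- the asymmetric cases
  have hED : ∀ i j, i ∈ E → j ∈ D → ∀ τ : ℝ, τ < σ.start i + t i → σ.start j ≤ τ →
      σ.pos i + s i ≤ σ.pos j := by
    intro i j hi hj τ h1 h2
    rw [(hσE i hi).1] at h1
    rw [(hσD j hj).1] at h2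
    rw [(hσE i hi).2, (hσD j hj).2, zero_add]
    by_contra h3
    push Not at h3
    have h4 := stE_le_cc s t E ht i hi _ h3
    have h5 : (0 : ℝ) ≤ ((φ ⟨j, hj⟩).2 : ℕ) * ε := mul_nonneg (Nat.cast_nonneg _) hε.le
    have h6 : c ((φ ⟨j, hj⟩).1 : ℕ) = cc s t E ((φ ⟨j, hj⟩).1 : ℕ) := rfl
    linarith
  have hEv : ∀ i, i ∈ E → σ.pos i + s i ≤ σ.pos v := by
    intro i hi
    rw [(hσE i hi).2, hσv.2, zero_add]
    exact hsM i
  have hDv : ∀ i, i ∈ D → σ.pos i + s i ≤ σ.pos v := by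
    intro i hi
    rw [(hσD i hi).2, hσv.2, ((hDmem i).1 hi).2.2.1]
    exact (φ ⟨i, hi⟩).1.isLt
  have hEE : ∀ i j, i ∈ E → j ∈ E → i ≠ j → ∀ τ : ℝ, σ.start i ≤ τ → τ < σ.start i + t i →
      σ.start j ≤ τ → τ < σ.start j + t j → False := by
    intro i j hi hj hij τ h1 h2 h3 h4
    rw [(hσE i hi).1] at h1 h2
    rw [(hσE j hj).1] at h3 h4
    rcases bf_total s i j hij with h | h
    · have := stE_le_stE s t E ht i j hi h
      linarith
    · have := stE_le_stE s t E ht j i hj h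
      linarith
  have hDD : ∀ i j, i ∈ D → j ∈ D → i ≠ j → ∀ τ : ℝ, σ.start i ≤ τ → τ < σ.start i + t i →
      σ.start j ≤ τ → τ < σ.start j + t j → σ.pos i + s i ≤ σ.pos j ∨ σ.pos j + s j ≤ σ.pos i := by
    intro i j hi hj hij τ h1 h2 h3 h4
    rw [(hσD i hi).1] at h1 h2
    rw [(hσD j hj).1] at h3 h4
    rw [(hσD i hi).2, (hσD j hj).2, ((hDmem i).1 hi).2.2.1, ((hDmem j).1 hj).2.2.1]
    rw [((hDmem i).1 hi).2.2.2] at h2
    rw [((hDmem j).1 hj).2.2.2] at h4
    rcases lt_trichotomy ((φ ⟨i, hi⟩).1 : ℕ) ((φ ⟨j, hj⟩).1 : ℕ) with h | h | h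
    · exact Or.inl h
    · exfalso
      have h5 : ((φ ⟨i, hi⟩).2 : ℕ) ≠ ((φ ⟨j, hj⟩).2 : ℕ) := by
        intro h6
        apply hij
        have h7 : φ ⟨i, hi⟩ = φ ⟨j, hj⟩ := by
          have h8 : (φ ⟨i, hi⟩).1 = (φ ⟨j, hj⟩).1 := Fin.ext h
          refine Sigma.ext h8 ?_
          have h9 : ∀ (x y : Σ i : Fin M, Fin (a i)), x.1 = y.1 → (x.2 : ℕ) = (y.2 : ℕ) →
              HEq x.2 y.2 := by
            rintro ⟨x1, x2⟩ ⟨y1, y2⟩ h10 h11
            simp only at h10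
            subst h10
            exact heq_of_eq (Fin.ext h11)
          exact h9 _ _ h8 h6
        have h8 := φ.injective h7
        exact congrArg Subtype.val h8
      rw [h] at h1 h2
      rcases lt_or_gt_of_ne h5 with h6 | h6
      · have h7 : (((φ ⟨i, hi⟩).2 : ℕ) : ℝ) + 1 ≤ (((φ ⟨j, hj⟩).2 : ℕ) : ℝ) := by exact_mod_cast h6
        nlinarith
      · have h7 : (((φ ⟨j, hj⟩).2 : ℕ) : ℝ) + 1 ≤ (((φ ⟨i, hi⟩).2 : ℕ) : ℝ) := by exact_mod_cast h6
        nlinarith
    · exact Or.inr h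
  have hfeas : Feasible m s t σ := by
    refine ⟨fun j => ?_, fun j => ?_, ?_⟩
    · rcases hcases j with h | h | h | h
      · rw [(hσE j h).1]
        exact stE_nonneg s t E ht j
      · rw [(hσD j h).1]
        exact add_nonneg (hc0 _) (mul_nonneg (Nat.cast_nonneg _) hε.le)
      · rw [h, hσv.1]
      · rw [(hσo j h.1 h.2.1 h.2.2).1]
    · rcases hcases j with h | h | h | h
      · rw [(hσE j h).2]
        have := hsM j
        omega
      · rw [(hσD j h).2, ((hDmem j).1 h).2.2.1]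
        have := (φ ⟨j, h⟩).1.isLt
        omega
      · rw [h, hσv.2, hsv]
        omega
      · rw [(hσo j h.1 h.2.1 h.2.2).2.1]
        have := hsM j
        omega
    · intro i j hij τ h1 h2 h3 h4
      rcases hcases i with hi | hi | hi | hi
      · rcases hcases j with hj | hj | hj | hj
        · exact (hEE i j hi hj hij τ h1 h2 h3 h4).elim
        · exact Or.inl (hED i j hi hj τ h2 h3)
        · subst hj
          exact Or.inl (hEv i hi)
        · exfalso
          have := (hσo j hj.1 hj.2.1 hj.2.2).2.2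
          rw [this] at h4
          linarith
      · rcases hcases j with hj | hj | hj | hj
        · exact Or.inr (hED j i hj hi τ h4 h1)
        · exact hDD i j hi hj hij τ h1 h2 h3 h4
        · subst hj
          exact Or.inl (hDv i hi)
        · exfalso
          have := (hσo j hj.1 hj.2.1 hj.2.2).2.2
          rw [this] at h4
          linarith
      · subst hi
        rcases hcases j with hj | hj | hj | hj
        · exact Or.inr (hEv j hj)
        · exact Or.inr (hDv j hj)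
        · exact absurd hj.symm hij
        · exfalso
          have := (hσo j hj.1 hj.2.1 hj.2.2).2.2
          rw [this] at h4
          linarith
      · exfalso
        have := (hσo i hi.1 hi.2.1 hi.2.2).2.2
        rw [this] at h2
        linarith
  have hmk : makespan t σ ≤ 1 + ε := by
    haveI : Nonempty (Fin n) := ⟨v⟩
    refine ciSup_le fun j => ?_
    rcases hcases j with h | h | h | h
    · rw [(hσE j h).1]
      have h1 := stE_le_cc s t E ht j h 0 (hs j).1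
      have h2 := hc1 0
      have h3 : c 0 = cc s t E 0 := rfl
      linarith
    · rw [(hσD j h).1, ((hDmem j).1 h).2.2.2]
      have h1 : ((φ ⟨j, h⟩).2 : ℕ) ≤ ⌊(1 - c (φ ⟨j, h⟩).1) / ε⌋₊ := by
        have := (φ ⟨j, h⟩).2.isLt
        exact Nat.lt_succ_iff.1 this
      have h2 : (((φ ⟨j, h⟩).2 : ℕ) : ℝ) ≤ (1 - c (φ ⟨j, h⟩).1) / ε := by
        have h3 : (0 : ℝ) ≤ (1 - c (φ ⟨j, h⟩).1) / ε := div_nonneg (by linarith [hc1 (φ ⟨j, h⟩).1]) hε.le
        calc (((φ ⟨j, h⟩).2 : ℕ) : ℝ) ≤ (⌊(1 - c (φ ⟨j, h⟩).1) / ε⌋₊ : ℝ) := by exact_mod_cast h1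
          _ ≤ _ := Nat.floor_le h3
      have h3 := (le_div_iff₀ hε).1 h2
      linarith
    · rw [h, hσv.1, htv]
      linarith
    · rw [(hσo j h.1 h.2.1 h.2.2).1, (hσo j h.1 h.2.1 h.2.2).2.2]
      linarith
  refine le_trans (csInf_le ?_ ⟨σ, hfeas, rfl⟩) hmk
  refine ⟨0, ?_⟩
  rintro x ⟨σ', hσ', rfl⟩
  exact Pool.Agent.BSR.AREaux.make_nonneg ht hσ'.1

end Pool.Agent.SMA
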