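import Pool.Agent.SMA.StmtsB

/-!
# Module REC: the induction over the rounds
-/

set_option autoImplicit false

namespace Pool.Agent.SMA

open Finset Pool.Agent.BSR

namespace RECaux

theorem const_lt {m : ℕ} (hm : 2 ≤ m) {δ : ℝ} (h0 : 0 < δ) (h1 : δ < 1) :
    (2 - 1 / (m : ℝ) + δ / (4 * m)) * (1 + 1 / (4 * m)) < 2 ∧
      0 ≤ 2 - 1 / (m : ℝ) + δ / (4 * m) := by
  have hm' : (2 : ℝ) ≤ m := by exact_mod_cast hm
  have hmp : (0 : ℝ) < m := by linarith
  obtain ⟨u, hu⟩ : ∃ u : ℝ, u = 1 / (m : ℝ) := ⟨_, rfl⟩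
  have hu0 : 0 < u := by rw [hu]; positivity
  have hu1 : u ≤ 1 / 2 := by
    rw [hu]
    exact one_div_le_one_div_of_le (by norm_num) hm'
  have e1 : δ / (4 * m) = δ * u / 4 := by rw [hu]; field_simp
  have e2 : 1 / (4 * (m : ℝ)) = u / 4 := by rw [hu]; field_simp
  rw [e1, e2, ← hu]
  have h2 : 0 < δ * u := mul_pos h0 hu0
  have h3 : δ * u < u := by nlinarith
  constructor
  · nlinarith [mul_pos hu0 hu0, mul_pos h2 hu0]
  · linarith

end RECaux

theorem t_REC : M_REC := by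
  classical
  intro hDNG hIDL hSTA hSTB m n s A K₀ N η δ hm hs hδ0 hδ1 hB hη hN hN2 K
  have hmp : (0 : ℝ) < m := by
    have : 0 < m := by omega
    exact_mod_cast this
  obtain ⟨hc1, hc0⟩ := RECaux.const_lt hm hδ0 hδ1
  -- danger
  have hdng : ∀ (i : ℕ) (τ : ℝ) (t : Fin n → ℝ) (D : Finset (Fin n)) (F : List (ℕ × ℕ))
      (r : ℕ → ℕ), i ≤ K₀ → Stg m s A i η τ t D F r → τ ≤ δ → Dg m F r →
      ∃ t' : Fin n → ℝ, (∀ j, 0 ≤ t' j) ∧
        (2 - 1 / (m : ℝ) + δ / (4 * m)) * OPT m s t' < makespan t' (A.run t') := by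
    intro i τ t D F r hi hS hτ hD
    have h1 : (m : ℝ) * i * δ ≤ 1 / (4 * m) := by
      refine le_trans ?_ hB
      have h2 : ((m : ℝ) * i) ≤ ((m * (K₀ + 1) : ℕ) : ℝ) := by
        have : m * i ≤ m * (K₀ + 1) := Nat.mul_le_mul_left m (by omega)
        exact_mod_cast this
      exact mul_le_mul_of_nonneg_right h2 hδ0.le
    obtain ⟨t', ht', hmk, hopt⟩ := hDNG m n s A i η τ δ t D F r hm hs hS hτ hδ1 h1 hD
    refine ⟨t', ht', ?_⟩
    calc (2 - 1 / (m : ℝ) + δ / (4 * m)) * OPT m s t'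
        ≤ (2 - 1 / (m : ℝ) + δ / (4 * m)) * (1 + 1 / (4 * m)) :=
          mul_le_mul_of_nonneg_left hopt hc0
      _ < 2 := hc1
      _ ≤ _ := hmk
  induction K with
  | zero =>
    intro i τ t D F r hi hS hτ hW
    exact hdng i τ t D F r (by omega) hS hτ hW
  | succ K ih =>
    intro i τ t D F r hi hS hτ hW
    by_cases hD : Dg m F r
    · exact hdng i τ t D F r (by omega) hS hτ hD
    have hW2 : ∀ c : List ℕ, c.sum = m → (∀ w ∈ c, 1 ≤ w) → (∀ x ∈ F, x ∈ segs 0 c) →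
      (∀ s, 2 ≤ s → cnt s (segs 0 c) ≤ r s) →
      ∃ F' : List (ℕ × ℕ), F'.Sublist (segs 0 c) ∧
        Wn m K F' fun s => r s + cnt s F' - cnt s (segs 0 c) := by
      rcases hW with h | h
      · exact absurd h hD
      · exact h
    have hη0 : 0 < η := by rw [hη]; positivity
    by_cases hidle : ∀ θ, τ ≤ θ → θ < δ → wr s t (A.run t) θ + 1 ≤ m
    · refine hIDL m n s A i η τ δ t D F r (m * (K₀ + 1)) N hm hs hS hτ hδ0 hδ1 hidle
        (Nat.mul_le_mul_left m (by omega)) hB hη0.le ?_ hN hN2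
      rw [hη]
      have h1 : (i : ℝ) ≤ (K₀ : ℝ) + 1 := by
        have : i ≤ K₀ + 1 := by omega
        exact_mod_cast this
      have h2 : (0 : ℝ) < (K₀ : ℝ) + 1 := by positivity
      rw [← mul_div_assoc, div_le_div_iff₀ (by positivity) (by norm_num)]
      nlinarith
    · have hex : ∃ θ, τ ≤ θ ∧ θ < δ ∧ wr s t (A.run t) θ = m := by
        by_contra hno
        apply hidle
        intro θ h1 h2
        by_contra h3
        apply hno
        refine ⟨θ, h1, h2, le_antisymm ?_ (by omega)⟩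
        exact AREaux.width (A.feasible t hS.nonneg) θ
      obtain ⟨σ, hτσ, hσδ, hwr, hsum, hst⟩ := hSTA m n s A i η τ δ t D F r (by omega)
        (fun j => (hs j).1) hS hδ1.le hex
      obtain ⟨c, hcs, hc1', hcF, hcr, hnext⟩ := hSTB m n s A i η τ δ σ t D F r hm hs hS hδ1.le
        hη0 hτσ hσδ hwr hsum hst
      obtain ⟨F', hF', hWn⟩ := hW2 c hcs hc1' hcF hcr
      obtain ⟨τ', t', D', hτ', hS'⟩ := hnext F' hF'
      exact ih (i + 1) τ' t' D' F' _ (by omega) hS' hτ' hWn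

end Pool.Agent.SMA
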