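import Pool.Agent.SMA.StmtsB

/-!
# Non-clairvoyant scheduling on small linear arrays: from the game to the lower bound (module RED)
-/

set_option autoImplicit false

namespace Pool.Agent.SMA

open Finset Pool.Agent.BSR

namespace REDaux

/-- the first stage -/
theorem first {m n : ℕ} {s : Fin n → ℕ} (A : Rule m s) (η : ℝ) (r : ℕ → ℕ)
    (hs : ∀ j, 1 ≤ s j ∧ s j < m) (hr : ∀ w, m ≤ w → r w = 0)
    (hn : ∀ w, 2 ≤ w → w < m → (univ.filter fun j => s j = w).card = r w) :
    Stg m s A 0 η 0 (fun _ => 1) ∅ [] r where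
  tau := le_rfl
  nonneg _ := zero_le_one
  killed j hj := absurd hj (notMem_empty j)
  live _ _ := rfl
  few := by simp
  srt := List.Pairwise.nil
  mem x := by
    refine ⟨fun h => absurd h List.not_mem_nil, ?_⟩
    rintro ⟨j, -, hj, -⟩
    exact absurd hj (not_lt.2 ((A.feasible _ fun _ => zero_le_one).1 j))
  num w hw := by
    rcases lt_or_ge w m with h | h
    · rw [← hn w hw h]
      congr 1
      ext j
      simp
    · rw [hr w h, card_eq_zero, filter_eq_empty_iff]
      rintro j - ⟨-, hj⟩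
      have := (hs j).2
      omega
  work := by
    have h : ∀ j, pj (fun _ => (1 : ℝ)) (A.run fun _ => 1) 0 j = 0 := by
      intro j
      have h1 := (A.feasible (fun _ => 1) fun _ => zero_le_one).1 j
      unfold pj
      rw [max_eq_right (by linarith), min_eq_left zero_le_one]
    simp only [h]
    simp

end REDaux

theorem t_RED : M_RED := by
  intro hREC hINS m K r hm hr hW
  have hm0 : (0 : ℝ) < m := by
    have : 0 < m := by omega
    exact_mod_cast this
  have hm2 : (2 : ℝ) ≤ m := by exact_mod_cast hm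
  have hK0 : (0 : ℝ) < (K : ℝ) + 1 := by positivity
  have hK1 : (1 : ℝ) ≤ (K : ℝ) + 1 := by linarith [(Nat.cast_nonneg K : (0 : ℝ) ≤ K)]
  obtain ⟨δ, hδ⟩ : ∃ δ : ℝ, δ = 1 / (4 * m * (m * (K + 1))) := ⟨_, rfl⟩
  have hden : (1 : ℝ) < 4 * m * (m * (K + 1)) := by
    have h1 : (1 : ℝ) ≤ m * (K + 1) := by nlinarith
    nlinarith
  have hδ0 : 0 < δ := by rw [hδ]; positivity
  have hδ1 : δ < 1 := by
    rw [hδ, div_lt_one (by linarith)]
    exact hden
  refine ⟨2 - 1 / (m : ℝ) + δ / (4 * m), by linarith [div_pos hδ0 (by linarith : (0 : ℝ) < 4 * m)],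
    fun hDet => ?_⟩
  obtain ⟨N, hN⟩ := exists_nat_ge (16 * (m : ℝ) ^ 2 / δ + ((m * (K + 1) : ℕ) : ℝ) + 2)
  obtain ⟨n, s, hs, hsr, hs1⟩ := hINS m N r hm
  obtain ⟨A, hA⟩ := hDet n s fun j => ⟨(hs j).1, (hs j).2.le⟩
  obtain ⟨t', ht', hlt⟩ := hREC m n s A K N (δ / (2 * (K + 1))) δ hm hs hδ0 hδ1
    (by
      push_cast
      rw [hδ]
      apply le_of_eq
      field_simp) rfl hN hs1.ge K 0 0 (fun _ => 1) ∅ [] r (by omega)
    (REDaux.first A _ r hs hr hsr) hδ0.le hW
  exact absurd hlt (not_lt.2 (hA t' ht'))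

end Pool.Agent.SMA
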