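import Pool.Agent.SMA.StmtsB

/-!
# Project SMA: all `m ≥ 5` (module BIN)
-/

set_option autoImplicit false

namespace Pool.Agent.SMA

open Finset Pool.Agent.BSR

namespace BINaux

/-- a list has no entries behind its length -/
theorem rr_big (l : List ℕ) (w : ℕ) (h : l.length ≤ w) : rr l w = 0 := by
  unfold rr
  rw [List.getD_eq_getElem?_getD, List.getElem?_eq_none h]
  rfl

/-- the numbers are zero outside of the widths, if this is so for the small widths -/
theorem rr_out (l W : List ℕ) (h : ∀ w, w < l.length → 2 ≤ w → w ∉ W → rr l w = 0) (w : ℕ) (h2 : 2 ≤ w)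
    (hw : w ∉ W) : rr l w = 0 := by
  rcases lt_or_ge w l.length with h1 | h1
  · exact h w h1 h2 hw
  · exact rr_big l w h1

/-- one of the small cases -/
theorem small (hR : S_RED) (hC : S_CHS) (m : ℕ) (W : List ℕ) (K : ℕ) (r : List ℕ) (hm : 2 ≤ m)
    (h1 : 1 ∈ W) (hr : r.length ≤ m) (h : ∀ w, w < r.length → 2 ≤ w → w ∉ W → rr r w = 0)
    (hgo : go m W K r = true) : ∃ c : ℝ, 2 - 1 / (m : ℝ) < c ∧ ¬ DetOK m c :=
  hR m K (rr r) hm (fun w hw => rr_big r w (hr.trans hw)) (hC m W K r h1 (rr_out r W h) hgo)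

end BINaux

theorem t_BIN : M_BIN := by
  intro hR hG hC hK m hm
  obtain ⟨k5, k6, k7, k8, k10⟩ := hK
  by_cases h9 : 9 ≤ m ∧ m ≠ 10
  · refine hR m 1 (fun w => if w = 2 ∨ w = 3 then 2 * m else 0) (by omega) (fun w hw => ?_)
      (hG m h9.1 h9.2)
    have hw' : ¬ (w = 2 ∨ w = 3) := by omega
    exact if_neg hw'
  · have hcases : m = 5 ∨ m = 6 ∨ m = 7 ∨ m = 8 ∨ m = 10 := by omega
    rcases hcases with rfl | rfl | rfl | rfl | rfl
    · exact BINaux.small hR hC 5 _ _ _ (by norm_num) (by decide) (by decide) (by decide) k5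
    · exact BINaux.small hR hC 6 _ _ _ (by norm_num) (by decide) (by decide) (by decide) k6
    · exact BINaux.small hR hC 7 _ _ _ (by norm_num) (by decide) (by decide) (by decide) k7
    · exact BINaux.small hR hC 8 _ _ _ (by norm_num) (by decide) (by decide) (by decide) k8
    · exact BINaux.small hR hC 10 _ _ _ (by norm_num) (by decide) (by decide) (by decide) k10

end Pool.Agent.SMA
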