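import Pool.Agent.SMA.RED
import Pool.Agent.SMA.BIN

/-!
# From the game to the lower bound, with an explicit number

`S_REX`: for every `m ≥ 5` no deterministic algorithm is `(2 - 1/m + 1/(64 m³))`-competitive.
-/

set_option autoImplicit false

namespace Pool.Agent.SMA

open Finset Pool.Agent.BSR

/-- at most three rounds: the explicit lower bound (proof as for `S_RED`, `δ = 1 / (16 m ^ 2)`) -/
theorem redx (hREC : S_REC) (hINS : S_INS) (m K : ℕ) (r : ℕ → ℕ) (hm : 2 ≤ m) (hK : K ≤ 3)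
    (hr : ∀ w, m ≤ w → r w = 0) (hW : Wn m K [] r) :
    ¬ DetOK m (2 - 1 / (m : ℝ) + 1 / (64 * (m : ℝ) ^ 3)) := by
  intro hDet
  have hm0 : (0 : ℝ) < m := by
    have : 0 < m := by omega
    exact_mod_cast this
  have hm2 : (2 : ℝ) ≤ m := by exact_mod_cast hm
  obtain ⟨δ, hδ⟩ : ∃ δ : ℝ, δ = 1 / (16 * (m : ℝ) ^ 2) := ⟨_, rfl⟩
  have hden : (1 : ℝ) < 16 * (m : ℝ) ^ 2 := by nlinarith
  have hδ0 : 0 < δ := by rw [hδ]; positivity
  have hδ1 : δ < 1 := by
    rw [hδ, div_lt_one (by linarith)]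
    exact hden
  have hc : (2 : ℝ) - 1 / (m : ℝ) + 1 / (64 * (m : ℝ) ^ 3) = 2 - 1 / (m : ℝ) + δ / (4 * m) := by
    rw [hδ]
    congr 1
    field_simp
    norm_num
  rw [hc] at hDet
  obtain ⟨N, hN⟩ := exists_nat_ge (16 * (m : ℝ) ^ 2 / δ + ((m * (3 + 1) : ℕ) : ℝ) + 2)
  obtain ⟨n, s, hs, hsr, hs1⟩ := hINS m N r hm
  obtain ⟨A, hA⟩ := hDet n s fun j => ⟨(hs j).1, (hs j).2.le⟩
  obtain ⟨t', ht', hlt⟩ := hREC m n s A 3 N (δ / (2 * ((3 : ℕ) + 1))) δ hm hs hδ0 hδ1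
    (by
      push_cast
      rw [hδ]
      apply le_of_eq
      field_simp
      norm_num) rfl hN hs1.ge K 0 0 (fun _ => 1) ∅ [] r (by omega)
    (REDaux.first A _ r hs hr hsr) hδ0.le hW
  exact absurd hlt (not_lt.2 (hA t' ht'))

/-- the explicit lower bound for all `m ≥ 5` -/
theorem t_REX (hREC : S_REC) (hINS : S_INS) (hG : S_GEN) (hC : S_CHS) (hK : S_KER) (m : ℕ) (hm : 5 ≤ m) :
    ¬ DetOK m (2 - 1 / (m : ℝ) + 1 / (64 * (m : ℝ) ^ 3)) := by
  obtain ⟨k5, k6, k7, k8, k10⟩ := hK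
  by_cases h9 : 9 ≤ m ∧ m ≠ 10
  · refine redx hREC hINS m 1 (fun w => if w = 2 ∨ w = 3 then 2 * m else 0) (by omega) (by norm_num)
      (fun w hw => ?_) (hG m h9.1 h9.2)
    have hw' : ¬ (w = 2 ∨ w = 3) := by omega
    exact if_neg hw'
  · have small : ∀ (m : ℕ) (W : List ℕ) (K : ℕ) (r : List ℕ), 2 ≤ m → K ≤ 3 → 1 ∈ W → r.length ≤ m →
        (∀ w, w < r.length → 2 ≤ w → w ∉ W → rr r w = 0) → go m W K r = true →
        ¬ DetOK m (2 - 1 / (m : ℝ) + 1 / (64 * (m : ℝ) ^ 3)) := fun m W K r hm hK h1 hr h hgo =>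
      redx hREC hINS m K (rr r) hm hK (fun w hw => BINaux.rr_big r w (hr.trans hw))
        (hC m W K r h1 (BINaux.rr_out r W h) hgo)
    have hcases : m = 5 ∨ m = 6 ∨ m = 7 ∨ m = 8 ∨ m = 10 := by omega
    rcases hcases with rfl | rfl | rfl | rfl | rfl
    · exact small 5 _ _ _ (by norm_num) (by norm_num) (by decide) (by decide) (by decide) k5
    · exact small 6 _ _ _ (by norm_num) (by norm_num) (by decide) (by decide) (by decide) k6
    · exact small 7 _ _ _ (by norm_num) (by norm_num) (by decide) (by decide) (by decide) k7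
    · exact small 8 _ _ _ (by norm_num) (by norm_num) (by decide) (by decide) (by decide) k8
    · exact small 10 _ _ _ (by norm_num) (by norm_num) (by decide) (by decide) (by decide) k10

end Pool.Agent.SMA
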