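import Pool.Agent.SMA.StmtsB
import Pool.Agent.BSR.ARE

/-!
# Small linear arrays (MP_e25616_lc): the first time when all machines are busy
-/

set_option autoImplicit false

namespace Pool.Agent.SMA

open Finset Pool.Agent.BSR

namespace STAaux

/-- the running jobs at a time `θ` between `τ` and `1` -/
theorem wr_eq {m n : ℕ} {s : Fin n → ℕ} {A : Rule m s} {i : ℕ} {η τ : ℝ} {t : Fin n → ℝ}
    {D : Finset (Fin n)} {F : List (ℕ × ℕ)} {r : ℕ → ℕ} (h : Stg m s A i η τ t D F r) {θ : ℝ}
    (h1 : τ ≤ θ) (h2 : θ < 1) :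
    wr s t (A.run t) θ = ∑ j with j ∉ D ∧ (A.run t).start j ≤ θ, s j := by
  unfold wr
  refine Finset.sum_congr ?_ fun _ _ => rfl
  ext j
  simp only [mem_filter, mem_univ, true_and]
  constructor
  · rintro ⟨ha, hb⟩
    refine ⟨fun hj => ?_, ha⟩
    have := h.killed j hj
    linarith
  · rintro ⟨hj, ha⟩
    refine ⟨ha, ?_⟩
    have h3 := (A.feasible t h.nonneg).1 j
    rw [h.live j hj]
    linarith

theorem wr_le {m n : ℕ} {s : Fin n → ℕ} {A : Rule m s} {t : Fin n → ℝ} (ht : ∀ j, 0 ≤ t j) (θ : ℝ) :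
    wr s t (A.run t) θ ≤ m := by
  refine le_trans (le_of_eq ?_) (Pool.Agent.BSR.AREaux.width (A.feasible t ht) θ)
  unfold wr
  refine Finset.sum_congr ?_ fun _ _ => rfl
  ext j
  simp only [mem_filter]

end STAaux

open STAaux in
theorem t_STA : S_STA := by
  intro m n s A i η τ δ t D F r hm hs h hδ ⟨θ₀, h1, h2, h3⟩
  have hf := A.feasible t h.nonneg
  rw [wr_eq h h1 (by linarith)] at h3
  set R : Finset (Fin n) := univ.filter fun j => j ∉ D ∧ (A.run t).start j ≤ θ₀ with hR
  have hne : R.Nonempty := by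
    rw [Finset.nonempty_iff_ne_empty]
    intro h4
    rw [h4, Finset.sum_empty] at h3
    omega
  obtain ⟨j₀, hj₀, hmax⟩ := exists_max_image R (fun j => (A.run t).start j) hne
  have hj₀' := hj₀
  rw [hR, mem_filter] at hj₀'
  have hsθ : max τ ((A.run t).start j₀) ≤ θ₀ := max_le h1 hj₀'.2.2
  refine ⟨max τ ((A.run t).start j₀), le_max_left _ _, lt_of_le_of_lt hsθ h2, ?_, ?_, ?_⟩
  · intro θ h4 h5
    have h6 : θ < (A.run t).start j₀ := by
      rcases lt_max_iff.1 h5 with h7 | h7
      · linarith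
      · exact h7
    rw [wr_eq h h4 (by linarith [hj₀'.2.2])]
    have h7 : (univ.filter fun j => j ∉ D ∧ (A.run t).start j ≤ θ) ⊆ R.erase j₀ := by
      intro j hj
      rw [mem_filter] at hj
      rw [mem_erase, hR, mem_filter]
      refine ⟨fun h8 => ?_, mem_univ _, hj.2.1, by linarith [hj₀'.2.2, hj.2.2]⟩
      rw [h8] at hj
      linarith [hj.2.2]
    have h8 := Finset.sum_le_sum_of_subset (f := s) h7
    have h9 := Finset.add_sum_erase R s hj₀
    have h10 := hs j₀
    omega
  · refine Eq.trans (Finset.sum_congr ?_ fun _ _ => rfl) h3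
    ext j
    rw [hR, mem_filter, mem_filter]
    constructor
    · rintro ⟨_, ha, hb⟩
      exact ⟨mem_univ _, ha, hb.trans hsθ⟩
    · rintro ⟨_, ha, hb⟩
      refine ⟨mem_univ _, ha, ?_⟩
      refine le_trans ?_ (le_max_right _ _)
      exact hmax j (by rw [hR, mem_filter]; exact ⟨mem_univ _, ha, hb⟩)
  · intro j hj h4
    by_contra h5
    rw [not_le] at h5
    have h6 : τ ≤ (A.run t).start j := (le_max_left _ _).trans h4.le
    have h7 := wr_le (A := A) h.nonneg ((A.run t).start j)
    rw [wr_eq h h6 h5] at h7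
    have h8 : j ∉ R := by
      intro h9
      have := hmax j h9
      have h10 : (A.run t).start j₀ ≤ max τ ((A.run t).start j₀) := le_max_right _ _
      linarith
    have h9 : insert j R ⊆ univ.filter fun i => i ∉ D ∧ (A.run t).start i ≤ (A.run t).start j := by
      intro i hi
      rw [mem_insert] at hi
      rw [mem_filter]
      rcases hi with rfl | hi
      · exact ⟨mem_univ _, hj, le_refl _⟩
      · have h10 := hmax i hi
        have h11 : (A.run t).start j₀ ≤ max τ ((A.run t).start j₀) := le_max_right _ _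
        have h12 := hi
        rw [hR, mem_filter] at h12
        exact ⟨mem_univ _, h12.2.1, by linarith⟩
    have h10 := Finset.sum_le_sum_of_subset (f := s) h9
    rw [Finset.sum_insert h8, h3] at h10
    have h11 := hs j
    omega

end Pool.Agent.SMA
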