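import Pool.Agent.SMA.StmtsB

/-!
# Non-clairvoyant scheduling on small linear arrays: one round of the game (module STB)
-/

set_option autoImplicit false

namespace Pool.Agent.SMA

open Finset Pool.Agent.BSR

namespace STBaux

/-- the jobs which run need at most `m` machines -/
theorem wr_le {m n : ℕ} {s : Fin n → ℕ} {t : Fin n → ℝ} {σ : Schedule n} (h : Feasible m s t σ) (θ : ℝ) :
    wr s t σ θ ≤ m := by
  have := BSR.AREaux.width h θ
  unfold wr
  convert this

end STBaux

theorem t_STB : M_STB := by
  classical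
  intro hSGS hCTL hTIL hGAR m n s A i η τ δ σ t D F r hm hs hSt hδ hη hτσ hσδ hidle hfull hlate
  obtain ⟨sg1, sg2, sg3, sg4, sg5, sg6⟩ := hSGS
  have hFe := A.feasible t hSt.nonneg
  have hst0 : ∀ j, 0 ≤ (A.run t).start j := hFe.1
  obtain ⟨R, hR⟩ : ∃ R : Finset (Fin n), R = univ.filter fun j => j ∉ D ∧ (A.run t).start j ≤ σ :=
    ⟨_, rfl⟩
  have hmemR : ∀ j, j ∈ R ↔ j ∉ D ∧ (A.run t).start j ≤ σ := by
    intro j
    rw [hR, mem_filter]
    simp
  have hfullR : ∑ j ∈ R, s j = m := by
    rw [hR]
    exact hfull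
  have hσ1 : σ < 1 := lt_of_lt_of_le hσδ hδ
  have hRrun : ∀ j ∈ R, σ < (A.run t).start j + t j := by
    intro j hj
    have h1 := (hmemR j).1 hj
    rw [hSt.live j h1.1]
    linarith [hst0 j]
  have hdisj : ∀ i ∈ R, ∀ j ∈ R, i ≠ j → (A.run t).pos i + s i ≤ (A.run t).pos j ∨
      (A.run t).pos j + s j ≤ (A.run t).pos i := fun i hi j hj hij =>
    hFe.2.2 i j hij σ ((hmemR i).1 hi).2 (hRrun i hi) ((hmemR j).1 hj).2 (hRrun j hj)
  obtain ⟨c, hc1, hc2, hc3⟩ := hTIL m n s (A.run t).pos R (fun j _ => (hs j).1)
    (fun j _ => hFe.2.1 j) hdisj hfullR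
  have hC := (hCTL n s (A.run t).pos R (segs 0 c) (fun j _ => (hs j).1) hdisj (sg1 0 c) hc3).1
  refine ⟨c, hc1, hc2, ?_, ?_, ?_⟩
  · intro x hx
    rw [hSt.mem] at hx
    obtain ⟨j, hj1, hj2, hj3, hj4⟩ := hx
    rw [hc3]
    exact ⟨j, (hmemR j).2 ⟨hj1, (hj2.trans_le hτσ).le⟩, hj3, hj4⟩
  · intro w hw
    rw [← hC w, ← hSt.num w hw]
    refine card_le_card fun j hj => ?_
    rw [mem_filter] at hj
    rw [mem_filter]
    exact ⟨mem_univ _, ((hmemR j).1 hj.1).1, hj.2⟩
  · intro F' hF'
    obtain ⟨τ', hτ'⟩ : ∃ τ' : ℝ, τ' = min δ (σ + η) := ⟨_, rfl⟩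
    have hστ' : σ < τ' := by
      rw [hτ']
      exact lt_min hσδ (by linarith)
    have hτ'δ : τ' ≤ δ := by
      rw [hτ']
      exact min_le_left _ _
    have hτ'η : τ' ≤ σ + η := by
      rw [hτ']
      exact min_le_right _ _
    have hτ'1 : τ' ≤ 1 := hτ'δ.trans hδ
    have hττ' : τ < τ' := lt_of_le_of_lt hτσ hστ'
    obtain ⟨Z, hZ⟩ : ∃ Z : Finset (Fin n), Z = R.filter fun j => ((A.run t).pos j, s j) ∉ F' :=
      ⟨_, rfl⟩
    have hmemZ : ∀ j, j ∈ Z ↔ j ∈ R ∧ ((A.run t).pos j, s j) ∉ F' := by
      intro j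
      rw [hZ, mem_filter]
    obtain ⟨t', ht'⟩ : ∃ t' : Fin n → ℝ,
        t' = fun j => if j ∈ Z then τ' - (A.run t).start j else t j := ⟨_, rfl⟩
    have htZ : ∀ j, j ∈ Z → t' j = τ' - (A.run t).start j := by
      intro j hj
      rw [ht']
      exact if_pos hj
    have htN : ∀ j, j ∉ Z → t' j = t j := by
      intro j hj
      rw [ht']
      exact if_neg hj
    have hZs : ∀ j ∈ Z, (A.run t).start j ≤ σ := fun j hj => ((hmemR j).1 ((hmemZ j).1 hj).1).2
    have hZD : ∀ j ∈ Z, j ∉ D := fun j hj => ((hmemR j).1 ((hmemZ j).1 hj).1).1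
    have hn' : ∀ j, 0 ≤ t' j := by
      intro j
      by_cases h : j ∈ Z
      · rw [htZ j h]
        linarith [hZs j h]
      · rw [htN j h]
        exact hSt.nonneg j
    have hag := run_agree A t t' hSt.nonneg hn' τ' (fun j _ => by
      by_cases h : j ∈ Z
      · right
        rw [htZ j h, hSt.live j (hZD j h)]
        constructor
        · linarith [hst0 j]
        · linarith
      · left
        exact htN j h)
    have hag1 : ∀ j, (A.run t).start j < τ' → (A.run t').start j = (A.run t).start j :=
      fun j hj => ((hag j).1 hj).1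
    have hag2 : ∀ j, (A.run t).start j < τ' → (A.run t').pos j = (A.run t).pos j :=
      fun j hj => ((hag j).1 hj).2
    have hag3 : ∀ j, τ' ≤ (A.run t).start j → τ' ≤ (A.run t').start j := fun j hj => (hag j).2 hj
    -- the jobs which are started before `τ'`
    have hstarted : ∀ j, j ∉ D → (A.run t').start j < τ' → j ∈ R := by
      intro j hjD hj
      have h1 : (A.run t).start j < τ' := by
        by_contra h
        exact absurd (hag3 j (not_lt.1 h)) (not_le.2 hj)
      rw [hmemR]
      refine ⟨hjD, ?_⟩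
      by_contra h
      have := hlate j hjD (not_le.1 h)
      linarith
    have hsub : ∀ x ∈ F', x ∈ segs 0 c := fun x hx => hF'.subset hx
    -- the alive jobs
    have hC' := (hCTL n s (A.run t).pos (R \ Z) F' (fun j _ => (hs j).1)
      (fun i hi j hj hij => hdisj i (mem_sdiff.1 hi).1 j (mem_sdiff.1 hj).1 hij)
      ((sg1 0 c).sublist hF') (by
        intro x
        constructor
        · intro hx
          obtain ⟨j, hj, h1, h2⟩ := (hc3 x).1 (hsub x hx)
          refine ⟨j, ?_, h1, h2⟩
          rw [mem_sdiff, hmemZ]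
          refine ⟨hj, fun h => h.2 ?_⟩
          rw [h1, h2]
          exact hx
        · rintro ⟨j, hj, h1, h2⟩
          rw [mem_sdiff, hmemZ] at hj
          have h3 : ((A.run t).pos j, s j) ∈ F' := by
            by_contra h
            exact hj.2 ⟨hj.1, h⟩
          rw [h1, h2] at h3
          exact h3)).1
    -- the work
    have hpj : ∀ j, pj t' (A.run t') τ' j = pj t (A.run t) τ' j := by
      intro j
      unfold pj
      rcases lt_or_ge ((A.run t).start j) τ' with h | h
      · rw [hag1 j h]
        by_cases hj : j ∈ Z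
        · rw [htZ j hj, hSt.live j (hZD j hj), max_eq_left (by linarith), min_self,
            min_eq_left (by linarith [hst0 j])]
        · rw [htN j hj]
      · have h' := hag3 j h
        rw [max_eq_right (by linarith), max_eq_right (by linarith), min_eq_left (hn' j),
          min_eq_left (hSt.nonneg j)]
    have hm1 : (2 : ℝ) ≤ m := by exact_mod_cast hm
    have hw1 := hGAR n s t (A.run t) τ σ ((m : ℝ) - 1) hSt.nonneg hτσ (fun θ h1 h2 => by
      have := hidle θ h1 h2
      have h3 : ((wr s t (A.run t) θ + 1 : ℕ) : ℝ) ≤ (m : ℝ) := by exact_mod_cast this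
      push_cast at h3
      linarith)
    have hw2 := hGAR n s t (A.run t) σ τ' (m : ℝ) hSt.nonneg hστ'.le (fun θ _ _ => by
      exact_mod_cast STBaux.wr_le hFe θ)
    have hwork : ∑ j, (s j : ℝ) * pj t' (A.run t') τ' j ≤ ((m : ℝ) - 1) * τ' + ((i + 1 : ℕ) : ℝ) * η := by
      have e1 : ∑ j, (s j : ℝ) * pj t' (A.run t') τ' j =
          ∑ j, (s j : ℝ) * pj t (A.run t) τ j +
          ∑ j, (s j : ℝ) * (pj t (A.run t) σ j - pj t (A.run t) τ j) +
          ∑ j, (s j : ℝ) * (pj t (A.run t) τ' j - pj t (A.run t) σ j) := by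
        rw [← sum_add_distrib, ← sum_add_distrib]
        refine sum_congr rfl fun j _ => ?_
        rw [hpj j]
        ring
      rw [e1]
      have h1 := hSt.work
      push_cast
      nlinarith [h1, hw1, hw2, hτ'η]
    refine ⟨τ', t', D ∪ Z, hτ'δ, ?_⟩
    constructor
    · exact le_trans (hSt.tau.trans hτσ) hστ'.le
    · exact hn'
    · -- killed
      intro j hj
      rw [mem_union] at hj
      rcases hj with hj | hj
      · have h1 := hSt.killed j hj
        have h2 : (A.run t).start j < τ' := by linarith [hSt.nonneg j]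
        have h3 : j ∉ Z := fun h => hZD j h hj
        rw [hag1 j h2, htN j h3]
        linarith
      · rw [hag1 j (lt_of_le_of_lt (hZs j hj) hστ'), htZ j hj]
        linarith
    · -- live
      intro j hj
      rw [mem_union, not_or] at hj
      rw [htN j hj.2]
      exact hSt.live j hj.1
    · -- few
      have h1 : Z.card ≤ R.card := card_le_card fun j hj => ((hmemZ j).1 hj).1
      have h2 : R.card ≤ m := by
        rw [← hfullR, card_eq_sum_ones]
        exact sum_le_sum fun j _ => (hs j).1
      calc (D ∪ Z).card ≤ D.card + Z.card := card_union_le _ _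
        _ ≤ m * i + m := by
          have := hSt.few
          omega
        _ = m * (i + 1) := by ring
    · exact (sg1 0 c).sublist hF'
    · -- mem
      intro x
      constructor
      · intro hx
        obtain ⟨j, hj, h1, h2⟩ := (hc3 x).1 (hsub x hx)
        have hjR := (hmemR j).1 hj
        have h3 : (A.run t).start j < τ' := lt_of_le_of_lt hjR.2 hστ'
        refine ⟨j, ?_, ?_, ?_, h2⟩
        · rw [mem_union, not_or]
          refine ⟨hjR.1, ?_⟩
          rw [hmemZ]
          rintro ⟨-, h⟩
          apply h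
          rw [h1, h2]
          exact hx
        · rw [hag1 j h3]
          exact h3
        · rw [hag2 j h3]
          exact h1
      · rintro ⟨j, hj1, hj2, hj3, hj4⟩
        rw [mem_union, not_or] at hj1
        have hjR := hstarted j hj1.1 hj2
        have h3 : (A.run t).start j < τ' := lt_of_le_of_lt ((hmemR j).1 hjR).2 hστ'
        have h4 : ((A.run t).pos j, s j) ∈ F' := by
          by_contra h
          exact hj1.2 ((hmemZ j).2 ⟨hjR, h⟩)
        rw [hag2 j h3] at hj3
        rw [hj3, hj4] at h4
        exact h4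
    · -- num
      intro w hw
      have h1 : (univ.filter fun j => j ∉ D ∪ Z ∧ s j = w).card + (Z.filter fun j => s j = w).card =
          (univ.filter fun j => j ∉ D ∧ s j = w).card := by
        rw [← card_union_of_disjoint]
        · congr 1
          ext j
          simp only [mem_union, mem_filter, mem_univ, true_and, not_or]
          constructor
          · rintro (⟨⟨h1, -⟩, h3⟩ | ⟨h1, h2⟩)
            · exact ⟨h1, h3⟩
            · exact ⟨hZD j h1, h2⟩
          · rintro ⟨h1, h2⟩
            by_cases hj : j ∈ Z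
            · exact Or.inr ⟨hj, h2⟩
            · exact Or.inl ⟨⟨h1, hj⟩, h2⟩
        · rw [disjoint_left]
          intro j h1 h2
          rw [mem_filter, mem_union, not_or] at h1
          rw [mem_filter] at h2
          exact h1.2.1.2 h2.1
      have h2 : ((R \ Z).filter fun j => s j = w).card + (Z.filter fun j => s j = w).card =
          (R.filter fun j => s j = w).card := by
        rw [← card_union_of_disjoint]
        · congr 1
          ext j
          simp only [mem_union, mem_filter, mem_sdiff]
          constructor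
          · rintro (⟨⟨h1, -⟩, h3⟩ | ⟨h1, h2⟩)
            · exact ⟨h1, h3⟩
            · exact ⟨((hmemZ j).1 h1).1, h2⟩
          · rintro ⟨h1, h2⟩
            by_cases hj : j ∈ Z
            · exact Or.inr ⟨hj, h2⟩
            · exact Or.inl ⟨⟨h1, hj⟩, h2⟩
        · rw [disjoint_left]
          intro j h1 h2
          rw [mem_filter, mem_sdiff] at h1
          rw [mem_filter] at h2
          exact h1.1.2 h2.1
      rw [hC' w, hC w] at h2
      rw [hSt.num w hw] at h1
      omega
    · exact hwork

end Pool.Agent.SMA
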