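import Pool.Agent.SMA.StmtsB

/-!
# Small linear arrays: module TIL
-/

set_option autoImplicit false

namespace Pool.Agent.SMA

open Finset Pool.Agent.BSR

namespace TILaux

/-- disjoint segments of total length `m` in `[0, m)` cover `[0, m)` -/
theorem cover (m n : ℕ) (s pos : Fin n → ℕ) (R : Finset (Fin n))
    (h2 : ∀ j ∈ R, pos j + s j ≤ m)
    (h3 : ∀ i ∈ R, ∀ j ∈ R, i ≠ j → pos i + s i ≤ pos j ∨ pos j + s j ≤ pos i)
    (h4 : ∑ j ∈ R, s j = m) (q : ℕ) (hq : q < m) : ∃ j ∈ R, pos j ≤ q ∧ q < pos j + s j := by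
  classical
  have hsub : R.biUnion (fun j => Finset.Ico (pos j) (pos j + s j)) ⊆ Finset.range m := by
    intro x hx
    obtain ⟨j, hj, hxj⟩ := Finset.mem_biUnion.1 hx
    rw [Finset.mem_Ico] at hxj
    have := h2 j hj
    exact Finset.mem_range.2 (by omega)
  have hcard : (R.biUnion fun j => Finset.Ico (pos j) (pos j + s j)).card = m := by
    rw [Finset.card_biUnion]
    · simp only [Nat.card_Ico, Nat.add_sub_cancel_left]
      exact h4
    · intro i hi j hj hij
      refine Finset.disjoint_left.2 fun x hx hy => ?_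
      rw [Finset.mem_Ico] at hx hy
      rcases h3 i hi j hj hij with h | h <;> omega
  have heq := Finset.eq_of_subset_of_card_le hsub (by rw [hcard, Finset.card_range])
  have hm : q ∈ R.biUnion (fun j => Finset.Ico (pos j) (pos j + s j)) := by
    rw [heq]
    exact Finset.mem_range.2 hq
  obtain ⟨j, hj, hqj⟩ := Finset.mem_biUnion.1 hm
  rw [Finset.mem_Ico] at hqj
  exact ⟨j, hj, hqj⟩

theorem claim (m n : ℕ) (s pos : Fin n → ℕ) (R : Finset (Fin n)) (h1 : ∀ j ∈ R, 1 ≤ s j)
    (h2 : ∀ j ∈ R, pos j + s j ≤ m)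
    (h3 : ∀ i ∈ R, ∀ j ∈ R, i ≠ j → pos i + s i ≤ pos j ∨ pos j + s j ≤ pos i)
    (h4 : ∑ j ∈ R, s j = m) : ∀ k p : ℕ, p + k = m →
    (∀ j ∈ R, pos j + s j ≤ p ∨ p ≤ pos j) →
    ∃ c : List ℕ, p + c.sum = m ∧ (∀ w ∈ c, 1 ≤ w) ∧
      ∀ x : ℕ × ℕ, x ∈ segs p c ↔ ∃ j ∈ R, p ≤ pos j ∧ pos j = x.1 ∧ s j = x.2 := by
  intro k
  induction k using Nat.strong_induction_on with
  | _ k ih =>
    intro p hp hstr
    rcases Nat.eq_zero_or_pos k with hk | hk
    · refine ⟨[], by simpa [hk] using hp, by simp, fun x => ?_⟩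
      constructor
      · intro hx
        simp [segs] at hx
      · rintro ⟨j, hj, hpj, -, -⟩
        have := h1 j hj
        have := h2 j hj
        omega
    · obtain ⟨j0, hj0, hc1, hc2⟩ := cover m n s pos R h2 h3 h4 p (by omega)
      have hpos : pos j0 = p := by
        rcases hstr j0 hj0 with h | h <;> omega
      have hs1 := h1 j0 hj0
      have hs2 := h2 j0 hj0
      obtain ⟨c, hc, hw, hmem⟩ := ih (k - s j0) (by omega) (p + s j0) (by omega) (fun j hj => by
        by_cases hjj : j = j0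
        · left
          rw [hjj, hpos]
        · rcases h3 j hj j0 hj0 hjj with h | h
          · left
            omega
          · right
            omega)
      refine ⟨s j0 :: c, ?_, ?_, fun x => ?_⟩
      · rw [List.sum_cons]
        omega
      · intro w hwm
        rcases List.mem_cons.1 hwm with h | h
        · rw [h]
          exact hs1
        · exact hw w h
      · rw [segs, List.mem_cons, hmem]
        constructor
        · rintro (h | ⟨j, hj, h5, h6, h7⟩)
          · rw [h]
            exact ⟨j0, hj0, hpos.ge, hpos, rfl⟩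
          · exact ⟨j, hj, by omega, h6, h7⟩
        · rintro ⟨j, hj, h5, h6, h7⟩
          by_cases hjj : j = j0
          · left
            rw [hjj] at h6 h7
            exact Prod.ext (by rw [← h6, hpos]) h7.symm
          · right
            refine ⟨j, hj, ?_, h6, h7⟩
            have := h1 j hj
            rcases h3 j hj j0 hj0 hjj with h | h <;> omega

end TILaux

theorem t_TIL : S_TIL := by
  intro m n s pos R h1 h2 h3 h4
  obtain ⟨c, hc, hw, hmem⟩ := TILaux.claim m n s pos R h1 h2 h3 h4 m 0 (by omega)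
    (fun j _ => Or.inr (Nat.zero_le _))
  refine ⟨c, by omega, hw, fun x => ?_⟩
  rw [hmem]
  constructor
  · rintro ⟨j, hj, -, h6, h7⟩
    exact ⟨j, hj, h6, h7⟩
  · rintro ⟨j, hj, h6, h7⟩
    exact ⟨j, hj, Nat.zero_le _, h6, h7⟩

end Pool.Agent.SMA
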