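import Pool.Agent.SMA.SGS
import Pool.Agent.SMA.CTL
import Pool.Agent.SMA.TIL
import Pool.Agent.SMA.CPK
import Pool.Agent.SMA.GAR
import Pool.Agent.SMA.OPD
import Pool.Agent.SMA.OPI
import Pool.Agent.SMA.DNG
import Pool.Agent.SMA.IDL
import Pool.Agent.SMA.STA
import Pool.Agent.SMA.STB
import Pool.Agent.SMA.REC
import Pool.Agent.SMA.INS
import Pool.Agent.SMA.RED
import Pool.Agent.SMA.CHS
import Pool.Agent.SMA.KER
import Pool.Agent.SMA.GEN
import Pool.Agent.SMA.BIN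
import Pool.Agent.SMA.REX

/-!
# More than four machines: assembly
-/

set_option autoImplicit false

namespace Pool.Agent.SMA

theorem a_DNG : S_DNG := t_DNG t_CTL t_CPK t_OPD
theorem a_IDL : S_IDL := t_IDL t_GAR t_OPI
theorem a_STB : S_STB := t_STB t_SGS t_CTL t_TIL t_GAR
theorem a_REC : S_REC := t_REC a_DNG a_IDL t_STA a_STB
theorem a_RED : S_RED := t_RED a_REC t_INS
theorem a_GEN : S_GEN := t_GEN t_SGS
theorem a_CHS : S_CHS := t_CHS t_SGS
theorem a_BIN : S_BIN := t_BIN a_RED a_GEN a_CHS t_KER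

/-- the explicit lower bound for `m ≥ 5` -/
theorem a_REX (m : ℕ) (hm : 5 ≤ m) : ¬ DetOK m (2 - 1 / (m : ℝ) + 1 / (64 * (m : ℝ) ^ 3)) :=
  t_REX a_REC t_INS a_GEN a_CHS t_KER m hm

end Pool.Agent.SMA
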