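import Pool.Agent.SMA.Stmts

/-!
# Module LOW: the classical lower bound `2 - 1/m` (helper88)
-/

set_option autoImplicit false

namespace Pool.Agent.SMA

open Finset Pool.Agent.BSR

namespace LOWaux

/-- if all requests and running times are one then some job starts at `m - 1` or later -/
theorem late {m n : ℕ} (hn : m * (m - 1) < n) {t : Fin n → ℝ} (ht : ∀ j, t j = 1)
    {σ : Schedule n} (h : Feasible m (fun _ => 1) t σ) : ∃ v, (m : ℝ) - 1 ≤ σ.start v := by
  by_contra hc
  push Not at hc
  have hm : 1 ≤ m := by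
    have : σ.pos ⟨0, by omega⟩ + 1 ≤ m := h.2.1 ⟨0, by omega⟩
    omega
  have hfl : ∀ j, ⌊σ.start j⌋₊ < m - 1 := by
    intro j
    rw [Nat.floor_lt (h.1 j)]
    have := hc j
    push_cast [Nat.cast_sub hm]
    exact this
  have hpos : ∀ j, σ.pos j < m := fun j => by
    have : σ.pos j + 1 ≤ m := h.2.1 j
    omega
  have hcard : Fintype.card (Fin m × Fin (m - 1)) < Fintype.card (Fin n) := by
    simp only [Fintype.card_prod, Fintype.card_fin]
    exact hn
  obtain ⟨i, j, hij, he⟩ := Fintype.exists_ne_map_eq_of_card_lt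
    (fun j : Fin n => ((⟨σ.pos j, hpos j⟩, ⟨⌊σ.start j⌋₊, hfl j⟩) : Fin m × Fin (m - 1))) hcard
  simp only [Prod.mk.injEq, Fin.mk.injEq] at he
  obtain ⟨he1, he2⟩ := he
  have hi1 := Nat.floor_le (h.1 i)
  have hi2 := Nat.lt_floor_add_one (σ.start i)
  have hj1 := Nat.floor_le (h.1 j)
  have hj2 := Nat.lt_floor_add_one (σ.start j)
  rw [he2] at hi1 hi2
  have key := h.2.2 i j hij (max (σ.start i) (σ.start j)) (le_max_left _ _)
    (by rw [ht]; exact max_lt (by linarith) (by linarith)) (le_max_right _ _)
    (by rw [ht]; exact max_lt (by linarith) (by linarith))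
  simp only at key
  omega

/-- the position of the job `j ≠ v` in the list without `v` -/
def idx {n : ℕ} (v j : Fin n) : ℕ := if j.val < v.val then j.val else j.val - 1

theorem idx_inj {n : ℕ} {v i j : Fin n} (hi : i ≠ v) (hj : j ≠ v) (hij : i ≠ j) :
    idx v i ≠ idx v j := by
  have h1 : i.val ≠ v.val := fun h => hi (Fin.ext h)
  have h2 : j.val ≠ v.val := fun h => hj (Fin.ext h)
  have h3 : i.val ≠ j.val := fun h => hij (Fin.ext h)
  unfold idx
  split_ifs <;> omega

theorem idx_lt {n k : ℕ} (hn : n = k + 1) {v j : Fin n} (hj : j ≠ v) : idx v j < k := by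
  have h2 : j.val ≠ v.val := fun h => hj (Fin.ext h)
  have := j.2
  have := v.2
  unfold idx
  split_ifs <;> omega

/-- the optimal schedule -/
noncomputable def opt {n : ℕ} (m : ℕ) (v : Fin n) : Schedule n where
  start j := if j = v then 0 else ((idx v j % m : ℕ) : ℝ)
  pos j := if j = v then m - 1 else idx v j / m

theorem opt_feasible {n m : ℕ} (hm : 1 ≤ m) (hn : n = m * (m - 1) + 1) (v : Fin n) :
    Feasible m (fun _ => 1) (Function.update (fun _ => (1 : ℝ)) v m) (opt m v) := by
  have hq : ∀ j, j ≠ v → idx v j / m < m - 1 := by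
    intro j hj
    rw [Nat.div_lt_iff_lt_mul hm, mul_comm]
    exact idx_lt hn hj
  refine ⟨fun j => ?_, fun j => ?_, ?_⟩
  · unfold opt
    simp only
    split_ifs
    · exact le_rfl
    · positivity
  · unfold opt
    simp only
    split_ifs with hj
    · omega
    · have := hq j hj
      omega
  · intro i j hij τ h1 h2 h3 h4
    by_cases hi : i = v
    · have hj : j ≠ v := fun h => hij (hi.trans h.symm)
      right
      simp only [opt, hi, hj, if_true, if_false]
      have := hq j hj
      omega
    · by_cases hj : j = v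
      · left
        simp only [opt, hi, hj, if_true, if_false]
        have := hq i hi
        omega
      · simp only [opt, hi, hj, if_false, Function.update_of_ne hi, Function.update_of_ne hj] at h1 h2 h3 h4 ⊢
        have e1 : idx v i % m = idx v j % m := by
          have a1 : ((idx v i % m : ℕ) : ℝ) < ((idx v j % m : ℕ) : ℝ) + 1 := by linarith
          have a2 : ((idx v j % m : ℕ) : ℝ) < ((idx v i % m : ℕ) : ℝ) + 1 := by linarith
          have b1 : idx v i % m < idx v j % m + 1 := by exact_mod_cast a1
          have b2 : idx v j % m < idx v i % m + 1 := by exact_mod_cast a2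
          omega
        have e2 : idx v i / m ≠ idx v j / m := by
          intro e2
          apply idx_inj hi hj hij
          rw [← Nat.div_add_mod (idx v i) m, ← Nat.div_add_mod (idx v j) m, e1, e2]
        omega

theorem opt_le {n m : ℕ} (hm : 1 ≤ m) (hn : n = m * (m - 1) + 1) (v : Fin n) :
    OPT m (fun _ => 1) (Function.update (fun _ => (1 : ℝ)) v m) ≤ m := by
  have h0 : ∀ j : Fin n, 0 ≤ Function.update (fun _ => (1 : ℝ)) v (m : ℝ) j := by
    intro j
    by_cases hj : j = v
    · subst hj; simp
    · rw [Function.update_of_ne hj]; exact zero_le_one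
  have hb : BddBelow {x | ∃ σ : Schedule n,
      Feasible m (fun _ => 1) (Function.update (fun _ => (1 : ℝ)) v m) σ ∧
      makespan (Function.update (fun _ => (1 : ℝ)) v m) σ = x} := by
    refine ⟨0, ?_⟩
    rintro x ⟨σ, h1, rfl⟩
    exact AREaux.make_nonneg h0 h1.1
  refine (csInf_le hb ⟨opt m v, opt_feasible hm hn v, rfl⟩).trans ?_
  have : Nonempty (Fin n) := ⟨v⟩
  refine ciSup_le fun j => ?_
  by_cases hj : j = v
  · subst hj
    simp [opt]
  · simp only [opt, hj, if_false, Function.update_of_ne hj]
    have h1 : idx v j % m < m := Nat.mod_lt _ hm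
    have h2 : idx v j % m + 1 ≤ m := h1
    exact_mod_cast h2

end LOWaux

open LOWaux in
theorem t_LOW : S_LOW := by
  intro m c hm hD
  obtain ⟨A, hA⟩ := hD (m * (m - 1) + 1) (fun _ => 1) fun _ => ⟨le_rfl, hm⟩
  have h1 : ∀ j : Fin (m * (m - 1) + 1), (0 : ℝ) ≤ (fun _ => (1 : ℝ)) j := fun _ => zero_le_one
  obtain ⟨v, hv⟩ := late (Nat.lt_succ_self _) (fun _ => rfl) (A.feasible (fun _ => (1 : ℝ)) h1)
  set t' : Fin (m * (m - 1) + 1) → ℝ := Function.update (fun _ => (1 : ℝ)) v m with ht'
  have hm' : (1 : ℝ) ≤ m := by exact_mod_cast hm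
  have h1t : ∀ j, (1 : ℝ) ≤ t' j := by
    intro j
    rw [ht']
    by_cases hj : j = v
    · subst hj; simpa using hm'
    · rw [Function.update_of_ne hj]
  have h0 : ∀ j, 0 ≤ t' j := fun j => zero_le_one.trans (h1t j)
  have hna := A.nonanticipating (fun _ => (1 : ℝ)) t' h1 h0 ((A.run fun _ => 1).start v + 1)
    (fun j hj => by
      have hjv : j ≠ v := by
        rintro rfl
        exact lt_irrefl _ hj
      rw [ht', Function.update_of_ne hjv])
    (fun j _ hj => by
      have := h1t j
      linarith) v
  have hs := (hna.1 (by linarith)).1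
  have hmk := AREaux.le_make t' (A.run t') v
  have htv : t' v = m := by rw [ht']; simp
  rw [hs, htv] at hmk
  have hc := hA t' h0
  have hO := opt_le hm rfl v
  have hO0 : 0 < OPT m (fun _ => 1) t' := by
    by_contra hcon
    push Not at hcon
    -- the makespan is at least the area bound
    have hne := AREaux.nonempty (m := m) (s := fun _ : Fin (m * (m - 1) + 1) => 1) (t := t')
      (fun _ => hm) h0
    have hge : (m : ℝ) ≤ OPT m (fun _ => 1) t' := by
      refine le_csInf hne ?_
      rintro x ⟨σ, h2, rfl⟩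
      have h3 := AREaux.le_make t' σ v
      rw [htv] at h3
      have h4 := h2.1 v
      linarith
    linarith
  have hcpos : 0 ≤ c := by
    by_contra hneg
    push Not at hneg
    have := mul_neg_of_neg_of_pos hneg hO0
    linarith
  have hfin : 2 * (m : ℝ) - 1 ≤ c * m := by
    have := mul_le_mul_of_nonneg_left hO hcpos
    linarith
  have hmpos : (0 : ℝ) < m := by linarith
  rw [show (2 : ℝ) - 1 / m = (2 * m - 1) / m by field_simp, div_le_iff₀ hmpos]
  exact hfin

end Pool.Agent.SMA
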