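import Pool.Agent.SMA.Stmts

/-!
# SMA, module LSB: list scheduling on channels, basic properties (helper48)
-/

set_option autoImplicit false

namespace Pool.Agent.SMA

open Finset Pool.Agent.BSR

namespace LSBaux

variable {M : ℕ} (P : ℕ → Prop) (x : ℕ → ℝ) (f : Fin (M + 1) → ℝ)

lemma ll_pos (j : ℕ) (h : P j) : ll P x f (j + 1) =
    Function.update (ll P x f j) (aml (ll P x f j)) (mnl (ll P x f j) + x j) := by
  rw [ll, if_pos h]

lemma ll_neg (j : ℕ) (h : ¬ P j) : ll P x f (j + 1) = ll P x f j := by
  rw [ll, if_neg h]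

lemma at_cl (j : ℕ) : ll P x f j (cl P x f j) = sl P x f j := rfl

lemma at_new (j : ℕ) (h : P j) : ll P x f (j + 1) (cl P x f j) = sl P x f j + x j := by
  rw [ll_pos P x f j h]
  exact Function.update_self _ _ _

lemma at_old (j : ℕ) (u : Fin (M + 1)) (h : u ≠ cl P x f j) :
    ll P x f (j + 1) u = ll P x f j u := by
  by_cases hP : P j
  · rw [ll_pos P x f j hP]
    exact Function.update_of_ne h _ _
  · rw [ll_neg P x f j hP]

lemma step (hx : ∀ j, 0 ≤ x j) (j : ℕ) (u : Fin (M + 1)) : ll P x f j u ≤ ll P x f (j + 1) u := by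
  by_cases hu : u = cl P x f j
  · by_cases hP : P j
    · rw [hu, at_new P x f j hP, at_cl]
      linarith [hx j]
    · rw [ll_neg P x f j hP]
  · rw [at_old P x f j u hu]

lemma mono (hx : ∀ j, 0 ≤ x j) (i j : ℕ) (h : i ≤ j) (u : Fin (M + 1)) :
    ll P x f i u ≤ ll P x f j u :=
  monotone_nat_of_le_succ (f := fun j => ll P x f j u) (fun j => step P x f hx j u) h

lemma sum_eq (j : ℕ) : ∑ u, ll P x f j u = (∑ u, f u) + ps P x j := by
  classical
  induction j with
  | zero => simp [ll, ps]
  | succ j ih =>
    have e : ps P x (j + 1) = ps P x j + if P j then x j else 0 := by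
      unfold ps
      rw [Finset.sum_range_succ]
    rw [e]
    by_cases hP : P j
    · rw [if_pos hP, ll_pos P x f j hP, Finset.sum_update_of_mem (mem_univ _)]
      have h1 := Finset.sum_sdiff (Finset.subset_univ ({aml (ll P x f j)} : Finset (Fin (M + 1))))
        (f := ll P x f j)
      rw [Finset.sum_singleton] at h1
      have h2 : mnl (ll P x f j) = ll P x f j (aml (ll P x f j)) := rfl
      rw [h2]
      linarith
    · rw [if_neg hP, ll_neg P x f j hP, ih, add_zero]

end LSBaux

open LSBaux

theorem t_LSB : S_LSB := by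
  intro M P x f hx
  have h3 : ∀ i j, P i → i < j → sl P x f i + x i ≤ ll P x f j (cl P x f i) := by
    intro i j hi hij
    rw [← at_new P x f i hi]
    exact mono P x f hx (i + 1) j hij _
  refine ⟨mono P x f hx, ?_, h3, ?_, sum_eq P x f, ?_, ?_⟩
  · intro i j hi hij hc
    have := h3 i j hi hij
    rwa [hc, at_cl] at this
  · intro j u
    induction j with
    | zero => exact Or.inl rfl
    | succ j ih =>
      by_cases hP : P j
      · by_cases hu : u = cl P x f j
        · exact Or.inr ⟨j, Nat.lt_succ_self j, hP, hu.symm, by rw [hu, at_new P x f j hP]⟩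
        · rw [at_old P x f j u hu]
          rcases ih with h | ⟨i, hi, h⟩
          · exact Or.inl h
          · exact Or.inr ⟨i, hi.trans (Nat.lt_succ_self j), h⟩
      · rw [ll_neg P x f j hP]
        rcases ih with h | ⟨i, hi, h⟩
        · exact Or.inl h
        · exact Or.inr ⟨i, hi.trans (Nat.lt_succ_self j), h⟩
  · intro j
    rw [← at_cl]
    exact mono P x f hx 0 j (Nat.zero_le _) _
  · intro j
    rw [← sum_eq]
    have h4 : ∑ _u : Fin (M + 1), sl P x f j ≤ ∑ u, ll P x f j u :=
      Finset.sum_le_sum fun u _ => mnl_le _ u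
    rw [Finset.sum_const, Finset.card_univ, Fintype.card_fin, nsmul_eq_mul] at h4
    push_cast at h4
    exact h4

end Pool.Agent.SMA
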