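import Pool.Agent.SMA.Stmts

/-!
# SMA: module LST, the truncated loads of list scheduling agree
-/

set_option autoImplicit false

namespace Pool.Agent.SMA

open Finset Pool.Agent.BSR

namespace LSTaux

theorem low {M : ℕ} (f f' : Fin (M + 1) → ℝ) (τ : ℝ) (h : ∀ u, min (f u) τ = min (f' u) τ)
    (hm : mnl f < τ) : mnl f' = mnl f ∧ aml f' = aml f := by
  have key : ∀ v, f' v < τ → f v = f' v := by
    intro v hv
    have h1 := h v
    rw [min_eq_left hv.le] at h1
    rcases min_choice (f v) τ with h2 | h2
    · rw [h2] at h1
      exact h1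
    · rw [h2] at h1
      exact absurd h1 hv.ne'
  have key' : ∀ v, f v < τ → f' v = f v := by
    intro v hv
    have h1 := h v
    rw [min_eq_left hv.le] at h1
    rcases min_choice (f' v) τ with h2 | h2
    · rw [h2] at h1
      exact h1.symm
    · rw [h2] at h1
      exact absurd h1 hv.ne
  have ha : f' (aml f) = f (aml f) := key' _ hm
  have hmf : mnl f = f (aml f) := rfl
  have haml : aml f' = aml f := by
    refine aml_eq f' (aml f) ?_ ?_
    · intro v
      rw [ha]
      by_contra hc
      have hc := not_le.1 hc
      have h3 := key v (hc.trans (hmf ▸ hm))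
      have h4 := mnl_le f v
      rw [h3, hmf] at h4
      exact absurd hc (not_lt.2 h4)
    · intro v hv
      rw [ha]
      by_contra hc
      have hc := not_lt.1 hc
      have h3 := key v (lt_of_le_of_lt hc (hmf ▸ hm))
      have h4 := mnl_lt f v hv
      rw [h3, hmf] at h4
      exact absurd h4 (not_lt.2 hc)
  refine ⟨?_, haml⟩
  show f' (aml f') = f (aml f)
  rw [haml, ha]

theorem high {M : ℕ} (f f' : Fin (M + 1) → ℝ) (τ : ℝ) (h : ∀ u, min (f u) τ = min (f' u) τ)
    (hm : τ ≤ mnl f) : τ ≤ mnl f' := by
  have h1 := h (aml f')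
  rw [min_eq_right (hm.trans (mnl_le f _))] at h1
  show τ ≤ f' (aml f')
  rw [h1]
  exact min_le_left _ _

open Classical in
theorem loads (M : ℕ) (P : ℕ → Prop) (x x' : ℕ → ℝ) (f f' : Fin (M + 1) → ℝ) (τ : ℝ)
    (hx : ∀ j, 0 ≤ x j) (hx' : ∀ j, 0 ≤ x' j) (hf : ∀ u, min (f u) τ = min (f' u) τ)
    (h1 : ∀ j, P j → sl P x f j + x j < τ → x' j = x j)
    (h2 : ∀ j, P j → sl P x f j < τ → τ ≤ sl P x f j + x j → τ ≤ sl P x f j + x' j) :
    ∀ j, ∀ u, min (ll P x f j u) τ = min (ll P x' f' j u) τ := by
  intro j
  induction j with
  | zero => exact hf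
  | succ j ih =>
    intro u
    show min ((if P j then Function.update (ll P x f j) (aml (ll P x f j))
        (mnl (ll P x f j) + x j) else ll P x f j) u) τ =
      min ((if P j then Function.update (ll P x' f' j) (aml (ll P x' f' j))
        (mnl (ll P x' f' j) + x' j) else ll P x' f' j) u) τ
    by_cases hP : P j
    · rw [if_pos hP, if_pos hP]
      rcases lt_or_ge (mnl (ll P x f j)) τ with hm | hm
      · obtain ⟨h3, h4⟩ := low _ _ τ ih hm
        rw [h3, h4]
        by_cases hu : u = aml (ll P x f j)
        · rw [hu, Function.update_self, Function.update_self]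
          rcases lt_or_ge (mnl (ll P x f j) + x j) τ with h5 | h5
          · rw [h1 j hP h5]
          · have h6 : τ ≤ mnl (ll P x f j) + x' j := h2 j hP hm h5
            rw [min_eq_right h5, min_eq_right h6]
        · rw [Function.update_of_ne hu, Function.update_of_ne hu]
          exact ih u
      · have hm' := high _ _ τ ih hm
        have h7 : ∀ v, τ ≤ Function.update (ll P x f j) (aml (ll P x f j))
            (mnl (ll P x f j) + x j) v := by
          intro v
          by_cases hv : v = aml (ll P x f j)
          · rw [hv, Function.update_self]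
            linarith [hx j]
          · rw [Function.update_of_ne hv]
            exact hm.trans (mnl_le _ _)
        have h8 : ∀ v, τ ≤ Function.update (ll P x' f' j) (aml (ll P x' f' j))
            (mnl (ll P x' f' j) + x' j) v := by
          intro v
          by_cases hv : v = aml (ll P x' f' j)
          · rw [hv, Function.update_self]
            linarith [hx' j]
          · rw [Function.update_of_ne hv]
            exact hm'.trans (mnl_le _ _)
        rw [min_eq_right (h7 u), min_eq_right (h8 u)]
    · rw [if_neg hP, if_neg hP]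
      exact ih u

end LSTaux

theorem t_LST : S_LST := by
  intro M P x x' f f' τ hx hx' hf h1 h2 j
  have h := LSTaux.loads M P x x' f f' τ hx hx' hf h1 h2
  exact ⟨h j, fun hm => LSTaux.low _ _ τ (h j) hm, fun hm => LSTaux.high _ _ τ (h j) hm⟩

end Pool.Agent.SMA
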