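import Pool.Agent.SMA.Stmts

/-!
# One channel, classes of jobs (module SMA_ONE, MP_e25616_lc)
-/

set_option autoImplicit false

namespace Pool.Agent.SMA

open Finset Pool.Agent.BSR

namespace ONEaux

theorem ex_nonneg {n : ℕ} {t : Fin n → ℝ} (ht : ∀ j, 0 ≤ t j) (j : ℕ) : 0 ≤ ex t j := by
  unfold ex
  split_ifs
  · exact ht _
  · exact le_rfl

theorem ex_val {n : ℕ} (t : Fin n → ℝ) (j : Fin n) : ex t j = t j := by
  unfold ex
  rw [dif_pos j.2]

theorem cw_val {n : ℕ} (s : Fin n → ℕ) (w : ℕ) (j : Fin n) : cw s w j ↔ s j = w :=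
  ⟨fun ⟨_, h⟩ => h, fun h => ⟨j.2, h⟩⟩

theorem ps_full {n : ℕ} (s : Fin n → ℕ) (t : Fin n → ℝ) (w : ℕ) :
    ps (cw s w) (ex t) n = tw s t w := by
  classical
  unfold ps tw
  rw [Finset.sum_range, Finset.sum_filter]
  refine Finset.sum_congr rfl fun j _ => ?_
  rw [ex_val]
  by_cases h : s j = w
  · rw [if_pos h, if_pos ((cw_val s w j).2 h)]
  · rw [if_neg h, if_neg fun h2 => h ((cw_val s w j).1 h2)]

theorem ps_mono (P : ℕ → Prop) (x : ℕ → ℝ) (hx : ∀ j, 0 ≤ x j) {i j : ℕ} (h : i ≤ j) :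
    ps P x i ≤ ps P x j := by
  classical
  unfold ps
  apply Finset.sum_le_sum_of_subset_of_nonneg (Finset.range_mono h)
  intro k _ _
  split_ifs
  · exact hx k
  · exact le_rfl

theorem ps_succ (P : ℕ → Prop) (x : ℕ → ℝ) (j : ℕ) (h : P j) : ps P x (j + 1) = ps P x j + x j := by
  classical
  unfold ps
  rw [Finset.sum_range_succ, if_pos h]

end ONEaux

open ONEaux in
theorem t_ONE : M_ONE := by
  intro hLSB
  refine ⟨?_, fun n s t w _ => ps_full s t w, ?_⟩
  · intro P x f j hx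
    obtain ⟨-, -, -, -, h5, -, -⟩ := hLSB 0 P x f hx
    have h := h5 j
    have e : ∀ g : Fin (0 + 1) → ℝ, ∑ u, g u = g 0 := fun g => Fin.sum_univ_one g
    rw [e, e] at h
    have h0 : ∀ u : Fin (0 + 1), u = 0 := fun u => Subsingleton.elim (α := Fin 1) u 0
    refine ⟨h, ?_, h0 _⟩
    unfold sl mnl
    rw [h0 (aml (ll P x f j)), h]
  · intro n s t j ht
    rw [← ps_full s t (s j)]
    have h1 := ps_succ (cw s (s j)) (ex t) j ((cw_val s (s j) j).2 rfl)
    rw [ex_val] at h1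
    rw [← h1]
    exact ps_mono _ _ (ex_nonneg ht) j.2

end Pool.Agent.SMA
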