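import Pool.Agent.SMA.Stmts

/-!
# Non-clairvoyant scheduling on small linear arrays: at most three machines, feasibility
-/

set_option autoImplicit false

namespace Pool.Agent.SMA

open Finset Pool.Agent.BSR

namespace R3Aaux

theorem ex_nonneg {n : ℕ} (t : Fin n → ℝ) (ht : ∀ j, 0 ≤ t j) (j : ℕ) : 0 ≤ ex t j := by
  unfold ex
  split_ifs with h
  · exact ht _
  · exact le_refl _

theorem ex_val {n : ℕ} (t : Fin n → ℝ) (j : Fin n) : ex t j = t j := by
  unfold ex
  rw [dif_pos j.isLt]

theorem ps_nonneg (P : ℕ → Prop) (x : ℕ → ℝ) (hx : ∀ j, 0 ≤ x j) (j : ℕ) : 0 ≤ ps P x j := by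
  unfold ps
  apply sum_nonneg
  intro i _
  split_ifs
  · exact hx i
  · exact le_refl _

theorem tw_nonneg {n : ℕ} (s : Fin n → ℕ) (t : Fin n → ℝ) (ht : ∀ j, 0 ≤ t j) (w : ℕ) :
    0 ≤ tw s t w := by
  unfold tw
  exact sum_nonneg fun j _ => ht j

theorem fin01 (a b : Fin (0 + 1)) : a = b := by
  apply Fin.ext
  have := a.isLt
  have := b.isLt
  omega

theorem cw_self {n : ℕ} (s : Fin n → ℕ) (j : Fin n) : cw s (s j) j := ⟨j.isLt, rfl⟩

end R3Aaux

open R3Aaux

theorem t_R3A : M_R3A := by
  intro hL hO M n s t hM hs ht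
  obtain ⟨hO1, -, hO3⟩ := hO
  have hex := ex_nonneg t ht
  set A := tw s t 3 with hA
  set B := tw s t 2 with hB
  have hA0 : 0 ≤ A := tw_nonneg s t ht 3
  have hB0 : 0 ≤ B := tw_nonneg s t ht 2
  -- the starts
  have st1 : ∀ j, s j = 1 → (r3 M s t).start j = sl (cw s 1) (ex t) (f3 M s t) j := by
    intro j hj
    show (if s j = 1 then _ else _) = _
    rw [if_pos hj]
  have st2 : ∀ j, s j = 2 →
      (r3 M s t).start j = sl (M := 0) (cw s 2) (ex t) (fun _ => A) j := by
    intro j hj
    show (if s j = 1 then _ else if s j = 2 then _ else _) = _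
    rw [if_neg (by omega), if_pos hj]
  have st3 : ∀ j, s j = 3 →
      (r3 M s t).start j = sl (M := 0) (cw s 3) (ex t) (fun _ => 0) j := by
    intro j hj
    show (if s j = 1 then _ else if s j = 2 then _ else _) = _
    rw [if_neg (by omega), if_neg (by omega)]
  have po1 : ∀ j, s j = 1 → (r3 M s t).pos j = (cl (cw s 1) (ex t) (f3 M s t) j : ℕ) := by
    intro j hj
    show (if s j = 1 then _ else _) = _
    rw [if_pos hj]
  have po2 : ∀ j, s j ≠ 1 → (r3 M s t).pos j = 0 := by
    intro j hj
    show (if s j = 1 then _ else _) = _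
    rw [if_neg hj]
  have cls : ∀ j, s j = 1 ∨ s j = 2 ∨ s j = 3 := by
    intro j
    have := hs j
    omega
  -- the class 3
  have c3 : ∀ j, s j = 3 → 0 ≤ (r3 M s t).start j ∧ (r3 M s t).start j + t j ≤ A := by
    intro j hj
    rw [st3 j hj, (hO1 (cw s 3) (ex t) (fun _ => 0) j hex).2.1]
    have h1 := hO3 n s t j ht
    rw [hj] at h1
    have h2 := ps_nonneg (cw s 3) (ex t) hex j
    constructor
    · linarith
    · rw [zero_add]
      exact h1
  have c2 : ∀ j, s j = 2 → A ≤ (r3 M s t).start j ∧ (r3 M s t).start j + t j ≤ A + B := by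
    intro j hj
    rw [st2 j hj, (hO1 (cw s 2) (ex t) (fun _ => A) j hex).2.1]
    have h1 := hO3 n s t j ht
    rw [hj] at h1
    have h2 := ps_nonneg (cw s 2) (ex t) hex j
    constructor
    · linarith
    · linarith
  have c1 : ∀ j, s j = 1 →
      f3 M s t (cl (cw s 1) (ex t) (f3 M s t) j) ≤ (r3 M s t).start j := by
    intro j hj
    rw [st1 j hj]
    exact (hL M (cw s 1) (ex t) (f3 M s t) hex).2.2.2.2.2.1 j
  have f3A : ∀ p, A ≤ f3 M s t p := by
    intro p
    unfold f3
    split_ifs
    · exact le_refl _
    · linarith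
  have f3B : ∀ p : Fin (M + 1), (p : ℕ) ≠ 2 → f3 M s t p = A + B := by
    intro p hp
    unfold f3
    rw [if_neg hp]
  have c1A : ∀ j, s j = 1 → A ≤ (r3 M s t).start j := fun j hj => (f3A _).trans (c1 j hj)
  -- one channel, two jobs of the same class
  have same : ∀ i j, i < j → s i = s j →
      ((r3 M s t).pos i + s i ≤ (r3 M s t).pos j ∨ (r3 M s t).pos j + s j ≤ (r3 M s t).pos i) ∨
        (r3 M s t).start i + t i ≤ (r3 M s t).start j := by
    intro i j hij hsij
    have hij' : (i : ℕ) < (j : ℕ) := hij
    rcases cls i with h | h | h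
    · have hj : s j = 1 := by omega
      by_cases hc : cl (cw s 1) (ex t) (f3 M s t) i = cl (cw s 1) (ex t) (f3 M s t) j
      · right
        rw [st1 i h, st1 j hj]
        have hP : cw s 1 i := by
          have := cw_self s i
          rwa [h] at this
        have := (hL M (cw s 1) (ex t) (f3 M s t) hex).2.1 i j hP hij' hc
        rwa [ex_val] at this
      · left
        rw [po1 i h, po1 j hj, h, hj]
        have : (cl (cw s 1) (ex t) (f3 M s t) i : ℕ) ≠ (cl (cw s 1) (ex t) (f3 M s t) j : ℕ) :=
          fun h' => hc (Fin.ext h')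
        omega
    · have hj : s j = 2 := by omega
      right
      rw [st2 i h, st2 j hj]
      have hP : cw s 2 i := by
        have := cw_self s i
        rwa [h] at this
      have := (hL 0 (cw s 2) (ex t) (fun _ => A) hex).2.1 i j hP hij' (fin01 _ _)
      rwa [ex_val] at this
    · have hj : s j = 3 := by omega
      right
      rw [st3 i h, st3 j hj]
      have hP : cw s 3 i := by
        have := cw_self s i
        rwa [h] at this
      have := (hL 0 (cw s 3) (ex t) (fun _ => 0) hex).2.1 i j hP hij' (fin01 _ _)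
      rwa [ex_val] at this
  -- two jobs of different classes
  have diff : ∀ i j, s j < s i →
      ((r3 M s t).pos i + s i ≤ (r3 M s t).pos j ∨ (r3 M s t).pos j + s j ≤ (r3 M s t).pos i) ∨
        (r3 M s t).start i + t i ≤ (r3 M s t).start j := by
    intro i j hij
    rcases cls i with h | h | h
    · have := cls j
      omega
    · have hj : s j = 1 := by
        have := cls j
        omega
      by_cases hc : (cl (cw s 1) (ex t) (f3 M s t) j : ℕ) = 2
      · left
        left
        rw [po2 i (by omega), po1 j hj, h, hc]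
      · right
        have h1 := c1 j hj
        rw [f3B _ hc] at h1
        exact (c2 i h).2.trans h1
    · right
      refine (c3 i h).2.trans ?_
      rcases cls j with hj | hj | hj
      · exact c1A j hj
      · exact (c2 j hj).1
      · omega
  refine ⟨?_, ?_, ?_⟩
  · intro j
    rcases cls j with h | h | h
    · exact hA0.trans (c1A j h)
    · exact hA0.trans (c2 j h).1
    · exact (c3 j h).1
  · intro j
    by_cases h : s j = 1
    · rw [po1 j h, h]
      have := (cl (cw s 1) (ex t) (f3 M s t) j).isLt
      omega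
    · rw [po2 j h]
      have := (hs j).2
      omega
  · intro i j hne τ h1 h2 h3 h4
    rcases lt_trichotomy (s i) (s j) with h | h | h
    · rcases diff j i h with h' | h'
      · exact h'.symm
      · exact absurd (h'.trans h1) (not_le.2 h4)
    · rcases lt_or_gt_of_ne hne with hlt | hlt
      · rcases same i j hlt h with h' | h'
        · exact h'
        · exact absurd (h'.trans h3) (not_le.2 h2)
      · rcases same j i hlt h.symm with h' | h'
        · exact h'.symm
        · exact absurd (h'.trans h1) (not_le.2 h4)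
    · rcases diff i j h with h' | h'
      · exact h'
      · exact absurd (h'.trans h3) (not_le.2 h2)

end Pool.Agent.SMA
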