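import Pool.Agent.SMA.Stmts

/-!
# Small linear arrays, module R3B: the rule for at most three machines is non-anticipating
-/

set_option autoImplicit false

namespace Pool.Agent.SMA

open Finset Pool.Agent.BSR

namespace R3Baux

theorem ex_nonneg {n : ℕ} (t : Fin n → ℝ) (ht : ∀ j, 0 ≤ t j) (j : ℕ) : 0 ≤ ex t j := by
  unfold ex
  split_ifs with h
  · exact ht _
  · exact le_refl _

theorem ex_val {n : ℕ} (t : Fin n → ℝ) (j : ℕ) (h : j < n) : ex t j = t ⟨j, h⟩ := by
  unfold ex
  rw [dif_pos h]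

/-- list scheduling of one class of jobs, two instances which cannot be distinguished before `τ` -/
theorem step (hLST : S_LST) {M n : ℕ} (s : Fin n → ℕ) (t t' : Fin n → ℝ) (τ : ℝ) (w : ℕ)
    (f f' : Fin (M + 1) → ℝ) (ht : ∀ j, 0 ≤ t j) (ht' : ∀ j, 0 ≤ t' j) (st : Fin n → ℝ)
    (h1 : ∀ j, st j + t j < τ → t' j = t j)
    (h2 : ∀ j, st j < τ → τ ≤ st j + t j → τ ≤ st j + t' j)
    (hst : ∀ j : Fin n, s j = w → st j = sl (cw s w) (ex t) f j)
    (hf : ∀ u, min (f u) τ = min (f' u) τ) (j : ℕ) :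
    (∀ u, min (ll (cw s w) (ex t) f j u) τ = min (ll (cw s w) (ex t') f' j u) τ) ∧
      (sl (cw s w) (ex t) f j < τ → sl (cw s w) (ex t') f' j = sl (cw s w) (ex t) f j ∧
        cl (cw s w) (ex t') f' j = cl (cw s w) (ex t) f j) ∧
      (τ ≤ sl (cw s w) (ex t) f j → τ ≤ sl (cw s w) (ex t') f' j) := by
  refine hLST M (cw s w) (ex t) (ex t') f f' τ (ex_nonneg t ht) (ex_nonneg t' ht') hf ?_ ?_ j
  · intro i hi h
    obtain ⟨hn, hw⟩ := hi
    rw [ex_val t i hn] at h ⊢
    rw [ex_val t' i hn]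
    refine h1 ⟨i, hn⟩ ?_
    rw [hst ⟨i, hn⟩ hw]
    exact h
  · intro i hi h h'
    obtain ⟨hn, hw⟩ := hi
    rw [ex_val t i hn] at h'
    rw [ex_val t' i hn]
    have e := hst ⟨i, hn⟩ hw
    have h3 := h2 ⟨i, hn⟩ (by rw [e]; exact h) (by rw [e]; exact h')
    rw [e] at h3
    exact h3

end R3Baux

theorem t_R3B : M_R3B := by
  intro _ hLST hONE M n s hM hs t t' ht ht' τ h1 h2
  obtain ⟨o1, o2, -⟩ := hONE
  have hst1 : ∀ j : Fin n, s j = 1 →
      (r3 M s t).start j = sl (cw s 1) (ex t) (f3 M s t) j := by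
    intro j hj
    show (if s j = 1 then _ else _) = _
    rw [if_pos hj]
  have hst2 : ∀ j : Fin n, s j = 2 →
      (r3 M s t).start j = sl (M := 0) (cw s 2) (ex t) (fun _ => tw s t 3) j := by
    intro j hj
    show (if s j = 1 then _ else if s j = 2 then _ else _) = _
    rw [if_neg (by omega), if_pos hj]
  have hst3 : ∀ j : Fin n, s j = 3 →
      (r3 M s t).start j = sl (M := 0) (cw s 3) (ex t) (fun _ => 0) j := by
    intro j hj
    show (if s j = 1 then _ else if s j = 2 then _ else _) = _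
    rw [if_neg (by omega), if_neg (by omega)]
  -- the class `3`
  have c3 := R3Baux.step (M := 0) hLST s t t' τ 3 (fun _ => 0) (fun _ => 0) ht ht'
    (r3 M s t).start h1 h2 hst3 (fun _ => rfl)
  have e3 : min (tw s t 3) τ = min (tw s t' 3) τ := by
    have h := (c3 n).1 0
    rw [(o1 (cw s 3) (ex t) (fun _ => 0) n (R3Baux.ex_nonneg t ht)).1,
      (o1 (cw s 3) (ex t') (fun _ => 0) n (R3Baux.ex_nonneg t' ht')).1, o2 n s t 3 ht,
      o2 n s t' 3 ht', zero_add, zero_add] at h
    exact h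
  -- the class `2`
  have c2 := R3Baux.step (M := 0) hLST s t t' τ 2 (fun _ => tw s t 3) (fun _ => tw s t' 3) ht ht'
    (r3 M s t).start h1 h2 hst2 (fun _ => e3)
  have e2 : min (tw s t 3 + tw s t 2) τ = min (tw s t' 3 + tw s t' 2) τ := by
    have h := (c2 n).1 0
    rw [(o1 (cw s 2) (ex t) (fun _ => tw s t 3) n (R3Baux.ex_nonneg t ht)).1,
      (o1 (cw s 2) (ex t') (fun _ => tw s t' 3) n (R3Baux.ex_nonneg t' ht')).1, o2 n s t 2 ht,
      o2 n s t' 2 ht'] at h
    exact h
  -- the class `1`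
  have c1 := R3Baux.step hLST s t t' τ 1 (f3 M s t) (f3 M s t') ht ht'
    (r3 M s t).start h1 h2 hst1 (by
      intro u
      unfold f3
      split_ifs
      · exact e3
      · exact e2)
  intro j
  obtain ⟨hj1, hj2⟩ := hs j
  by_cases a1 : s j = 1
  · have b := c1 j
    have q1 : (r3 M s t).start j = sl (cw s 1) (ex t) (f3 M s t) j := hst1 j a1
    have q2 : (r3 M s t').start j = sl (cw s 1) (ex t') (f3 M s t') j := by
      show (if s j = 1 then _ else _) = _
      rw [if_pos a1]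
    have q3 : (r3 M s t).pos j = (cl (cw s 1) (ex t) (f3 M s t) j : ℕ) := by
      show (if s j = 1 then _ else _) = _
      rw [if_pos a1]
    have q4 : (r3 M s t').pos j = (cl (cw s 1) (ex t') (f3 M s t') j : ℕ) := by
      show (if s j = 1 then _ else _) = _
      rw [if_pos a1]
    rw [q1, q2, q3, q4]
    refine ⟨fun h => ?_, b.2.2⟩
    obtain ⟨x, y⟩ := b.2.1 h
    exact ⟨x, by rw [y]⟩
  · have q3 : (r3 M s t).pos j = 0 := by
      show (if s j = 1 then _ else _) = _
      rw [if_neg a1]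
    have q4 : (r3 M s t').pos j = 0 := by
      show (if s j = 1 then _ else _) = _
      rw [if_neg a1]
    by_cases a2 : s j = 2
    · have b := c2 j
      have q1 : (r3 M s t).start j = sl (M := 0) (cw s 2) (ex t) (fun _ => tw s t 3) j := hst2 j a2
      have q2 : (r3 M s t').start j = sl (M := 0) (cw s 2) (ex t') (fun _ => tw s t' 3) j := by
        show (if s j = 1 then _ else if s j = 2 then _ else _) = _
        rw [if_neg a1, if_pos a2]
      rw [q1, q2, q3, q4]
      exact ⟨fun h => ⟨(b.2.1 h).1, rfl⟩, b.2.2⟩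
    · have a3 : s j = 3 := by omega
      have b := c3 j
      have q1 : (r3 M s t).start j = sl (M := 0) (cw s 3) (ex t) (fun _ => 0) j := hst3 j a3
      have q2 : (r3 M s t').start j = sl (M := 0) (cw s 3) (ex t') (fun _ => 0) j := by
        show (if s j = 1 then _ else if s j = 2 then _ else _) = _
        rw [if_neg a1, if_neg a2]
      rw [q1, q2, q3, q4]
      exact ⟨fun h => ⟨(b.2.1 h).1, rfl⟩, b.2.2⟩

end Pool.Agent.SMA
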