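import Pool.Agent.SMA.Stmts

/-!
# Small linear arrays: at most three machines, the makespan
-/

set_option autoImplicit false

namespace Pool.Agent.SMA

open Finset Pool.Agent.BSR

namespace R3Caux

theorem ex_nonneg {n : ℕ} {t : Fin n → ℝ} (ht : ∀ j, 0 ≤ t j) (j : ℕ) : 0 ≤ ex t j := by
  unfold ex
  split_ifs
  · exact ht _
  · exact le_rfl

theorem tw_nonneg {n : ℕ} (s : Fin n → ℕ) {t : Fin n → ℝ} (ht : ∀ j, 0 ≤ t j) (w : ℕ) :
    0 ≤ tw s t w := sum_nonneg fun j _ => ht j

theorem tw_eq {n : ℕ} (s : Fin n → ℕ) (t : Fin n → ℝ) (w : ℕ) :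
    tw s t w = ∑ j, if s j = w then t j else 0 := by
  unfold tw
  rw [sum_filter]

theorem sum_f3 {n : ℕ} (M : ℕ) (hM : M ≤ 2) (s : Fin n → ℕ) {t : Fin n → ℝ} (ht : ∀ j, 0 ≤ t j) :
    ∑ p, f3 M s t p ≤ 3 * tw s t 3 + 2 * tw s t 2 := by
  have h2 := tw_nonneg s ht 2
  have h3 := tw_nonneg s ht 3
  have hcases : M = 0 ∨ M = 1 ∨ M = 2 := by omega
  rcases hcases with rfl | rfl | rfl
  · simp only [f3, Fin.sum_univ_succ, univ_unique, sum_singleton]
    simp
    linarith
  · rw [Fin.sum_univ_two]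
    simp only [f3]
    norm_num
    linarith
  · rw [Fin.sum_univ_three]
    simp only [f3]
    norm_num
    linarith

end R3Caux

open R3Caux

theorem t_R3C : M_R3C := by
  intro hLSB hONE hSEQ M n s t hM hs ht
  have hex := ex_nonneg ht
  obtain ⟨hopt0, htj, harea⟩ := x_ARE (M + 1) n s t (fun j => (hs j).2) ht
  have hM0 : (0 : ℝ) < (M : ℝ) + 1 := by positivity
  have hM1 : (1 : ℝ) ≤ (M : ℝ) + 1 := by
    have : (0 : ℝ) ≤ M := Nat.cast_nonneg M
    linarith
  have hinv : 1 / ((M : ℝ) + 1) ≤ 1 := by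
    rw [div_le_one hM0]
    exact hM1
  have hc : OPT (M + 1) s t ≤ (2 - 1 / ((M : ℝ) + 1)) * OPT (M + 1) s t := by
    nlinarith
  have h1 := tw_nonneg s ht 1
  have h2 := tw_nonneg s ht 2
  have h3 := tw_nonneg s ht 3
  -- the long jobs
  have hu : tw s t 3 + tw s t 2 ≤ OPT (M + 1) s t := by
    have h := hSEQ.2 (M + 1) n s t (fun j => (hs j).2) ht (univ.filter fun j => 2 ≤ s j) (by
      intro i hi j hj _
      have hi' := (mem_filter.1 hi).2
      have hj' := (mem_filter.1 hj).2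
      omega)
    refine le_trans (le_of_eq ?_) h
    rw [tw_eq, tw_eq, ← sum_add_distrib, sum_filter]
    refine sum_congr rfl fun j _ => ?_
    have hj := hs j
    have hcases : s j = 1 ∨ s j = 2 ∨ s j = 3 := by omega
    rcases hcases with h | h | h <;> simp [h]
  -- the area
  have har : 3 * tw s t 3 + 2 * tw s t 2 + tw s t 1 ≤ ((M : ℝ) + 1) * OPT (M + 1) s t := by
    push_cast at harea
    refine le_trans (le_of_eq ?_) harea
    rw [tw_eq, tw_eq, tw_eq, mul_sum, mul_sum, ← sum_add_distrib, ← sum_add_distrib]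
    refine sum_congr rfl fun j _ => ?_
    have hj := hs j
    have hcases : s j = 1 ∨ s j = 2 ∨ s j = 3 := by omega
    rcases hcases with h | h | h <;> simp [h]
  unfold makespan
  refine Real.iSup_le (fun j => ?_) (hopt0.trans hc)
  have hj := hs j
  have hps := hONE.2.2 n s t j ht
  have hcases : s j = 1 ∨ s j = 2 ∨ s j = 3 := by omega
  rcases hcases with h | h | h
  · rw [h] at hps
    have hst : (r3 M s t).start j = sl (cw s 1) (ex t) (f3 M s t) j := by simp [r3, h]
    rw [hst]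
    have hS := (hLSB M (cw s 1) (ex t) (f3 M s t) hex).2.2.2.2.2.2 j
    have hf := sum_f3 M hM s ht
    set S := sl (cw s 1) (ex t) (f3 M s t) j
    set O := OPT (M + 1) s t
    have hmS : ((M : ℝ) + 1) * S + t j ≤ ((M : ℝ) + 1) * O := by linarith
    have hS' : S ≤ O - t j / ((M : ℝ) + 1) := by
      rw [le_sub_iff_add_le, ← mul_le_mul_iff_right₀ hM0, mul_add, mul_div_cancel₀ _ hM0.ne']
      exact hmS
    have ht1 : t j * (1 - 1 / ((M : ℝ) + 1)) ≤ O * (1 - 1 / ((M : ℝ) + 1)) :=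
      mul_le_mul_of_nonneg_right (htj j) (by linarith)
    have ht2 : t j / ((M : ℝ) + 1) = t j * (1 / ((M : ℝ) + 1)) := by ring
    rw [ht2] at hS'
    nlinarith
  · rw [h] at hps
    have hst : (r3 M s t).start j = sl (M := 0) (cw s 2) (ex t) (fun _ => tw s t 3) j := by
      simp [r3, h]
    rw [hst, (hONE.1 (cw s 2) (ex t) (fun _ => tw s t 3) j hex).2.1]
    linarith
  · rw [h] at hps
    have hst : (r3 M s t).start j = sl (M := 0) (cw s 3) (ex t) (fun _ => 0) j := by
      simp [r3, h]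
    rw [hst, (hONE.1 (cw s 3) (ex t) (fun _ => 0) j hex).2.1]
    linarith

end Pool.Agent.SMA
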