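import Pool.Agent.SMA.Stmts

/-!
# Four machines: feasibility (module R4A of MP_e25616_lc)
-/

set_option autoImplicit false

namespace Pool.Agent.SMA

open Finset Pool.Agent.BSR

namespace R4Aaux

theorem ex_nonneg {n : ℕ} {t : Fin n → ℝ} (ht : ∀ j, 0 ≤ t j) (j : ℕ) : 0 ≤ ex t j := by
  unfold ex
  split_ifs
  · exact ht _
  · exact le_refl _

theorem ex_val {n : ℕ} (t : Fin n → ℝ) (j : Fin n) : ex t j = t j := by
  unfold ex
  rw [dif_pos j.isLt]

theorem tw_nonneg {n : ℕ} (s : Fin n → ℕ) {t : Fin n → ℝ} (ht : ∀ j, 0 ≤ t j) (w : ℕ) :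
    0 ≤ tw s t w := Finset.sum_nonneg fun j _ => ht j

theorem cw_val {n : ℕ} {s : Fin n → ℕ} {w : ℕ} {j : Fin n} (h : s j = w) : cw s w j :=
  ⟨j.isLt, h⟩

theorem ps_nonneg (P : ℕ → Prop) {x : ℕ → ℝ} (hx : ∀ j, 0 ≤ x j) (j : ℕ) : 0 ≤ ps P x j := by
  unfold ps
  refine Finset.sum_nonneg fun i _ => ?_
  split_ifs
  · exact hx i
  · exact le_refl _

section

variable {n : ℕ} {s : Fin n → ℕ} {t : Fin n → ℝ}

/-- the data of a job -/
theorem key (hL : S_LSB) (hO : S_ONE) (hs : ∀ j, 1 ≤ s j ∧ s j ≤ 4) (ht : ∀ j, 0 ≤ t j)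
    (j : Fin n) :
    (s j = 4 ∧ (r4 s t).pos j = 0 ∧ 0 ≤ (r4 s t).start j ∧
      (r4 s t).start j + t j ≤ tw s t 4) ∨
    (s j = 3 ∧ (r4 s t).pos j = 0 ∧ tw s t 4 ≤ (r4 s t).start j ∧
      (r4 s t).start j + t j ≤ tw s t 4 + tw s t 3) ∨
    (s j = 2 ∧ (r4 s t).pos j = 0 ∧ tw s t 4 + tw s t 3 ≤ (r4 s t).start j ∧
      (r4 s t).start j + t j ≤ tw s t 4 + tw s t 3 + tw s t 2) ∨
    (s j = 2 ∧ (r4 s t).pos j = 2 ∧ yy s t ≤ (r4 s t).start j) ∨
    (s j = 1 ∧ (r4 s t).pos j = 3 ∧ tw s t 4 ≤ (r4 s t).start j ∧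
      (r4 s t).start j + t j ≤ yy s t) ∨
    (s j = 1 ∧ (r4 s t).pos j = 2 ∧ tw s t 4 + tw s t 3 ≤ (r4 s t).start j ∧
      (r4 s t).start j + t j ≤ yy s t) ∨
    (s j = 1 ∧ (r4 s t).pos j ≤ 1 ∧ tw s t 4 + tw s t 3 + tw s t 2 ≤ (r4 s t).start j) := by
  have hx : ∀ i, 0 ≤ ex t i := ex_nonneg ht
  obtain ⟨hO1, hO2, hO3⟩ := hO
  have h3 := hO3 n s t j ht
  have hxj : ex t j = t j := ex_val t j
  have hj : (j : ℕ) < n := j.isLt
  rcases (by have := hs j; omega : s j = 4 ∨ s j = 3 ∨ s j = 2 ∨ s j = 1) with h | h | h | h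
  · -- class 4
    left
    have e1 : (r4 s t).start j = sl (M := 0) (cw s 4) (ex t) (fun _ => 0) j := by
      simp [r4, h]
    have e2 : (r4 s t).pos j = 0 := by simp [r4, h]
    have e3 := (hO1 (cw s 4) (ex t) (fun _ => 0) j hx).2.1
    rw [h] at h3
    have h5 := ps_nonneg (cw s 4) hx j
    refine ⟨h, e2, ?_, ?_⟩
    · rw [e1, e3]; linarith
    · rw [e1, e3]; linarith
  · -- class 3
    right; left
    have e1 : (r4 s t).start j = sl (M := 0) (cw s 3) (ex t) (fun _ => tw s t 4) j := by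
      simp [r4, h]
    have e2 : (r4 s t).pos j = 0 := by simp [r4, h]
    have e3 := (hO1 (cw s 3) (ex t) (fun _ => tw s t 4) j hx).2.1
    rw [h] at h3
    have h5 := ps_nonneg (cw s 3) hx j
    refine ⟨h, e2, ?_, ?_⟩
    · rw [e1, e3]; linarith
    · rw [e1, e3]; linarith
  · -- class 2
    have e1 : (r4 s t).start j = sl (cw s 2) (ex t) (g4 s t) j := by simp [r4, h]
    have e2 : (r4 s t).pos j = 2 * (cl (cw s 2) (ex t) (g4 s t) j : ℕ) := by simp [r4, h]
    obtain ⟨l1, l2, l3, l4, l5, l6, l7⟩ := hL 1 (cw s 2) (ex t) (g4 s t) hx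
    have h6 := l6 j
    have hP : cw s 2 j := cw_val h
    have h7 := l3 j n hP hj
    have h8 := l5 n
    rw [hO2 n s t 2 ht] at h8
    have h9 : g4 s t 1 ≤ ll (cw s 2) (ex t) (g4 s t) n 1 := l1 0 n (Nat.zero_le _) 1
    rw [Fin.sum_univ_two, Fin.sum_univ_two] at h8
    have g0 : g4 s t 0 = tw s t 4 + tw s t 3 := by simp [g4]
    have g1 : g4 s t 1 = yy s t := by simp [g4]
    generalize hc : cl (cw s 2) (ex t) (g4 s t) j = c at e2 h6 h7
    have hc2 : c = 0 ∨ c = 1 := by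
      have := c.isLt
      rcases (by omega : (c : ℕ) = 0 ∨ (c : ℕ) = 1) with h | h
      · left; exact Fin.ext h
      · right; exact Fin.ext h
    rcases hc2 with rfl | rfl
    · right; right; left
      rw [g0] at h6 h8
      rw [hxj] at h7
      refine ⟨h, by simpa using e2, ?_, ?_⟩
      · rw [e1]; exact h6
      · rw [e1]; linarith
    · right; right; right; left
      rw [g1] at h6
      refine ⟨h, by simpa using e2, ?_⟩
      rw [e1]; exact h6
  · -- class 1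
    have e1 : (r4 s t).start j = sl (cw s 1) (ex t) (f4 s t) j := by simp [r4, h]
    have e2 : (r4 s t).pos j = 3 - (cl (cw s 1) (ex t) (f4 s t) j : ℕ) := by simp [r4, h]
    obtain ⟨l1, l2, l3, l4, l5, l6, l7⟩ := hL 3 (cw s 1) (ex t) (f4 s t) hx
    have h6 := l6 j
    have hP : cw s 1 j := cw_val h
    have h7 := l3 j n hP hj
    rw [hxj] at h7
    have y0 : ll (cw s 1) (ex t) (f4 s t) n 0 ≤ yy s t := le_max_left _ _
    have y1 : ll (cw s 1) (ex t) (f4 s t) n 1 ≤ yy s t := le_max_right _ _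
    generalize hc : cl (cw s 1) (ex t) (f4 s t) j = c at e2 h6 h7
    have hc4 : c = 0 ∨ c = 1 ∨ 2 ≤ (c : ℕ) := by
      have := c.isLt
      rcases (by omega : (c : ℕ) = 0 ∨ (c : ℕ) = 1 ∨ 2 ≤ (c : ℕ)) with h | h | h
      · left; exact Fin.ext h
      · right; left; exact Fin.ext h
      · right; right; exact h
    rcases hc4 with rfl | rfl | hc2
    · right; right; right; right; left
      have g0 : f4 s t 0 = tw s t 4 := by simp [f4]
      rw [g0] at h6
      refine ⟨h, by simpa using e2, ?_, ?_⟩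
      · rw [e1]; exact h6
      · rw [e1]; linarith
    · right; right; right; right; right; left
      have g1 : f4 s t 1 = tw s t 4 + tw s t 3 := by simp [f4]
      rw [g1] at h6
      refine ⟨h, by simpa using e2, ?_, ?_⟩
      · rw [e1]; exact h6
      · rw [e1]; linarith
    · right; right; right; right; right; right
      have g2 : f4 s t c = tw s t 4 + tw s t 3 + tw s t 2 := by
        unfold f4
        rw [if_neg (by omega), if_neg (by omega)]
      rw [g2] at h6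
      refine ⟨h, ?_, ?_⟩
      · rw [e2]; omega
      · rw [e1]; exact h6

/-- two jobs of the same class on the same channel, `i < j` -/
theorem ord_lt (hL : S_LSB) (hs : ∀ j, 1 ≤ s j ∧ s j ≤ 4) (ht : ∀ j, 0 ≤ t j)
    {i j : Fin n} (hij : (i : ℕ) < j) (h : s i = s j) (hp : (r4 s t).pos i = (r4 s t).pos j) :
    (r4 s t).start i + t i ≤ (r4 s t).start j := by
  have hx : ∀ i, 0 ≤ ex t i := ex_nonneg ht
  have hxi : ex t i = t i := ex_val t i
  rcases (by have := hs j; omega : s j = 4 ∨ s j = 3 ∨ s j = 2 ∨ s j = 1) with hj | hj | hj | hj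
  · have hi : s i = 4 := h.trans hj
    have e1 : (r4 s t).start j = sl (M := 0) (cw s 4) (ex t) (fun _ => 0) j := by simp [r4, hj]
    have e2 : (r4 s t).start i = sl (M := 0) (cw s 4) (ex t) (fun _ => 0) i := by simp [r4, hi]
    have h2 := (hL 0 (cw s 4) (ex t) (fun _ => 0) hx).2.1 i j (cw_val hi) hij
      (Subsingleton.elim (α := Fin 1) _ _)
    rw [e1, e2, ← hxi]; exact h2
  · have hi : s i = 3 := h.trans hj
    have e1 : (r4 s t).start j = sl (M := 0) (cw s 3) (ex t) (fun _ => tw s t 4) j := by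
      simp [r4, hj]
    have e2 : (r4 s t).start i = sl (M := 0) (cw s 3) (ex t) (fun _ => tw s t 4) i := by
      simp [r4, hi]
    have h2 := (hL 0 (cw s 3) (ex t) (fun _ => tw s t 4) hx).2.1 i j (cw_val hi) hij
      (Subsingleton.elim (α := Fin 1) _ _)
    rw [e1, e2, ← hxi]; exact h2
  · have hi : s i = 2 := h.trans hj
    have e1 : (r4 s t).start j = sl (cw s 2) (ex t) (g4 s t) j := by simp [r4, hj]
    have e2 : (r4 s t).start i = sl (cw s 2) (ex t) (g4 s t) i := by simp [r4, hi]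
    have p1 : (r4 s t).pos j = 2 * (cl (cw s 2) (ex t) (g4 s t) j : ℕ) := by simp [r4, hj]
    have p2 : (r4 s t).pos i = 2 * (cl (cw s 2) (ex t) (g4 s t) i : ℕ) := by simp [r4, hi]
    have hc : cl (cw s 2) (ex t) (g4 s t) i = cl (cw s 2) (ex t) (g4 s t) j := by
      apply Fin.ext; omega
    have h2 := (hL 1 (cw s 2) (ex t) (g4 s t) hx).2.1 i j (cw_val hi) hij hc
    rw [e1, e2, ← hxi]; exact h2
  · have hi : s i = 1 := h.trans hj
    have e1 : (r4 s t).start j = sl (cw s 1) (ex t) (f4 s t) j := by simp [r4, hj]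
    have e2 : (r4 s t).start i = sl (cw s 1) (ex t) (f4 s t) i := by simp [r4, hi]
    have p1 : (r4 s t).pos j = 3 - (cl (cw s 1) (ex t) (f4 s t) j : ℕ) := by simp [r4, hj]
    have p2 : (r4 s t).pos i = 3 - (cl (cw s 1) (ex t) (f4 s t) i : ℕ) := by simp [r4, hi]
    have b1 := (cl (cw s 1) (ex t) (f4 s t) j).isLt
    have b2 := (cl (cw s 1) (ex t) (f4 s t) i).isLt
    have hc : cl (cw s 1) (ex t) (f4 s t) i = cl (cw s 1) (ex t) (f4 s t) j := by
      apply Fin.ext; omega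
    have h2 := (hL 3 (cw s 1) (ex t) (f4 s t) hx).2.1 i j (cw_val hi) hij hc
    rw [e1, e2, ← hxi]; exact h2

theorem ord (hL : S_LSB) (hs : ∀ j, 1 ≤ s j ∧ s j ≤ 4) (ht : ∀ j, 0 ≤ t j)
    {i j : Fin n} (hij : i ≠ j) (h : s i = s j) (hp : (r4 s t).pos i = (r4 s t).pos j) :
    (r4 s t).start i + t i ≤ (r4 s t).start j ∨ (r4 s t).start j + t j ≤ (r4 s t).start i := by
  rcases lt_or_gt_of_ne (fun h => hij (Fin.ext h) : (i : ℕ) ≠ j) with h1 | h1
  · left; exact ord_lt hL hs ht h1 h hp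
  · right; exact ord_lt hL hs ht h1 h.symm hp.symm

/-- the channels `0`, `1` of the class `1` are free at `yy` only -/
theorem u_le_yy (hL : S_LSB) (ht : ∀ j, 0 ≤ t j) : tw s t 4 + tw s t 3 ≤ yy s t := by
  have hx : ∀ i, 0 ≤ ex t i := ex_nonneg ht
  have h1 := (hL 3 (cw s 1) (ex t) (f4 s t) hx).1 0 n (Nat.zero_le _) 1
  have g1 : f4 s t 1 = tw s t 4 + tw s t 3 := by simp [f4]
  have y1 : ll (cw s 1) (ex t) (f4 s t) n 1 ≤ yy s t := le_max_right _ _
  have h2 : f4 s t 1 ≤ ll (cw s 1) (ex t) (f4 s t) n 1 := h1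
  linarith

end

end R4Aaux

open R4Aaux in
theorem t_R4A : M_R4A := by
  intro hL hO n s t hs ht
  have w4 := tw_nonneg s ht 4
  have w3 := tw_nonneg s ht 3
  have w2 := tw_nonneg s ht 2
  have hu := u_le_yy (n := n) (s := s) hL ht
  refine ⟨fun j => ?_, fun j => ?_, fun i j hij τ a1 a2 a3 a4 => ?_⟩
  · rcases key hL hO hs ht j with h | h | h | h | h | h | h
    · exact h.2.2.1
    · exact w4.trans h.2.2.1
    · linarith [h.2.2.1]
    · linarith [h.2.2]
    · exact w4.trans h.2.2.1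
    · linarith [h.2.2.1]
    · linarith [h.2.2]
  · rcases key hL hO hs ht j with h | h | h | h | h | h | h <;> omega
  · have hord := fun h hp => ord hL hs ht (i := i) (j := j) hij h hp
    rcases key hL hO hs ht i with ⟨h1, h2, h3, h4⟩ | ⟨h1, h2, h3, h4⟩ | ⟨h1, h2, h3, h4⟩ |
      ⟨h1, h2, h3⟩ | ⟨h1, h2, h3, h4⟩ | ⟨h1, h2, h3, h4⟩ | ⟨h1, h2, h3⟩ <;>
    rcases key hL hO hs ht j with ⟨k1, k2, k3, k4⟩ | ⟨k1, k2, k3, k4⟩ | ⟨k1, k2, k3, k4⟩ |
      ⟨k1, k2, k3⟩ | ⟨k1, k2, k3, k4⟩ | ⟨k1, k2, k3, k4⟩ | ⟨k1, k2, k3⟩ <;>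
    first
      | (exfalso; linarith)
      | (left; omega)
      | (right; omega)
      | (have hq : s i = s j := h1.trans k1.symm
         by_cases hp : (r4 s t).pos i = (r4 s t).pos j
         · exfalso
           rcases hord hq hp with h | h <;> linarith
         · omega)

end Pool.Agent.SMA
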