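import Pool.Agent.SMA.Stmts

/-!
# Small linear arrays, module R4B: the rule for four machines is non-anticipating
-/

set_option autoImplicit false

namespace Pool.Agent.SMA

open Finset Pool.Agent.BSR

namespace R4Baux

theorem ex_nonneg {n : ℕ} (t : Fin n → ℝ) (ht : ∀ j, 0 ≤ t j) (j : ℕ) : 0 ≤ ex t j := by
  unfold ex
  split_ifs with h
  · exact ht _
  · exact le_refl _

theorem ex_val {n : ℕ} (t : Fin n → ℝ) (j : ℕ) (h : j < n) : ex t j = t ⟨j, h⟩ := by
  unfold ex
  rw [dif_pos h]

/-- list scheduling of one class of jobs, two instances which cannot be distinguished before `τ` -/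
theorem step (hLST : S_LST) {M n : ℕ} (s : Fin n → ℕ) (t t' : Fin n → ℝ) (τ : ℝ) (w : ℕ)
    (f f' : Fin (M + 1) → ℝ) (ht : ∀ j, 0 ≤ t j) (ht' : ∀ j, 0 ≤ t' j) (st : Fin n → ℝ)
    (h1 : ∀ j, st j + t j < τ → t' j = t j)
    (h2 : ∀ j, st j < τ → τ ≤ st j + t j → τ ≤ st j + t' j)
    (hst : ∀ j : Fin n, s j = w → sl (cw s w) (ex t) f j < τ → st j = sl (cw s w) (ex t) f j)
    (hf : ∀ u, min (f u) τ = min (f' u) τ) (j : ℕ) :
    (∀ u, min (ll (cw s w) (ex t) f j u) τ = min (ll (cw s w) (ex t') f' j u) τ) ∧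
      (sl (cw s w) (ex t) f j < τ → sl (cw s w) (ex t') f' j = sl (cw s w) (ex t) f j ∧
        cl (cw s w) (ex t') f' j = cl (cw s w) (ex t) f j) ∧
      (τ ≤ sl (cw s w) (ex t) f j → τ ≤ sl (cw s w) (ex t') f' j) := by
  refine hLST M (cw s w) (ex t) (ex t') f f' τ (ex_nonneg t ht) (ex_nonneg t' ht') hf ?_ ?_ j
  · intro i hi h
    obtain ⟨hn, hw⟩ := hi
    rw [ex_val t i hn] at h ⊢
    rw [ex_val t' i hn]
    refine h1 ⟨i, hn⟩ ?_
    have h0 := ht ⟨i, hn⟩
    rw [hst ⟨i, hn⟩ hw (by show sl _ _ _ i < τ; linarith)]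
    exact h
  · intro i hi h h'
    obtain ⟨hn, hw⟩ := hi
    rw [ex_val t i hn] at h'
    rw [ex_val t' i hn]
    have e := hst ⟨i, hn⟩ hw h
    have h3 := h2 ⟨i, hn⟩ (by rw [e]; exact h) (by rw [e]; exact h')
    rw [e] at h3
    exact h3

/-- the level may be lowered -/
theorem lower {n : ℕ} {t t' : Fin n → ℝ} {st : Fin n → ℝ} {τ κ : ℝ} (hκ : κ ≤ τ)
    (h1 : ∀ j, st j + t j < τ → t' j = t j)
    (h2 : ∀ j, st j < τ → τ ≤ st j + t j → τ ≤ st j + t' j) :
    (∀ j, st j + t j < κ → t' j = t j) ∧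
      (∀ j, st j < κ → κ ≤ st j + t j → κ ≤ st j + t' j) := by
  refine ⟨fun j h => h1 j (lt_of_lt_of_le h hκ), fun j h h' => ?_⟩
  by_cases a : st j + t j < τ
  · rw [h1 j a]
    exact h'
  · exact hκ.trans (h2 j (lt_of_lt_of_le h hκ) (not_lt.1 a))

theorem min_lower {a b τ κ : ℝ} (hκ : κ ≤ τ) (h : min a τ = min b τ) : min a κ = min b κ := by
  have e : ∀ c : ℝ, min c κ = min (min c τ) κ := by
    intro c
    rw [min_assoc, min_eq_right hκ]
  rw [e a, e b, h]

theorem fin1 (v : Fin (0 + 1)) : v = 0 := Fin.ext (by have := v.2; omega)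

open Classical in
theorem ll_pos {M : ℕ} (P : ℕ → Prop) (x : ℕ → ℝ) (f : Fin (M + 1) → ℝ) (j : ℕ) (h : P j) :
    ll P x f (j + 1) = Function.update (ll P x f j) (aml (ll P x f j)) (mnl (ll P x f j) + x j) := by
  rw [ll, if_pos h]

open Classical in
theorem ll_neg {M : ℕ} (P : ℕ → Prop) (x : ℕ → ℝ) (f : Fin (M + 1) → ℝ) (j : ℕ) (h : ¬ P j) :
    ll P x f (j + 1) = ll P x f j := by
  rw [ll, if_neg h]

/-- as long as the load of the first pair is at most the load of the second pair, the jobs are on the first one -/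
theorem two (hLSB : S_LSB) (P : ℕ → Prop) (x : ℕ → ℝ) (hx : ∀ j, 0 ≤ x j) (u : ℝ)
    (g : Fin (1 + 1) → ℝ) (hg : g 0 = u) (j : ℕ)
    (h : ll (M := 0) P x (fun _ => u) j 0 ≤ g 1) :
    ll P x g j 0 = ll (M := 0) P x (fun _ => u) j 0 ∧ ll P x g j 1 = g 1 := by
  induction j with
  | zero => exact ⟨hg, rfl⟩
  | succ j ih =>
    have hm := (hLSB 0 P x (fun _ => u) hx).1 j (j + 1) (Nat.le_succ j) 0
    obtain ⟨i0, i1⟩ := ih (hm.trans h)
    by_cases hp : P j
    · have a0 : aml (ll (M := 0) P x (fun _ => u) j) = 0 := fin1 _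
      have b0 : aml (ll P x g j) = 0 := by
        refine aml_eq _ 0 (fun v => ?_) (fun v hv => absurd hv (Fin.not_lt_zero v))
        rcases Fin.exists_fin_two.1 ⟨v, rfl⟩ with hv | hv
        · rw [hv]
        · rw [hv, i0, i1]
          exact hm.trans h
      rw [ll_pos P x g j hp, ll_pos P x _ j hp]
      unfold mnl
      rw [a0, b0]
      refine ⟨?_, ?_⟩
      · rw [Function.update_self, Function.update_self, i0]
      · rw [Function.update_of_ne (by decide), i1]
    · rw [ll_neg P x g j hp, ll_neg P x _ j hp]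
      exact ⟨i0, i1⟩

/-- the start of a job of the class `2` -/
theorem two_sl (hLSB : S_LSB) (P : ℕ → Prop) (x : ℕ → ℝ) (hx : ∀ j, 0 ≤ x j) (u : ℝ)
    (g : Fin (1 + 1) → ℝ) (hg : g 0 = u) (j : ℕ)
    (h : sl (M := 0) P x (fun _ => u) j ≤ g 1) :
    sl P x g j = sl (M := 0) P x (fun _ => u) j := by
  have e : sl (M := 0) P x (fun _ => u) j = ll (M := 0) P x (fun _ => u) j 0 := by
    unfold sl mnl
    rw [fin1 (aml (ll (M := 0) P x (fun _ => u) j))]
  rw [e] at h ⊢
  obtain ⟨i0, i1⟩ := two hLSB P x hx u g hg j h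
  have b0 : aml (ll P x g j) = 0 := by
    refine aml_eq _ 0 (fun v => ?_) (fun v hv => absurd hv (Fin.not_lt_zero v))
    rcases Fin.exists_fin_two.1 ⟨v, rfl⟩ with hv | hv
    · rw [hv]
    · rw [hv, i0, i1]
      exact h
  unfold sl mnl
  rw [b0, i0]

/-- the time `yy` of two instances with the same truncated loads -/
theorem yy_min {n : ℕ} {s : Fin n → ℕ} {t t' : Fin n → ℝ} {κ : ℝ}
    (h : ∀ u, min (ll (cw s 1) (ex t) (f4 s t) n u) κ = min (ll (cw s 1) (ex t') (f4 s t') n u) κ) :
    min (yy s t) κ = min (yy s t') κ := by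
  unfold yy
  rw [min_max_distrib_right, min_max_distrib_right, h 0, h 1]

/-- the case in which the machines `2`, `3` are used by the class `1` only -/
theorem same (hLSB : S_LSB) {n : ℕ} {s : Fin n → ℕ} {t t' : Fin n → ℝ} {τ : ℝ}
    (ht : ∀ j, 0 ≤ t j) (h1 : ∀ j : Fin n, s j = 1 →
      sl (cw s 1) (ex t) (f4 s t) j + t j < τ → t' j = t j)
    (hA : tw s t' 4 = tw s t 4) (hu : tw s t' 3 = tw s t 3) (hc : yy s t < τ)
    (hz : yy s t ≤ tw s t 4 + tw s t 3 + tw s t 2)
    (hz' : yy s t ≤ tw s t' 4 + tw s t' 3 + tw s t' 2) :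
    (∀ j : ℕ, cw s 1 j → sl (cw s 1) (ex t') (f4 s t') j = sl (cw s 1) (ex t) (f4 s t) j ∧
      cl (cw s 1) (ex t') (f4 s t') j = cl (cw s 1) (ex t) (f4 s t) j) ∧ yy s t' = yy s t := by
  have hx := ex_nonneg t ht
  obtain ⟨l1, -, l3, -⟩ := hLSB 3 (cw s 1) (ex t) (f4 s t) hx
  have hlow : ∀ c : Fin (3 + 1), c.val < 2 → ll (cw s 1) (ex t) (f4 s t) n c ≤ yy s t := by
    intro c hc
    have : c = 0 ∨ c = 1 := by
      rcases Nat.lt_or_ge c.val 1 with h | h
      · exact Or.inl (Fin.ext (by simpa using h))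
      · exact Or.inr (Fin.ext (by
          have : c.val = 1 := by omega
          simpa using this))
    rcases this with h | h
    · rw [h]
      exact le_max_left _ _
    · rw [h]
      exact le_max_right _ _
  have hL : ∀ j, j ≤ n → ∀ c : Fin (3 + 1), c.val < 2 →
      ll (cw s 1) (ex t) (f4 s t) j c ≤ yy s t := fun j hj c hc => (l1 j n hj c).trans (hlow c hc)
  have hf2 : ∀ (y : Fin n → ℝ) (c : Fin (3 + 1)), 2 ≤ c.val →
      f4 s y c = tw s y 4 + tw s y 3 + tw s y 2 := by
    intro y c hc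
    unfold f4
    rw [if_neg (by omega), if_neg (by omega)]
  have hH : ∀ j, ∀ c : Fin (3 + 1), 2 ≤ c.val →
      yy s t ≤ ll (cw s 1) (ex t) (f4 s t) j c := by
    intro j c hc
    refine hz.trans ?_
    rw [← hf2 t c hc]
    exact l1 0 j (Nat.zero_le j) c
  have hsmall : ∀ j, j ≤ n → (aml (ll (cw s 1) (ex t) (f4 s t) j)).val < 2 := by
    intro j hj
    by_contra h
    rw [not_lt] at h
    have a1 := hH j _ h
    have a2 : mnl (ll (cw s 1) (ex t) (f4 s t) j) < ll (cw s 1) (ex t) (f4 s t) j 0 := by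
      refine mnl_lt _ 0 ?_
      rw [Fin.lt_def]
      have : (0 : Fin (3 + 1)).val = 0 := rfl
      omega
    have a3 := hL j hj 0 (by decide)
    unfold mnl at a2
    linarith
  have ht1 : ∀ j, cw s 1 j → ex t' j = ex t j := by
    intro j hj
    have hj' := hj
    obtain ⟨hn, hw⟩ := hj
    rw [ex_val t' j hn, ex_val t j hn]
    refine h1 ⟨j, hn⟩ hw (lt_of_le_of_lt ?_ hc)
    have a := l3 j n hj' hn
    rw [ex_val t j hn] at a
    exact a.trans (hlow _ (hsmall j hn.le))
  have hz2 : ∀ c : Fin (3 + 1), 2 ≤ c.val → yy s t ≤ f4 s t' c := by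
    intro c hc
    rw [hf2 t' c hc]
    exact hz'
  have haml : ∀ j, j ≤ n → (∀ c : Fin (3 + 1), c.val < 2 →
        ll (cw s 1) (ex t') (f4 s t') j c = ll (cw s 1) (ex t) (f4 s t) j c) →
      (∀ c : Fin (3 + 1), 2 ≤ c.val → ll (cw s 1) (ex t') (f4 s t') j c = f4 s t' c) →
      aml (ll (cw s 1) (ex t') (f4 s t') j) = aml (ll (cw s 1) (ex t) (f4 s t) j) := by
    intro j hj b1 b2
    have ha := hsmall j hj
    refine aml_eq _ _ (fun v => ?_) (fun v hv => ?_)
    · rw [b1 _ ha]
      rcases Nat.lt_or_ge v.val 2 with h | h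
      · rw [b1 v h]
        exact mnl_le _ v
      · rw [b2 v h]
        exact (hL j hj _ ha).trans (hz2 v h)
    · have hv2 : v.val < 2 := lt_trans (Fin.lt_def.1 hv) ha
      rw [b1 _ ha, b1 v hv2]
      exact mnl_lt _ v hv
  have hind : ∀ j, j ≤ n → (∀ c : Fin (3 + 1), c.val < 2 →
        ll (cw s 1) (ex t') (f4 s t') j c = ll (cw s 1) (ex t) (f4 s t) j c) ∧
      (∀ c : Fin (3 + 1), 2 ≤ c.val → ll (cw s 1) (ex t') (f4 s t') j c = f4 s t' c) := by
    intro j
    induction j with
    | zero =>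
      intro _
      refine ⟨fun c hc => ?_, fun c _ => rfl⟩
      show f4 s t' c = f4 s t c
      unfold f4
      split_ifs
      · exact hA
      · rw [hA, hu]
      · omega
    | succ j ih =>
      intro hj
      obtain ⟨b1, b2⟩ := ih (by omega)
      by_cases hp : cw s 1 j
      · have e := haml j (by omega) b1 b2
        have ha := hsmall j (by omega)
        rw [ll_pos (cw s 1) (ex t') (f4 s t') j hp, ll_pos (cw s 1) (ex t) (f4 s t) j hp]
        unfold mnl
        rw [e, ht1 j hp, b1 _ ha]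
        refine ⟨fun c hc => ?_, fun c hc => ?_⟩
        · by_cases h : c = aml (ll (cw s 1) (ex t) (f4 s t) j)
          · rw [h, Function.update_self, Function.update_self]
          · rw [Function.update_of_ne h, Function.update_of_ne h, b1 c hc]
        · have h : c ≠ aml (ll (cw s 1) (ex t) (f4 s t) j) := by
            intro h
            rw [← h] at ha
            omega
          rw [Function.update_of_ne h, b2 c hc]
      · rw [ll_neg (cw s 1) (ex t') (f4 s t') j hp, ll_neg (cw s 1) (ex t) (f4 s t) j hp]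
        exact ⟨b1, b2⟩
  refine ⟨fun j hj => ?_, ?_⟩
  · obtain ⟨hn, -⟩ := hj
    obtain ⟨b1, b2⟩ := hind j hn.le
    have e := haml j hn.le b1 b2
    refine ⟨?_, e⟩
    unfold sl mnl
    rw [e, b1 _ (hsmall j hn.le)]
  · obtain ⟨b1, -⟩ := hind n le_rfl
    show max (ll (cw s 1) (ex t') (f4 s t') n 0) (ll (cw s 1) (ex t') (f4 s t') n 1) =
      max (ll (cw s 1) (ex t) (f4 s t) n 0) (ll (cw s 1) (ex t) (f4 s t) n 1)
    rw [b1 0 (by decide), b1 1 (by decide)]

end R4Baux

open R4Baux in
theorem t_R4B : M_R4B := by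
  intro hLSB hLST hONE n s hs t t' ht ht' τ h1 h2
  obtain ⟨o1, o2, o3⟩ := hONE
  have hx := ex_nonneg t ht
  have hx' := ex_nonneg t' ht'
  have hst1 : ∀ j : Fin n, s j = 1 → (r4 s t).start j = sl (cw s 1) (ex t) (f4 s t) j := by
    intro j hj
    show (if s j = 1 then _ else _) = _
    rw [if_pos hj]
  have hst2 : ∀ j : Fin n, s j = 2 → (r4 s t).start j = sl (cw s 2) (ex t) (g4 s t) j := by
    intro j hj
    show (if s j = 1 then _ else if s j = 2 then _ else _) = _
    rw [if_neg (by omega), if_pos hj]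
  have hst3 : ∀ j : Fin n, s j = 3 →
      (r4 s t).start j = sl (M := 0) (cw s 3) (ex t) (fun _ => tw s t 4) j := by
    intro j hj
    show (if s j = 1 then _ else if s j = 2 then _ else if s j = 3 then _ else _) = _
    rw [if_neg (by omega), if_neg (by omega), if_pos hj]
  have hst4 : ∀ j : Fin n, s j = 4 →
      (r4 s t).start j = sl (M := 0) (cw s 4) (ex t) (fun _ => 0) j := by
    intro j hj
    show (if s j = 1 then _ else if s j = 2 then _ else if s j = 3 then _ else _) = _
    rw [if_neg (by omega), if_neg (by omega), if_neg (by omega)]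
  have c4 := step (M := 0) hLST s t t' τ 4 (fun _ => 0) (fun _ => 0) ht ht'
    (r4 s t).start h1 h2 (fun j hj _ => hst4 j hj) (fun _ => rfl)
  have e4 : min (tw s t 4) τ = min (tw s t' 4) τ := by
    have h := (c4 n).1 0
    rw [(o1 (cw s 4) (ex t) (fun _ => 0) n hx).1,
      (o1 (cw s 4) (ex t') (fun _ => 0) n hx').1, o2 n s t 4 ht,
      o2 n s t' 4 ht', zero_add, zero_add] at h
    exact h
  have c3 := step (M := 0) hLST s t t' τ 3 (fun _ => tw s t 4) (fun _ => tw s t' 4) ht ht'
    (r4 s t).start h1 h2 (fun j hj _ => hst3 j hj) (fun _ => e4)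
  have e3 : min (tw s t 4 + tw s t 3) τ = min (tw s t' 4 + tw s t' 3) τ := by
    have h := (c3 n).1 0
    rw [(o1 (cw s 3) (ex t) (fun _ => tw s t 4) n hx).1,
      (o1 (cw s 3) (ex t') (fun _ => tw s t' 4) n hx').1, o2 n s t 3 ht,
      o2 n s t' 3 ht'] at h
    exact h
  have hg0 : ∀ y : Fin n → ℝ, g4 s y 0 = tw s y 4 + tw s y 3 := fun y => by simp [g4]
  have hg1 : ∀ y : Fin n → ℝ, g4 s y 1 = yy s y := fun y => by simp [g4]
  have hκ : min τ (yy s t) ≤ τ := min_le_left _ _
  obtain ⟨k1, k2⟩ := lower hκ h1 h2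
  have c2 := step (M := 0) hLST s t t' (min τ (yy s t)) 2 (fun _ => tw s t 4 + tw s t 3)
    (fun _ => tw s t' 4 + tw s t' 3) ht ht' (r4 s t).start k1 k2
    (fun j hj hq => by
      rw [hst2 j hj]
      refine two_sl hLSB (cw s 2) (ex t) hx _ (g4 s t) (hg0 t) j ?_
      rw [hg1 t]
      exact hq.le.trans (min_le_right _ _))
    (fun _ => min_lower hκ e3)
  have e2 : min (tw s t 4 + tw s t 3 + tw s t 2) (min τ (yy s t)) =
      min (tw s t' 4 + tw s t' 3 + tw s t' 2) (min τ (yy s t)) := by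
    have h := (c2 n).1 0
    rw [(o1 (cw s 2) (ex t) (fun _ => tw s t 4 + tw s t 3) n hx).1,
      (o1 (cw s 2) (ex t') (fun _ => tw s t' 4 + tw s t' 3) n hx').1, o2 n s t 2 ht,
      o2 n s t' 2 ht'] at h
    exact h
  have c1 := step hLST s t t' (min τ (yy s t)) 1 (f4 s t) (f4 s t') ht ht' (r4 s t).start k1 k2
    (fun j hj _ => hst1 j hj) (by
      intro c
      unfold f4
      split_ifs
      · exact min_lower hκ e4
      · exact min_lower hκ e3
      · exact e2)
  have key : (∀ j : ℕ, cw s 1 j →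
      (sl (cw s 1) (ex t) (f4 s t) j < τ →
        sl (cw s 1) (ex t') (f4 s t') j = sl (cw s 1) (ex t) (f4 s t) j ∧
        cl (cw s 1) (ex t') (f4 s t') j = cl (cw s 1) (ex t) (f4 s t) j) ∧
      (τ ≤ sl (cw s 1) (ex t) (f4 s t) j → τ ≤ sl (cw s 1) (ex t') (f4 s t') j)) ∧
      min (yy s t) τ = min (yy s t') τ := by
    rcases le_or_gt τ (yy s t) with hc | hc
    · rw [min_eq_left hc] at c1
      exact ⟨fun j _ => (c1 j).2, yy_min (c1 n).1⟩
    · rw [min_eq_right hc.le] at c1 e2
      have h3 : 0 ≤ tw s t 3 := Finset.sum_nonneg fun i _ => ht i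
      have huY : tw s t 4 + tw s t 3 ≤ yy s t := by
        have a := (hLSB 3 (cw s 1) (ex t) (f4 s t) hx).1 0 n (Nat.zero_le n) 1
        have e : ll (cw s 1) (ex t) (f4 s t) 0 1 = tw s t 4 + tw s t 3 := by
          simp [ll, f4]
        rw [e] at a
        exact a.trans (le_max_right _ _)
      have q4 : ∀ j, s j = 4 → t' j = t j := by
        intro j hj
        refine h1 j ?_
        rw [hst4 j hj, (o1 (cw s 4) (ex t) (fun _ => 0) j hx).2.1]
        have a := o3 n s t j ht
        rw [hj] at a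
        linarith
      have q3 : ∀ j, s j = 3 → t' j = t j := by
        intro j hj
        refine h1 j ?_
        rw [hst3 j hj, (o1 (cw s 3) (ex t) (fun _ => tw s t 4) j hx).2.1]
        have a := o3 n s t j ht
        rw [hj] at a
        linarith
      have hA : tw s t' 4 = tw s t 4 := Finset.sum_congr rfl fun j hj =>
        q4 j (Finset.mem_filter.1 hj).2
      have hu : tw s t' 3 = tw s t 3 := Finset.sum_congr rfl fun j hj =>
        q3 j (Finset.mem_filter.1 hj).2
      rcases le_or_gt (yy s t) (tw s t 4 + tw s t 3 + tw s t 2) with hz | hz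
      · have hz' : yy s t ≤ tw s t' 4 + tw s t' 3 + tw s t' 2 := by
          rw [min_eq_right hz] at e2
          exact e2.le.trans (min_le_left _ _)
        obtain ⟨r1, r2⟩ := same hLSB ht (fun j hj h => h1 j (by rw [hst1 j hj]; exact h)) hA hu hc
          hz hz'
        refine ⟨fun j hj => ⟨fun _ => r1 j hj, fun h => ?_⟩, by rw [r2]⟩
        rw [(r1 j hj).1]
        exact h
      · have hz' : tw s t' 4 + tw s t' 3 + tw s t' 2 = tw s t 4 + tw s t 3 + tw s t 2 := by
          rw [min_eq_left hz.le] at e2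
          rcases le_or_gt (tw s t' 4 + tw s t' 3 + tw s t' 2) (yy s t) with a | a
          · rw [min_eq_left a] at e2
            exact e2.symm
          · rw [min_eq_right a.le] at e2
            exact absurd e2 hz.ne
        have d1 := step hLST s t t' τ 1 (f4 s t) (f4 s t') ht ht' (r4 s t).start h1 h2
          (fun j hj _ => hst1 j hj) (by
            intro c
            unfold f4
            split_ifs
            · exact e4
            · exact e3
            · rw [hz'])
        exact ⟨fun j _ => (d1 j).2, yy_min (d1 n).1⟩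
  obtain ⟨key1, keyY⟩ := key
  have d2 := step hLST s t t' τ 2 (g4 s t) (g4 s t') ht ht' (r4 s t).start h1 h2
    (fun j hj _ => hst2 j hj) (by
      intro c
      unfold g4
      split_ifs
      · exact e3
      · exact keyY)
  intro j
  obtain ⟨hj1, hj2⟩ := hs j
  by_cases a1 : s j = 1
  · have b := key1 j ⟨j.2, a1⟩
    have q1 : (r4 s t).start j = sl (cw s 1) (ex t) (f4 s t) j := hst1 j a1
    have q2 : (r4 s t').start j = sl (cw s 1) (ex t') (f4 s t') j := by
      show (if s j = 1 then _ else _) = _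
      rw [if_pos a1]
    have q3 : (r4 s t).pos j = 3 - (cl (cw s 1) (ex t) (f4 s t) j : ℕ) := by
      show (if s j = 1 then _ else _) = _
      rw [if_pos a1]
    have q4 : (r4 s t').pos j = 3 - (cl (cw s 1) (ex t') (f4 s t') j : ℕ) := by
      show (if s j = 1 then _ else _) = _
      rw [if_pos a1]
    rw [q1, q2, q3, q4]
    refine ⟨fun h => ?_, b.2⟩
    obtain ⟨x, y⟩ := b.1 h
    exact ⟨x, by rw [y]⟩
  · by_cases a2 : s j = 2
    · have b := d2 j
      have q1 : (r4 s t).start j = sl (cw s 2) (ex t) (g4 s t) j := hst2 j a2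
      have q2 : (r4 s t').start j = sl (cw s 2) (ex t') (g4 s t') j := by
        show (if s j = 1 then _ else if s j = 2 then _ else _) = _
        rw [if_neg a1, if_pos a2]
      have q3 : (r4 s t).pos j = 2 * (cl (cw s 2) (ex t) (g4 s t) j : ℕ) := by
        show (if s j = 1 then _ else if s j = 2 then _ else _) = _
        rw [if_neg a1, if_pos a2]
      have q4 : (r4 s t').pos j = 2 * (cl (cw s 2) (ex t') (g4 s t') j : ℕ) := by
        show (if s j = 1 then _ else if s j = 2 then _ else _) = _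
        rw [if_neg a1, if_pos a2]
      rw [q1, q2, q3, q4]
      refine ⟨fun h => ?_, b.2.2⟩
      obtain ⟨x, y⟩ := b.2.1 h
      exact ⟨x, by rw [y]⟩
    · have q3 : (r4 s t).pos j = 0 := by
        show (if s j = 1 then _ else if s j = 2 then _ else _) = _
        rw [if_neg a1, if_neg a2]
      have q4 : (r4 s t').pos j = 0 := by
        show (if s j = 1 then _ else if s j = 2 then _ else _) = _
        rw [if_neg a1, if_neg a2]
      by_cases a3 : s j = 3
      · have b := c3 j
        have q1 : (r4 s t).start j = sl (M := 0) (cw s 3) (ex t) (fun _ => tw s t 4) j := hst3 j a3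
        have q2 : (r4 s t').start j = sl (M := 0) (cw s 3) (ex t') (fun _ => tw s t' 4) j := by
          show (if s j = 1 then _ else if s j = 2 then _ else if s j = 3 then _ else _) = _
          rw [if_neg a1, if_neg a2, if_pos a3]
        rw [q1, q2, q3, q4]
        exact ⟨fun h => ⟨(b.2.1 h).1, rfl⟩, b.2.2⟩
      · have a4 : s j = 4 := by omega
        have b := c4 j
        have q1 : (r4 s t).start j = sl (M := 0) (cw s 4) (ex t) (fun _ => 0) j := hst4 j a4
        have q2 : (r4 s t').start j = sl (M := 0) (cw s 4) (ex t') (fun _ => 0) j := by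
          show (if s j = 1 then _ else if s j = 2 then _ else if s j = 3 then _ else _) = _
          rw [if_neg a1, if_neg a2, if_neg a3]
        rw [q1, q2, q3, q4]
        exact ⟨fun h => ⟨(b.2.1 h).1, rfl⟩, b.2.2⟩

end Pool.Agent.SMA
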