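import Pool.Agent.SMA.Stmts

/-!
# Small linear arrays: four machines, the makespan (module R4C of MP_e25616_lc)
-/

set_option autoImplicit false

namespace Pool.Agent.SMA

open Finset Pool.Agent.BSR

namespace R4Caux

theorem ex_nonneg {n : ℕ} {t : Fin n → ℝ} (ht : ∀ j, 0 ≤ t j) (j : ℕ) : 0 ≤ ex t j := by
  unfold ex
  split_ifs
  · exact ht _
  · exact le_rfl

theorem ex_le {n : ℕ} {t : Fin n → ℝ} {c : ℝ} (hc : 0 ≤ c) (ht : ∀ j, t j ≤ c) (j : ℕ) :
    ex t j ≤ c := by
  unfold ex
  split_ifs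
  · exact ht _
  · exact hc

theorem ex_val {n : ℕ} (t : Fin n → ℝ) (j : Fin n) : ex t j = t j := by
  unfold ex
  rw [dif_pos j.isLt]

theorem tw_nonneg {n : ℕ} (s : Fin n → ℕ) {t : Fin n → ℝ} (ht : ∀ j, 0 ≤ t j) (w : ℕ) :
    0 ≤ tw s t w := sum_nonneg fun j _ => ht j

theorem tw_eq {n : ℕ} (s : Fin n → ℕ) (t : Fin n → ℝ) (w : ℕ) :
    tw s t w = ∑ j, if s j = w then t j else 0 := by
  unfold tw
  rw [sum_filter]

theorem ps_succ (P : ℕ → Prop) (x : ℕ → ℝ) (j : ℕ) (h : P j) :
    ps P x (j + 1) = ps P x j + x j := by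
  classical
  unfold ps
  rw [Finset.sum_range_succ, if_pos h]

theorem ps_succ' (P : ℕ → Prop) (x : ℕ → ℝ) (j : ℕ) (h : ¬ P j) :
    ps P x (j + 1) = ps P x j := by
  classical
  unfold ps
  rw [Finset.sum_range_succ, if_neg h, add_zero]

theorem ps_mono (P : ℕ → Prop) (x : ℕ → ℝ) (hx : ∀ j, 0 ≤ x j) {i j : ℕ} (h : i ≤ j) :
    ps P x i ≤ ps P x j := by
  classical
  unfold ps
  apply Finset.sum_le_sum_of_subset_of_nonneg (Finset.range_mono h)
  intro k _ _
  split_ifs
  · exact hx k
  · exact le_rfl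

theorem ll_pos {M : ℕ} (P : ℕ → Prop) (x : ℕ → ℝ) (f : Fin (M + 1) → ℝ) (j : ℕ) (h : P j) :
    ll P x f (j + 1) =
      Function.update (ll P x f j) (aml (ll P x f j)) (mnl (ll P x f j) + x j) := by
  rw [ll, if_pos h]

theorem ll_neg {M : ℕ} (P : ℕ → Prop) (x : ℕ → ℝ) (f : Fin (M + 1) → ℝ) (j : ℕ) (h : ¬ P j) :
    ll P x f (j + 1) = ll P x f j := by
  rw [ll, if_neg h]

/-- two channels, the second one has a large initial load: all jobs go to the first one -/
theorem first (P : ℕ → Prop) (x : ℕ → ℝ) (g : Fin (1 + 1) → ℝ) (hx : ∀ j, 0 ≤ x j) (n : ℕ)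
    (hg : g 0 + ps P x n ≤ g 1) (j : ℕ) (hj : j ≤ n) :
    ll P x g j 0 = g 0 + ps P x j ∧ ll P x g j 1 = g 1 := by
  induction j with
  | zero => simp [ll, ps]
  | succ j ih =>
    obtain ⟨h0, h1⟩ := ih (by omega)
    by_cases hP : P j
    · have hle : ll P x g j 0 ≤ ll P x g j 1 := by
        rw [h0, h1]
        have := ps_mono P x hx (show j ≤ n by omega)
        linarith
      have ha : aml (ll P x g j) = 0 := by
        apply aml_eq
        · intro v
          rcases (by have := v.isLt; omega : (v : ℕ) = 0 ∨ (v : ℕ) = 1) with h | h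
          · have : v = 0 := Fin.ext h
            rw [this]
          · have : v = 1 := Fin.ext h
            rw [this]
            exact hle
        · intro v hv
          exact absurd hv (Fin.not_lt_zero v)
      have hm : mnl (ll P x g j) = ll P x g j 0 := by
        unfold mnl
        rw [ha]
      rw [ll_pos P x g j hP, ha, hm, ps_succ P x j hP]
      refine ⟨?_, ?_⟩
      · rw [Function.update_self, h0]
        ring
      · rw [Function.update_of_ne (by decide), h1]
    · rw [ll_neg P x g j hP, ps_succ' P x j hP]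
      exact ⟨h0, h1⟩

/-- four channels: if the final load of channel `0` is below `z`, the initial load of the channel `c`, then the
channel `c` gets no job -/
theorem stay (P : ℕ → Prop) (x : ℕ → ℝ) (f : Fin (3 + 1) → ℝ) (n : ℕ)
    (hmono : ∀ i j, i ≤ j → ∀ u, ll P x f i u ≤ ll P x f j u)
    (c : Fin (3 + 1)) (h0 : ll P x f n 0 < f c) (j : ℕ) (hj : j ≤ n) :
    ll P x f j c = f c := by
  induction j with
  | zero => rfl
  | succ j ih =>
    have h1 := ih (by omega)
    by_cases hP : P j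
    · have ha : c ≠ aml (ll P x f j) := by
        intro hc
        have h2 := mnl_le (ll P x f j) 0
        unfold mnl at h2
        rw [← hc, h1] at h2
        have h3 := hmono j n (by omega) 0
        linarith
      rw [ll_pos P x f j hP, Function.update_of_ne ha, h1]
    · rw [ll_neg P x f j hP, h1]

end R4Caux

open R4Caux

theorem t_R4C : M_R4C := by
  intro hLSB hONE hSEQ n s t hs ht
  have hex := ex_nonneg ht
  obtain ⟨hopt0, htj, harea⟩ := x_ARE 4 n s t (fun j => (hs j).2) ht
  have hexO : ∀ j, ex t j ≤ OPT 4 s t := ex_le hopt0 htj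
  have h1 := tw_nonneg s ht 1
  have h2 := tw_nonneg s ht 2
  have h3 := tw_nonneg s ht 3
  have h4 := tw_nonneg s ht 4
  have hu : tw s t 4 + tw s t 3 ≤ OPT 4 s t := by
    have h := hSEQ.2 4 n s t (fun j => (hs j).2) ht (univ.filter fun j => 3 ≤ s j) (by
      intro i hi j hj _
      have hi' := (mem_filter.1 hi).2
      have hj' := (mem_filter.1 hj).2
      omega)
    refine le_trans (le_of_eq ?_) h
    rw [tw_eq, tw_eq, ← sum_add_distrib, sum_filter]
    refine sum_congr rfl fun j _ => ?_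
    have hj := hs j
    have hcases : s j = 1 ∨ s j = 2 ∨ s j = 3 ∨ s j = 4 := by omega
    rcases hcases with h | h | h | h <;> simp [h]
  have har : 4 * tw s t 4 + 3 * tw s t 3 + 2 * tw s t 2 + tw s t 1 ≤ 4 * OPT 4 s t := by
    push_cast at harea
    refine le_trans (le_of_eq ?_) harea
    rw [tw_eq, tw_eq, tw_eq, tw_eq, mul_sum, mul_sum, mul_sum, ← sum_add_distrib,
      ← sum_add_distrib, ← sum_add_distrib]
    refine sum_congr rfl fun j _ => ?_
    have hj := hs j
    have hcases : s j = 1 ∨ s j = 2 ∨ s j = 3 ∨ s j = 4 := by omega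
    rcases hcases with h | h | h | h <;> simp [h]
  -- the class 1
  obtain ⟨l1, l2, l3, l4, l5, l6, l7⟩ := hLSB 3 (cw s 1) (ex t) (f4 s t) hex
  have hf0 : f4 s t 0 = tw s t 4 := by simp [f4]
  have hf1 : f4 s t 1 = tw s t 4 + tw s t 3 := by simp [f4]
  have hf2 : f4 s t 2 = tw s t 4 + tw s t 3 + tw s t 2 := by simp [f4]
  have hf3 : f4 s t 3 = tw s t 4 + tw s t 3 + tw s t 2 := by simp [f4]
  have hcl1 : ∀ j : Fin n, s j = 1 →
      sl (cw s 1) (ex t) (f4 s t) j + t j ≤ 7 / 4 * OPT 4 s t := by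
    intro j hj
    have hps := hONE.2.2 n s t j ht
    rw [hj] at hps
    have h7 := l7 j
    rw [Fin.sum_univ_four, hf0, hf1, hf2, hf3] at h7
    have hj1 := htj j
    push_cast at h7
    linarith
  have hload : ∀ c : Fin (3 + 1), f4 s t c ≤ 7 / 4 * OPT 4 s t →
      ll (cw s 1) (ex t) (f4 s t) n c ≤ 7 / 4 * OPT 4 s t := by
    intro c hc
    rcases l4 n c with h | ⟨i, hi, hP, -, h⟩
    · rw [h]
      exact hc
    · rw [h]
      obtain ⟨hin, his⟩ := hP
      have := hcl1 ⟨i, hin⟩ his
      have he : ex t i = t ⟨i, hin⟩ := ex_val t ⟨i, hin⟩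
      rw [he]
      exact this
  have hY0 : ll (cw s 1) (ex t) (f4 s t) n 0 ≤ 7 / 4 * OPT 4 s t :=
    hload 0 (by rw [hf0]; linarith)
  have hY1 : ll (cw s 1) (ex t) (f4 s t) n 1 ≤ 7 / 4 * OPT 4 s t :=
    hload 1 (by rw [hf1]; linarith)
  have hY : yy s t ≤ 7 / 4 * OPT 4 s t := max_le hY0 hY1
  have hg0 : g4 s t 0 = tw s t 4 + tw s t 3 := by simp [g4]
  have hg1 : g4 s t 1 = yy s t := by simp [g4]
  unfold makespan
  refine Real.iSup_le (fun j => ?_) (by linarith)
  have hj := hs j
  have hps := hONE.2.2 n s t j ht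
  have hcases : s j = 1 ∨ s j = 2 ∨ s j = 3 ∨ s j = 4 := by omega
  rcases hcases with h | h | h | h
  · have hst : (r4 s t).start j = sl (cw s 1) (ex t) (f4 s t) j := by simp [r4, h]
    rw [hst]
    exact hcl1 j h
  · rw [h] at hps
    have hst : (r4 s t).start j = sl (cw s 2) (ex t) (g4 s t) j := by simp [r4, h]
    rw [hst]
    rcases le_or_gt (tw s t 4 + tw s t 3 + tw s t 2) (yy s t) with hz | hz
    · -- all jobs of the class 2 are on the first pair
      have hfst := first (cw s 2) (ex t) (g4 s t) hex n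
        (by rw [hg0, hg1, hONE.2.1 n s t 2 ht]; exact hz) j j.isLt.le
      have hsl : sl (cw s 2) (ex t) (g4 s t) j ≤ ll (cw s 2) (ex t) (g4 s t) j 0 :=
        mnl_le _ _
      rw [hfst.1, hg0] at hsl
      linarith
    · -- all jobs of the class 1 are on the channels 0, 1
      have he0 : ll (cw s 1) (ex t) (f4 s t) n 0 ≤ yy s t := le_max_left _ _
      have hs2 := stay (cw s 1) (ex t) (f4 s t) n l1 2 (by rw [hf2]; linarith) n le_rfl
      have hs3 := stay (cw s 1) (ex t) (f4 s t) n l1 3 (by rw [hf3]; linarith) n le_rfl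
      have h5 := l5 n
      rw [Fin.sum_univ_four, Fin.sum_univ_four, hs2, hs3, hf0, hf1, hf2, hf3,
        hONE.2.1 n s t 1 ht] at h5
      have h7 := (hLSB 1 (cw s 2) (ex t) (g4 s t) hex).2.2.2.2.2.2 j
      rw [Fin.sum_univ_two, hg0, hg1] at h7
      push_cast at h7
      have hj1 := htj j
      have hm0 := l1 0 n (Nat.zero_le n) 0
      have hm1 := l1 0 n (Nat.zero_le n) 1
      have e00 : ll (cw s 1) (ex t) (f4 s t) 0 0 = tw s t 4 := hf0
      have e01 : ll (cw s 1) (ex t) (f4 s t) 0 1 = tw s t 4 + tw s t 3 := hf1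
      rw [e00] at hm0
      rw [e01] at hm1
      -- the difference of the two loads
      have hd1 : ll (cw s 1) (ex t) (f4 s t) n 0 - ll (cw s 1) (ex t) (f4 s t) n 1 ≤
          OPT 4 s t := by
        rcases l4 n 0 with h' | ⟨i, hi, -, -, h'⟩
        · rw [h', hf0]
          linarith
        · have hsl : sl (cw s 1) (ex t) (f4 s t) i ≤ ll (cw s 1) (ex t) (f4 s t) i 1 :=
            mnl_le _ _
          have := l1 i n hi.le 1
          have := hexO i
          rw [h']
          linarith
      have hd2 : ll (cw s 1) (ex t) (f4 s t) n 1 - ll (cw s 1) (ex t) (f4 s t) n 0 ≤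
          OPT 4 s t := by
        rcases l4 n 1 with h' | ⟨i, hi, -, -, h'⟩
        · rw [h', hf1]
          linarith
        · have hsl : sl (cw s 1) (ex t) (f4 s t) i ≤ ll (cw s 1) (ex t) (f4 s t) i 0 :=
            mnl_le _ _
          have := l1 i n hi.le 0
          have := hexO i
          rw [h']
          linarith
      have hY2 : yy s t = ll (cw s 1) (ex t) (f4 s t) n 0 ∨
          yy s t = ll (cw s 1) (ex t) (f4 s t) n 1 := by
        unfold yy
        exact max_choice _ _
      rcases hY2 with hy | hy <;> rw [hy] at h7 <;> linarith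
  · rw [h] at hps
    have hst : (r4 s t).start j = sl (M := 0) (cw s 3) (ex t) (fun _ => tw s t 4) j := by
      simp [r4, h]
    rw [hst, (hONE.1 (cw s 3) (ex t) (fun _ => tw s t 4) j hex).2.1]
    linarith
  · rw [h] at hps
    have hst : (r4 s t).start j = sl (M := 0) (cw s 4) (ex t) (fun _ => 0) j := by
      simp [r4, h]
    rw [hst, (hONE.1 (cw s 4) (ex t) (fun _ => 0) j hex).2.1]
    linarith

end Pool.Agent.SMA
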