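import Pool.Agent.SMA.SEQ
import Pool.Agent.SMA.LSB
import Pool.Agent.SMA.LST
import Pool.Agent.SMA.ONE
import Pool.Agent.SMA.R3A
import Pool.Agent.SMA.R3B
import Pool.Agent.SMA.R3C
import Pool.Agent.SMA.R4A
import Pool.Agent.SMA.R4B
import Pool.Agent.SMA.R4C

/-!
# Deterministic algorithms for at most four machines: assembly
-/

set_option autoImplicit false

namespace Pool.Agent.SMA

open Finset Pool.Agent.BSR

theorem a_ONE : S_ONE := t_ONE t_LSB

/-- at most three machines -/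
theorem a_D3 (M : ℕ) (hM : M ≤ 2) : DetOK (M + 1) (2 - 1 / ((M : ℝ) + 1)) := by
  intro n s hs
  exact ⟨⟨r3 M s, fun t ht => t_R3A t_LSB a_ONE M n s t hM hs ht,
    t_R3B t_LSB t_LST a_ONE M n s hM hs⟩, fun t ht => t_R3C t_LSB a_ONE t_SEQ M n s t hM hs ht⟩

/-- four machines -/
theorem a_D4 : DetOK 4 (7 / 4) := by
  intro n s hs
  exact ⟨⟨r4 s, fun t ht => t_R4A t_LSB a_ONE n s t hs ht,
    t_R4B t_LSB t_LST a_ONE n s hs⟩, fun t ht => t_R4C t_LSB a_ONE t_SEQ n s t hs ht⟩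

/-- at most four machines -/
theorem a_DET (m : ℕ) (h1 : 1 ≤ m) (h4 : m ≤ 4) : DetOK m (2 - 1 / (m : ℝ)) := by
  rcases Nat.lt_or_ge m 4 with h | h
  · obtain ⟨M, rfl⟩ : ∃ M, m = M + 1 := ⟨m - 1, by omega⟩
    have := a_D3 M (by omega)
    push_cast
    exact this
  · obtain rfl : m = 4 := by omega
    have e : (2 : ℝ) - 1 / ((4 : ℕ) : ℝ) = 7 / 4 := by norm_num
    rw [e]
    exact a_D4

/-- the optimum is not negative -/
theorem opt_nonneg (m n : ℕ) (s : Fin n → ℕ) (t : Fin n → ℝ) (hs : ∀ j, s j ≤ m) (ht : ∀ j, 0 ≤ t j) :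
    0 ≤ OPT m s t := (x_ARE m n s t hs ht).1

/-- monotonicity in the ratio -/
theorem detOK_mono (m : ℕ) (c c' : ℝ) (h : c ≤ c') (hc : DetOK m c) : DetOK m c' := by
  intro n s hs
  obtain ⟨A, hA⟩ := hc n s hs
  exact ⟨A, fun t ht => (hA t ht).trans
    (mul_le_mul_of_nonneg_right h (opt_nonneg m n s t (fun j => (hs j).2) ht))⟩

end Pool.Agent.SMA
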