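import Pool.Agent.SMA.StmtsB

/-!
# Two machines: the lower bound for general randomised algorithms (helper33)
-/

set_option autoImplicit false

namespace Pool.Agent.SMA

open Finset Pool.Agent.BSR MeasureTheory

/-- the average over the `n` instances -/
theorem LOG.step (hY : S_YAO) (c : ℝ) (hc : RandGen 2 c) (n : ℕ) (hn : 2 ≤ n) :
    5 / 4 - 1 / (4 * ((n : ℝ) - 1)) ≤ c := by
  obtain ⟨hopt, hav⟩ := hY n hn
  obtain ⟨Ω, _, P, _, A, hA⟩ := hc n (fun _ => 1) fun _ => ⟨le_rfl, by norm_num⟩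
  have hn1 : (1 : ℝ) ≤ (n : ℝ) - 1 := by
    have : (2 : ℝ) ≤ (n : ℝ) := by exact_mod_cast hn
    linarith
  have hn0 : (0 : ℝ) < (n : ℝ) := by linarith
  have ht : ∀ k j : Fin n, 0 ≤ tk n k j := by
    intro k j
    rw [tk]
    split_ifs
    · exact zero_le_one
    · exact div_nonneg zero_le_one (by linarith)
  have hint : ∀ k : Fin n, Integrable (fun w => makespan (tk n k) ((A w).run (tk n k))) P :=
    fun k => (hA (tk n k) (ht k)).1
  have h1 : ∑ k : Fin n, (∫ w, makespan (tk n k) ((A w).run (tk n k)) ∂P) ≤ n * c := by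
    calc ∑ k : Fin n, (∫ w, makespan (tk n k) ((A w).run (tk n k)) ∂P) ≤ ∑ _k : Fin n, c := by
          refine sum_le_sum fun k _ => ?_
          have := (hA (tk n k) (ht k)).2
          rw [hopt k, mul_one] at this
          exact this
      _ = n * c := by rw [sum_const, card_univ, Fintype.card_fin, nsmul_eq_mul]
  rw [← integral_finsetSum _ fun k _ => hint k] at h1
  have h2 : (n : ℝ) * (5 / 4 - 1 / (4 * ((n : ℝ) - 1))) ≤
      ∫ w, ∑ k : Fin n, makespan (tk n k) ((A w).run (tk n k)) ∂P := by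
    calc (n : ℝ) * (5 / 4 - 1 / (4 * ((n : ℝ) - 1)))
        = ∫ _w, (n : ℝ) * (5 / 4 - 1 / (4 * ((n : ℝ) - 1))) ∂P := by
          rw [integral_const, probReal_univ, one_smul]
      _ ≤ _ := by
          refine integral_mono (integrable_const _) (integrable_finsetSum _ fun k _ => hint k) ?_
          intro w
          have := hav (A w)
          rw [le_div_iff₀ hn0] at this
          show (n : ℝ) * (5 / 4 - 1 / (4 * ((n : ℝ) - 1))) ≤ _
          linarith
  exact le_of_mul_le_mul_left (h2.trans h1) hn0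

theorem t_LOG : M_LOG := by
  intro hY c hc
  by_contra hlt
  rw [not_le] at hlt
  have hd : 0 < 5 / 4 - c := by linarith
  obtain ⟨N, hN⟩ := exists_nat_gt (1 / (4 * (5 / 4 - c)))
  have h := LOG.step hY c hc (N + 2) (by omega)
  have hN1 : (0 : ℝ) < 4 * ((N : ℝ) + 1) := by positivity
  have h1 : ((N + 2 : ℕ) : ℝ) - 1 = (N : ℝ) + 1 := by push_cast; ring
  rw [h1] at h
  rw [div_lt_iff₀ (by positivity)] at hN
  have h2 : 1 / (4 * ((N : ℝ) + 1)) < 5 / 4 - c := by
    rw [div_lt_iff₀ hN1]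
    nlinarith
  linarith

end Pool.Agent.SMA
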