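import Pool.Agent.SMA.StmtsB

/-!
# A distribution on finitely many rules is a randomised algorithm in the general sense
-/

set_option autoImplicit false

namespace Pool.Agent.SMA

open Finset Pool.Agent.BSR MeasureTheory

theorem t_RTG (m : ℕ) (c : ℝ) (h : RandOK m c) : RandGen m c := by
  intro n s hs
  obtain ⟨Ω, hΩ, p, A, hp, hp1, hA⟩ := h n s hs
  letI : MeasurableSpace Ω := ⊤
  haveI : MeasurableSingletonClass Ω := ⟨fun _ => trivial⟩
  classical
  let P : Measure Ω := ∑ ω : Ω, ENNReal.ofReal (p ω) • Measure.dirac ω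
  have hPs : ∀ ω : Ω, P {ω} = ENNReal.ofReal (p ω) := by
    intro ω
    show (∑ ω' : Ω, ENNReal.ofReal (p ω') • Measure.dirac ω') {ω} = _
    rw [Measure.coe_finset_sum, Finset.sum_apply, Finset.sum_eq_single ω]
    · rw [Measure.smul_apply, Measure.dirac_apply, Set.indicator_of_mem (Set.mem_singleton ω)]
      simp
    · intro b _ hb
      rw [Measure.smul_apply, Measure.dirac_apply, Set.indicator_of_notMem]
      · simp
      · rw [Set.mem_singleton_iff]; exact hb
    · intro h
      exact absurd (Finset.mem_univ ω) h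
  have hPu : P Set.univ = 1 := by
    show (∑ ω' : Ω, ENNReal.ofReal (p ω') • Measure.dirac ω') Set.univ = _
    rw [Measure.coe_finset_sum, Finset.sum_apply]
    have : ∀ ω : Ω, (ENNReal.ofReal (p ω) • Measure.dirac ω) Set.univ = ENNReal.ofReal (p ω) := by
      intro ω
      rw [Measure.smul_apply, Measure.dirac_apply, Set.indicator_of_mem (Set.mem_univ ω)]
      simp
    rw [Finset.sum_congr rfl fun ω _ => this ω, ← ENNReal.ofReal_sum_of_nonneg fun ω _ => hp ω, hp1,
      ENNReal.ofReal_one]
  haveI hP : IsProbabilityMeasure P := ⟨hPu⟩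
  refine ⟨Ω, ⊤, P, hP, A, fun t ht => ⟨Integrable.of_finite, ?_⟩⟩
  rw [integral_fintype Integrable.of_finite]
  refine le_trans (le_of_eq ?_) (hA t ht)
  refine Finset.sum_congr rfl fun ω _ => ?_
  rw [measureReal_def, hPs, ENNReal.toReal_ofReal (hp ω), smul_eq_mul]

end Pool.Agent.SMA
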