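import Pool.Agent.SMA.Stmts

/-!
# SMA, module YAO: the lower bound for randomised algorithms
-/

set_option autoImplicit false

namespace Pool.Agent.SMA

open Finset Pool.Agent.BSR

namespace YAOaux

/-- numbers that are at least `η` apart -/
theorem spread {ι : Type} [DecidableEq ι] (f : ι → ℝ) (η : ℝ) (hf : ∀ i, 0 ≤ f i) (S : Finset ι) :
    (∀ i ∈ S, ∀ j ∈ S, i ≠ j → η ≤ |f i - f j|) →
      η * ((S.card : ℝ) * ((S.card : ℝ) - 1)) / 2 ≤ ∑ i ∈ S, f i ∧
      ∀ b : ι, (∀ x ∈ S, f x ≤ f b ∧ η ≤ |f x - f b|) → η * S.card ≤ f b := by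
  induction S using Finset.induction_on_max_value f with
  | empty =>
    intro _
    refine ⟨by simp, fun b _ => ?_⟩
    simpa using hf b
  | insert a s ha hmax ih =>
    intro h
    obtain ⟨h1, h2⟩ := ih fun i hi j hj => h i (mem_insert_of_mem hi) j (mem_insert_of_mem hj)
    have h3 : η * s.card ≤ f a := by
      refine h2 a fun x hx => ⟨hmax x hx, ?_⟩
      refine h x (mem_insert_of_mem hx) a (mem_insert_self a s) ?_
      rintro rfl
      exact ha hx
    rw [card_insert_of_notMem ha, sum_insert ha]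
    push_cast
    refine ⟨by nlinarith, fun b hb => ?_⟩
    obtain ⟨h4, h5⟩ := hb a (mem_insert_self a s)
    rw [abs_sub_comm, abs_of_nonneg (by linarith)] at h5
    linarith

/-- the number of the jobs before `j` except `k` -/
def rk {n : ℕ} (k j : Fin n) : ℕ := ((univ : Finset (Fin n)).filter fun i => i < j ∧ i ≠ k).card

theorem rk_lt {n : ℕ} (k i j : Fin n) (h : i < j) (hi : i ≠ k) : rk k i + 1 ≤ rk k j := by
  unfold rk
  rw [← card_insert_of_notMem (s := (univ : Finset (Fin n)).filter fun a => a < i ∧ a ≠ k) (a := i)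
    (by simp)]
  refine card_le_card fun a ha => ?_
  rw [mem_insert, mem_filter] at ha
  rw [mem_filter]
  refine ⟨mem_univ _, ?_⟩
  rcases ha with rfl | ha
  · exact ⟨h, hi⟩
  · exact ⟨ha.2.1.trans h, ha.2.2⟩

theorem rk_le {n : ℕ} (k j : Fin n) (hj : j ≠ k) : rk k j + 1 ≤ n - 1 := by
  unfold rk
  rw [← card_insert_of_notMem (s := (univ : Finset (Fin n)).filter fun a => a < j ∧ a ≠ k) (a := j)
    (by simp)]
  have h1 : insert j ((univ : Finset (Fin n)).filter fun a => a < j ∧ a ≠ k) ⊆
      (univ : Finset (Fin n)).erase k := by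
    intro a ha
    rw [mem_insert, mem_filter] at ha
    rw [mem_erase]
    rcases ha with rfl | ha
    · exact ⟨hj, mem_univ _⟩
    · exact ⟨ha.2.2, mem_univ _⟩
  have h2 := card_le_card h1
  rw [card_erase_of_mem (mem_univ k), card_univ, Fintype.card_fin] at h2
  exact h2

/-- the optimal schedule -/
noncomputable def sch {n : ℕ} (k : Fin n) : Schedule n where
  start j := if j = k then 0 else 1 / ((n : ℝ) - 1) * rk k j
  pos j := if j = k then 0 else 1

theorem eta_pos {n : ℕ} (hn : 2 ≤ n) : 0 < 1 / ((n : ℝ) - 1) := by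
  have : (2 : ℝ) ≤ n := by exact_mod_cast hn
  apply one_div_pos.2
  linarith

theorem eta_le {n : ℕ} (hn : 2 ≤ n) : 1 / ((n : ℝ) - 1) ≤ 1 := by
  have : (2 : ℝ) ≤ n := by exact_mod_cast hn
  rw [div_le_one (by linarith)]
  linarith

theorem tk_nonneg {n : ℕ} (hn : 2 ≤ n) (k j : Fin n) : 0 ≤ tk n k j := by
  unfold tk
  split_ifs
  · norm_num
  · exact (eta_pos hn).le

theorem sch_feasible {n : ℕ} (hn : 2 ≤ n) (k : Fin n) :
    Feasible 2 (fun _ : Fin n => 1) (tk n k) (sch k) := by
  have hη := eta_pos hn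
  refine ⟨fun j => ?_, fun j => ?_, ?_⟩
  · simp only [sch]
    split_ifs
    · exact le_rfl
    · positivity
  · simp only [sch]
    split_ifs <;> norm_num
  · intro i j hij τ h1 h2 h3 h4
    simp only [sch] at h1 h2 h3 h4 ⊢
    by_cases hi : i = k
    · have hj : j ≠ k := fun h => hij (hi.trans h.symm)
      simp [hi, hj]
    · by_cases hj : j = k
      · simp [hi, hj]
      · exfalso
        simp only [hi, hj, if_false, tk] at h1 h2 h3 h4
        rcases lt_or_gt_of_ne hij with h | h
        · have h5 : ((rk k i + 1 : ℕ) : ℝ) ≤ rk k j := by exact_mod_cast rk_lt k i j h hi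
          push_cast at h5
          nlinarith
        · have h5 : ((rk k j + 1 : ℕ) : ℝ) ≤ rk k i := by exact_mod_cast rk_lt k j i h hj
          push_cast at h5
          nlinarith

theorem opt_eq {n : ℕ} (hn : 2 ≤ n) (k : Fin n) : OPT 2 (fun _ : Fin n => 1) (tk n k) = 1 := by
  have hARE := x_ARE 2 n (fun _ => 1) (tk n k) (fun _ => by norm_num) (tk_nonneg hn k)
  apply le_antisymm
  · have hbdd : BddBelow {x | ∃ σ : Schedule n, Feasible 2 (fun _ : Fin n => 1) (tk n k) σ ∧
        makespan (tk n k) σ = x} := by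
      refine ⟨0, ?_⟩
      rintro x ⟨σ, hσ, rfl⟩
      exact AREaux.make_nonneg (tk_nonneg hn k) hσ.1
    refine (csInf_le hbdd ⟨sch k, sch_feasible hn k, rfl⟩).trans ?_
    have : Nonempty (Fin n) := ⟨k⟩
    refine ciSup_le fun j => ?_
    simp only [sch, tk]
    by_cases hj : j = k
    · simp [hj]
    · simp only [hj, if_false]
      have h1 : ((rk k j + 1 : ℕ) : ℝ) ≤ ((n - 1 : ℕ) : ℝ) := by exact_mod_cast rk_le k j hj
      rw [Nat.cast_sub (by omega)] at h1
      push_cast at h1
      have h2 : (0 : ℝ) < (n : ℝ) - 1 := by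
        have : (2 : ℝ) ≤ n := by exact_mod_cast hn
        linarith
      rw [← mul_add_one, one_div, ← div_eq_inv_mul, div_le_one h2]
      exact h1
  · have h1 := hARE.2.1 k
    simpa [tk] using h1

theorem main (n : ℕ) (hn : 2 ≤ n) (A : Rule 2 (fun _ : Fin n => 1)) :
    5 / 4 - 1 / (4 * ((n : ℝ) - 1)) ≤ (∑ k, makespan (tk n k) (A.run (tk n k))) / n := by
  set η : ℝ := 1 / ((n : ℝ) - 1) with hη
  have hη0 : 0 < η := eta_pos hn
  have hη1 : η ≤ 1 := eta_le hn
  have hn0 : (2 : ℝ) ≤ n := by exact_mod_cast hn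
  set σ := A.run (fun _ => η) with hσ
  have hfeas := A.feasible (fun _ => η) (fun _ => hη0.le)
  rw [← hσ] at hfeas
  have h1 : ∀ k, 1 + σ.start k ≤ makespan (tk n k) (A.run (tk n k)) := by
    intro k
    have h2 := A.nonanticipating (fun _ => η) (tk n k) (fun _ => hη0.le) (tk_nonneg hn k)
      (σ.start k + η) ?_ ?_ k
    · have h3 := (h2.1 (by rw [← hσ]; linarith)).1
      have h4 := AREaux.le_make (tk n k) (A.run (tk n k)) k
      rw [h3, ← hσ] at h4
      simp only [tk, if_true] at h4
      linarith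
    · intro j hj
      rw [← hσ] at hj
      by_cases hjk : j = k
      · subst hjk
        exact absurd hj (lt_irrefl _)
      · simp only [tk, hjk, if_false]
        rfl
    · intro j _ hj
      rw [← hσ] at hj ⊢
      by_cases hjk : j = k
      · subst hjk
        simp only [tk, if_true]
        linarith
      · simp only [tk, hjk, if_false]
        exact hj
  have hpos : ∀ j, σ.pos j = 0 ∨ σ.pos j = 1 := by
    intro j
    have h2 : σ.pos j + 1 ≤ 2 := hfeas.2.1 j
    omega
  have hap : ∀ i j, i ≠ j → σ.pos i = σ.pos j → η ≤ |σ.start i - σ.start j| := by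
    intro i j hij hp
    by_contra hlt
    push Not at hlt
    rw [abs_lt] at hlt
    have h3 := hfeas.2.2 i j hij (max (σ.start i) (σ.start j)) (le_max_left _ _)
      (max_lt (by linarith) (by linarith)) (le_max_right _ _) (max_lt (by linarith) (by linarith))
    have h4 : σ.pos i + 1 ≤ σ.pos j ∨ σ.pos j + 1 ≤ σ.pos i := h3
    omega
  have hs : ∀ c : ℕ, η * ((((univ : Finset (Fin n)).filter fun j => σ.pos j = c).card : ℝ) *
      ((((univ : Finset (Fin n)).filter fun j => σ.pos j = c).card : ℝ) - 1)) / 2 ≤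
      ∑ j ∈ (univ : Finset (Fin n)).filter fun j => σ.pos j = c, σ.start j := by
    intro c
    refine (spread σ.start η hfeas.1 _ ?_).1
    intro i hi j hj hij
    rw [mem_filter] at hi hj
    exact hap i j hij (hi.2.trans hj.2.symm)
  set N0 := ((univ : Finset (Fin n)).filter fun j => σ.pos j = 0).card with hN0
  set N1 := ((univ : Finset (Fin n)).filter fun j => σ.pos j = 1).card with hN1
  have hfil : ((univ : Finset (Fin n)).filter fun j => ¬ σ.pos j = 0) =
      (univ : Finset (Fin n)).filter fun j => σ.pos j = 1 := by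
    ext j
    rw [mem_filter, mem_filter]
    rcases hpos j with h | h <;> simp [h]
  have hN : (N0 : ℝ) + N1 = n := by
    have := Finset.card_filter_add_card_filter_not (s := (univ : Finset (Fin n))) (fun j => σ.pos j = 0)
    rw [hfil, card_univ, Fintype.card_fin] at this
    exact_mod_cast this
  have hsum : ∑ j, σ.start j = ∑ j ∈ (univ : Finset (Fin n)).filter (fun j => σ.pos j = 0), σ.start j +
      ∑ j ∈ (univ : Finset (Fin n)).filter (fun j => σ.pos j = 1), σ.start j := by
    rw [← hfil, Finset.sum_filter_add_sum_filter_not]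
  have hs0 := hs 0
  have hs1 := hs 1
  rw [← hN0] at hs0
  rw [← hN1] at hs1
  have h5 : η * ((n : ℝ) * (n - 2)) / 4 ≤ ∑ j, σ.start j := by
    rw [hsum]
    refine le_trans ?_ (add_le_add hs0 hs1)
    rw [← hN]
    nlinarith [mul_nonneg hη0.le (sq_nonneg ((N0 : ℝ) - N1))]
  have h6 : (n : ℝ) + η * ((n : ℝ) * (n - 2)) / 4 ≤ ∑ k, makespan (tk n k) (A.run (tk n k)) := by
    have h7 : ∑ k : Fin n, (1 + σ.start k) ≤ ∑ k, makespan (tk n k) (A.run (tk n k)) :=
      Finset.sum_le_sum fun k _ => h1 k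
    rw [Finset.sum_add_distrib, Finset.sum_const, card_univ, Fintype.card_fin, nsmul_eq_mul,
      mul_one] at h7
    linarith
  rw [le_div_iff₀ (by linarith)]
  refine le_trans (le_of_eq ?_) h6
  rw [hη]
  have : (n : ℝ) - 1 ≠ 0 := by
    have : 0 < (n : ℝ) - 1 := by linarith
    exact this.ne'
  field_simp
  ring

end YAOaux

theorem t_YAO : S_YAO := fun n hn => ⟨YAOaux.opt_eq hn, YAOaux.main n hn⟩

end Pool.Agent.SMA
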