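import Pool.Agent.SMA.Stmts

/-!
# Small linear arrays: module AVB
-/

set_option autoImplicit false

namespace Pool.Agent.SMA

open Finset Pool.Agent.BSR

namespace AVBaux

theorem av_cons (x : ℝ) (l : List ℝ) (f : ℝ → ℝ) :
    av (x :: l) f = (av l f + av l fun y => f (x + y)) / 2 := rfl

theorem av_nil (f : ℝ → ℝ) : av [] f = f 0 := rfl

theorem mono (l : List ℝ) : ∀ f g : ℝ → ℝ, (∀ y, f y ≤ g y) → av l f ≤ av l g := by
  induction l with
  | nil => intro f g h; exact h 0
  | cons x l ih =>
    intro f g h
    rw [av_cons, av_cons]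
    have h1 := ih f g h
    have h2 := ih (fun y => f (x + y)) (fun y => g (x + y)) (fun y => h (x + y))
    linarith

theorem lin (l : List ℝ) : ∀ (f g : ℝ → ℝ) (a b : ℝ),
    av l (fun y => a * f y + b * g y) = a * av l f + b * av l g := by
  induction l with
  | nil => intro f g a b; rfl
  | cons x l ih =>
    intro f g a b
    rw [av_cons, av_cons, av_cons, ih f g a b,
      ih (fun y => f (x + y)) (fun y => g (x + y)) a b]
    ring

theorem const (l : List ℝ) (c : ℝ) : av l (fun _ => c) = c := by
  induction l with
  | nil => rfl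
  | cons x l ih => rw [av_cons, ih]; ring

theorem ident (l : List ℝ) : av l (fun y => y) = l.sum / 2 := by
  induction l with
  | nil => simp [av_nil]
  | cons x l ih =>
    rw [av_cons, ih]
    have h : av l (fun y => x + y) = x + l.sum / 2 := by
      have h1 := lin l (fun _ => x) (fun y => y) 1 1
      simp only [one_mul] at h1
      rw [h1, const, ih]
    rw [h, List.sum_cons]
    ring

theorem perm {l l' : List ℝ} (h : l.Perm l') : ∀ f : ℝ → ℝ, av l f = av l' f := by
  induction h with
  | nil => intro f; rfl
  | cons x _ ih => intro f; rw [av_cons, av_cons, ih, ih]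
  | swap x y l =>
    intro f
    rw [av_cons, av_cons, av_cons, av_cons, av_cons, av_cons]
    have h : (fun z => f (y + (x + z))) = fun z => f (x + (y + z)) := by
      funext z
      congr 1
      ring
    rw [h]
    ring
  | trans _ _ ih1 ih2 => intro f; rw [ih1, ih2]

theorem refl (l : List ℝ) : ∀ f : ℝ → ℝ, av l (fun y => f (l.sum - y)) = av l f := by
  induction l with
  | nil => intro f; simp [av_nil]
  | cons x l ih =>
    intro f
    rw [av_cons, av_cons, List.sum_cons]
    have h1 : (fun y => f (x + l.sum - y)) = fun y => (fun z => f (x + z)) (l.sum - y) := by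
      funext y
      show f (x + l.sum - y) = f (x + (l.sum - y))
      congr 1
      ring
    have h2 : (fun y => f (x + l.sum - (x + y))) = fun y => f (l.sum - y) := by
      funext y
      congr 1
      ring
    rw [h1, h2, ih f, ih fun z => f (x + z)]
    ring

theorem absl (l : List ℝ) (x c : ℝ) (hx : x ∈ l) : x / 2 ≤ av l fun y => |y - c| := by
  rw [perm (List.perm_cons_erase hx), av_cons]
  have h1 := lin (l.erase x) (fun y => |y - c|) (fun y => |x + y - c|) 1 1
  simp only [one_mul] at h1
  have h2 := mono (l.erase x) (fun _ => x) (fun y => |y - c| + |x + y - c|) (fun y => by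
    have h3 := neg_abs_le (y - c)
    have h4 := le_abs_self (x + y - c)
    linarith)
  rw [const] at h2
  linarith

end AVBaux

theorem t_AVB : S_AVB :=
  ⟨AVBaux.mono, AVBaux.lin, AVBaux.const, AVBaux.ident, fun _ _ f h => AVBaux.perm h f,
    AVBaux.refl, AVBaux.absl⟩

end Pool.Agent.SMA
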