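import Pool.Agent.SMA.Stmts

/-!
# Small linear arrays: module AVG
-/

set_option autoImplicit false

namespace Pool.Agent.SMA

open Finset Pool.Agent.BSR

namespace AVGaux

theorem arr_true {n : ℕ} (φ : Fin n → Bool) :
    arr (Fin.cons true φ : Fin (n + 1) → Bool) = 0 :: (arr φ).map Fin.succ := by
  unfold arr
  rw [List.finRange_succ]
  simp [List.filter_map, Function.comp_def]

theorem arr_false {n : ℕ} (φ : Fin n → Bool) :
    arr (Fin.cons false φ : Fin (n + 1) → Bool) = (arr φ).map Fin.succ ++ [0] := by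
  unfold arr
  rw [List.finRange_succ]
  simp [List.filter_map, Function.comp_def]

theorem main : ∀ (n : ℕ) (x : Fin n → ℝ) (P Q : List ℝ),
    ∑ φ : Fin n → Bool, mc (P ++ (arr φ).map x ++ Q) = 2 ^ n * cav P Q (List.ofFn x)
  | 0, x, P, Q => by
    rw [Fintype.sum_unique, List.ofFn_zero, cav]
    simp [arr]
  | n + 1, x, P, Q => by
    rw [← Equiv.sum_comp (Fin.consEquiv (fun _ : Fin (n + 1) => Bool)), Fintype.sum_prod_type,
      Fintype.sum_bool]
    have h1 : ∀ φ : Fin n → Bool,
        mc (P ++ (arr ((Fin.consEquiv (fun _ : Fin (n + 1) => Bool)) (true, φ))).map x ++ Q) =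
        mc ((P ++ [x 0]) ++ (arr φ).map (fun i => x i.succ) ++ Q) := by
      intro φ
      show mc (P ++ (arr (Fin.cons true φ : Fin (n + 1) → Bool)).map x ++ Q) = _
      rw [arr_true]
      simp [Function.comp_def]
    have h2 : ∀ φ : Fin n → Bool,
        mc (P ++ (arr ((Fin.consEquiv (fun _ : Fin (n + 1) => Bool)) (false, φ))).map x ++ Q) =
        mc (P ++ (arr φ).map (fun i => x i.succ) ++ (x 0 :: Q)) := by
      intro φ
      show mc (P ++ (arr (Fin.cons false φ : Fin (n + 1) → Bool)).map x ++ Q) = _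
      rw [arr_false]
      simp [Function.comp_def]
    rw [Finset.sum_congr rfl fun φ _ => h1 φ, Finset.sum_congr rfl fun φ _ => h2 φ,
      main n, main n, List.ofFn_succ, cav, pow_succ]
    ring

end AVGaux

theorem t_AVG : S_AVG := by
  intro n x
  have h := AVGaux.main n x [] []
  simpa using h

end Pool.Agent.SMA
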