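import Pool.Agent.SMA.Stmts

/-!
# Project SMA: big entries halve the average (module BIG)
-/

set_option autoImplicit false

namespace Pool.Agent.SMA

open Finset Pool.Agent.BSR

namespace BIGaux

theorem av_zero (u : ℝ) (l : List ℝ) (hl : ∀ y ∈ l, 0 ≤ y) (x : ℝ) (hx : u ≤ x) :
    av l (fun y => max (u - (x + y)) 0) = 0 := by
  induction l generalizing x with
  | nil =>
    simp only [av]
    exact max_eq_right (by linarith)
  | cons a l ih =>
    have ha : 0 ≤ a := hl a (by simp)
    have hl' : ∀ y ∈ l, 0 ≤ y := fun y hy => hl y (List.mem_cons_of_mem _ hy)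
    have h1 := ih hl' x hx
    have h2 := ih hl' (x + a) (by linarith)
    simp only [av]
    have h3 : (fun y : ℝ => max (u - (x + (a + y))) 0) = fun y => max (u - (x + a + y)) 0 := by
      funext y
      rw [add_assoc]
    rw [h3, h1, h2]
    norm_num

theorem av_append (u L : ℝ) (huL : u ≤ L) (hL : 0 ≤ L) (g s : List ℝ) (hg : ∀ x ∈ g, L ≤ x)
    (hs : ∀ x ∈ s, 0 ≤ x) :
    av (g ++ s) (fun y => max (u - y) 0) = av s (fun y => max (u - y) 0) / 2 ^ g.length := by
  induction g with
  | nil => simp
  | cons a g ih =>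
    have ha : L ≤ a := hg a (by simp)
    have hg' : ∀ x ∈ g, L ≤ x := fun x hx => hg x (List.mem_cons_of_mem _ hx)
    have h1 := ih hg'
    have h2 : av (g ++ s) (fun y => max (u - (a + y)) 0) = 0 := by
      apply av_zero u _ _ a (huL.trans ha)
      intro y hy
      rcases List.mem_append.1 hy with h | h
      · exact hL.trans (hg' y h)
      · exact hs y h
    rw [List.cons_append]
    simp only [av]
    rw [h2, h1, List.length_cons, pow_succ]
    field_simp
    ring

end BIGaux

theorem t_BIG : M_BIG := by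
  intro hA hG L u r k l g s hp hg hs hu huL hr hrL hk
  have hL : 0 ≤ L := hu.trans huL
  have h1 : KK l u = av (g ++ s) (fun y => max (u - y) 0) := hA.2.2.2.2.1 l (g ++ s) _ hp
  have h2 := BIGaux.av_append u L huL hL g s hg (fun x hx => (hs x hx).1)
  have h3 : av s (fun y => max (u - y) 0) ≤ (u + max (u - r) 0) / 2 / 2 ^ k :=
    hG L u r k s hs hu huL hr hrL hk
  have hpos : (0 : ℝ) < 2 ^ g.length := by positivity
  rw [h1, h2, pow_add, ← div_div]
  exact div_le_div_of_nonneg_right h3 hpos.le

end Pool.Agent.SMA
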