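import Pool.Agent.SMA.Stmts

/-!
# Small linear arrays (MP_e25616_lc): module COF
-/

set_option autoImplicit false

namespace Pool.Agent.SMA

open Finset Pool.Agent.BSR

namespace COFaux

theorem sum_filter (p : ℝ × Bool → Bool) (l : List (ℝ × Bool)) :
    ((l.filter p).map Prod.fst).sum = (l.map fun a => if p a then a.1 else 0).sum := by
  induction l with
  | nil => rfl
  | cons a l ih =>
    rw [List.filter_cons, List.map_cons, List.sum_cons]
    split_ifs with h
    · rw [List.map_cons, List.sum_cons, ih]
    · rw [ih, zero_add]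

theorem sum_ofFn (n : ℕ) (g : Fin n → ℝ × Bool) (p : ℝ × Bool → Bool) :
    (((List.ofFn g).filter p).map Prod.fst).sum = ∑ j, if p (g j) then (g j).1 else 0 := by
  rw [sum_filter, List.map_ofFn, List.sum_ofFn]
  rfl

end COFaux

open COFaux in
theorem t_COF : M_COF := by
  classical
  intro hC n x S M hx h1 h2
  have h := hC (List.ofFn fun j => (x j, decide (j ∈ S))) M ?_ ?_ ?_
  · rw [List.map_ofFn] at h
    exact h
  · intro y hy
    obtain ⟨j, rfl⟩ := (List.mem_ofFn' _ _).1 hy
    exact hx j
  · rw [sum_ofFn]
    refine le_trans (le_of_eq ?_) h1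
    rw [← Finset.sum_filter]
    refine Finset.sum_congr ?_ fun _ _ => rfl
    ext j
    simp
  · rw [sum_ofFn]
    refine le_trans (le_of_eq ?_) h2
    rw [← Finset.sum_filter]
    refine Finset.sum_congr ?_ fun _ _ => rfl
    ext j
    simp

end Pool.Agent.SMA
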