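import Pool.Agent.SMA.Stmts

/-!
# SMA: the module COR
-/

set_option autoImplicit false

namespace Pool.Agent.SMA

open Finset Pool.Agent.BSR

namespace CORaux

/-- the sum of the part `g` -/
noncomputable def S (g : Bool) (m : List (ℝ × Bool)) : ℝ :=
  (m.map (fun x => if x.2 = g then x.1 else 0)).sum

theorem S_nil (g : Bool) : S g [] = 0 := by simp [S]

theorem S_cons (g : Bool) (a : ℝ × Bool) (m : List (ℝ × Bool)) :
    S g (a :: m) = (if a.2 = g then a.1 else 0) + S g m := by simp [S]

theorem S_append (g : Bool) (m m' : List (ℝ × Bool)) : S g (m ++ m') = S g m + S g m' := by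
  simp [S]

theorem S_true (l : List (ℝ × Bool)) : ((l.filter fun x => x.2).map Prod.fst).sum = S true l := by
  induction l with
  | nil => simp [S]
  | cons a l ih =>
    rw [S_cons, ← ih]
    obtain ⟨x, f⟩ := a
    cases f <;> simp

theorem S_false (l : List (ℝ × Bool)) : ((l.filter fun x => !x.2).map Prod.fst).sum = S false l := by
  induction l with
  | nil => simp [S]
  | cons a l ih =>
    rw [S_cons, ← ih]
    obtain ⟨x, f⟩ := a
    cases f <;> simp

theorem S_add (l : List (ℝ × Bool)) : S true l + S false l = (l.map Prod.fst).sum := by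
  induction l with
  | nil => simp [S]
  | cons a l ih =>
    rw [S_cons, S_cons, List.map_cons, List.sum_cons, ← ih]
    obtain ⟨x, f⟩ := a
    cases f <;> simp <;> ring

theorem S_nonneg (g : Bool) (m : List (ℝ × Bool)) (h : ∀ x ∈ m, 0 ≤ x.1) : 0 ≤ S g m := by
  induction m with
  | nil => simp [S]
  | cons a m ih =>
    rw [S_cons]
    have h1 := h a (by simp)
    have h2 := ih fun x hx => h x (by simp [hx])
    split_ifs <;> linarith

theorem le_S (g : Bool) (m : List (ℝ × Bool)) (h : ∀ x ∈ m, 0 ≤ x.1) :
    ∀ x ∈ m, x.2 = g → x.1 ≤ S g m := by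
  induction m with
  | nil => simp
  | cons a m ih =>
    have h1 := h a (by simp)
    have h2 := S_nonneg g m fun x hx => h x (by simp [hx])
    intro x hx hxg
    rw [S_cons]
    rcases List.mem_cons.1 hx with rfl | hx
    · rw [if_pos hxg]
      linarith
    · have h3 := ih (fun x hx => h x (by simp [hx])) x hx hxg
      split_ifs <;> linarith

theorem pw (g : Bool) (m : List (ℝ × Bool)) (h : ∀ x ∈ m, 0 ≤ x.1) (C : ℝ) (hC : S g m ≤ C) :
    m.Pairwise (fun x y => x.2 = g → y.2 = g → x.1 + y.1 ≤ C) := by
  induction m generalizing C with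
  | nil => exact List.Pairwise.nil
  | cons a m ih =>
    rw [S_cons] at hC
    have h1 := h a (by simp)
    have h2 : ∀ x ∈ m, 0 ≤ x.1 := fun x hx => h x (by simp [hx])
    refine List.Pairwise.cons ?_ (ih h2 C ?_)
    · intro y hy hag hyg
      rw [if_pos hag] at hC
      have h3 := le_S g m h2 y hy hyg
      linarith
    · split_ifs at hC <;> linarith

theorem exists_max (m : List (ℝ × Bool)) (hm : m ≠ []) : ∃ a ∈ m, ∀ x ∈ m, x.1 ≤ a.1 := by
  induction m with
  | nil => exact absurd rfl hm
  | cons a m ih =>
    by_cases h0 : m = []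
    · subst h0
      exact ⟨a, by simp, by simp⟩
    · obtain ⟨b, hb, hmax⟩ := ih h0
      rcases le_total a.1 b.1 with h | h
      · refine ⟨b, by simp [hb], fun x hx => ?_⟩
        rcases List.mem_cons.1 hx with rfl | hx
        · exact h
        · exact hmax x hx
      · refine ⟨a, by simp, fun x hx => ?_⟩
        rcases List.mem_cons.1 hx with rfl | hx
        · exact le_rfl
        · exact (hmax x hx).trans h

theorem core (hCUM : S_CUM) (hMID : S_MID) (l : List (ℝ × Bool)) (M : ℝ) (hM : 0 ≤ M)
    (h0 : ∀ x ∈ l, 0 ≤ x.1) (hT : S true l = M) (hF : S false l = M) :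
    (cav [] [] (l.map Prod.fst) + cav [] [] (l.map Prod.fst).reverse) / 2 ≤ 5 / 4 * M := by
  have hsum : (l.map Prod.fst).sum = 2 * M := by rw [← S_add, hT, hF]; ring
  by_cases hall : ∀ x ∈ l, x.1 ≤ M / 2
  · have h1 : ∀ x ∈ l.map Prod.fst, 0 ≤ x ∧ x ≤ M / 2 := by
      intro x hx
      obtain ⟨a, ha, rfl⟩ := List.mem_map.1 hx
      exact ⟨h0 a ha, hall a ha⟩
    have h2 := hCUM [] (l.map Prod.fst) (M / 2) (by linarith) (by simp) h1
      (by rw [hsum]; simp; linarith)
    have h3 := hCUM [] (l.map Prod.fst).reverse (M / 2) (by linarith) (by simp)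
      (fun x hx => h1 x (List.mem_reverse.1 hx)) (by rw [List.sum_reverse, hsum]; simp; linarith)
    rw [List.nil_append, List.sum_nil, hsum] at h2
    rw [List.nil_append, List.sum_nil, List.sum_reverse, hsum] at h3
    linarith
  · push Not at hall
    obtain ⟨x₀, hx₀, hx₀M⟩ := hall
    obtain ⟨a, ha, hmax⟩ := exists_max l (List.ne_nil_of_mem hx₀)
    obtain ⟨l₁, l₂, rfl⟩ := List.append_of_mem ha
    obtain ⟨b, f⟩ := a
    have hbM : M / 2 < b := hx₀M.trans_le (hmax x₀ hx₀)
    have h0' : ∀ x ∈ l₁ ++ l₂, 0 ≤ x.1 := by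
      intro x hx
      apply h0 x
      rcases List.mem_append.1 hx with h | h
      · exact List.mem_append_left _ h
      · exact List.mem_append_right _ (List.mem_cons_of_mem _ h)
    have hmax' : ∀ x ∈ l₁ ++ l₂, x.1 ≤ b := by
      intro x hx
      apply hmax x
      rcases List.mem_append.1 hx with h | h
      · exact List.mem_append_left _ h
      · exact List.mem_append_right _ (List.mem_cons_of_mem _ h)
    have hg : ∀ g, S g (l₁ ++ (b, f) :: l₂) = M := by
      intro g
      cases g
      · exact hF
      · exact hT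
    have hSf : S f (l₁ ++ l₂) = M - b := by
      have h := hg f
      rw [S_append, S_cons] at h
      simp only [if_true] at h
      rw [S_append]
      linarith
    have hSnf : S (!f) (l₁ ++ l₂) = M := by
      have h := hg (!f)
      rw [S_append, S_cons] at h
      have h1 : ¬ (f = !f) := by cases f <;> simp
      simp only [h1, if_false, zero_add] at h
      rw [S_append]
      exact h
    have hbM' : b ≤ M := by
      have h := S_nonneg f (l₁ ++ l₂) h0'
      linarith
    have hmap : (l₁ ++ (b, f) :: l₂).map Prod.fst = l₁.map Prod.fst ++ b :: l₂.map Prod.fst := by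
      simp
    rw [hmap]
    refine hMID M (M - b) b (l₁.map Prod.fst) (l₂.map Prod.fst) (by linarith) (by linarith)
      (by ring) ?_ ?_ ?_
    · intro x hx
      rw [← List.map_append] at hx
      obtain ⟨a, ha, rfl⟩ := List.mem_map.1 hx
      refine ⟨h0' a ha, ?_⟩
      have := hmax' a ha
      linarith
    · rw [hmap, List.sum_append, List.sum_cons] at hsum
      linarith
    · rw [← List.map_append, List.pairwise_map]
      have h1 := pw (!f) (l₁ ++ l₂) h0' M hSnf.le
      refine h1.imp_of_mem ?_
      intro x y hx hy hxy hLx hLy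
      have key : ∀ z ∈ l₁ ++ l₂, M - b < z.1 → z.2 = !f := by
        intro z hz hLz
        by_contra hne
        have hzf : z.2 = f := by
          cases hz2 : z.2 <;> cases hf2 : f <;> simp_all
        have := le_S f (l₁ ++ l₂) h0' z hz hzf
        linarith
      exact hxy (key x hx hLx) (key y hy hLy)

end CORaux

open CORaux in
theorem t_COR : M_COR := by
  intro hMON hCUM hMID l M h0 hT hF
  rw [S_true] at hT
  rw [S_false] at hF
  have hM : 0 ≤ M := (S_nonneg true l h0).trans hT
  set p := (M - S true l) / 2 with hp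
  set p' := (M - S false l) / 2 with hp'
  have hp0 : 0 ≤ p := by rw [hp]; linarith
  have hp0' : 0 ≤ p' := by rw [hp']; linarith
  set l' := l ++ [(p, true), (p, true), (p', false), (p', false)] with hl'
  have h0' : ∀ x ∈ l', 0 ≤ x.1 := by
    intro x hx
    rw [hl', List.mem_append] at hx
    rcases hx with hx | hx
    · exact h0 x hx
    · simp only [List.mem_cons, List.not_mem_nil, or_false] at hx
      rcases hx with rfl | rfl | rfl | rfl <;> assumption
  have hT' : S true l' = M := by
    rw [hl', S_append]
    simp only [S_cons, S_nil]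
    simp
    rw [hp]
    ring
  have hF' : S false l' = M := by
    rw [hl', S_append]
    simp only [S_cons, S_nil]
    simp
    rw [hp']
    ring
  have hsub : (l.map Prod.fst).Sublist (l'.map Prod.fst) :=
    (List.sublist_append_left l _).map Prod.fst
  have hn : ∀ x ∈ l'.map Prod.fst, 0 ≤ x := by
    intro x hx
    obtain ⟨a, ha, rfl⟩ := List.mem_map.1 hx
    exact h0' a ha
  have h1 := hMON _ _ hsub hn
  have h2 := hMON _ _ hsub.reverse (fun x hx => hn x (List.mem_reverse.1 hx))
  have h3 := core hCUM hMID l' M hM h0' hT' hF'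
  linarith

end Pool.Agent.SMA
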