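import Pool.Agent.SMA.Stmts

/-!
# Module CUB of project SMA (MP_e25616_lc): the two cuts next to a job
-/

set_option autoImplicit false

namespace Pool.Agent.SMA

open Finset Pool.Agent.BSR

namespace CUBaux

theorem mc_le (P Q : List ℝ) : mc (P ++ Q) ≤ max P.sum Q.sum := by
  unfold mc
  have hb : BddBelow (Set.range fun i : Fin ((P ++ Q).length + 1) =>
      max ((P ++ Q).take i).sum ((P ++ Q).drop i).sum) := (Set.finite_range _).bddBelow
  refine (ciInf_le hb ⟨P.length, by simp⟩).trans ?_
  simp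

/-- a cut on the left side -/
theorem cav_left : ∀ (l P₁ P₂ Q : List ℝ),
    cav (P₁ ++ P₂) Q l ≤ max P₁.sum (P₂.sum + Q.sum + l.sum) := by
  intro l
  induction l with
  | nil =>
    intro P₁ P₂ Q
    have h := mc_le P₁ (P₂ ++ Q)
    simp only [cav, List.sum_nil, add_zero, List.append_assoc]
    simpa only [List.sum_append] using h
  | cons x l ih =>
    intro P₁ P₂ Q
    have h1 := ih P₁ (P₂ ++ [x]) Q
    have h2 := ih P₁ P₂ (x :: Q)
    simp only [List.sum_append, List.sum_cons, List.sum_nil, add_zero] at h1 h2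
    have e1 : P₂.sum + x + Q.sum + l.sum = P₂.sum + Q.sum + (x + l.sum) := by ring
    have e2 : P₂.sum + (x + Q.sum) + l.sum = P₂.sum + Q.sum + (x + l.sum) := by ring
    rw [e1] at h1
    rw [e2] at h2
    simp only [cav, List.sum_cons, List.append_assoc]
    linarith

/-- a cut on the right side -/
theorem cav_right : ∀ (l P Q₁ Q₂ : List ℝ),
    cav P (Q₁ ++ Q₂) l ≤ max (P.sum + l.sum + Q₁.sum) Q₂.sum := by
  intro l
  induction l with
  | nil =>
    intro P Q₁ Q₂
    have h := mc_le (P ++ Q₁) Q₂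
    simp only [cav, List.sum_nil, add_zero]
    simpa only [List.sum_append, List.append_assoc] using h
  | cons x l ih =>
    intro P Q₁ Q₂
    have h1 := ih (P ++ [x]) Q₁ Q₂
    have h2 := ih P (x :: Q₁) Q₂
    simp only [List.sum_append, List.sum_cons, List.sum_nil, add_zero] at h1 h2
    have e1 : P.sum + x + l.sum + Q₁.sum = P.sum + (x + l.sum) + Q₁.sum := by ring
    have e2 : P.sum + l.sum + (x + Q₁.sum) = P.sum + (x + l.sum) + Q₁.sum := by ring
    rw [e1] at h1
    rw [e2] at h2
    simp only [cav, List.sum_cons]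
    rw [List.cons_append] at h2
    linarith

/-- the bound of the two cuts next to the job `b` -/
noncomputable def F (b S p q : ℝ) : ℝ := min (max (p + b) (q + S)) (max p (b + q + S))

theorem cav_b (P Q l₂ : List ℝ) (b : ℝ) :
    cav P Q (b :: l₂) ≤ (F b l₂.sum P.sum Q.sum + F b l₂.sum Q.sum P.sum) / 2 := by
  have h1 := cav_left l₂ P [b] Q
  have h2 := cav_left l₂ (P ++ [b]) [] Q
  have h3 := cav_right l₂ P [b] Q
  have h4 := cav_right l₂ P [] (b :: Q)
  simp only [List.sum_append, List.sum_cons, List.sum_nil, add_zero, zero_add, List.append_nil,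
    List.nil_append, List.singleton_append] at h1 h2 h3 h4
  have h5 : cav (P ++ [b]) Q l₂ ≤ F b l₂.sum P.sum Q.sum := le_min h2 h1
  have h6 : cav P (b :: Q) l₂ ≤ F b l₂.sum Q.sum P.sum := by
    refine le_min ?_ ?_
    · rw [max_comm, add_comm Q.sum b]
      exact h4
    · rw [max_comm]
      have e : b + P.sum + l₂.sum = P.sum + l₂.sum + b := by ring
      rw [e]
      exact h3
  simp only [cav]
  linarith

theorem cav_c (l₂ : List ℝ) (b : ℝ) : ∀ (l₁ P Q : List ℝ),
    cav P Q (l₁ ++ b :: l₂) ≤ av l₁ fun y =>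
      (F b l₂.sum (P.sum + y) (Q.sum + l₁.sum - y) + F b l₂.sum (Q.sum + l₁.sum - y) (P.sum + y)) / 2 := by
  intro l₁
  induction l₁ with
  | nil =>
    intro P Q
    have h := cav_b P Q l₂ b
    simpa only [av, List.nil_append, List.sum_nil, add_zero, sub_zero] using h
  | cons x l ih =>
    intro P Q
    have h1 := ih (P ++ [x]) Q
    have h2 := ih P (x :: Q)
    simp only [List.sum_append, List.sum_cons, List.sum_nil, add_zero] at h1 h2
    simp only [List.cons_append, cav, av, List.sum_cons]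
    have e1 : (fun y : ℝ => (F b l₂.sum (P.sum + x + y) (Q.sum + l.sum - y) +
        F b l₂.sum (Q.sum + l.sum - y) (P.sum + x + y)) / 2) =
        fun y : ℝ => (F b l₂.sum (P.sum + (x + y)) (Q.sum + (x + l.sum) - (x + y)) +
        F b l₂.sum (Q.sum + (x + l.sum) - (x + y)) (P.sum + (x + y))) / 2 := by
      funext y
      have a1 : P.sum + x + y = P.sum + (x + y) := by ring
      have a2 : Q.sum + l.sum - y = Q.sum + (x + l.sum) - (x + y) := by ring
      rw [a1, a2]
    have e2 : (fun y : ℝ => (F b l₂.sum (P.sum + y) (x + Q.sum + l.sum - y) +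
        F b l₂.sum (x + Q.sum + l.sum - y) (P.sum + y)) / 2) =
        fun y : ℝ => (F b l₂.sum (P.sum + y) (Q.sum + (x + l.sum) - y) +
        F b l₂.sum (Q.sum + (x + l.sum) - y) (P.sum + y)) / 2 := by
      funext y
      have a2 : x + Q.sum + l.sum - y = Q.sum + (x + l.sum) - y := by ring
      rw [a2]
    rw [e1] at h1
    rw [e2] at h2
    linarith

end CUBaux

open CUBaux in
/-- the average of the best cut is at most the average of the better one of the two cuts next to `b` -/
theorem t_CUB : M_CUB := by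
  rintro ⟨-, hlin, -, -, -, hsym, -⟩ l₁ l₂ b
  have h := cav_c l₂ b l₁ [] []
  simp only [List.sum_nil, zero_add] at h
  have h1 := hlin l₁ (fun y => F b l₂.sum y (l₁.sum - y)) (fun y => F b l₂.sum (l₁.sum - y) y)
    (1 / 2) (1 / 2)
  have h2 := hsym l₁ (fun y => F b l₂.sum y (l₁.sum - y))
  beta_reduce at h1 h2
  simp only [sub_sub_cancel] at h2
  have e1 : (fun y : ℝ => (F b l₂.sum y (l₁.sum - y) + F b l₂.sum (l₁.sum - y) y) / 2) =
      fun y : ℝ => 1 / 2 * F b l₂.sum y (l₁.sum - y) + 1 / 2 * F b l₂.sum (l₁.sum - y) y := by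
    funext y
    ring
  rw [e1, h1, h2] at h
  have e2 : (fun y : ℝ => F b l₂.sum y (l₁.sum - y)) = fun y : ℝ =>
      min (max (y + b) (l₁.sum + l₂.sum - y)) (max y (l₁.sum + b + l₂.sum - y)) := by
    funext y
    have a1 : l₁.sum - y + l₂.sum = l₁.sum + l₂.sum - y := by ring
    have a2 : b + (l₁.sum - y) + l₂.sum = l₁.sum + b + l₂.sum - y := by ring
    simp only [F]
    rw [a1, a2]
  rw [← e2]
  refine h.trans (le_of_eq ?_)
  ring

end Pool.Agent.SMA
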