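import Pool.Agent.SMA.Stmts

/-!
# Module CUM of project SMA (MP_e25616_lc): the cut in the middle
-/

set_option autoImplicit false

namespace Pool.Agent.SMA

open Finset Pool.Agent.BSR

namespace CUMaux

theorem mc_le (P Q : List ℝ) : mc (P ++ Q) ≤ max P.sum Q.sum := by
  unfold mc
  have hb : BddBelow (Set.range fun i : Fin ((P ++ Q).length + 1) =>
      max ((P ++ Q).take i).sum ((P ++ Q).drop i).sum) := Set.finite_range _ |>.bddBelow
  refine (ciInf_le hb ⟨P.length, by simp⟩).trans ?_
  simp

/-- (a) -/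
theorem mc_mid (τ : ℝ) (h0 : 0 ≤ τ) : ∀ (Y P Q : List ℝ), (∀ x ∈ Y, 0 ≤ x ∧ x ≤ τ) →
    2 * P.sum ≤ P.sum + Y.sum + Q.sum → 2 * Q.sum ≤ P.sum + Y.sum + Q.sum →
    mc (P ++ Y ++ Q) ≤ (P.sum + Y.sum + Q.sum + τ) / 2 := by
  intro Y
  induction Y with
  | nil =>
    intro P Q _ h1 h2
    have h3 := mc_le P Q
    simp only [List.sum_nil, List.append_nil] at *
    refine h3.trans (max_le ?_ ?_) <;> linarith
  | cons x Y ih =>
    intro P Q hY h1 h2
    have hx := hY x (by simp)
    simp only [List.sum_cons] at h1 h2 ⊢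
    by_cases h : 2 * (P.sum + x) ≤ P.sum + (x + Y.sum) + Q.sum
    · have h3 := ih (P ++ [x]) Q (fun y hy => hY y (by simp [hy]))
        (by simp only [List.sum_append, List.sum_cons, List.sum_nil]; linarith)
        (by simp only [List.sum_append, List.sum_cons, List.sum_nil]; linarith)
      have e1 : P ++ [x] ++ Y ++ Q = P ++ x :: Y ++ Q := by simp
      rw [e1] at h3
      refine h3.trans (le_of_eq ?_)
      simp only [List.sum_append, List.sum_cons, List.sum_nil]
      ring
    · push Not at h
      by_cases h4 : 2 * P.sum + x ≤ P.sum + (x + Y.sum) + Q.sum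
      · -- cut after `x`
        have h3 := mc_le (P ++ [x]) (Y ++ Q)
        have e1 : P ++ [x] ++ (Y ++ Q) = P ++ x :: Y ++ Q := by simp
        rw [e1] at h3
        refine h3.trans (max_le ?_ ?_) <;>
          simp only [List.sum_append, List.sum_cons, List.sum_nil] <;> linarith
      · push Not at h4
        have h3 := mc_le P (x :: Y ++ Q)
        have e1 : P ++ (x :: Y ++ Q) = P ++ x :: Y ++ Q := by simp
        rw [e1] at h3
        refine h3.trans (max_le ?_ ?_)
        · linarith
        · simp only [List.sum_append, List.sum_cons, List.cons_append]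
          linarith

/-- (b) -/
theorem cav_mid (τ : ℝ) (h0 : 0 ≤ τ) : ∀ (l P P' Q' Q : List ℝ) (W : ℝ),
    (∀ x ∈ l, 0 ≤ x ∧ x ≤ τ) → (∀ x ∈ P', 0 ≤ x ∧ x ≤ τ) → (∀ x ∈ Q', 0 ≤ x ∧ x ≤ τ) →
    P.sum + P'.sum + l.sum + Q'.sum + Q.sum = W → 2 * P.sum ≤ W → 2 * Q.sum ≤ W →
    cav (P ++ P') (Q' ++ Q) l ≤ (W + τ) / 2 := by
  intro l
  induction l with
  | nil =>
    intro P P' Q' Q W _ h1 h2 hW h3 h4
    have h5 := mc_mid τ h0 (P' ++ Q') P Q (by
      intro x hx
      rcases List.mem_append.1 hx with hx | hx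
      · exact h1 x hx
      · exact h2 x hx)
      (by simp only [List.sum_append, List.sum_nil] at hW ⊢; linarith)
      (by simp only [List.sum_append, List.sum_nil] at hW ⊢; linarith)
    have e1 : P ++ (P' ++ Q') ++ Q = (P ++ P') ++ (Q' ++ Q) := by simp
    rw [e1] at h5
    unfold cav
    refine h5.trans (le_of_eq ?_)
    simp only [List.sum_append, List.sum_nil] at hW ⊢
    linarith
  | cons x l ih =>
    intro P P' Q' Q W h h1 h2 hW h3 h4
    have hx := h x (by simp)
    have hl : ∀ y ∈ l, 0 ≤ y ∧ y ≤ τ := fun y hy => h y (by simp [hy])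
    simp only [List.sum_cons] at hW
    have a1 := ih P (P' ++ [x]) Q' Q W hl (by
      intro y hy
      rcases List.mem_append.1 hy with hy | hy
      · exact h1 y hy
      · rw [List.mem_singleton.1 hy]; exact hx) h2
      (by simp only [List.sum_append, List.sum_cons, List.sum_nil]; linarith) h3 h4
    have a2 := ih P P' (x :: Q') Q W hl h1 (by
      intro y hy
      rcases List.mem_cons.1 hy with hy | hy
      · rw [hy]; exact hx
      · exact h2 y hy)
      (by simp only [List.sum_cons]; linarith) h3 h4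
    rw [← List.append_assoc] at a1
    rw [List.cons_append] at a2
    unfold cav
    linarith

/-- (c) -/
theorem cav_pre (τ : ℝ) (h0 : 0 ≤ τ) (l'' : List ℝ) (hl'' : ∀ x ∈ l'', 0 ≤ x ∧ x ≤ τ) :
    ∀ (l' P Q : List ℝ) (W : ℝ), (∀ x ∈ l', 0 ≤ x) →
    P.sum + l'.sum + l''.sum + Q.sum = W → 2 * (P.sum + l'.sum) ≤ W → 2 * (Q.sum + l'.sum) ≤ W →
    cav P Q (l' ++ l'') ≤ (W + τ) / 2 := by
  intro l'
  induction l' with
  | nil =>
    intro P Q W _ hW h1 h2
    have := cav_mid τ h0 l'' P [] [] Q W hl'' (by simp) (by simp)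
      (by simp only [List.sum_nil] at hW ⊢; linarith)
      (by simp only [List.sum_nil] at h1; linarith) (by simp only [List.sum_nil] at h2; linarith)
    simpa using this
  | cons x l' ih =>
    intro P Q W h hW h1 h2
    have hx := h x (by simp)
    have hl : ∀ y ∈ l', 0 ≤ y := fun y hy => h y (by simp [hy])
    simp only [List.sum_cons] at hW h1 h2
    have hs : 0 ≤ l'.sum := List.sum_nonneg hl
    have a1 := ih (P ++ [x]) Q W hl
      (by simp only [List.sum_append, List.sum_cons, List.sum_nil]; linarith)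
      (by simp only [List.sum_append, List.sum_cons, List.sum_nil]; linarith) (by linarith)
    have a2 := ih P (x :: Q) W hl (by simp only [List.sum_cons]; linarith) (by linarith)
      (by simp only [List.sum_cons]; linarith)
    rw [List.cons_append]
    unfold cav
    linarith

end CUMaux

open CUMaux in
theorem t_CUM : S_CUM := by
  intro l' l'' τ h0 h1 h2 h3
  exact cav_pre τ h0 l'' h2 l' [] [] (l'.sum + l''.sum) h1 (by simp) (by simp; linarith)
    (by simp; linarith)

end Pool.Agent.SMA
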