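import Pool.Agent.SMA.Stmts

/-!
# DQF: the double-ended rule, feasibility and the cut bound (MP_e25616_lc)
-/

set_option autoImplicit false

namespace Pool.Agent.SMA

open Finset Pool.Agent.BSR

namespace DQFaux

theorem sum_step {n : ℕ} (f : Fin n → ℝ) (hf : ∀ k, 0 ≤ f k) (p q : Fin n → Prop)
    [DecidablePred p] [DecidablePred q] (i : Fin n) (hp : ¬ p i) (hq : q i)
    (hpq : ∀ k, p k → q k) : (∑ k with p k, f k) + f i ≤ ∑ k with q k, f k := by
  have h1 : (∑ k with p k, f k) + f i = ∑ k ∈ insert i (univ.filter p), f k := by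
    rw [sum_insert (by simp [hp]), add_comm]
  rw [h1]
  refine sum_le_sum_of_subset_of_nonneg ?_ (fun k _ _ => hf k)
  intro k hk
  rw [mem_insert, mem_filter] at hk
  rw [mem_filter]
  rcases hk with rfl | hk
  · exact ⟨mem_univ _, hq⟩
  · exact ⟨mem_univ _, hpq k hk.2⟩

theorem sum_step_univ {n : ℕ} (f : Fin n → ℝ) (hf : ∀ k, 0 ≤ f k) (p : Fin n → Prop)
    [DecidablePred p] (i : Fin n) (hp : ¬ p i) : (∑ k with p k, f k) + f i ≤ ∑ k, f k := by
  have h := sum_step f hf p (fun _ => True) i hp trivial (fun _ _ => trivial)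
  rwa [filter_true] at h

section

variable {n : ℕ} {s ρ : Fin n → ℕ} {t : Fin n → ℝ}

theorem nt_nonneg (ht : ∀ j, 0 ≤ t j) (j : Fin n) : 0 ≤ nt s t j := by
  unfold nt
  split_ifs
  · exact ht j
  · exact le_rfl

theorem nt_eq {j : Fin n} (hj : s j = 1) : nt s t j = t j := by
  unfold nt
  rw [if_pos hj]

theorem wt_nonneg (ht : ∀ j, 0 ≤ t j) (j : Fin n) : (0 : ℝ) ≤ if s j = 1 then 0 else t j := by
  split_ifs
  · exact le_rfl
  · exact ht j

theorem wd_nonneg (ht : ∀ j, 0 ≤ t j) : 0 ≤ wd s t :=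
  sum_nonneg fun j _ => wt_nonneg ht j

theorem aj_nonneg (ht : ∀ j, 0 ≤ t j) (j : Fin n) : 0 ≤ aj s ρ t j :=
  sum_nonneg fun i _ => nt_nonneg ht i

theorem bj_nonneg (ht : ∀ j, 0 ≤ t j) (j : Fin n) : 0 ≤ bj s ρ t j :=
  sum_nonneg fun i _ => nt_nonneg ht i

theorem wj_nonneg (ht : ∀ j, 0 ≤ t j) (j : Fin n) : 0 ≤ wj s ρ t j :=
  sum_nonneg fun i _ => wt_nonneg ht i

theorem aj_step (ht : ∀ j, 0 ≤ t j) {i j : Fin n} (h : ρ i < ρ j) :
    aj s ρ t i + nt s t i ≤ aj s ρ t j :=
  sum_step _ (fun k => nt_nonneg ht k) (fun k => ρ k < ρ i) (fun k => ρ k < ρ j) i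
    (lt_irrefl _) h (fun _ hk => hk.trans h)

theorem bj_step (ht : ∀ j, 0 ≤ t j) {i j : Fin n} (h : ρ i < ρ j) :
    bj s ρ t j + nt s t j ≤ bj s ρ t i :=
  sum_step _ (fun k => nt_nonneg ht k) (fun k => ρ j < ρ k) (fun k => ρ i < ρ k) j
    (lt_irrefl _) h (fun _ hk => h.trans hk)

theorem wj_step (ht : ∀ j, 0 ≤ t j) {i j : Fin n} (h : ρ i < ρ j) (hi : s i ≠ 1) :
    wj s ρ t i + t i ≤ wj s ρ t j := by
  have h1 := sum_step _ (fun k => wt_nonneg (s := s) ht k) (fun k => ρ k < ρ i)
    (fun k => ρ k < ρ j) i (lt_irrefl _) h (fun _ hk => hk.trans h)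
  rw [if_neg hi] at h1
  exact h1

theorem wj_le (ht : ∀ j, 0 ≤ t j) {i : Fin n} (hi : s i ≠ 1) :
    wj s ρ t i + t i ≤ wd s t := by
  have h1 := sum_step_univ _ (fun k => wt_nonneg (s := s) ht k) (fun k => ρ k < ρ i)
    i (lt_irrefl _)
  rw [if_neg hi] at h1
  exact h1

theorem start_narrow {j : Fin n} (hj : s j = 1) :
    (dq s ρ t).start j = wd s t + min (aj s ρ t j) (bj s ρ t j) := by
  show (if s j = 1 then _ else _) = _
  rw [if_pos hj]

theorem start_wide {j : Fin n} (hj : s j ≠ 1) : (dq s ρ t).start j = wj s ρ t j := by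
  show (if s j = 1 then _ else _) = _
  rw [if_neg hj]

theorem pos_one {j : Fin n} (hj : s j = 1) (h : bj s ρ t j < aj s ρ t j) :
    (dq s ρ t).pos j = 1 := by
  show (if s j = 1 ∧ bj s ρ t j < aj s ρ t j then _ else _) = _
  rw [if_pos ⟨hj, h⟩]

theorem pos_zero {j : Fin n} (h : ¬ (s j = 1 ∧ bj s ρ t j < aj s ρ t j)) :
    (dq s ρ t).pos j = 0 := by
  show (if s j = 1 ∧ bj s ρ t j < aj s ρ t j then _ else _) = _
  rw [if_neg h]

theorem key (ht : ∀ j, 0 ≤ t j) {i j : Fin n} (hij : ρ i < ρ j) (τ : ℝ)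
    (h1 : (dq s ρ t).start i ≤ τ) (h2 : τ < (dq s ρ t).start i + t i)
    (h3 : (dq s ρ t).start j ≤ τ) (h4 : τ < (dq s ρ t).start j + t j) :
    (dq s ρ t).pos i + s i ≤ (dq s ρ t).pos j ∨ (dq s ρ t).pos j + s j ≤ (dq s ρ t).pos i := by
  by_cases hi : s i = 1
  · by_cases hj : s j = 1
    · rw [start_narrow hi] at h1 h2
      rw [start_narrow hj] at h3 h4
      have ha := aj_step (s := s) (ρ := ρ) ht hij
      have hb := bj_step (s := s) (ρ := ρ) ht hij
      rw [nt_eq hi] at ha
      rw [nt_eq hj] at hb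
      rcases lt_or_ge (bj s ρ t i) (aj s ρ t i) with hbi | hbi
      · rcases lt_or_ge (bj s ρ t j) (aj s ρ t j) with hbj | hbj
        · exfalso
          rw [min_eq_right hbi.le] at h1
          rw [min_eq_right hbj.le] at h4
          linarith
        · right
          rw [pos_zero (fun h => absurd h.2 (not_lt.2 hbj)), pos_one hi hbi, hj]
      · rcases lt_or_ge (bj s ρ t j) (aj s ρ t j) with hbj | hbj
        · left
          rw [pos_zero (fun h => absurd h.2 (not_lt.2 hbi)), pos_one hj hbj, hi]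
        · exfalso
          rw [min_eq_left hbi] at h2
          rw [min_eq_left hbj] at h3
          linarith
    · exfalso
      rw [start_narrow hi] at h1
      rw [start_wide hj] at h4
      have h5 := wj_le (s := s) (ρ := ρ) ht hj
      have h6 : 0 ≤ min (aj s ρ t i) (bj s ρ t i) := le_min (aj_nonneg ht i) (bj_nonneg ht i)
      linarith
  · exfalso
    by_cases hj : s j = 1
    · rw [start_narrow hj] at h3
      rw [start_wide hi] at h2
      have h5 := wj_le (s := s) (ρ := ρ) ht hi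
      have h6 : 0 ≤ min (aj s ρ t j) (bj s ρ t j) := le_min (aj_nonneg ht j) (bj_nonneg ht j)
      linarith
    · rw [start_wide hj] at h3
      rw [start_wide hi] at h2
      have h5 := wj_step (s := s) (ρ := ρ) ht hij hi
      linarith

end

end DQFaux

open DQFaux in
theorem t_DQF : S_DQF := by
  intro n s ρ t hs hρ ht
  refine ⟨⟨?_, ?_, ?_⟩, ?_⟩
  · intro j
    by_cases hj : s j = 1
    · rw [start_narrow hj]
      exact add_nonneg (wd_nonneg ht) (le_min (aj_nonneg ht j) (bj_nonneg ht j))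
    · rw [start_wide hj]
      exact wj_nonneg ht j
  · intro j
    by_cases hj : s j = 1 ∧ bj s ρ t j < aj s ρ t j
    · rw [pos_one hj.1 hj.2, hj.1]
    · rw [pos_zero hj]
      have := (hs j).2
      omega
  · intro i j hij τ h1 h2 h3 h4
    rcases lt_or_gt_of_ne (fun h => hij (hρ h) : ρ i ≠ ρ j) with h | h
    · exact key ht h τ h1 h2 h3 h4
    · exact (key ht h τ h3 h4 h1 h2).symm
  · intro k
    have hA : 0 ≤ ∑ j with ρ j < k, nt s t j := sum_nonneg fun j _ => nt_nonneg ht j
    have hW := wd_nonneg (s := s) ht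
    rcases isEmpty_or_nonempty (Fin n) with he | he
    · have h0 : makespan t (dq s ρ t) = 0 := by
        unfold makespan
        exact Real.iSup_of_isEmpty _
      rw [h0]
      exact add_nonneg hW (hA.trans (le_max_left _ _))
    · unfold makespan
      refine ciSup_le fun j => ?_
      by_cases hj : s j = 1
      · rw [start_narrow hj]
        rcases lt_or_ge (ρ j) k with hk | hk
        · have h1 : aj s ρ t j + nt s t j ≤ ∑ j with ρ j < k, nt s t j :=
            sum_step _ (fun k => nt_nonneg ht k) (fun i => ρ i < ρ j) (fun i => ρ i < k) j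
              (lt_irrefl _) hk (fun _ hi => hi.trans hk)
          rw [nt_eq hj] at h1
          have h2 : min (aj s ρ t j) (bj s ρ t j) ≤ aj s ρ t j := min_le_left _ _
          have h3 := le_max_left (∑ j with ρ j < k, nt s t j) (∑ j with k ≤ ρ j, nt s t j)
          linarith
        · have h1 : bj s ρ t j + nt s t j ≤ ∑ j with k ≤ ρ j, nt s t j :=
            sum_step _ (fun k => nt_nonneg ht k) (fun i => ρ j < ρ i) (fun i => k ≤ ρ i) j
              (lt_irrefl _) hk (fun _ hi => hk.trans hi.le)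
          rw [nt_eq hj] at h1
          have h2 : min (aj s ρ t j) (bj s ρ t j) ≤ bj s ρ t j := min_le_right _ _
          have h3 := le_max_right (∑ j with ρ j < k, nt s t j) (∑ j with k ≤ ρ j, nt s t j)
          linarith
      · rw [start_wide hj]
        have h1 := wj_le (s := s) (ρ := ρ) ht hj
        have h2 := hA.trans (le_max_left (∑ j with ρ j < k, nt s t j)
          (∑ j with k ≤ ρ j, nt s t j))
        linarith

end Pool.Agent.SMA
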