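import Pool.Agent.SMA.Stmts

/-!
# The double-ended rule: non-anticipation
-/

set_option autoImplicit false

namespace Pool.Agent.SMA

open Finset Pool.Agent.BSR

namespace DQNaux

/-- the first difference of two sequences in an order -/
theorem key {n : ℕ} {α : Type} [LinearOrder α] (r : Fin n → α)
    (x x' : Fin n → ℝ) (hx : ∀ i, 0 ≤ x i) (hx' : ∀ i, 0 ≤ x' i) (F : Finset (Fin n))
    (hF : ∀ i ∈ F, ∀ k, r k < r i → k ∈ F) (τ : ℝ)
    (h : ∀ i ∈ F, x' i ≠ x i → τ ≤ (∑ k with r k < r i, x k) + x i ∧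
      τ ≤ (∑ k with r k < r i, x k) + x' i) :
    (∑ i ∈ F, x' i = ∑ i ∈ F, x i) ∨ (τ ≤ ∑ i ∈ F, x i ∧ τ ≤ ∑ i ∈ F, x' i) := by
  classical
  by_cases hne : (F.filter fun i => x' i ≠ x i).Nonempty
  · right
    obtain ⟨i, hi, hmin⟩ := exists_min_image _ r hne
    rw [mem_filter] at hi
    have h0 := h i hi.1 hi.2
    have hlt : ∀ k, r k < r i → x' k = x k := by
      intro k hk
      by_contra hc
      exact absurd hk (not_lt.2 (hmin k (mem_filter.2 ⟨hF i hi.1 k hk, hc⟩)))
    have hsub : ∀ y : Fin n → ℝ, (∀ i, 0 ≤ y i) →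
        (∑ k with r k < r i, y k) + y i ≤ ∑ k ∈ F, y k := by
      intro y hy
      have h2 : i ∉ (univ.filter fun k => r k < r i) := by simp
      rw [add_comm, ← sum_insert h2]
      refine sum_le_sum_of_subset_of_nonneg ?_ (fun k _ _ => hy k)
      intro k hk
      rw [mem_insert] at hk
      rcases hk with rfl | hk
      · exact hi.1
      · exact hF i hi.1 k (mem_filter.1 hk).2
    have heq : (∑ k with r k < r i, x' k) = ∑ k with r k < r i, x k :=
      sum_congr rfl fun k hk => hlt k (mem_filter.1 hk).2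
    refine ⟨h0.1.trans (hsub x hx), ?_⟩
    have h3 := hsub x' hx'
    rw [heq] at h3
    exact h0.2.trans h3
  · left
    refine sum_congr rfl fun i hi => ?_
    by_contra hc
    exact hne ⟨i, mem_filter.2 ⟨hi, hc⟩⟩

theorem fin (W τ a b a' b' : ℝ) (ha : a' = a ∨ (τ - W ≤ a ∧ τ - W ≤ a'))
    (hb : b' = b ∨ (τ - W ≤ b ∧ τ - W ≤ b')) :
    (W + min a b < τ → W + min a' b' = W + min a b ∧ (b' < a' ↔ b < a)) ∧
      (τ ≤ W + min a b → τ ≤ W + min a' b') := by
  refine ⟨fun h => ?_, fun h => ?_⟩
  · rcases ha with ha | ha <;> rcases hb with hb | hb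
    · rw [ha, hb]; exact ⟨rfl, Iff.rfl⟩
    · have h1 : a < τ - W := by
        rcases min_lt_iff.1 (show min a b < τ - W by linarith) with h | h
        · exact h
        · exact absurd hb.1 (not_le.2 h)
      rw [ha, min_eq_left (by linarith [hb.2] : a ≤ b'), min_eq_left (by linarith [hb.1] : a ≤ b)]
      exact ⟨rfl, fun h => absurd hb.2 (not_le.2 (by linarith)),
        fun h => absurd hb.1 (not_le.2 (by linarith))⟩
    · have h1 : b < τ - W := by
        rcases min_lt_iff.1 (show min a b < τ - W by linarith) with h | h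
        · exact absurd ha.1 (not_le.2 h)
        · exact h
      rw [hb, min_eq_right (by linarith [ha.2] : b ≤ a'), min_eq_right (by linarith [ha.1] : b ≤ a)]
      exact ⟨rfl, fun _ => by linarith [ha.1], fun _ => by linarith [ha.2]⟩
    · exact absurd (le_min ha.1 hb.1) (not_le.2 (by linarith))
  · have h1 : τ - W ≤ min a b := by linarith
    have h2 : τ - W ≤ a' := by
      rcases ha with ha | ha
      · rw [ha]; exact (le_min_iff.1 h1).1
      · exact ha.2
    have h3 : τ - W ≤ b' := by
      rcases hb with hb | hb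
      · rw [hb]; exact (le_min_iff.1 h1).2
      · exact hb.2
    linarith [le_min h2 h3]

end DQNaux

theorem t_DQN : S_DQN := by
  intro n s ρ hs hρ t t' ht ht' τ h1 h2 j
  have hW : ∀ (t : Fin n → ℝ) i, s i ≠ 1 → (dq s ρ t).start i = wj s ρ t i := by
    intro t i hi
    simp [dq, hi]
  have hN : ∀ (t : Fin n → ℝ) i, s i = 1 →
      (dq s ρ t).start i = wd s t + min (aj s ρ t i) (bj s ρ t i) := by
    intro t i hi
    simp [dq, hi]
  have hD : ∀ i, t' i ≠ t i → τ ≤ (dq s ρ t).start i + t i ∧ τ ≤ (dq s ρ t).start i + t' i := by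
    intro i hi
    have h3 : τ ≤ (dq s ρ t).start i + t i := by
      by_contra hc
      exact hi (h1 i (not_le.1 hc))
    refine ⟨h3, ?_⟩
    rcases lt_or_ge ((dq s ρ t).start i) τ with h4 | h4
    · exact h2 i h4 h3
    · linarith [ht' i]
  have key1 : ∀ F : Finset (Fin n), (∀ i ∈ F, ∀ k, ρ k < ρ i → k ∈ F) →
      ((∑ i ∈ F, if s i = 1 then 0 else t' i) = (∑ i ∈ F, if s i = 1 then 0 else t i)) ∨
      (τ ≤ (∑ i ∈ F, if s i = 1 then 0 else t i) ∧ τ ≤ (∑ i ∈ F, if s i = 1 then 0 else t' i)) := by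
    intro F hF
    refine DQNaux.key ρ (fun i => if s i = 1 then 0 else t i) (fun i => if s i = 1 then 0 else t' i)
      ?_ ?_ F hF τ ?_
    · intro i; split_ifs; exacts [le_rfl, ht i]
    · intro i; split_ifs; exacts [le_rfl, ht' i]
    · intro i _ hi
      by_cases hsi : s i = 1
      · simp [hsi] at hi
      · simp only [hsi, if_false] at hi ⊢
        have := hD i hi
        rw [hW t i hsi] at this
        exact this
  by_cases hj : s j = 1
  · have ha0 : ∀ (t : Fin n → ℝ), (∀ i, 0 ≤ t i) → 0 ≤ aj s ρ t j ∧ 0 ≤ bj s ρ t j := by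
      intro t ht
      refine ⟨sum_nonneg fun i _ => ?_, sum_nonneg fun i _ => ?_⟩ <;>
      · unfold nt
        split_ifs
        exacts [ht i, le_rfl]
    rcases key1 univ (fun i _ k _ => mem_univ k) with hw | hw
    · -- the same wide jobs
      have hw' : wd s t' = wd s t := hw
      have hdn : ∀ i, nt s t' i ≠ nt s t i →
          τ - wd s t ≤ min (aj s ρ t i) (bj s ρ t i) + nt s t i ∧
          τ - wd s t ≤ min (aj s ρ t i) (bj s ρ t i) + nt s t' i := by
        intro i hi
        by_cases hsi : s i = 1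
        · simp only [nt, hsi, if_true] at hi ⊢
          have := hD i hi
          rw [hN t i hsi] at this
          exact ⟨by linarith [this.1], by linarith [this.2]⟩
        · simp [nt, hsi] at hi
      have hnt : ∀ (t : Fin n → ℝ), (∀ i, 0 ≤ t i) → ∀ i, 0 ≤ nt s t i := by
        intro t ht i
        unfold nt
        split_ifs
        exacts [ht i, le_rfl]
      have hka := DQNaux.key ρ (nt s t) (nt s t') (hnt t ht) (hnt t' ht')
        (univ.filter fun i => ρ i < ρ j)
        (fun i hi k hk => mem_filter.2 ⟨mem_univ k, hk.trans (mem_filter.1 hi).2⟩) (τ - wd s t)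
        (by
          intro i _ hi
          have h3 := hdn i hi
          have h4 : min (aj s ρ t i) (bj s ρ t i) ≤ ∑ k with ρ k < ρ i, nt s t k := min_le_left _ _
          exact ⟨by linarith [h3.1], by linarith [h3.2]⟩)
      have hkb := DQNaux.key (fun i => OrderDual.toDual (ρ i)) (nt s t) (nt s t') (hnt t ht) (hnt t' ht')
        (univ.filter fun i => ρ j < ρ i)
        (fun i hi k hk => mem_filter.2 ⟨mem_univ k,
          (mem_filter.1 hi).2.trans (OrderDual.toDual_lt_toDual.1 hk)⟩) (τ - wd s t)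
        (by
          intro i _ hi
          have h3 := hdn i hi
          have h4 : min (aj s ρ t i) (bj s ρ t i) ≤
              ∑ k with OrderDual.toDual (ρ k) < OrderDual.toDual (ρ i), nt s t k := by
            refine (min_le_right _ _).trans (le_of_eq ?_)
            unfold bj
            refine sum_congr ?_ fun _ _ => rfl
            ext k
            simp
          exact ⟨by linarith [h3.1], by linarith [h3.2]⟩)
      have h5 := DQNaux.fin (wd s t) τ (aj s ρ t j) (bj s ρ t j) (aj s ρ t' j) (bj s ρ t' j) hka hkb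
      rw [hN t j hj, hN t' j hj, hw']
      refine ⟨fun h => ⟨(h5.1 h).1, ?_⟩, h5.2⟩
      simp only [dq, hj, true_and, (h5.1 h).2]
    · rw [hN t j hj, hN t' j hj]
      have e1 : τ ≤ wd s t := hw.1
      have e2 : τ ≤ wd s t' := hw.2
      have g1 := le_min (ha0 t ht).1 (ha0 t ht).2
      have g2 := le_min (ha0 t' ht').1 (ha0 t' ht').2
      exact ⟨fun h => absurd h (not_lt.2 (by linarith)), fun _ => by linarith⟩
  · rw [hW t j hj, hW t' j hj]
    have hp : ∀ t : Fin n → ℝ, (dq s ρ t).pos j = 0 := by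
      intro t
      simp [dq, hj]
    rw [hp t, hp t']
    rcases key1 (univ.filter fun i => ρ i < ρ j)
      (fun i hi k hk => mem_filter.2 ⟨mem_univ k, hk.trans (mem_filter.1 hi).2⟩) with hw | hw
    · have hw' : wj s ρ t' j = wj s ρ t j := hw
      rw [hw']
      exact ⟨fun _ => ⟨rfl, rfl⟩, fun h => h⟩
    · exact ⟨fun h => absurd hw.1 (not_le.2 h), fun _ => hw.2⟩

end Pool.Agent.SMA
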