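import Pool.Agent.BSR.ARE

/-!
# Non-clairvoyant scheduling on small linear arrays (MP_e25616_lc): definitions
-/

set_option autoImplicit false

namespace Pool.Agent.SMA

open Finset Pool.Agent.BSR

/-! ### The competitive ratios -/

/-- For all requests there is a deterministic batch-style online algorithm on `m` machines whose makespan is at
most `c * OPT` for all running times. -/
def DetOK (m : ℕ) (c : ℝ) : Prop :=
  ∀ (n : ℕ) (s : Fin n → ℕ), (∀ j, 1 ≤ s j ∧ s j ≤ m) →
    ∃ A : Rule m s, ∀ t : Fin n → ℝ, (∀ j, 0 ≤ t j) → makespan t (A.run t) ≤ c * OPT m s t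

/-- For all requests there is a randomised batch-style online algorithm on `m` machines whose expected makespan
is at most `c * OPT` for all running times. -/
def RandOK (m : ℕ) (c : ℝ) : Prop :=
  ∀ (n : ℕ) (s : Fin n → ℕ), (∀ j, 1 ≤ s j ∧ s j ≤ m) → Good m s c

/-- the condition of non-anticipation of a rule, for a family of schedules -/
def NonAnt {n : ℕ} (run : (Fin n → ℝ) → Schedule n) : Prop :=
  ∀ t t' : Fin n → ℝ, (∀ j, 0 ≤ t j) → (∀ j, 0 ≤ t' j) → ∀ τ : ℝ,
    (∀ j, (run t).start j + t j < τ → t' j = t j) →
    (∀ j, (run t).start j < τ → τ ≤ (run t).start j + t j → τ ≤ (run t).start j + t' j) →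
    ∀ j, ((run t).start j < τ →
            (run t').start j = (run t).start j ∧ (run t').pos j = (run t).pos j) ∧
         (τ ≤ (run t).start j → τ ≤ (run t').start j)

/-! ### Two machines, the randomised algorithm -/

/-- the total running time of the wide jobs (requests `2`) -/
noncomputable def wd {n : ℕ} (s : Fin n → ℕ) (t : Fin n → ℝ) : ℝ := ∑ j, if s j = 1 then 0 else t j

/-- the running times of the narrow jobs -/
noncomputable def nt {n : ℕ} (s : Fin n → ℕ) (t : Fin n → ℝ) (j : Fin n) : ℝ := if s j = 1 then t j else 0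

/-- the narrow jobs before `j` in the order given by `ρ` -/
noncomputable def aj {n : ℕ} (s : Fin n → ℕ) (ρ : Fin n → ℕ) (t : Fin n → ℝ) (j : Fin n) : ℝ :=
  ∑ i with ρ i < ρ j, nt s t i

/-- the narrow jobs after `j` -/
noncomputable def bj {n : ℕ} (s : Fin n → ℕ) (ρ : Fin n → ℕ) (t : Fin n → ℝ) (j : Fin n) : ℝ :=
  ∑ i with ρ j < ρ i, nt s t i

/-- the wide jobs before `j` -/
noncomputable def wj {n : ℕ} (s : Fin n → ℕ) (ρ : Fin n → ℕ) (t : Fin n → ℝ) (j : Fin n) : ℝ :=
  ∑ i with ρ i < ρ j, if s i = 1 then 0 else t i

/-- the double-ended rule: first the wide jobs; then machine `0` takes the narrow jobs from one end of the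
order, and machine `1` from the other end -/
noncomputable def dq {n : ℕ} (s : Fin n → ℕ) (ρ : Fin n → ℕ) (t : Fin n → ℝ) : Schedule n where
  start j := if s j = 1 then wd s t + min (aj s ρ t j) (bj s ρ t j) else wj s ρ t j
  pos j := if s j = 1 ∧ bj s ρ t j < aj s ρ t j then 1 else 0

/-- the smallest value of a cut of the list, the value is the larger one of the sums of the two parts -/
noncomputable def mc (l : List ℝ) : ℝ :=
  ⨅ i : Fin (l.length + 1), max (l.take i).sum (l.drop i).sum

/-- the average of `mc` if the elements of the third list are added one after the other, fair coins decide on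
which side of the middle -/
noncomputable def cav : List ℝ → List ℝ → List ℝ → ℝ
  | P, Q, [] => mc (P ++ Q)
  | P, Q, x :: l => (cav (P ++ [x]) Q l + cav P (x :: Q) l) / 2

/-- the average of `f` at the sum of a random subset of the list (all subsets with the same probability) -/
noncomputable def av : List ℝ → (ℝ → ℝ) → ℝ
  | [], f => f 0
  | x :: l, f => (av l f + av l fun y => f (x + y)) / 2

/-- the average of `(u - y)⁺` at the sum `y` of a random subset of the list -/
noncomputable def KK (l : List ℝ) (u : ℝ) : ℝ := av l fun y => max (u - y) 0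

/-- the order of the jobs: first the jobs with `φ j` in increasing order, then the others in decreasing order -/
def arr {n : ℕ} (φ : Fin n → Bool) : List (Fin n) :=
  ((List.finRange n).filter fun j => φ j) ++ ((List.finRange n).filter fun j => !φ j).reverse

/-! ### List scheduling on `M + 1` channels -/

/-- there is a first channel with the smallest load -/
theorem exists_aml {M : ℕ} (f : Fin (M + 1) → ℝ) :
    ∃ u, (∀ v, f u ≤ f v) ∧ ∀ v, v < u → f u < f v := by
  classical
  have h0 : (univ : Finset (Fin (M + 1))).Nonempty := univ_nonempty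
  obtain ⟨w, _, hw⟩ := exists_min_image univ f h0
  have h1 : (univ.filter fun u => ∀ v, f u ≤ f v).Nonempty :=
    ⟨w, by simpa using fun v => hw v (mem_univ v)⟩
  refine ⟨(univ.filter fun u => ∀ v, f u ≤ f v).min' h1, ?_, fun v hv => ?_⟩
  · have := (univ.filter fun u => ∀ v, f u ≤ f v).min'_mem h1
    simpa using this
  · have h2 := (univ.filter fun u => ∀ v, f u ≤ f v).min'_mem h1
    rw [mem_filter] at h2
    by_contra h3
    have h4 : v ∈ univ.filter fun u => ∀ v, f u ≤ f v := by
      rw [mem_filter]
      exact ⟨mem_univ v, fun x => (not_lt.1 h3).trans (h2.2 x)⟩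
    exact absurd hv (not_lt.2 (min'_le _ v h4))

/-- the first channel with the smallest load -/
noncomputable def aml {M : ℕ} (f : Fin (M + 1) → ℝ) : Fin (M + 1) := Classical.choose (exists_aml f)

/-- the smallest load -/
noncomputable def mnl {M : ℕ} (f : Fin (M + 1) → ℝ) : ℝ := f (aml f)

theorem mnl_le {M : ℕ} (f : Fin (M + 1) → ℝ) (v : Fin (M + 1)) : mnl f ≤ f v :=
  (Classical.choose_spec (exists_aml f)).1 v

theorem mnl_lt {M : ℕ} (f : Fin (M + 1) → ℝ) (v : Fin (M + 1)) (h : v < aml f) : mnl f < f v :=
  (Classical.choose_spec (exists_aml f)).2 v h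

theorem aml_eq {M : ℕ} (f : Fin (M + 1) → ℝ) (u : Fin (M + 1)) (h1 : ∀ v, f u ≤ f v)
    (h2 : ∀ v, v < u → f u < f v) : aml f = u := by
  rcases lt_trichotomy (aml f) u with h | h | h
  · exact absurd (h2 _ h) (not_lt.2 (mnl_le f u))
  · exact h
  · exact absurd (mnl_lt f u h) (not_lt.2 (h1 _))

open Classical in
/-- the loads of the channels before the job `j`, if the jobs with `P` are scheduled one after the other, each on
the first channel with the smallest load; `f` are the initial loads, `x` the running times -/
noncomputable def ll {M : ℕ} (P : ℕ → Prop) (x : ℕ → ℝ) (f : Fin (M + 1) → ℝ) : ℕ → Fin (M + 1) → ℝ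
  | 0 => f
  | j + 1 => if P j then
      Function.update (ll P x f j) (aml (ll P x f j)) (mnl (ll P x f j) + x j)
    else ll P x f j

/-- the start of the job `j` -/
noncomputable def sl {M : ℕ} (P : ℕ → Prop) (x : ℕ → ℝ) (f : Fin (M + 1) → ℝ) (j : ℕ) : ℝ :=
  mnl (ll P x f j)

/-- the channel of the job `j` -/
noncomputable def cl {M : ℕ} (P : ℕ → Prop) (x : ℕ → ℝ) (f : Fin (M + 1) → ℝ) (j : ℕ) : Fin (M + 1) :=
  aml (ll P x f j)

open Classical in
/-- the sum of the running times of the jobs `i < j` with `P` -/
noncomputable def ps (P : ℕ → Prop) (x : ℕ → ℝ) (j : ℕ) : ℝ := ∑ i ∈ range j, if P i then x i else 0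

/-- the running times, extended by `0` -/
noncomputable def ex {n : ℕ} (t : Fin n → ℝ) (j : ℕ) : ℝ := if h : j < n then t ⟨j, h⟩ else 0

/-- the jobs with the request `w` -/
def cw {n : ℕ} (s : Fin n → ℕ) (w j : ℕ) : Prop := ∃ h : j < n, s ⟨j, h⟩ = w

/-- the total running time of the jobs with the request `w` -/
noncomputable def tw {n : ℕ} (s : Fin n → ℕ) (t : Fin n → ℝ) (w : ℕ) : ℝ := ∑ j with s j = w, t j

/-! ### Three machines -/

/-- the initial loads of the machines for the jobs with the request `1`, `m = M + 1 ≤ 3` -/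
noncomputable def f3 {n : ℕ} (M : ℕ) (s : Fin n → ℕ) (t : Fin n → ℝ) (p : Fin (M + 1)) : ℝ :=
  if p.val = 2 then tw s t 3 else tw s t 3 + tw s t 2

/-- the rule for at most three machines: first the jobs with the request `3`, then those with `2` on the machines
`0`, `1`, the others by list scheduling -/
noncomputable def r3 {n : ℕ} (M : ℕ) (s : Fin n → ℕ) (t : Fin n → ℝ) : Schedule n where
  start j :=
    if s j = 1 then sl (cw s 1) (ex t) (f3 M s t) j
    else if s j = 2 then sl (M := 0) (cw s 2) (ex t) (fun _ => tw s t 3) j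
    else sl (M := 0) (cw s 3) (ex t) (fun _ => 0) j
  pos j := if s j = 1 then (cl (cw s 1) (ex t) (f3 M s t) j : ℕ) else 0

/-! ### Four machines -/

/-- the initial loads of the machines `3, 2, 1, 0` for the jobs with the request `1` -/
noncomputable def f4 {n : ℕ} (s : Fin n → ℕ) (t : Fin n → ℝ) (c : Fin (3 + 1)) : ℝ :=
  if c.val = 0 then tw s t 4
  else if c.val = 1 then tw s t 4 + tw s t 3
  else tw s t 4 + tw s t 3 + tw s t 2

/-- the time when the machines `2`, `3` are free of jobs with the requests `4`, `3`, `1` -/
noncomputable def yy {n : ℕ} (s : Fin n → ℕ) (t : Fin n → ℝ) : ℝ :=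
  max (ll (cw s 1) (ex t) (f4 s t) n 0) (ll (cw s 1) (ex t) (f4 s t) n 1)

/-- the initial loads of the pairs `{0, 1}`, `{2, 3}` of machines for the jobs with the request `2` -/
noncomputable def g4 {n : ℕ} (s : Fin n → ℕ) (t : Fin n → ℝ) (c : Fin (1 + 1)) : ℝ :=
  if c.val = 0 then tw s t 4 + tw s t 3 else yy s t

/-- the rule for four machines: first the jobs with the request `4`; then those with `3` on the machines
`0, 1, 2`; then those with `2` one after the other on the machines `0`, `1`, at the same time those with `1` on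
the machines `2`, `3`; the class which is finished first lets its machines to the other one -/
noncomputable def r4 {n : ℕ} (s : Fin n → ℕ) (t : Fin n → ℝ) : Schedule n where
  start j :=
    if s j = 1 then sl (cw s 1) (ex t) (f4 s t) j
    else if s j = 2 then sl (cw s 2) (ex t) (g4 s t) j
    else if s j = 3 then sl (M := 0) (cw s 3) (ex t) (fun _ => tw s t 4) j
    else sl (M := 0) (cw s 4) (ex t) (fun _ => 0) j
  pos j :=
    if s j = 1 then 3 - (cl (cw s 1) (ex t) (f4 s t) j : ℕ)
    else if s j = 2 then 2 * (cl (cw s 2) (ex t) (g4 s t) j : ℕ)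
    else 0

/-! ### The lower bound for randomised algorithms -/

/-- the instance with one job `k` with the running time `1`, the others have the running time `1 / (n - 1)` -/
noncomputable def tk (n : ℕ) (k j : Fin n) : ℝ := if j = k then 1 else 1 / ((n : ℝ) - 1)

end Pool.Agent.SMA
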