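import Pool.Agent.SMA.Defs

/-!
# Non-clairvoyant scheduling on small linear arrays (MP_e25616_lc): definitions, part B

The adversary for `m ≥ 5` machines. A configuration is a list of pairs `(position, width)`.
-/

set_option autoImplicit false

namespace Pool.Agent.SMA

open Finset Pool.Agent.BSR MeasureTheory

/-- A randomised algorithm in the general sense: a probability space and a rule for every outcome, the makespans are
integrable. -/
def RandGen (m : ℕ) (c : ℝ) : Prop :=
  ∀ (n : ℕ) (s : Fin n → ℕ), (∀ j, 1 ≤ s j ∧ s j ≤ m) →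
    ∃ (Ω : Type) (_ : MeasurableSpace Ω) (P : Measure Ω) (_ : IsProbabilityMeasure P) (A : Ω → Rule m s),
      ∀ t : Fin n → ℝ, (∀ j, 0 ≤ t j) → Integrable (fun ω => makespan t ((A ω).run t)) P ∧
        ∫ ω, makespan t ((A ω).run t) ∂P ≤ c * OPT m s t

/-! ### Configurations -/

/-- the segments of the composition `l`, from `p` on -/
def segs : ℕ → List ℕ → List (ℕ × ℕ)
  | _, [] => []
  | p, w :: l => (p, w) :: segs (p + w) l

/-- the number of segments of the length `s` that fit in the gaps of `F` in `[p, m)` -/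
def cap (m s : ℕ) : ℕ → List (ℕ × ℕ) → ℕ
  | p, [] => (m - p) / s
  | p, x :: F => (x.1 - p) / s + cap m s (x.1 + x.2) F

/-- the sum of the widths -/
def wsum : List (ℕ × ℕ) → ℕ
  | [] => 0
  | x :: F => x.2 + wsum F

/-- the number of segments of the width `s` -/
def cnt (s : ℕ) : List (ℕ × ℕ) → ℕ
  | [] => 0
  | x :: F => (if x.2 = s then 1 else 0) + cnt s F

/-- `k` jobs of the width `s` and the running jobs `F` need at most `m` machines, but the `k` jobs do not fit in
the gaps of `F`; `r s` is the number of jobs of the width `s` which are not killed -/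
def Dg (m : ℕ) (F : List (ℕ × ℕ)) (r : ℕ → ℕ) : Prop :=
  ∃ s k : ℕ, 2 ≤ s ∧ s < m ∧ k + cnt s F ≤ r s ∧ k * s + wsum F ≤ m ∧ cap m s 0 F < k

/-- the adversary wins, if the jobs `F` are running, with at most `K` rounds: whenever all machines are busy (the
configuration `segs 0 c`) he may kill some of the running jobs -/
def Wn (m : ℕ) : ℕ → List (ℕ × ℕ) → (ℕ → ℕ) → Prop
  | 0, F, r => Dg m F r
  | K + 1, F, r => Dg m F r ∨ ∀ c : List ℕ, c.sum = m → (∀ w ∈ c, 1 ≤ w) → (∀ x ∈ F, x ∈ segs 0 c) →
      (∀ s, 2 ≤ s → cnt s (segs 0 c) ≤ r s) →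
      ∃ F' : List (ℕ × ℕ), F'.Sublist (segs 0 c) ∧
        Wn m K F' fun s => r s + cnt s F' - cnt s (segs 0 c)

/-! ### The check by computation -/

/-- all compositions of `n` with parts in `W` -/
def comps (W : List ℕ) : ℕ → ℕ → List (List ℕ)
  | 0, n => if n = 0 then [[]] else []
  | f + 1, n => if n = 0 then [[]] else
      W.flatMap fun w => if w ≤ n then (comps W f (n - w)).map fun l => w :: l else []

/-- the check of `Dg` -/
def dgB (m : ℕ) (W : List ℕ) (F : List (ℕ × ℕ)) (r : ℕ → ℕ) : Bool :=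
  W.any fun s => Nat.ble 2 s && Nat.ble (s + 1) m && Nat.ble ((cap m s 0 F + 1) * s + wsum F) m &&
    Nat.ble (cap m s 0 F + 1 + cnt s F) (r s)

/-- the check of membership -/
def memB (x : ℕ × ℕ) : List (ℕ × ℕ) → Bool
  | [] => false
  | y :: l => (Nat.beq x.1 y.1 && Nat.beq x.2 y.2) || memB x l

/-- all sublists -/
def subs : List (ℕ × ℕ) → List (List (ℕ × ℕ))
  | [] => [[]]
  | x :: l => (subs l).flatMap fun a => [a, x :: a]

/-- the check of `Wn`, `cs` is the list of the full configurations -/
def winB (m : ℕ) (W : List ℕ) (cs : List (List (ℕ × ℕ))) : ℕ → List (ℕ × ℕ) → (ℕ → ℕ) → Bool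
  | 0, F, r => dgB m W F r
  | K + 1, F, r => dgB m W F r || cs.all fun c =>
      !(F.all fun x => memB x c) || !(W.all fun s => Nat.ble s 1 || Nat.ble (cnt s c) (r s)) ||
        ((subs c).any fun F' => dgB m W F' fun s => r s + cnt s F' - cnt s c) ||
        (subs c).any fun F' => winB m W cs K F' fun s => r s + cnt s F' - cnt s c

/-- the numbers of the jobs, as a list -/
def rr (l : List ℕ) (s : ℕ) : ℕ := l.getD s 0

/-- the check -/
def go (m : ℕ) (W : List ℕ) (K : ℕ) (r : List ℕ) : Bool :=
  winB m W ((comps W m m).map (segs 0)) K [] (rr r)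

/-! ### The stages of the game -/

/-- the amount of the job `j` that is processed before the time `x` -/
noncomputable def pj {n : ℕ} (t : Fin n → ℝ) (σ : Schedule n) (x : ℝ) (j : Fin n) : ℝ :=
  min (max (x - σ.start j) 0) (t j)

open Classical in
/-- the width of the set of the jobs which are running at the time `θ` -/
noncomputable def wr {n : ℕ} (s : Fin n → ℕ) (t : Fin n → ℝ) (σ : Schedule n) (θ : ℝ) : ℕ :=
  ∑ j with σ.start j ≤ θ ∧ θ < σ.start j + t j, s j

/-- A stage of the game, at the time `τ`, after `i` rounds: the jobs of `D` are killed and completed, all other jobs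
have the running time `1`; `F` is the list of the other jobs which are started before `τ`, in the order of the positions; `r w` is the
number of the jobs of the width `w` which are not killed; at most `(m - 1) τ + i η` of work is done before `τ`. -/
structure Stg (m : ℕ) {n : ℕ} (s : Fin n → ℕ) (A : Rule m s) (i : ℕ) (η τ : ℝ) (t : Fin n → ℝ)
    (D : Finset (Fin n)) (F : List (ℕ × ℕ)) (r : ℕ → ℕ) : Prop where
  tau : 0 ≤ τ
  nonneg : ∀ j, 0 ≤ t j
  killed : ∀ j ∈ D, (A.run t).start j + t j ≤ τ
  live : ∀ j, j ∉ D → t j = 1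
  few : D.card ≤ m * i
  srt : F.Pairwise fun x y => x.1 + x.2 ≤ y.1
  mem : ∀ x : ℕ × ℕ, x ∈ F ↔
    ∃ j, j ∉ D ∧ (A.run t).start j < τ ∧ (A.run t).pos j = x.1 ∧ s j = x.2
  num : ∀ w, 2 ≤ w → (univ.filter fun j => j ∉ D ∧ s j = w).card = r w
  work : ∑ j, (s j : ℝ) * pj t (A.run t) τ j ≤ ((m : ℝ) - 1) * τ + i * η

/-- non-anticipation, in a convenient form -/
theorem run_agree {m n : ℕ} {s : Fin n → ℕ} (A : Rule m s) (t t' : Fin n → ℝ) (ht : ∀ j, 0 ≤ t j)
    (ht' : ∀ j, 0 ≤ t' j) (τ : ℝ)
    (h : ∀ j, (A.run t).start j < τ →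
      t' j = t j ∨ (τ ≤ (A.run t).start j + t j ∧ τ ≤ (A.run t).start j + t' j)) (j : Fin n) :
    ((A.run t).start j < τ → (A.run t').start j = (A.run t).start j ∧ (A.run t').pos j = (A.run t).pos j) ∧
      (τ ≤ (A.run t).start j → τ ≤ (A.run t').start j) := by
  refine A.nonanticipating t t' ht ht' τ (fun i hi => ?_) (fun i hi hi' => ?_) j
  · rcases h i (by linarith [ht i]) with h1 | h1
    · exact h1
    · linarith [h1.1]
  · rcases h i hi with h1 | h1
    · rw [h1]; exact hi'
    · exact h1.2

end Pool.Agent.SMA
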