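import Pool.Agent.SMA.Stmts

/-!
# `LGB`: the convexity bound for the average of the positive part
-/

set_option autoImplicit false

namespace Pool.Agent.SMA

open Finset Pool.Agent.BSR

namespace LGBaux

theorem avAdd (l : List ℝ) : ∀ f g : ℝ → ℝ, av l (fun y => f y + g y) = av l f + av l g := by
  induction l with
  | nil => intro f g; simp [av]
  | cons x l ih =>
    intro f g
    simp only [av]
    rw [ih f g, ih (fun y => f (x + y)) (fun y => g (x + y))]
    ring

theorem avMono (l : List ℝ) (hl : ∀ x ∈ l, 0 ≤ x) :
    ∀ f g : ℝ → ℝ, (∀ y, 0 ≤ y → f y ≤ g y) → av l f ≤ av l g := by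
  induction l with
  | nil => intro f g h; simpa [av] using h 0 le_rfl
  | cons x l ih =>
    intro f g h
    have hx : 0 ≤ x := hl x (by simp)
    have hl' : ∀ y ∈ l, 0 ≤ y := fun y hy => hl y (by simp [hy])
    simp only [av]
    have h1 := ih hl' f g h
    have h2 := ih hl' (fun y => f (x + y)) (fun y => g (x + y))
      (fun y hy => h _ (by linarith))
    linarith

theorem avZero (l : List ℝ) : av l (fun _ => 0) = 0 := by
  induction l with
  | nil => simp [av]
  | cons x l ih => simp only [av]; rw [ih]; norm_num

theorem main (L u : ℝ) (hL : 0 < L) (hu : 0 ≤ u) (huL : u ≤ L) (l : List ℝ) :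
    (∀ x ∈ l, 0 ≤ x ∧ x ≤ L) → ∀ (c r : ℝ) (k : ℕ), 0 ≤ c → c ≤ L → 0 ≤ r → r ≤ L →
      k * L + r ≤ c + l.sum →
      av (c :: l) (fun y => max (u - y) 0) ≤ (u + max (u - r) 0) / 2 / 2 ^ k := by
  induction l with
  | nil =>
    intro _ c r k hc hcL hr hrL hk
    simp only [av, List.sum_nil, add_zero, sub_zero] at hk ⊢
    rw [max_eq_left hu]
    rcases k with _ | _ | k
    · simp only [Nat.cast_zero, zero_mul, zero_add] at hk
      have : max (u - c) 0 ≤ max (u - r) 0 := max_le_max (by linarith) le_rfl
      simp only [pow_zero, div_one]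
      linarith
    · simp only [zero_add, Nat.cast_one, one_mul] at hk
      have h1 : r = 0 := by linarith
      have h2 : c = L := by linarith
      subst h1
      subst h2
      rw [max_eq_right (by linarith : u - c ≤ 0), sub_zero, max_eq_left hu]
      norm_num
    · exfalso
      push_cast at hk
      have : 0 ≤ (k : ℝ) * L := by positivity
      nlinarith
  | cons x l ih =>
    intro hl c r k hc hcL hr hrL hk
    have hx := hl x (by simp)
    have hl' : ∀ y ∈ l, 0 ≤ y ∧ y ≤ L := fun y hy => hl y (by simp [hy])
    have hl0 : ∀ y ∈ l, 0 ≤ y := fun y hy => (hl' y hy).1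
    have hs0 : 0 ≤ l.sum := List.sum_nonneg hl0
    rw [List.sum_cons] at hk
    have e1 : av (c :: x :: l) (fun y => max (u - y) 0) =
        (av l (fun y => max (u - y) 0) + av l (fun y => max (u - (x + y)) 0) +
          (av l (fun y => max (u - (c + y)) 0) + av l (fun y => max (u - (c + (x + y))) 0))) / 4 := by
      simp only [av]
      ring
    by_cases hcx : c + x ≤ L
    · have h1 := ih hl' (c + x) r k (by linarith [hx.1]) hcx hr hrL (by linarith)
      refine le_trans ?_ h1
      rw [e1]
      simp only [av]
      have h2 : av l (fun y => max (u - (x + y)) 0) + av l (fun y => max (u - (c + y)) 0) ≤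
          av l (fun y => max (u - y) 0) + av l (fun y => max (u - (c + x + y)) 0) := by
        rw [← avAdd, ← avAdd]
        refine avMono l hl0 _ _ fun y hy => ?_
        rcases max_cases (u - (x + y)) 0 with h | h <;> rcases max_cases (u - (c + y)) 0 with h' | h' <;>
          rcases max_cases (u - y) 0 with h'' | h'' <;>
          rcases max_cases (u - (c + x + y)) 0 with h3 | h3 <;> linarith [hx.1]
      have h3 : (fun y => max (u - (c + (x + y))) 0) = fun y => max (u - (c + x + y)) 0 := by
        funext y
        rw [add_assoc]
      rw [h3]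
      linarith
    · push Not at hcx
      set d := c + x - L with hd
      have hd0 : 0 ≤ d := by linarith
      have hdL : d ≤ L := by linarith [hx.2]
      have h2 : av (c :: x :: l) (fun y => max (u - y) 0) ≤
          av (d :: l) (fun y => max (u - y) 0) / 2 := by
        rw [e1]
        simp only [av]
        have h2 : av l (fun y => max (u - (x + y)) 0) + av l (fun y => max (u - (c + y)) 0) ≤
            av l (fun y => max (u - (d + y)) 0) := by
          rw [← avAdd]
          refine avMono l hl0 _ _ fun y hy => ?_
          rcases max_cases (u - (x + y)) 0 with h | h <;>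
            rcases max_cases (u - (c + y)) 0 with h' | h' <;>
            rcases max_cases (u - (d + y)) 0 with h'' | h'' <;> linarith [hx.1, hx.2]
        have h3 : av l (fun y => max (u - (c + (x + y))) 0) ≤ 0 := by
          refine le_trans ?_ (le_of_eq (avZero l))
          refine avMono l hl0 _ _ fun y hy => ?_
          exact max_le (by linarith) le_rfl
        linarith
      refine h2.trans ?_
      rcases k with _ | k
      · have h1 := ih hl' d 0 0 hd0 hdL le_rfl hL.le (by simp; linarith)
        simp only [pow_zero, div_one, sub_zero] at h1 ⊢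
        rw [max_eq_left hu] at h1
        have : 0 ≤ max (u - r) 0 := le_max_right _ _
        linarith
      · push_cast at hk
        have h1 := ih hl' d r k hd0 hdL hr hrL (by linarith)
        rw [pow_succ]
        have : (u + max (u - r) 0) / 2 / (2 ^ k * 2) = (u + max (u - r) 0) / 2 / 2 ^ k / 2 := by
          rw [div_div _ ((2 : ℝ) ^ k) 2]
        rw [this]
        linarith

end LGBaux

theorem t_LGB : S_LGB := by
  intro L u r k l hl hu huL hr hrL hk
  unfold KK
  have hl0 : ∀ y ∈ l, 0 ≤ y := fun y hy => (hl y hy).1
  rcases (hu.trans huL).lt_or_eq with hL | hL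
  · have h := LGBaux.main L u hL hu huL l hl 0 r k le_rfl hL.le hr hrL (by linarith)
    have e : av (0 :: l) (fun y => max (u - y) 0) = av l (fun y => max (u - y) 0) := by
      simp only [av, zero_add]
      ring
    rwa [e] at h
  · have h1 : av l (fun y => max (u - y) 0) ≤ 0 := by
      refine le_trans ?_ (le_of_eq (LGBaux.avZero l))
      refine LGBaux.avMono l hl0 _ _ fun y hy => ?_
      exact max_le (by linarith) le_rfl
    have h2 : 0 ≤ max (u - r) 0 := le_max_right _ _
    refine h1.trans ?_
    positivity

end Pool.Agent.SMA
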