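import Mathlib
import Pool.Agent.SMA.Stmts

/-!
# MID: the average of the best cut, one long job (MP_e25616_lc)
-/

set_option autoImplicit false

namespace Pool.Agent.SMA

open Finset Pool.Agent.BSR

namespace MIDaux

/-- the bound of `S_CUB` for the list and the reversed list -/
theorem cub (hAVB : S_AVB) (hCUB : S_CUB) (M L : ℝ) (l₁ l₂ : List ℝ)
    (hs : l₁.sum + l₂.sum = M + L) :
    cav [] [] (l₁ ++ (M - L) :: l₂) ≤ av l₁ (fun y => min (M + |y - L|) (M + |y - M|)) ∧
    cav [] [] (l₁ ++ (M - L) :: l₂).reverse ≤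
      av l₂ (fun y => min (M + |y - L|) (M + |y - M|)) := by
  obtain ⟨hmono, -, -, -, hperm, -, -⟩ := hAVB
  have key : ∀ l l' : List ℝ, l.sum + l'.sum = M + L →
      cav [] [] (l ++ (M - L) :: l') ≤ av l (fun y => min (M + |y - L|) (M + |y - M|)) := by
    intro l l' h
    refine (hCUB l l' (M - L)).trans (le_of_eq ?_)
    congr 1
    funext y
    congr 1
    · rw [h]
      rcases le_total y L with h1 | h1
      · rw [abs_of_nonpos (by linarith), max_eq_right (by linarith)]
        ring
      · rw [abs_of_nonneg (by linarith), max_eq_left (by linarith)]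
        ring
    · have h2 : l.sum + (M - L) + l'.sum - y = 2 * M - y := by linarith
      rw [h2]
      rcases le_total y M with h1 | h1
      · rw [abs_of_nonpos (by linarith), max_eq_right (by linarith)]
        ring
      · rw [abs_of_nonneg (by linarith), max_eq_left (by linarith)]
        ring
  refine ⟨key l₁ l₂ hs, ?_⟩
  have h1 : (l₁ ++ (M - L) :: l₂).reverse = l₂.reverse ++ (M - L) :: l₁.reverse := by
    simp
  rw [h1]
  refine (key l₂.reverse l₁.reverse ?_).trans (le_of_eq ?_)
  · rw [List.sum_reverse, List.sum_reverse]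
    linarith
  · exact hperm _ _ _ (List.reverse_perm l₂)

theorem exists_max_entry : ∀ l : List ℝ, l ≠ [] → ∃ τ ∈ l, ∀ x ∈ l, x ≤ τ
  | [], h => absurd rfl h
  | [a], _ => ⟨a, by simp, by simp⟩
  | a :: b :: l, _ => by
    obtain ⟨τ, h1, h2⟩ := exists_max_entry (b :: l) (by simp)
    rcases le_total a τ with h | h
    · refine ⟨τ, List.mem_cons_of_mem _ h1, ?_⟩
      intro x hx
      rcases List.mem_cons.1 hx with rfl | hx
      · exact h
      · exact h2 x hx
    · refine ⟨a, by simp, ?_⟩
      intro x hx
      rcases List.mem_cons.1 hx with rfl | hx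
      · exact le_rfl
      · exact (h2 x hx).trans h

/-- the case of a small first part -/
theorem two (hAVB : S_AVB) (hNIB : S_NIB) (hCUB : S_CUB) (hCUM : S_CUM) (M L : ℝ)
    (l₁ l₂ : List ℝ) (hL : 0 ≤ L) (hLM : 2 * L ≤ M) (hx : ∀ x ∈ l₁ ++ l₂, 0 ≤ x ∧ x ≤ M - L)
    (hs : l₁.sum + l₂.sum = M + L)
    (hp : (l₁ ++ l₂).Pairwise (fun x y => L < x → L < y → x + y ≤ M)) (hb : l₁.sum < L) :
    (cav [] [] (l₁ ++ (M - L) :: l₂) + cav [] [] (l₁ ++ (M - L) :: l₂).reverse) / 2 ≤
      5 / 4 * M := by
  have hrev := (cub hAVB hCUB M L l₁ l₂ hs).2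
  obtain ⟨hmono, hlin, hconst, hid, hperm, hrefl, hbig⟩ := hAVB
  have hx1 : ∀ x ∈ l₁, 0 ≤ x := fun x h => (hx x (List.mem_append_left _ h)).1
  have hx2 : ∀ x ∈ l₂, 0 ≤ x ∧ x ≤ M - L := fun x h => hx x (List.mem_append_right _ h)
  have hb0 : 0 ≤ l₁.sum := List.sum_nonneg hx1
  have hne : l₂ ≠ [] := by
    rintro rfl
    simp at hs
    linarith
  obtain ⟨τ, hτ, hmax⟩ := exists_max_entry l₂ hne
  have h1 := hCUM (l₁ ++ [M - L]) l₂ τ (hx2 τ hτ).1 (by
    intro x h
    rcases List.mem_append.1 h with h | h
    · exact hx1 x h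
    · rw [List.mem_singleton.1 h]
      linarith) (fun x h => ⟨(hx2 x h).1, hmax x h⟩) (by
    rw [List.sum_append, List.sum_singleton]
    linarith)
  rw [List.sum_append, List.sum_singleton] at h1
  have e1 : l₁ ++ [M - L] ++ l₂ = l₁ ++ (M - L) :: l₂ := by simp
  rw [e1] at h1
  -- the reversed list
  have h2 : av l₂ (fun y => min (M + |y - L|) (M + |y - M|)) ≤
      av l₂ (fun y => 1 * (1 * (M + (M - L) / 2) + (-1) * |y - (M + L) / 2|) +
        2 * (1 * max (L - y) 0 + 1 * max (y - M) 0)) := by
    apply hmono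
    intro y
    rcases le_total y L with h | h
    · have h3 : y ≤ (M + L) / 2 := by linarith
      have h4 : y ≤ M := by linarith
      rw [abs_of_nonpos (by linarith : y - (M + L) / 2 ≤ 0), max_eq_left (by linarith : 0 ≤ L - y),
        max_eq_right (by linarith : y - M ≤ 0), abs_of_nonpos (by linarith : y - L ≤ 0)]
      refine (min_le_left _ _).trans ?_
      linarith
    · rcases le_total y M with h' | h'
      · rw [max_eq_right (by linarith : L - y ≤ 0), max_eq_right (by linarith : y - M ≤ 0),
          abs_of_nonneg (by linarith : 0 ≤ y - L), abs_of_nonpos (by linarith : y - M ≤ 0)]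
        rcases le_total y ((M + L) / 2) with h3 | h3
        · rw [abs_of_nonpos (by linarith : y - (M + L) / 2 ≤ 0)]
          refine (min_le_left _ _).trans ?_
          linarith
        · rw [abs_of_nonneg (by linarith : 0 ≤ y - (M + L) / 2)]
          refine (min_le_right _ _).trans ?_
          linarith
      · rw [max_eq_right (by linarith : L - y ≤ 0), max_eq_left (by linarith : 0 ≤ y - M),
          abs_of_nonneg (by linarith : 0 ≤ y - M), abs_of_nonneg (by linarith : 0 ≤ y - (M + L) / 2)]
        refine (min_le_right _ _).trans ?_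
        linarith
  rw [hlin, hlin, hlin, hconst] at h2
  have h3 : τ / 2 ≤ av l₂ (fun y => |y - (M + L) / 2|) := hbig l₂ τ _ hτ
  have h4 : av l₂ (fun y => max (y - M) 0) = KK l₂ (L - l₁.sum) := by
    have h5 := hrefl l₂ (fun z => max ((L - l₁.sum) - z) 0)
    unfold KK
    rw [← h5]
    congr 1
    funext y
    congr 1
    linarith
  have h5 : av l₂ (fun y => max (L - y) 0) = KK l₂ L := rfl
  rw [h4, h5] at h2
  have h6 := hNIB M L l₁.sum l₂ hL hLM hb0 hb.le hx2 (by linarith)
    (List.pairwise_append.1 hp).2.1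
  linarith

end MIDaux

open MIDaux in
theorem t_MID : M_MID := by
  intro hAVB hNIA hNIB hCUB hCUM M L b l₁ l₂ hL hLM hb hx hs hp
  subst hb
  rcases lt_or_ge l₁.sum L with h1 | h1
  · exact two hAVB hNIB hCUB hCUM M L l₁ l₂ hL hLM hx hs hp h1
  rcases lt_or_ge l₂.sum L with h2 | h2
  · have h3 : (l₁ ++ (M - L) :: l₂).reverse = l₂.reverse ++ (M - L) :: l₁.reverse := by
      simp
    have h4 : l₂.reverse ++ l₁.reverse = (l₁ ++ l₂).reverse := by simp
    have h5 := two hAVB hNIB hCUB hCUM M L l₂.reverse l₁.reverse hL hLM (by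
      intro x h
      rw [h4, List.mem_reverse] at h
      exact hx x h) (by
      rw [List.sum_reverse, List.sum_reverse]
      linarith) (by
      rw [h4, List.pairwise_reverse]
      refine hp.imp ?_
      intro x y h h' h''
      have := h h'' h'
      linarith) (by
      rw [List.sum_reverse]
      exact h2)
    rw [← h3, List.reverse_reverse] at h5
    linarith
  · obtain ⟨h3, h4⟩ := cub hAVB hCUB M L l₁ l₂ hs
    have hN := hNIA M L l₁ l₂ hL hLM hx h1 h2 hs hp
    obtain ⟨hmono, hlin, hconst, hid, hperm, hrefl, hbig⟩ := hAVB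
    have key : ∀ l : List ℝ, av l (fun y => min (M + |y - L|) (M + |y - M|)) ≤
        (M - L) + l.sum / 2 + 2 * KK l L := by
      intro l
      have h5 : av l (fun y => min (M + |y - L|) (M + |y - M|)) ≤
          av l (fun y => 1 * (1 * (M - L) + 1 * y) + 2 * max (L - y) 0) := by
        apply hmono
        intro y
        refine (min_le_left _ _).trans ?_
        rcases le_total y L with h | h
        · rw [abs_of_nonpos (by linarith), max_eq_left (by linarith)]
          linarith
        · rw [abs_of_nonneg (by linarith), max_eq_right (by linarith)]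
          linarith
      rw [hlin, hlin, hconst, hid] at h5
      have h6 : av l (fun y => max (L - y) 0) = KK l L := rfl
      rw [h6] at h5
      linarith
    have h5 := key l₁
    have h6 := key l₂
    linarith

end Pool.Agent.SMA
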