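import Pool.Agent.SMA.Stmts

/-!
# Project SMA: module MON
-/

set_option autoImplicit false

namespace Pool.Agent.SMA

open Finset Pool.Agent.BSR

namespace MONaux

theorem sum_sub {l l' : List ℝ} (h : l.Sublist l') (h0 : ∀ x ∈ l', 0 ≤ x) : l.sum ≤ l'.sum := by
  induction h with
  | slnil => exact le_refl _
  | @cons l₁ l₂ a h ih =>
    have h1 := ih fun x hx => h0 x (List.mem_cons_of_mem a hx)
    have h2 := h0 a List.mem_cons_self
    rw [List.sum_cons]
    linarith
  | @cons_cons l₁ l₂ a h ih =>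
    have h1 := ih fun x hx => h0 x (List.mem_cons_of_mem a hx)
    rw [List.sum_cons, List.sum_cons]
    linarith

theorem mc_le (a₁ a₂ : List ℝ) : mc (a₁ ++ a₂) ≤ max a₁.sum a₂.sum := by
  have h1 : a₁.length < (a₁ ++ a₂).length + 1 := by
    rw [List.length_append]
    omega
  have h2 := ciInf_le (f := fun i : Fin ((a₁ ++ a₂).length + 1) =>
    max ((a₁ ++ a₂).take i).sum ((a₁ ++ a₂).drop i).sum) (Set.finite_range _).bddBelow
    ⟨a₁.length, h1⟩
  simpa [mc] using h2

theorem mc_mono {a b : List ℝ} (h : a.Sublist b) (h0 : ∀ x ∈ b, 0 ≤ x) : mc a ≤ mc b := by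
  unfold mc
  refine le_ciInf fun i => ?_
  change mc a ≤ _
  have h1 : a.Sublist (b.take i ++ b.drop i) := by
    rw [List.take_append_drop]
    exact h
  obtain ⟨a₁, a₂, rfl, h2, h3⟩ := List.sublist_append_iff.1 h1
  refine (mc_le a₁ a₂).trans (max_le_max ?_ ?_)
  · exact sum_sub h2 fun x hx => h0 x (List.mem_of_mem_take hx)
  · exact sum_sub h3 fun x hx => h0 x (List.mem_of_mem_drop hx)

theorem cav_mono {l l' : List ℝ} (h : l.Sublist l') :
    ∀ P Q P' Q' : List ℝ, P.Sublist P' → Q.Sublist Q' → (∀ x ∈ P', 0 ≤ x) → (∀ x ∈ Q', 0 ≤ x) →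
      (∀ x ∈ l', 0 ≤ x) → cav P Q l ≤ cav P' Q' l' := by
  induction h with
  | slnil =>
    intro P Q P' Q' hP hQ hP0 hQ0 _
    unfold cav
    refine mc_mono (hP.append hQ) fun x hx => ?_
    rcases List.mem_append.1 hx with h1 | h1
    · exact hP0 x h1
    · exact hQ0 x h1
  | @cons l₁ l₂ a h ih =>
    intro P Q P' Q' hP hQ hP0 hQ0 hl
    have ha := hl a List.mem_cons_self
    have hl' : ∀ x ∈ l₂, 0 ≤ x := fun x hx => hl x (List.mem_cons_of_mem a hx)
    have hPa : ∀ x ∈ P' ++ [a], 0 ≤ x := by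
      intro x hx
      rcases List.mem_append.1 hx with h1 | h1
      · exact hP0 x h1
      · rw [List.mem_singleton.1 h1]
        exact ha
    have hQa : ∀ x ∈ a :: Q', 0 ≤ x := by
      intro x hx
      rcases List.mem_cons.1 hx with h1 | h1
      · rw [h1]
        exact ha
      · exact hQ0 x h1
    have h1 := ih P Q (P' ++ [a]) Q' (hP.trans (List.sublist_append_left P' [a])) hQ hPa hQ0 hl'
    have h2 := ih P Q P' (a :: Q') hP (hQ.trans (List.sublist_cons_self a Q')) hP0 hQa hl'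
    rw [show cav P' Q' (a :: l₂) = (cav (P' ++ [a]) Q' l₂ + cav P' (a :: Q') l₂) / 2 from rfl]
    linarith
  | @cons_cons l₁ l₂ a h ih =>
    intro P Q P' Q' hP hQ hP0 hQ0 hl
    have ha := hl a List.mem_cons_self
    have hl' : ∀ x ∈ l₂, 0 ≤ x := fun x hx => hl x (List.mem_cons_of_mem a hx)
    have hPa : ∀ x ∈ P' ++ [a], 0 ≤ x := by
      intro x hx
      rcases List.mem_append.1 hx with h1 | h1
      · exact hP0 x h1
      · rw [List.mem_singleton.1 h1]
        exact ha
    have hQa : ∀ x ∈ a :: Q', 0 ≤ x := by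
      intro x hx
      rcases List.mem_cons.1 hx with h1 | h1
      · rw [h1]
        exact ha
      · exact hQ0 x h1
    have h1 := ih (P ++ [a]) Q (P' ++ [a]) Q' (hP.append (List.Sublist.refl [a])) hQ hPa hQ0 hl'
    have h2 := ih P (a :: Q) P' (a :: Q') hP (hQ.cons_cons a) hP0 hQa hl'
    rw [show cav P' Q' (a :: l₂) = (cav (P' ++ [a]) Q' l₂ + cav P' (a :: Q') l₂) / 2 from rfl,
      show cav P Q (a :: l₁) = (cav (P ++ [a]) Q l₁ + cav P (a :: Q) l₁) / 2 from rfl]
    linarith

end MONaux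

theorem t_MON : S_MON := by
  intro l l' h h0
  exact MONaux.cav_mono h [] [] [] [] (List.Sublist.refl _) (List.Sublist.refl _)
    (fun x hx => absurd hx List.not_mem_nil) (fun x hx => absurd hx List.not_mem_nil) h0

end Pool.Agent.SMA
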