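import Pool.Agent.SMA.Stmts

/-!
# Small linear arrays: module NIA
-/

set_option autoImplicit false

namespace Pool.Agent.SMA

open Finset Pool.Agent.BSR

namespace NIAaux

/-- the bounds for one list -/
theorem core (hB : S_BIG) (M L : ℝ) (l : List ℝ) (hL : 0 ≤ L) (hx : ∀ x ∈ l, 0 ≤ x ∧ x ≤ M - L)
    (hsum : L ≤ l.sum) :
    KK l L ≤ L / 2 ∧ (KK l L ≤ L / 4 ∨ KK l L ≤ (3 * L - l.sum) / 4 ∨
      ∃ a ∈ l, L < a ∧ KK l L ≤ (2 * L - (l.sum - a)) / 4) := by
  classical
  set g : List ℝ := l.filter (fun x => decide (L < x)) with hgdef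
  set s : List ℝ := l.filter (fun x => !decide (L < x)) with hsdef
  have hp : l.Perm (g ++ s) := (List.filter_append_perm (fun x => decide (L < x)) l).symm
  have hgs : g.sum + s.sum = l.sum := by
    rw [hp.sum_eq, List.sum_append]
  have hg1 : ∀ x ∈ g, x ∈ l ∧ L < x := by
    intro x hxg
    rw [hgdef, List.mem_filter] at hxg
    exact ⟨hxg.1, by simpa using hxg.2⟩
  have hg2 : ∀ x ∈ g, L ≤ x := fun x hxg => (hg1 x hxg).2.le
  have hs : ∀ x ∈ s, 0 ≤ x ∧ x ≤ L := by
    intro x hxs
    rw [hsdef, List.mem_filter] at hxs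
    exact ⟨(hx x hxs.1).1, by simpa using hxs.2⟩
  have hs0 : 0 ≤ s.sum := List.sum_nonneg (fun x hxs => (hs x hxs).1)
  rcases hn : g with _ | ⟨a, _ | ⟨b, g'⟩⟩
  · -- no big entry
    rw [hn] at hp hgs hg2
    simp only [List.sum_nil, zero_add] at hgs
    have h1 := hB L L 0 1 l [] s hp hg2 hs hL le_rfl le_rfl hL (by push_cast; linarith)
    have e1 : max (L - 0) 0 = L := by rw [sub_zero]; exact max_eq_left hL
    rw [e1] at h1
    norm_num at h1
    refine ⟨by linarith, ?_⟩
    rcases le_total s.sum (2 * L) with h2 | h2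
    · right; left
      have h3 := hB L L (s.sum - L) 1 l [] s hp hg2 hs hL le_rfl (by linarith) (by linarith)
        (by push_cast; linarith)
      have e2 : max (L - (s.sum - L)) 0 = L - (s.sum - L) := max_eq_left (by linarith)
      rw [e2] at h3
      norm_num at h3
      linarith
    · left
      have h3 := hB L L 0 2 l [] s hp hg2 hs hL le_rfl le_rfl hL (by push_cast; linarith)
      rw [e1] at h3
      norm_num at h3
      linarith
  · -- one big entry
    rw [hn] at hp hgs hg1 hg2
    simp only [List.sum_cons, List.sum_nil, add_zero] at hgs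
    obtain ⟨ha1, ha2⟩ := hg1 a (by simp)
    have h1 := hB L L 0 0 l [a] s hp hg2 hs hL le_rfl le_rfl hL (by simpa using hs0)
    have e1 : max (L - 0) 0 = L := by rw [sub_zero]; exact max_eq_left hL
    rw [e1] at h1
    norm_num at h1
    refine ⟨by linarith, ?_⟩
    rcases le_total s.sum L with h2 | h2
    · right; right
      refine ⟨a, ha1, ha2, ?_⟩
      have h3 := hB L L s.sum 0 l [a] s hp hg2 hs hL le_rfl hs0 h2 (by simp)
      have e2 : max (L - s.sum) 0 = L - s.sum := max_eq_left (by linarith)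
      rw [e2] at h3
      norm_num at h3
      linarith
    · left
      have h3 := hB L L 0 1 l [a] s hp hg2 hs hL le_rfl le_rfl hL (by push_cast; linarith)
      rw [e1] at h3
      norm_num at h3
      linarith
  · -- two big entries
    rw [hn] at hp hg2
    have h1 := hB L L 0 0 l (a :: b :: g') s hp hg2 hs hL le_rfl le_rfl hL (by simpa using hs0)
    have e1 : max (L - 0) 0 = L := by rw [sub_zero]; exact max_eq_left hL
    rw [e1] at h1
    have h4 : (4 : ℝ) ≤ 2 ^ (0 + (a :: b :: g').length) := by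
      have : (2 : ℝ) ^ 2 ≤ 2 ^ (0 + (a :: b :: g').length) := by
        apply pow_le_pow_right₀ (by norm_num)
        simp only [List.length_cons]
        omega
      linarith [this, show (2 : ℝ) ^ 2 = 4 by norm_num]
    have h3 : (L + L) / 2 / 2 ^ (0 + (a :: b :: g').length) ≤ (L + L) / 2 / 4 :=
      div_le_div_of_nonneg_left (by linarith) (by norm_num) h4
    exact ⟨by linarith, Or.inl (by linarith)⟩

end NIAaux

theorem t_NIA : M_NIA := by
  intro _ hB M L l₁ l₂ hL hLM hx h1 h2 hsum hpw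
  have hx1 : ∀ x ∈ l₁, 0 ≤ x ∧ x ≤ M - L := fun x h => hx x (List.mem_append_left _ h)
  have hx2 : ∀ x ∈ l₂, 0 ≤ x ∧ x ≤ M - L := fun x h => hx x (List.mem_append_right _ h)
  obtain ⟨p1, q1⟩ := NIAaux.core hB M L l₁ hL hx1 h1
  obtain ⟨p2, q2⟩ := NIAaux.core hB M L l₂ hL hx2 h2
  rcases q1 with q1 | q1 | ⟨a, ha, hLa, q1⟩
  · linarith
  · rcases q2 with q2 | q2 | ⟨b, hb, hLb, q2⟩
    · linarith
    · linarith
    · have := (hx2 b hb).2
      linarith
  · rcases q2 with q2 | q2 | ⟨b, hb, hLb, q2⟩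
    · linarith
    · have := (hx1 a ha).2
      linarith
    · have hab : a + b ≤ M := (List.pairwise_append.1 hpw).2.2 a ha b hb hLa hLb
      linarith

end Pool.Agent.SMA
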