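import Pool.Agent.SMA.Stmts

set_option autoImplicit false

namespace Pool.Agent.SMA

open Finset Pool.Agent.BSR

namespace NIBaux

/-- the two bounds with the factor `1/8`, if `S_BIG` applies with `r = L - β` and `2 ^ (k + n) = 4` -/
theorem two (hB : S_BIG) (L β : ℝ) (l g s : List ℝ) (k : ℕ) (hL : 0 ≤ L) (hβ : 0 ≤ β) (hβL : β ≤ L)
    (hp : l.Perm (g ++ s)) (hg : ∀ x ∈ g, L ≤ x) (hs : ∀ x ∈ s, 0 ≤ x ∧ x ≤ L)
    (hk : k + g.length = 2) (hσ : (k : ℝ) * L + (L - β) ≤ s.sum) :
    KK l L + KK l (L - β) ≤ L / 4 := by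
  have h1 := hB L L (L - β) k l g s hp hg hs hL le_rfl (by linarith) (by linarith) hσ
  have h2 := hB L (L - β) (L - β) k l g s hp hg hs (by linarith) (by linarith) (by linarith)
    (by linarith) hσ
  rw [hk] at h1 h2
  have e1 : max (L - (L - β)) 0 = β := by
    rw [show L - (L - β) = β by ring]
    exact max_eq_left hβ
  have e2 : max (L - β - (L - β)) 0 = 0 := by
    rw [sub_self]
    exact max_self 0
  rw [e1] at h1
  rw [e2] at h2
  have h3 : ((2 : ℝ) ^ 2) = 4 := by norm_num
  rw [h3] at h1 h2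
  linarith

end NIBaux

theorem t_NIB : M_NIB := by
  intro _ hB M L β l hL hLM hβ hβL hx hsum hpw
  classical
  set g : List ℝ := l.filter (fun x => decide (L < x)) with hgdef
  set s : List ℝ := l.filter (fun x => !decide (L < x)) with hsdef
  have hp : l.Perm (g ++ s) := (List.filter_append_perm (fun x => decide (L < x)) l).symm
  have hgs : g.sum + s.sum = l.sum := by
    rw [hp.sum_eq, List.sum_append]
  have hg1 : ∀ x ∈ g, L < x ∧ x ≤ M - L := by
    intro x hxg
    rw [hgdef, List.mem_filter] at hxg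
    exact ⟨by simpa using hxg.2, (hx x hxg.1).2⟩
  have hg2 : ∀ x ∈ g, L ≤ x := fun x hxg => (hg1 x hxg).1.le
  have hs : ∀ x ∈ s, 0 ≤ x ∧ x ≤ L := by
    intro x hxs
    rw [hsdef, List.mem_filter] at hxs
    exact ⟨(hx x hxs.1).1, by simpa using hxs.2⟩
  have hgp : g.Pairwise (fun x y => L < x → L < y → x + y ≤ M) :=
    hpw.sublist List.filter_sublist
  have hs0 : 0 ≤ s.sum := List.sum_nonneg (fun x hxs => (hs x hxs).1)
  rcases hn : g with _ | ⟨a, _ | ⟨b, _ | ⟨c, g'⟩⟩⟩
  · -- no big entry
    rw [hn] at hp hgs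
    refine NIBaux.two hB L β l [] s 2 hL hβ hβL hp (by simp) hs (by simp) ?_
    simp only [List.sum_nil, zero_add] at hgs
    push_cast
    linarith
  · rw [hn] at hp hgs hg1 hg2
    refine NIBaux.two hB L β l [a] s 1 hL hβ hβL hp hg2 hs (by simp) ?_
    have ha := hg1 a (by simp)
    simp only [List.sum_cons, List.sum_nil, add_zero] at hgs
    push_cast
    linarith [ha.2]
  · rw [hn] at hp hgs hg1 hg2 hgp
    refine NIBaux.two hB L β l [a, b] s 0 hL hβ hβL hp hg2 hs (by simp) ?_
    have ha := hg1 a (by simp)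
    have hb := hg1 b (by simp)
    have hab : a + b ≤ M := by
      have := List.rel_of_pairwise_cons hgp (show b ∈ [b] by simp)
      exact this ha.1 hb.1
    simp only [List.sum_cons, List.sum_nil, add_zero] at hgs
    push_cast
    linarith
  · rw [hn] at hp hg2
    have h1 := hB L L 0 0 l (a :: b :: c :: g') s hp hg2 hs hL le_rfl le_rfl hL (by simpa using hs0)
    have h2 := hB L (L - β) 0 0 l (a :: b :: c :: g') s hp hg2 hs (by linarith) (by linarith)
      le_rfl hL (by simpa using hs0)
    have e1 : max (L - 0) 0 = L := by rw [sub_zero]; exact max_eq_left hL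
    have e2 : max (L - β - 0) 0 = L - β := by rw [sub_zero]; exact max_eq_left (by linarith)
    rw [e1] at h1
    rw [e2] at h2
    have h8 : (8 : ℝ) ≤ 2 ^ (0 + (a :: b :: c :: g').length) := by
      have : (2 : ℝ) ^ 3 ≤ 2 ^ (0 + (a :: b :: c :: g').length) := by
        apply pow_le_pow_right₀ (by norm_num)
        simp only [List.length_cons]
        omega
      linarith [this, show (2 : ℝ) ^ 3 = 8 by norm_num]
    have h3 : (L + L) / 2 / 2 ^ (0 + (a :: b :: c :: g').length) ≤ (L + L) / 2 / 8 :=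
      div_le_div_of_nonneg_left (by linarith) (by norm_num) h8
    have h4 : (L - β + (L - β)) / 2 / 2 ^ (0 + (a :: b :: c :: g').length) ≤
        (L - β + (L - β)) / 2 / 8 :=
      div_le_div_of_nonneg_left (by linarith) (by norm_num) h8
    linarith

end Pool.Agent.SMA
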