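import Pool.Agent.SMA.Stmts

/-!
# Module OP2: lower bound of OPT for two machines
-/

set_option autoImplicit false

namespace Pool.Agent.SMA

open Finset Pool.Agent.BSR

namespace OP2aux

/-- the wide jobs and the narrow jobs with `P`, one after the other -/
theorem sum_eq {n : ℕ} (s : Fin n → ℕ) (t : Fin n → ℝ) (P : Fin n → Prop) [DecidablePred P] :
    ∑ j with (s j ≠ 1 ∨ P j), t j = wd s t + ∑ j with P j, nt s t j := by
  rw [Finset.sum_filter, Finset.sum_filter, wd, ← Finset.sum_add_distrib]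
  refine Finset.sum_congr rfl fun j _ => ?_
  unfold nt
  by_cases h1 : s j = 1 <;> by_cases h2 : P j <;> simp [h1, h2]

theorem key (hS : S_SEQ) {n : ℕ} {s : Fin n → ℕ} {t : Fin n → ℝ} (hs : ∀ j, 1 ≤ s j ∧ s j ≤ 2)
    (ht : ∀ j, 0 ≤ t j) {σ : Schedule n} (h : Feasible 2 s t σ) :
    ∃ S : Finset (Fin n), wd s t + ∑ j ∈ S, nt s t j ≤ makespan t σ ∧
      wd s t + ∑ j ∈ Sᶜ, nt s t j ≤ makespan t σ := by
  refine ⟨univ.filter fun j => σ.pos j = 0, ?_, ?_⟩
  · rw [← sum_eq]
    refine hS.1 2 n s t σ ht h _ ?_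
    intro i hi j hj _
    rw [Finset.mem_filter] at hi hj
    have h1 := h.2.1 i
    have h2 := h.2.1 j
    have h3 := hs i
    have h4 := hs j
    rcases hi.2 with hi | hi <;> rcases hj.2 with hj | hj <;> constructor <;> omega
  · rw [Finset.compl_filter, ← sum_eq]
    refine hS.1 2 n s t σ ht h _ ?_
    intro i hi j hj _
    rw [Finset.mem_filter] at hi hj
    have h1 := h.2.1 i
    have h2 := h.2.1 j
    have h3 := hs i
    have h4 := hs j
    rcases hi.2 with hi | hi <;> rcases hj.2 with hj | hj <;> constructor <;> omega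

end OP2aux

theorem t_OP2 : M_OP2 := by
  intro hS n s t hs ht
  obtain ⟨S, _, hmin⟩ := exists_min_image (univ : Finset (Finset (Fin n)))
    (fun S => max (wd s t + ∑ j ∈ S, nt s t j) (wd s t + ∑ j ∈ Sᶜ, nt s t j)) univ_nonempty
  have h0 : max (wd s t + ∑ j ∈ S, nt s t j) (wd s t + ∑ j ∈ Sᶜ, nt s t j) ≤ OPT 2 s t := by
    unfold OPT
    refine le_csInf (AREaux.nonempty (fun j => (hs j).2) ht) ?_
    rintro x ⟨σ, hσ, rfl⟩
    obtain ⟨T, h1, h2⟩ := OP2aux.key hS hs ht hσ
    exact (hmin T (mem_univ T)).trans (max_le h1 h2)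
  exact ⟨S, (le_max_left _ _).trans h0, (le_max_right _ _).trans h0⟩

end Pool.Agent.SMA
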