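import Pool.Agent.SMA.Stmts

/-!
# Small linear arrays: the order as a rank function (module RNK)
-/

set_option autoImplicit false

namespace Pool.Agent.SMA

open Finset Pool.Agent.BSR

namespace RNKaux

theorem arr_nodup {n : ℕ} (φ : Fin n → Bool) : (arr φ).Nodup := by
  unfold arr
  rw [List.nodup_append']
  refine ⟨(List.nodup_finRange n).filter _, ?_, ?_⟩
  · rw [List.nodup_reverse]
    exact (List.nodup_finRange n).filter _
  · intro a ha hb
    rw [List.mem_filter] at ha
    rw [List.mem_reverse, List.mem_filter] at hb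
    have h1 := ha.2
    have h2 := hb.2
    simp only [Bool.not_eq_true'] at h2
    rw [h2] at h1
    exact Bool.noConfusion h1

theorem mem_arr {n : ℕ} (φ : Fin n → Bool) (j : Fin n) : j ∈ arr φ := by
  unfold arr
  rw [List.mem_append, List.mem_reverse, List.mem_filter, List.mem_filter]
  rcases h : φ j with _ | _
  · right
    exact ⟨List.mem_finRange j, by simp⟩
  · left
    exact ⟨List.mem_finRange j, rfl⟩

theorem take_sum {n : ℕ} (l : List (Fin n)) (hl : l.Nodup) (hm : ∀ j, j ∈ l) (x : Fin n → ℝ) (i : ℕ) :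
    ∑ j with l.idxOf j < i, x j = ((l.map x).take i).sum := by
  rw [← List.map_take, ← List.sum_toFinset x (hl.sublist (List.take_sublist i l))]
  apply Finset.sum_congr _ fun _ _ => rfl
  ext j
  rw [Finset.mem_filter, List.mem_toFinset, List.mem_take_iff_idxOf_lt (hm j)]
  simp

theorem drop_sum {n : ℕ} (l : List (Fin n)) (hl : l.Nodup) (hm : ∀ j, j ∈ l) (x : Fin n → ℝ) (i : ℕ) :
    ∑ j with i ≤ l.idxOf j, x j = ((l.map x).drop i).sum := by
  have h1 := take_sum l hl hm x i
  have h2 : (∑ j with l.idxOf j < i, x j) + ∑ j with ¬ l.idxOf j < i, x j = ∑ j, x j :=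
    Finset.sum_filter_add_sum_filter_not _ _ _
  have h3 : ∑ j, x j = (l.map x).sum := by
    rw [← List.sum_toFinset x hl]
    apply Finset.sum_congr _ fun _ _ => rfl
    ext j
    simp [hm j]
  have h4 : ((l.map x).take i).sum + ((l.map x).drop i).sum = (l.map x).sum := by
    rw [← List.sum_append, List.take_append_drop]
  have h5 : ∑ j with ¬ l.idxOf j < i, x j = ∑ j with i ≤ l.idxOf j, x j := by
    apply Finset.sum_congr _ fun _ _ => rfl
    ext j
    simp
  rw [h5] at h2
  linarith

end RNKaux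

/-- **RNK**. -/
theorem t_RNK : S_RNK := by
  intro n φ
  refine ⟨fun j => (arr φ).idxOf j, ?_, fun x i => ⟨?_, ?_⟩⟩
  · intro a b hab
    exact (List.idxOf_inj (RNKaux.mem_arr φ a)).1 hab
  · exact RNKaux.take_sum _ (RNKaux.arr_nodup φ) (RNKaux.mem_arr φ) x i
  · exact RNKaux.drop_sum _ (RNKaux.arr_nodup φ) (RNKaux.mem_arr φ) x i

end Pool.Agent.SMA
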