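import Pool.Agent.SMA.Stmts

/-!
# Module SEQ: conflicting jobs run one after the other
-/

set_option autoImplicit false

namespace Pool.Agent.SMA

open Finset Pool.Agent.BSR

namespace SEQaux

open MeasureTheory in
theorem sum_le {m n : ℕ} {s : Fin n → ℕ} {t : Fin n → ℝ} (ht : ∀ j, 0 ≤ t j) {σ : Schedule n}
    (h : Feasible m s t σ) (J : Finset (Fin n))
    (hJ : ∀ i ∈ J, ∀ j ∈ J, i ≠ j → σ.pos i < σ.pos j + s j ∧ σ.pos j < σ.pos i + s i) :
    ∑ j ∈ J, t j ≤ makespan t σ := by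
  have hX0 : 0 ≤ makespan t σ := AREaux.make_nonneg ht h.1
  have hd : (J : Set (Fin n)).PairwiseDisjoint
      fun j => Set.Ico (σ.start j) (σ.start j + t j) := by
    intro i hi j hj hij
    show Disjoint (Set.Ico (σ.start i) (σ.start i + t i)) (Set.Ico (σ.start j) (σ.start j + t j))
    rw [Set.disjoint_left]
    intro a ha hb
    have h1 := hJ i hi j hj hij
    rcases h.2.2 i j hij a ha.1 ha.2 hb.1 hb.2 with h' | h' <;> omega
  have h1 : ∑ j ∈ J, (volume (Set.Ico (σ.start j) (σ.start j + t j)) : ENNReal) =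
      volume (⋃ j ∈ J, Set.Ico (σ.start j) (σ.start j + t j)) :=
    (measure_biUnion_finset hd fun j _ => measurableSet_Ico).symm
  have h2 : (⋃ j ∈ J, Set.Ico (σ.start j) (σ.start j + t j)) ⊆ Set.Icc 0 (makespan t σ) := by
    intro τ hτ
    rw [Set.mem_iUnion₂] at hτ
    obtain ⟨j, _, hj⟩ := hτ
    exact ⟨(h.1 j).trans hj.1, hj.2.le.trans (AREaux.le_make t σ j)⟩
  have h3 : ∑ j ∈ J, (volume (Set.Ico (σ.start j) (σ.start j + t j)) : ENNReal) ≤
      volume (Set.Icc 0 (makespan t σ)) := by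
    rw [h1]
    exact measure_mono h2
  have h4 : ∑ j ∈ J, (volume (Set.Ico (σ.start j) (σ.start j + t j)) : ENNReal) =
      ENNReal.ofReal (∑ j ∈ J, t j) := by
    rw [ENNReal.ofReal_sum_of_nonneg fun j _ => ht j]
    refine Finset.sum_congr rfl fun j _ => ?_
    rw [Real.volume_Ico]
    congr 1
    ring
  rw [h4, Real.volume_Icc, sub_zero, ENNReal.ofReal_le_ofReal_iff hX0] at h3
  exact h3

end SEQaux

theorem t_SEQ : S_SEQ := by
  refine ⟨fun m n s t σ ht h J hJ => SEQaux.sum_le ht h J hJ, ?_⟩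
  intro m n s t hs ht J hJ
  unfold OPT
  refine le_csInf (AREaux.nonempty hs ht) ?_
  rintro x ⟨σ, hσ, rfl⟩
  refine SEQaux.sum_le ht hσ J fun i hi j hj hij => ?_
  have h1 := hJ i hi j hj hij
  have h2 := hσ.2.1 i
  have h3 := hσ.2.1 j
  constructor <;> omega

end Pool.Agent.SMA
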