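import Pool.Agent.SMA.AVB
import Pool.Agent.SMA.LGB
import Pool.Agent.SMA.BIG
import Pool.Agent.SMA.NIA
import Pool.Agent.SMA.NIB
import Pool.Agent.SMA.CUB
import Pool.Agent.SMA.CUM
import Pool.Agent.SMA.MON
import Pool.Agent.SMA.MID
import Pool.Agent.SMA.COR
import Pool.Agent.SMA.COF
import Pool.Agent.SMA.AVG
import Pool.Agent.SMA.RNK
import Pool.Agent.SMA.DQF
import Pool.Agent.SMA.DQN
import Pool.Agent.SMA.SEQ
import Pool.Agent.SMA.OP2
import Pool.Agent.SMA.UP2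

/-!
# Two machines, the randomised algorithm: assembly
-/

set_option autoImplicit false

namespace Pool.Agent.SMA

open Finset Pool.Agent.BSR

theorem a_BIG : S_BIG := t_BIG t_AVB t_LGB
theorem a_NIA : S_NIA := t_NIA t_AVB a_BIG
theorem a_NIB : S_NIB := t_NIB t_AVB a_BIG
theorem a_CUB : S_CUB := t_CUB t_AVB
theorem a_MID : S_MID := t_MID t_AVB a_NIA a_NIB a_CUB t_CUM
theorem a_COR : S_COR := t_COR t_MON t_CUM a_MID
theorem a_COF : S_COF := t_COF a_COR
theorem a_OP2 : S_OP2 := t_OP2 t_SEQ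
theorem a_UP2 : S_UP2 := t_UP2 a_COF t_AVG t_RNK t_DQF t_DQN a_OP2

end Pool.Agent.SMA
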