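import Pool.Agent.SMA.StmtsB

/-!
# Non-clairvoyant scheduling on small linear arrays: module SGS
-/

set_option autoImplicit false

namespace Pool.Agent.SMA

open Finset Pool.Agent.BSR

namespace SGSaux

theorem mem_segs (c : List ℕ) : ∀ p : ℕ, ∀ x ∈ segs p c,
    p ≤ x.1 ∧ x.1 + x.2 ≤ p + c.sum ∧ x.2 ∈ c := by
  induction c with
  | nil =>
    intro p x hx
    simp [segs] at hx
  | cons w l ih =>
    intro p x hx
    rw [segs, List.mem_cons] at hx
    rw [List.sum_cons]
    rcases hx with rfl | hx
    · refine ⟨le_rfl, ?_, List.mem_cons_self⟩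
      change p + w ≤ p + (w + l.sum)
      omega
    · obtain ⟨h1, h2, h3⟩ := ih (p + w) x hx
      exact ⟨by omega, by omega, List.mem_cons_of_mem w h3⟩

theorem sorted (c : List ℕ) : ∀ p : ℕ, (segs p c).Pairwise fun x y => x.1 + x.2 ≤ y.1 := by
  induction c with
  | nil =>
    intro p
    simp [segs]
  | cons w l ih =>
    intro p
    rw [segs, List.pairwise_cons]
    refine ⟨fun y hy => ?_, ih (p + w)⟩
    exact (mem_segs l (p + w) y hy).1

theorem wsum_segs (c : List ℕ) : ∀ p : ℕ, wsum (segs p c) = c.sum := by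
  induction c with
  | nil =>
    intro p
    simp [segs, wsum]
  | cons w l ih =>
    intro p
    rw [segs, wsum, ih, List.sum_cons]

theorem cnt_segs (c : List ℕ) : ∀ (p : ℕ) (w : ℕ), w ∈ c → 1 ≤ cnt w (segs p c) := by
  induction c with
  | nil =>
    intro p w hw
    simp at hw
  | cons v l ih =>
    intro p w hw
    rw [segs, cnt]
    rcases List.mem_cons.1 hw with h | h
    · subst h
      simp
    · have := ih (p + v) w h
      omega

theorem cnt_sublist (w : ℕ) (F' F : List (ℕ × ℕ)) (h : F'.Sublist F) : cnt w F' ≤ cnt w F := by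
  induction h with
  | slnil => exact le_rfl
  | cons a _ ih =>
    rw [cnt]
    omega
  | cons_cons a _ ih =>
    rw [cnt, cnt]
    omega

theorem cnt_mul (w : ℕ) (F : List (ℕ × ℕ)) : cnt w F * w ≤ wsum F := by
  induction F with
  | nil => simp [cnt, wsum]
  | cons x F ih =>
    rw [cnt, wsum, add_mul]
    by_cases h : x.2 = w
    · rw [if_pos h, h]
      omega
    · rw [if_neg h]
      omega

end SGSaux

open SGSaux in
theorem t_SGS : S_SGS :=
  ⟨fun p c => sorted c p, fun p c => mem_segs c p, fun p c => wsum_segs c p,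
    fun p c w hw => cnt_segs c p w hw, cnt_sublist, cnt_mul⟩

end Pool.Agent.SMA
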