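import Pool.Agent.SMA.Stmts

/-!
# UP2: the randomised algorithm for two machines is 5/4-competitive
-/

set_option autoImplicit false

namespace Pool.Agent.SMA

open Finset Pool.Agent.BSR

namespace UP2aux

/-- the reversed list -/
lemma ofFn_rev {n : ℕ} (x : Fin n → ℝ) :
    List.ofFn (x ∘ Fin.rev) = (List.ofFn x).reverse := by
  apply List.ext_getElem
  · simp
  · intro i h1 h2
    rw [List.getElem_reverse, List.getElem_ofFn, List.getElem_ofFn]
    simp only [Function.comp_apply]
    congr 1
    apply Fin.ext
    simp only [Fin.val_rev, List.length_ofFn]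
    omega

/-- sums over the reversed index set -/
lemma sum_rev {n : ℕ} (P : Fin n → Prop) [DecidablePred P] (x : Fin n → ℝ) :
    ∑ j with P (Fin.rev j), x j = ∑ j with P j, x (Fin.rev j) := by
  rw [Finset.sum_filter, Finset.sum_filter]
  refine Fintype.sum_equiv Fin.revPerm _ _ fun j => ?_
  simp only [Fin.revPerm_apply, Fin.rev_rev]

/-- the makespan is at most the smallest value of a cut -/
lemma make_le {n : ℕ} {s ρ : Fin n → ℕ} {t : Fin n → ℝ} (l : List ℝ)
    (h : ∀ k : ℕ, makespan t (dq s ρ t) ≤ wd s t + max (l.take k).sum (l.drop k).sum) :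
    makespan t (dq s ρ t) ≤ wd s t + mc l := by
  have h1 : makespan t (dq s ρ t) - wd s t ≤ mc l := by
    unfold mc
    apply le_ciInf
    intro i
    have := h i
    linarith
  linarith

end UP2aux

open UP2aux

theorem t_UP2 : M_UP2 := by
  intro hCOF hAVG hRNK hDQF hDQN hOP2 n s hs
  classical
  choose ρ hρi hρ using hRNK n
  -- the ranks
  set r : Bool × (Fin n → Bool) → Fin n → ℕ :=
    fun ω j => if ω.1 then ρ ω.2 (Fin.rev j) else ρ ω.2 j with hr
  have hinj : ∀ ω, Function.Injective (r ω) := by
    rintro ⟨b, φ⟩ i j hij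
    cases b with
    | false => exact hρi φ hij
    | true =>
      have h1 : Fin.rev i = Fin.rev j := hρi φ hij
      exact Fin.rev_injective h1
  let A : Bool × (Fin n → Bool) → Rule 2 s := fun ω =>
    { run := fun t => dq s (r ω) t
      feasible := fun t ht => (hDQF n s (r ω) t hs (hinj ω) ht).1
      nonanticipating := hDQN n s (r ω) hs (hinj ω) }
  refine ⟨Bool × (Fin n → Bool), inferInstance, fun _ => 1 / 2 ^ (n + 1), A,
    fun _ => by positivity, ?_, ?_⟩
  · rw [Finset.sum_const, Finset.card_univ, Fintype.card_prod, Fintype.card_bool,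
      Fintype.card_fun, Fintype.card_bool, Fintype.card_fin, nsmul_eq_mul]
    push_cast
    field_simp
    ring
  · intro t ht
    have hx0 : ∀ j, 0 ≤ nt s t j := by
      intro j
      unfold nt
      split_ifs
      · exact ht j
      · exact le_rfl
    have hw0 : 0 ≤ wd s t := by
      unfold wd
      apply Finset.sum_nonneg
      intro j _
      split_ifs
      · exact le_rfl
      · exact ht j
    obtain ⟨S, hS1, hS2⟩ := hOP2 n s t hs ht
    have hF : ∀ φ, makespan t (dq s (r (false, φ)) t) ≤ wd s t + mc ((arr φ).map (nt s t)) := by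
      intro φ
      apply make_le
      intro k
      have h1 := (hDQF n s (r (false, φ)) t hs (hinj _) ht).2 k
      have h2 := hρ φ (nt s t) k
      rw [← h2.1, ← h2.2]
      exact h1
    have hT : ∀ φ, makespan t (dq s (r (true, φ)) t) ≤
        wd s t + mc ((arr φ).map (nt s t ∘ Fin.rev)) := by
      intro φ
      apply make_le
      intro k
      have h1 := (hDQF n s (r (true, φ)) t hs (hinj _) ht).2 k
      have h2 := hρ φ (nt s t ∘ Fin.rev) k
      rw [← h2.1, ← h2.2]
      have h3 := sum_rev (fun j => ρ φ j < k) (nt s t)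
      have h4 := sum_rev (fun j => k ≤ ρ φ j) (nt s t)
      have e1 : ∑ j with r (true, φ) j < k, nt s t j = ∑ j with ρ φ (Fin.rev j) < k, nt s t j := rfl
      have e2 : ∑ j with k ≤ r (true, φ) j, nt s t j = ∑ j with k ≤ ρ φ (Fin.rev j), nt s t j := rfl
      rw [e1, e2, h3, h4] at h1
      exact h1
    have hsum : ∑ ω : Bool × (Fin n → Bool), 1 / (2 : ℝ) ^ (n + 1) * makespan t ((A ω).run t) =
        1 / (2 : ℝ) ^ (n + 1) * (∑ φ, makespan t (dq s (r (true, φ)) t) +
          ∑ φ, makespan t (dq s (r (false, φ)) t)) := by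
      rw [← Finset.mul_sum, Fintype.sum_prod_type, Fintype.sum_bool]
    rw [hsum]
    have hc := hCOF n (nt s t) S (OPT 2 s t - wd s t) hx0 (by linarith) (by linarith)
    have b1 : ∑ φ, makespan t (dq s (r (true, φ)) t) ≤
        2 ^ n * wd s t + 2 ^ n * cav [] [] (List.ofFn (nt s t)).reverse := by
      calc ∑ φ, makespan t (dq s (r (true, φ)) t)
          ≤ ∑ φ, (wd s t + mc ((arr φ).map (nt s t ∘ Fin.rev))) :=
            Finset.sum_le_sum fun φ _ => hT φ
        _ = _ := by
          rw [Finset.sum_add_distrib, hAVG n (nt s t ∘ Fin.rev), ofFn_rev, Finset.sum_const,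
            Finset.card_univ, Fintype.card_fun, Fintype.card_bool, Fintype.card_fin, nsmul_eq_mul]
          push_cast
          ring
    have b2 : ∑ φ, makespan t (dq s (r (false, φ)) t) ≤
        2 ^ n * wd s t + 2 ^ n * cav [] [] (List.ofFn (nt s t)) := by
      calc ∑ φ, makespan t (dq s (r (false, φ)) t)
          ≤ ∑ φ, (wd s t + mc ((arr φ).map (nt s t))) :=
            Finset.sum_le_sum fun φ _ => hF φ
        _ = _ := by
          rw [Finset.sum_add_distrib, hAVG n (nt s t), Finset.sum_const,
            Finset.card_univ, Fintype.card_fun, Fintype.card_bool, Fintype.card_fin, nsmul_eq_mul]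
          push_cast
          ring
    have hp : (0 : ℝ) < 2 ^ n := by positivity
    calc 1 / (2 : ℝ) ^ (n + 1) * (∑ φ, makespan t (dq s (r (true, φ)) t) +
          ∑ φ, makespan t (dq s (r (false, φ)) t))
        ≤ 1 / (2 : ℝ) ^ (n + 1) * ((2 ^ n * wd s t + 2 ^ n * cav [] [] (List.ofFn (nt s t)).reverse)
          + (2 ^ n * wd s t + 2 ^ n * cav [] [] (List.ofFn (nt s t)))) :=
          mul_le_mul_of_nonneg_left (add_le_add b1 b2) (by positivity)
      _ = wd s t + (cav [] [] (List.ofFn (nt s t)) +
          cav [] [] (List.ofFn (nt s t)).reverse) / 2 := by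
          rw [pow_succ]
          field_simp
          ring
      _ ≤ wd s t + 5 / 4 * (OPT 2 s t - wd s t) := by linarith
      _ ≤ 5 / 4 * OPT 2 s t := by linarith

end Pool.Agent.SMA
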